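import Pool.Agent.H631R3.SolveC

/-! Square integral bounds for the homotopy operators. -/

open scoped ContDiff Topology ENNReal NNReal
open MeasureTheory Set Filter

noncomputable section

namespace Pool.Agent.H631R3

lemma norm_frame (j : Fin 4) : ‖frame j‖ = 1 := by
  fin_cases j <;> simp [frame]

lemma norm_le_one_of_mem {τ s : ℝ} (hs1 : s ≤ 1) {x : ℂ × ℂ} (hx : x ∈ Om τ s) : ‖x‖ ≤ 1 := by
  have h2 : ‖x.2‖ ≤ 1 := (hx.1.2.trans_le hs1).le
  have h1 : ‖x.1‖ ≤ 1 := by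
    have := hx.2
    nlinarith [norm_nonneg x.2]
  exact max_le h1 h2

section general

variable {P : Type} [NormedAddCommGroup P] [NormedSpace ℝ P] {K : Set P} (hK : IsCompact K)

include hK

omit [NormedSpace ℝ P] in
lemma exists_bound_fam {A : P → (ℂ × ℂ) →L[ℝ] (ℂ × ℂ)} (hA : Continuous A) :
    ∃ C : ℝ, 0 ≤ C ∧ ∀ p ∈ K, ‖A p‖ ≤ C := by
  obtain ⟨C, hC⟩ := hK.exists_bound_of_continuousOn hA.continuousOn
  exact ⟨max C 0, le_max_right _ _, fun p hp => (hC p hp).trans (le_max_left _ _)⟩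

lemma kern_bound {A A' : P → (ℂ × ℂ) →L[ℝ] (ℂ × ℂ)} (hA : Continuous A) (hA' : Continuous A')
    (n : ℕ) : ∃ C : ℝ≥0, ∀ (f : ℂ × ℂ → Form (n + 1)) (I : Idx n), ∀ p ∈ K, ∀ x : ℂ × ℂ, ‖x‖ ≤ 1 →
      ‖kern f (A p) (A' p) I x‖ₑ ≤ C * ‖f (A p x)‖ₑ := by
  obtain ⟨C1, h10, h1⟩ := exists_bound_fam hK hA
  obtain ⟨C2, h20, h2⟩ := exists_bound_fam hK hA'
  set C := max C1 C2 with hC
  have hC0 : 0 ≤ C := h10.trans (le_max_left _ _)
  refine ⟨⟨C ^ (n + 1), by positivity⟩, fun f I p hp x hx => ?_⟩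
  have h3 : ‖kern f (A p) (A' p) I x‖ ≤ ‖f (A p x)‖ * C ^ (n + 1) := by
    unfold kern
    refine ((f (A p x)).le_opNorm _).trans ?_
    refine mul_le_mul_of_nonneg_left ?_ (norm_nonneg _)
    have h4 : ∀ i : Fin (n + 1), ‖(Fin.cons (A' p x) (fun j => A p (frame (I j))) :
        Fin (n + 1) → ℂ × ℂ) i‖ ≤ C := by
      intro i
      refine Fin.cases ?_ (fun j => ?_) i
      · rw [Fin.cons_zero]
        calc ‖A' p x‖ ≤ ‖A' p‖ * ‖x‖ := (A' p).le_opNorm x
          _ ≤ C2 * 1 := mul_le_mul (h2 p hp) hx (norm_nonneg _) h20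
          _ ≤ C := by rw [mul_one]; exact le_max_right _ _
      · rw [Fin.cons_succ]
        calc ‖A p (frame (I j))‖ ≤ ‖A p‖ * ‖frame (I j)‖ := (A p).le_opNorm _
          _ ≤ C1 := by rw [norm_frame, mul_one]; exact h1 p hp
          _ ≤ C := le_max_left _ _
    calc ∏ i : Fin (n + 1), ‖(Fin.cons (A' p x) (fun j => A p (frame (I j))) :
        Fin (n + 1) → ℂ × ℂ) i‖ ≤ ∏ _i : Fin (n + 1), C :=
          Finset.prod_le_prod (fun i _ => norm_nonneg _) (fun i _ => h4 i)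
      _ = C ^ (n + 1) := by simp
  rw [← ofReal_norm, ← ofReal_norm]
  calc ENNReal.ofReal ‖kern f (A p) (A' p) I x‖ ≤ ENNReal.ofReal (‖f (A p x)‖ * C ^ (n + 1)) :=
        ENNReal.ofReal_le_ofReal h3
    _ = _ := by
        rw [mul_comm, ENNReal.ofReal_mul (by positivity)]
        congr 1
        exact ENNReal.ofReal_eq_coe_nnreal _

lemma Kop_bound [MeasurableSpace P] [BorelSpace P] {μ : Measure P} [IsFiniteMeasureOnCompacts μ]
    {A A' : P → (ℂ × ℂ) →L[ℝ] (ℂ × ℂ)} (hA : Continuous A) (hA' : Continuous A')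
    (n : ℕ) : ∃ C : ℝ≥0, ∀ (f : ℂ × ℂ → Form (n + 1)), Continuous f → ∀ (I : Idx n)
      (x : ℂ × ℂ), ‖x‖ ≤ 1 →
      ‖Kop μ K A A' f I x‖ₑ ^ 2 ≤ C * ∫⁻ p in K, ‖f (A p x)‖ₑ ^ 2 ∂μ := by
  obtain ⟨C, hC⟩ := kern_bound hK hA hA' n
  have hμ : μ K ≠ ⊤ := hK.measure_lt_top.ne
  refine ⟨(μ K).toNNReal * C ^ 2, fun f hf I x hx => ?_⟩
  have hm : Continuous (fun p => ‖f (A p x)‖ₑ) := by
    have : Continuous fun p => f (A p x) := hf.comp (hA.clm_apply continuous_const)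
    exact this.enorm
  have hms : MeasurableSet K := hK.isClosed.measurableSet
  calc ‖Kop μ K A A' f I x‖ₑ ^ 2 ≤ (∫⁻ p in K, C * ‖f (A p x)‖ₑ ∂μ) ^ 2 := by
        gcongr
        refine (enorm_integral_le_lintegral_enorm _).trans ?_
        exact setLIntegral_mono' hms fun p hp => hC f I p hp x hx
    _ ≤ (μ.restrict K) univ * ∫⁻ p in K, (C * ‖f (A p x)‖ₑ) ^ 2 ∂μ :=
        cs_lintegral_one _ (hm.measurable.const_mul _).aemeasurable
    _ = _ := by
        rw [Measure.restrict_apply_univ]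
        simp_rw [mul_pow]
        rw [lintegral_const_mul _ (hm.measurable.pow_const 2), ENNReal.coe_mul,
          ENNReal.coe_toNNReal hμ, ENNReal.coe_pow, mul_assoc]

end general

lemma volume_BB_ne_top : volume BB ≠ ⊤ := isCompact_BB.measure_lt_top.ne

section ints

variable {τ s : ℝ} (hτ : 0 ≤ τ) (hs : 1 / 2 < s) (hs1 : s ≤ 1) {F : ℂ × ℂ → ℝ≥0∞}
  (hF : Measurable F)

lemma rot_Om (σ : ℝ) (τ s : ℝ) {F : ℂ × ℂ → ℝ≥0∞} (hF : Measurable F) :
    ∫⁻ z in Om τ s, F (ex σ * z.1, ex σ * z.2) = ∫⁻ z in Om τ s, F z := by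
  have hmO : MeasurableSet (Om τ s) := (isOpen_Om τ s).measurableSet
  have hex : ex σ ≠ 0 := norm_pos_iff.1 (by rw [norm_ex]; norm_num)
  set G := (Om τ s).indicator F with hG
  have hGm : Measurable G := hF.indicator hmO
  have h1 : ∀ z : ℂ × ℂ, (Om τ s).indicator (fun z : ℂ × ℂ => F (ex σ * z.1, ex σ * z.2)) z
      = G (ex σ * z.1, ex σ * z.2) := by
    intro z
    have hiff : (ex σ * z.1, ex σ * z.2) ∈ Om τ s ↔ z ∈ Om τ s := by
      simp only [Om, Ann, mem_ofPred_eq, norm_mul, norm_ex, one_mul]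
    by_cases hz : z ∈ Om τ s
    · rw [indicator_of_mem hz, hG, indicator_of_mem (hiff.2 hz)]
    · rw [indicator_of_notMem hz, hG, indicator_of_notMem (fun h => hz (hiff.1 h))]
  have hone : ∀ g : ℂ → ℝ≥0∞, Measurable g → ∫⁻ v, g (ex σ * v) = ∫⁻ v, g v := by
    intro g hg
    have := lintegral_affine hg hex 0
    simpa [norm_ex] using this
  rw [← lintegral_indicator hmO, ← lintegral_indicator hmO]
  simp_rw [h1]
  rw [Measure.volume_eq_prod, lintegral_prod_symm _ (by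
    apply Measurable.aemeasurable
    exact hGm.comp (by fun_prop)), lintegral_prod_symm _ hGm.aemeasurable]
  have h2 : ∀ w : ℂ, ∫⁻ v : ℂ, G (ex σ * v, ex σ * w) = ∫⁻ v : ℂ, G (v, ex σ * w) := fun w =>
    hone (fun v => G (v, ex σ * w)) (hGm.comp (by fun_prop))
  simp_rw [h2]
  exact hone (fun w => ∫⁻ v : ℂ, G (v, w)) hGm.lintegral_prod_left'

include hτ hs hs1 hF

lemma int_A1 : ∫⁻ x in Om τ s, ∫⁻ p in Icc (0 : ℝ) 1 ×ˢ BB, F (A1 p x)
    ≤ (4 * NNReal.pi + 4 * volume BB) * ∫⁻ z in Om τ s, F z := by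
  have hcA : Continuous fun q : (ℂ × ℂ) × (ℝ × ℂ) => A1 q.2 q.1 :=
    (contDiff_A1.continuous.comp continuous_snd).clm_apply continuous_fst
  have hjm : Measurable fun q : (ℂ × ℂ) × (ℝ × ℂ) => F (A1 q.2 q.1) := hF.comp hcA.measurable
  have h1 : ∀ x : ℂ × ℂ, ∫⁻ p in Icc (0 : ℝ) 1 ×ˢ BB, F (A1 p x)
      = ∫⁻ t in Icc (0 : ℝ) 1, ∫⁻ y in BB, F (A1 (t, y) x) := by
    intro x
    rw [Measure.volume_eq_prod, ← Measure.prod_restrict]
    exact lintegral_prod _ (hjm.comp (by fun_prop : Measurable fun p : ℝ × ℂ => (x, p))).aemeasurable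
  simp_rw [h1]
  have hjm2 : Measurable fun q : (ℂ × ℂ) × ℝ => ∫⁻ y in BB, F (A1 (q.2, y) q.1) := by
    have hc3 : Continuous fun q : ((ℂ × ℂ) × ℝ) × ℂ => A1 (q.1.2, q.2) q.1.1 :=
      (contDiff_A1.continuous.comp (by fun_prop :
        Continuous fun q : ((ℂ × ℂ) × ℝ) × ℂ => (q.1.2, q.2))).clm_apply (by fun_prop)
    exact (hF.comp hc3.measurable).lintegral_prod_right'
  rw [lintegral_lintegral_swap (f := fun x t => ∫⁻ y in BB, F (A1 (t, y) x)) hjm2.aemeasurable]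
  calc ∫⁻ t in Icc (0 : ℝ) 1, ∫⁻ x in Om τ s, ∫⁻ y in BB, F (A1 (t, y) x)
      ≤ ∫⁻ t in Icc (0 : ℝ) 1, (4 * NNReal.pi + 4 * volume BB) * ∫⁻ z in Om τ s, F z := by
        refine setLIntegral_mono' measurableSet_Icc fun t ht => ?_
        have hA : ∀ (x : ℂ × ℂ) (y : ℂ), A1 (t, y) x
            = ((t : ℂ) * x.1 + ((1 - t : ℝ) : ℂ) * y * x.2, x.2) := by
          intro x y; simp [A1, M_apply]
        simp_rw [hA]
        rcases le_total t (1 / 2) with h | h
        · refine (bound_Y hs hs1 hτ hF ht.1 h).trans ?_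
          gcongr
          exact le_self_add
        · have hsw : Measurable fun q : (ℂ × ℂ) × ℂ =>
              F ((t : ℂ) * q.1.1 + ((1 - t : ℝ) : ℂ) * q.2 * q.1.2, q.1.2) :=
            hF.comp (by fun_prop)
          rw [lintegral_lintegral_swap (f := fun (x : ℂ × ℂ) (y : ℂ) =>
            F ((t : ℂ) * x.1 + ((1 - t : ℝ) : ℂ) * y * x.2, x.2)) hsw.aemeasurable]
          calc _ ≤ ∫⁻ y in BB, 4 * ∫⁻ z in Om τ s, F z :=
                setLIntegral_mono' isCompact_BB.isClosed.measurableSet fun y hy =>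
                  bound_X hs hτ hF h ht.2 hy
            _ = (4 * volume BB) * ∫⁻ z in Om τ s, F z := by
                rw [lintegral_const, Measure.restrict_apply_univ]; ring
            _ ≤ _ := by
                gcongr
                exact le_add_self
    _ = _ := by
        rw [lintegral_const, Measure.restrict_apply_univ, Real.volume_Icc]
        simp

lemma int_A2 : ∫⁻ x in Om τ s, ∫⁻ p in KR, F (A2 p x)
    ≤ (ENNReal.ofReal (2 * Real.pi) * (4 * NNReal.pi)) * ∫⁻ z in Om τ s, F z := by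
  have hcA : Continuous fun q : (ℂ × ℂ) × (ℝ × ℂ) => A2 q.2 q.1 :=
    (contDiff_A2.continuous.comp continuous_snd).clm_apply continuous_fst
  have hjm : Measurable fun q : (ℂ × ℂ) × (ℝ × ℂ) => F (A2 q.2 q.1) := hF.comp hcA.measurable
  have h1 : ∀ x : ℂ × ℂ, ∫⁻ p in KR, F (A2 p x)
      = ∫⁻ t in Icc 0 (2 * Real.pi), ∫⁻ y in BB, F (A2 (t, y) x) := by
    intro x
    rw [Measure.volume_eq_prod, ← Measure.prod_restrict]
    exact lintegral_prod _ (hjm.comp (by fun_prop : Measurable fun p : ℝ × ℂ => (x, p))).aemeasurable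
  simp_rw [h1]
  have hjm2 : Measurable fun q : (ℂ × ℂ) × ℝ => ∫⁻ y in BB, F (A2 (q.2, y) q.1) := by
    have hc3 : Continuous fun q : ((ℂ × ℂ) × ℝ) × ℂ => A2 (q.1.2, q.2) q.1.1 :=
      (contDiff_A2.continuous.comp (by fun_prop :
        Continuous fun q : ((ℂ × ℂ) × ℝ) × ℂ => (q.1.2, q.2))).clm_apply (by fun_prop)
    exact (hF.comp hc3.measurable).lintegral_prod_right'
  rw [lintegral_lintegral_swap (f := fun x t => ∫⁻ y in BB, F (A2 (t, y) x)) hjm2.aemeasurable]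
  calc ∫⁻ t in Icc 0 (2 * Real.pi), ∫⁻ x in Om τ s, ∫⁻ y in BB, F (A2 (t, y) x)
      ≤ ∫⁻ t in Icc 0 (2 * Real.pi), 4 * NNReal.pi * ∫⁻ z in Om τ s, F z := by
        refine setLIntegral_mono' measurableSet_Icc fun t ht => ?_
        have hFt : Measurable fun z : ℂ × ℂ => F (ex t * z.1, ex t * z.2) :=
          hF.comp (by fun_prop)
        have hb := bound_Y hs hs1 hτ hFt le_rfl (by norm_num : (0 : ℝ) ≤ 1 / 2)
        rw [rot_Om t τ s hF] at hb
        refine le_trans (le_of_eq ?_) hb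
        refine lintegral_congr fun x => lintegral_congr fun y => ?_
        congr 1
        simp only [A2, M_apply, Complex.ofReal_zero, zero_mul, zero_add, sub_zero,
          Complex.ofReal_one, one_mul, mul_assoc]
    _ = _ := by
        rw [lintegral_const, Measure.restrict_apply_univ, Real.volume_Icc, sub_zero]
        ring

omit hs1 in
lemma int_A2_base : ∫⁻ w in Ann τ s, ENNReal.ofReal (‖w‖ ^ 2) * ∫⁻ p in KR, F (A2 p (0, w))
    ≤ (ENNReal.ofReal (2 * Real.pi) * 4) * ∫⁻ z in Om τ s, F z := by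
  have hcA : Continuous fun q : ℂ × (ℝ × ℂ) => A2 q.2 ((0 : ℂ), q.1) :=
    (contDiff_A2.continuous.comp continuous_snd).clm_apply (continuous_const.prodMk continuous_fst)
  have hjm : Measurable fun q : ℂ × (ℝ × ℂ) => F (A2 q.2 (0, q.1)) := hF.comp hcA.measurable
  have h1 : ∀ x : ℂ, ENNReal.ofReal (‖x‖ ^ 2) * ∫⁻ p in KR, F (A2 p (0, x))
      = ∫⁻ t in Icc 0 (2 * Real.pi), ENNReal.ofReal (‖x‖ ^ 2) *
        ∫⁻ y in BB, F (A2 (t, y) (0, x)) := by
    intro x
    rw [Measure.volume_eq_prod, ← Measure.prod_restrict]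
    have hc0 : Continuous fun q : ℝ × ℂ => A2 q ((0 : ℂ), x) :=
      contDiff_A2.continuous.clm_apply continuous_const
    have hc1 : Measurable fun q : ℝ × ℂ => F (A2 q (0, x)) := hF.comp hc0.measurable
    rw [lintegral_prod _ hc1.aemeasurable, lintegral_const_mul]
    exact hc1.lintegral_prod_right'
  simp_rw [h1]
  have hjm2 : Measurable fun q : ℂ × ℝ => ENNReal.ofReal (‖q.1‖ ^ 2) *
      ∫⁻ y in BB, F (A2 (q.2, y) (0, q.1)) := by
    have hc3 : Continuous fun q : (ℂ × ℝ) × ℂ => A2 (q.1.2, q.2) ((0 : ℂ), q.1.1) :=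
      (contDiff_A2.continuous.comp (by fun_prop :
        Continuous fun q : (ℂ × ℝ) × ℂ => (q.1.2, q.2))).clm_apply (by fun_prop)
    exact (by fun_prop : Measurable fun q : ℂ × ℝ => ENNReal.ofReal (‖q.1‖ ^ 2)).mul
      (hF.comp hc3.measurable).lintegral_prod_right'
  rw [lintegral_lintegral_swap (f := fun x t => ENNReal.ofReal (‖x‖ ^ 2) *
      ∫⁻ y in BB, F (A2 (t, y) (0, x))) hjm2.aemeasurable]
  calc ∫⁻ t in Icc 0 (2 * Real.pi), ∫⁻ x in Ann τ s, ENNReal.ofReal (‖x‖ ^ 2) *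
      ∫⁻ y in BB, F (A2 (t, y) (0, x))
      ≤ ∫⁻ t in Icc 0 (2 * Real.pi), 4 * ∫⁻ z in Om τ s, F z := by
        refine setLIntegral_mono' measurableSet_Icc fun t ht => ?_
        have hFt : Measurable fun z : ℂ × ℂ => F (ex t * z.1, ex t * z.2) :=
          hF.comp (by fun_prop)
        have hb := bound_Y0 hs hτ hFt
        rw [rot_Om t τ s hF] at hb
        refine le_trans (le_of_eq ?_) hb
        refine lintegral_congr fun x => ?_
        congr 1
        refine lintegral_congr fun y => ?_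
        congr 1
        simp only [A2, M_apply, mul_zero, zero_add, mul_assoc]
    _ = _ := by
        rw [lintegral_const, Measure.restrict_apply_univ, Real.volume_Icc, sub_zero]
        ring

end ints

end Pool.Agent.H631R3
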