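import Pool.Agent.H631R3.Cut

/-! The weak de Rham complex: closedness, composition, kernel in degree zero. -/

open scoped ContDiff Topology ENNReal NNReal
open MeasureTheory Set Filter

noncomputable section

namespace Pool.Agent.H631R3

/-- the graph of the weak maximal extension as a submodule -/
def GW (n : ℕ) : Submodule ℝ (L2 n × L2 (n + 1)) where
  carrier := {p | WeakD p.1 p.2}
  add_mem' := by
    intro p q hp hq
    simp only [mem_ofPred_eq, weakD_iff] at hp hq ⊢
    intro ψ
    rw [Prod.fst_add, Prod.snd_add, inner_add_left, inner_add_left, hp ψ, hq ψ]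
  zero_mem' := by
    simp only [mem_ofPred_eq, weakD_iff]
    intro ψ
    simp
  smul_mem' := by
    intro c p hp
    simp only [mem_ofPred_eq, weakD_iff] at hp ⊢
    intro ψ
    rw [Prod.smul_fst, Prod.smul_snd, inner_smul_left, inner_smul_left, hp ψ]

lemma mem_GW {n : ℕ} {f : L2 n} {g : L2 (n + 1)} : (f, g) ∈ GW n ↔ WeakD f g := Iff.rfl

lemma isClosed_GW (n : ℕ) : IsClosed (GW n : Set (L2 n × L2 (n + 1))) := by
  have : (GW n : Set (L2 n × L2 (n + 1))) = ⋂ ψ : TM (n + 1),
      {p | inner ℝ p.2 (TL (n + 1) ψ) = inner ℝ p.1 (TL n (codM n ψ))} := by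
    ext p
    rw [mem_iInter]
    exact weakD_iff p.1 p.2
  rw [this]
  exact isClosed_iInter fun ψ => isClosed_eq (by fun_prop) (by fun_prop)

lemma dT_dT {n : ℕ} {u : Idx n → ℂ × ℂ → ℝ} (hu : ∀ I, ContDiff ℝ ∞ (u I)) (L : Idx (n + 2))
    (x : ℂ × ℂ) : dT (dT u) L x = 0 := by
  have hF : ContDiff ℝ ∞ (fun x => toForm fun I => u I x) := by
    rw [← contDiffOn_univ]
    exact contDiff_toForm fun I => (hu I).contDiffOn
  have h1 : extDeriv (fun x => toForm fun I => u I x) = fun x => toForm fun J => dT u J x := by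
    funext y
    apply form_ext
    intro J
    rw [extDeriv_toForm (fun I => (hu I).differentiable (by simp) y) J, toForm_frame]
  have h2 := extDeriv_extDeriv hF (by
    rw [minSmoothness_of_isRCLikeNormedField]
    exact WithTop.coe_le_coe.2 (le_top : (2 : ℕ∞) ≤ ⊤))
  rw [h1] at h2
  have hd : ∀ J, DifferentiableAt ℝ (dT u J) x := by
    intro J
    have : ContDiff ℝ ∞ (dT u J) := by
      unfold dT
      exact ContDiff.sum fun i _ => contDiff_const.mul
        (((hu _).fderiv_right (m := ∞) (by simp)).clm_apply contDiff_const)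
    exact this.differentiable (by simp) x
  rw [← extDeriv_toForm (u := dT u) hd L, h2]
  rfl

lemma contDiff_dT {n : ℕ} {u : Idx n → ℂ × ℂ → ℝ} (hu : ∀ I, ContDiff ℝ ∞ (u I))
    (J : Idx (n + 1)) : ContDiff ℝ ∞ (dT u J) := by
  unfold dT
  exact ContDiff.sum fun i _ => contDiff_const.mul
    (((hu _).fderiv_right (m := ∞) (by simp)).clm_apply contDiff_const)

lemma cod_cod {n : ℕ} (ψ : TM (n + 2)) : TL n (codM n (codM (n + 1) ψ)) = 0 := by
  set φ := codM n (codM (n + 1) ψ) with hφ
  rw [← inner_self_eq_zero (𝕜 := ℝ), inner_TL]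
  have h1 : ∑ I, ∫ z in Hartogs, (TL n φ) z I * φ.1 I z = ∑ I, ∫ z, φ.1 I z * φ.1 I z := by
    refine Finset.sum_congr rfl fun I _ => ?_
    have h2 : ∫ z in Hartogs, (TL n φ) z I * φ.1 I z = ∫ z in Hartogs, φ.1 I z * φ.1 I z := by
      refine integral_congr_ae ?_
      filter_upwards [TL_coe φ] with z hz
      rw [hz, tup_apply]
    rw [h2, setIntegral_eq_integral_of_forall_compl_eq_zero]
    intro x hx
    have : φ.1 I x = 0 := by
      by_contra h
      exact hx ((φ.2 I).2.2 (subset_tsupport _ h))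
    rw [this, mul_zero]
  rw [h1]
  have hφc : ∀ I, ContDiff ℝ ∞ (φ.1 I) := fun I => (φ.2 I).1
  have h3 := ibp isOpen_univ (u := φ.1) (fun I => (hφc I).contDiffOn)
    (ψ := (codM (n + 1) ψ).1) (fun J => ⟨((codM (n + 1) ψ).2 J).1, ((codM (n + 1) ψ).2 J).2.1,
      subset_univ _⟩)
  have h4 := ibp isOpen_univ (u := dT φ.1) (fun I => (contDiff_dT hφc I).contDiffOn)
    (ψ := ψ.1) (fun J => ⟨(ψ.2 J).1, (ψ.2 J).2.1, subset_univ _⟩)
  have h5 : ∑ I, ∫ z, φ.1 I z * φ.1 I z = ∑ I, ∫ x, φ.1 I x * codT (codM (n + 1) ψ).1 I x := rfl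
  rw [h5, ← h3]
  have h6 : ∑ J, ∫ x, dT φ.1 J x * (codM (n + 1) ψ).1 J x
      = ∑ I, ∫ x, dT φ.1 I x * codT ψ.1 I x := rfl
  rw [h6, ← h4]
  apply Finset.sum_eq_zero
  intro L _
  simp_rw [dT_dT hφc, zero_mul, integral_zero]

lemma weakD_comp {n : ℕ} {f : L2 n} {g : L2 (n + 1)} (h : WeakD f g) : WeakD g 0 := by
  rw [weakD_iff] at h ⊢
  intro ψ
  rw [inner_zero_left, h, cod_cod, inner_zero_right]

lemma weakD_test {u : L2 0} {v : L2 1} (h : WeakD u v) : inner ℝ v (TL 1 psi8) = 0 := by
  rw [(weakD_iff u v).1 h psi8, codM_psi8, map_zero, inner_zero_right]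

/-- the unique multi-index of length zero -/
def idx0 : Idx 0 := ⟨⟨fun i => i.elim0, fun i => i.elim0⟩, fun {i} => i.elim0⟩

lemma idx0_unique (I : Idx 0) : I = idx0 := by ext i; exact i.elim0

lemma clm_eq_zero_of_frame {L : (ℂ × ℂ) →L[ℝ] ℝ} (h : ∀ j, L (frame j) = 0) : L = 0 := by
  have hlin : L.toLinearMap = 0 := by
    apply frameBasis.ext
    intro j
    rw [frameBasis_apply]
    exact h j
  ext v <;> exact congrArg (fun L : (ℂ × ℂ) →ₗ[ℝ] ℝ => L _) hlin

lemma fderiv_eq_zero_of_dT {u : Idx 0 → ℂ × ℂ → ℝ} {x : ℂ × ℂ} (h : ∀ J, dT u J x = 0) (I : Idx 0) :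
    fderiv ℝ (u I) x = 0 := by
  apply clm_eq_zero_of_frame
  intro j
  have := h (idxOne.symm j)
  rw [dT_zero, idx0_unique (face _ 0)] at this
  rw [idx0_unique I]
  exact this

lemma const_test {f : L2 0} (hf : WeakD f 0) (ψ : TM 0) (hψ : ∫ x, ψ.1 idx0 x = 0) :
    inner ℝ f (TL 0 ψ) = 0 := by
  obtain ⟨τ, s, h1, h2, h3, h4, h5, h6⟩ := supp_exhaust ψ
  have h7 := tendsto_pair f ψ
  refine tendsto_nhds_unique h7 (tendsto_const_nhds.congr' ?_)
  filter_upwards [h6] with m hm
  symm
  apply Finset.sum_eq_zero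
  intro I _
  rw [idx0_unique I]
  have hcd : ContDiff ℝ ∞ (mol (bseq m) (ext0 f idx0)) :=
    contDiff_mol (bseq m) (integrable_ext0 f idx0).locallyIntegrable
  obtain ⟨c, hc⟩ : ∃ c : ℝ, ∀ x ∈ Om τ s, mol (bseq m) (ext0 f idx0) x = c := by
    refine (isOpen_Om τ s).exists_is_const_of_fderiv_eq_zero (isPreconnected_Om h1.le)
      (hcd.differentiable (by simp)).differentiableOn ?_
    intro x hx
    refine fderiv_eq_zero_of_dT (u := fun I => mol (bseq m) (ext0 f I)) (fun J => ?_) idx0
    have h8 := mform_closed (bseq m) hf (hm x hx)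
    have h9 : extDeriv (mform (bseq m) f) x (frame ∘ J) = dT (fun I => mol (bseq m) (ext0 f I)) J x :=
      extDeriv_toForm (u := fun I => mol (bseq m) (ext0 f I)) (fun I =>
        (contDiff_mol (bseq m) (integrable_ext0 f I).locallyIntegrable).differentiable (by simp) x) J
    rw [← h9, h8]
    rfl
  have h10 : ∀ x, mol (bseq m) (ext0 f idx0) x * ψ.1 idx0 x = c * ψ.1 idx0 x := by
    intro x
    by_cases hx : x ∈ Om τ s
    · rw [hc x hx]
    · have : ψ.1 idx0 x = 0 := by
        by_contra h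
        exact hx (h5 idx0 (subset_tsupport _ h))
      rw [this, mul_zero, mul_zero]
  simp_rw [h10]
  rw [integral_const_mul, hψ, mul_zero]

lemma ker_zero {f : L2 0} (hf : WeakD f 0) : ∃ c : ℝ, ∀ᵐ z ∂μT, f z idx0 = c := by
  have h8 : (0 : ℝ) < 8 := by norm_num
  have htest : IsTest Hartogs (fun x => chi 8 x * 1) := isTest_chi_mul h8 contDiffOn_const
  simp only [mul_one] at htest
  have hpos : 0 < ∫ x, chi 8 x := by
    refine htest.1.continuous.integral_pos_of_hasCompactSupport_nonneg_nonzero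
      (x := ((0 : ℂ), (1 / 2 : ℂ))) htest.2.1 (chi_nonneg 8) ?_
    have h1 : chi 8 ((0 : ℂ), (1 / 2 : ℂ)) = 1 := by
      unfold chi
      have e1 : ‖((0 : ℂ), (1 / 2 : ℂ)).2‖ = 1 / 2 := by simp
      have e2 : ‖((0 : ℂ), (1 / 2 : ℂ)).1‖ = 0 := by simp
      rw [e1, e2, Real.smoothTransition.one_of_one_le (by norm_num),
        Real.smoothTransition.one_of_one_le (by norm_num)]
      norm_num
    rw [h1]; norm_num
  set m : ℝ := ∫ x, chi 8 x with hm
  have hint : ∀ {φ : ℂ × ℂ → ℝ}, IsTest Hartogs φ → Integrable φ volume := fun h =>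
    h.1.continuous.integrable_of_hasCompactSupport h.2.1
  -- pairing as integral
  have hpair : ∀ (φ : ℂ × ℂ → ℝ) (h : IsTest Hartogs φ),
      inner ℝ f (TL 0 ⟨fun _ => φ, fun _ => h⟩) = ∫ x, ext0 f idx0 x * φ x := by
    intro φ h
    rw [inner_TL]
    have h1 : ∑ J : Idx 0, ∫ z in Hartogs, f z J * φ z = ∫ z in Hartogs, f z idx0 * φ z := by
      rw [Finset.sum_eq_single idx0]
      · intro J _ hJ; exact absurd (idx0_unique J) hJ
      · intro hJ; exact absurd (Finset.mem_univ _) hJ
    refine h1.trans ?_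
    rw [← integral_indicator measurableSet_Hartogs]
    congr 1
    funext t
    unfold ext0
    by_cases ht : t ∈ Hartogs
    · rw [indicator_of_mem ht, indicator_of_mem ht]
    · rw [indicator_of_notMem ht, indicator_of_notMem ht, zero_mul]
  set c : ℝ := (∫ x, ext0 f idx0 x * chi 8 x) / m with hc
  refine ⟨c, ?_⟩
  have key : ∀ φ : ℂ × ℂ → ℝ, IsTest Hartogs φ → ∫ x, ext0 f idx0 x * φ x = c * ∫ x, φ x := by
    intro φ hφ
    set a : ℝ := (∫ x, φ x) / m with ha
    have h1 : IsTest Hartogs (fun x => φ x + (-a) * chi 8 x) := hφ.add (htest.smul (-a))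
    have h2 := const_test hf ⟨fun _ x => φ x + (-a) * chi 8 x, fun _ => h1⟩ (by
      change ∫ x, (φ x + (-a) * chi 8 x) = 0
      rw [integral_add (hint hφ) ((hint htest).const_mul _), integral_const_mul, ← hm, ha,
        neg_mul, div_mul_cancel₀ _ hpos.ne', add_neg_cancel])
    rw [hpair _ h1] at h2
    have h3 : ∫ x, ext0 f idx0 x * (φ x + (-a) * chi 8 x)
        = (∫ x, ext0 f idx0 x * φ x) + (-a) * ∫ x, ext0 f idx0 x * chi 8 x := by
      rw [← integral_const_mul, ← integral_add]
      · congr 1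
        funext x; ring
      · obtain ⟨C', hC'⟩ := hφ.1.continuous.bounded_above_of_compact_support hφ.2.1
        exact (integrable_ext0 f idx0).mul_bdd (c := C') hφ.1.continuous.aestronglyMeasurable
          (Eventually.of_forall hC')
      · apply Integrable.const_mul
        obtain ⟨C', hC'⟩ := htest.1.continuous.bounded_above_of_compact_support htest.2.1
        exact (integrable_ext0 f idx0).mul_bdd (c := C') htest.1.continuous.aestronglyMeasurable
          (Eventually.of_forall hC')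
    rw [h3] at h2
    have h4 : ∫ x, ext0 f idx0 x * chi 8 x = c * m := by
      rw [hc, div_mul_cancel₀ _ hpos.ne']
    rw [h4, ha] at h2
    have h5 : -((∫ x, φ x) / m) * (c * m) = - (c * ∫ x, φ x) := by
      field_simp
    rw [h5] at h2
    linarith
  have hz := isOpen_Hartogs.ae_eq_zero_of_integral_contDiff_smul_eq_zero
    (f := fun x => ext0 f idx0 x - c) (μ := volume)
    (((integrable_ext0 f idx0).locallyIntegrable.sub (locallyIntegrable_const c)).locallyIntegrableOn _)
    (by
      intro g hg hgc hgs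
      have hgt : IsTest Hartogs g := ⟨hg, hgc, hgs⟩
      have h1 := key g hgt
      have h2 : ∫ x, g x • (ext0 f idx0 x - c) = (∫ x, ext0 f idx0 x * g x) - c * ∫ x, g x := by
        rw [← integral_const_mul, ← integral_sub]
        · congr 1
          funext x
          rw [smul_eq_mul]; ring
        · obtain ⟨C', hC'⟩ := hgt.1.continuous.bounded_above_of_compact_support hgt.2.1
          exact (integrable_ext0 f idx0).mul_bdd (c := C') hgt.1.continuous.aestronglyMeasurable
            (Eventually.of_forall hC')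
        · exact (hint hgt).const_mul c
      rw [h2, h1, sub_self])
  rw [ae_restrict_iff' measurableSet_Hartogs]
  filter_upwards [hz] with z hz' hzT
  have := hz' hzT
  unfold ext0 at this
  rw [indicator_of_mem hzT] at this
  linarith

end Pool.Agent.H631R3
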