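import Pool.Agent.H631R3.WeakB

/-! Cutoff functions and the harmonic form `dθ₂`. -/

open scoped ContDiff Topology ENNReal NNReal
open MeasureTheory Set Filter

noncomputable section

namespace Pool.Agent.H631R3

/-- radial cutoff functions on the Hartogs triangle -/
def chi (N : ℝ) (x : ℂ × ℂ) : ℝ :=
  Real.smoothTransition (N * (‖x.2‖ ^ 2 - ‖x.1‖ ^ 2) - 1) *
    Real.smoothTransition (N * (1 - ‖x.2‖ ^ 2) - 1)

lemma contDiff_chi (N : ℝ) : ContDiff ℝ ∞ (chi N) := by
  unfold chi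
  have h2 : ContDiff ℝ ∞ (fun x : ℂ × ℂ => ‖x.2‖ ^ 2) := (contDiff_norm_sq ℝ).comp contDiff_snd
  have h1 : ContDiff ℝ ∞ (fun x : ℂ × ℂ => ‖x.1‖ ^ 2) := (contDiff_norm_sq ℝ).comp contDiff_fst
  apply ContDiff.mul
  · exact (Real.smoothTransition.contDiff (n := (⊤ : ℕ∞))).comp
      ((contDiff_const.mul (h2.sub h1)).sub contDiff_const)
  · exact (Real.smoothTransition.contDiff (n := (⊤ : ℕ∞))).comp
      ((contDiff_const.mul (contDiff_const.sub h2)).sub contDiff_const)

/-- compact exhaustion carrying the cutoffs -/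
def KN (N : ℝ) : Set (ℂ × ℂ) := {x | 1 ≤ N * (‖x.2‖ ^ 2 - ‖x.1‖ ^ 2) ∧ 1 ≤ N * (1 - ‖x.2‖ ^ 2)}

lemma KN_sub {N : ℝ} (hN : 0 < N) : KN N ⊆ Hartogs := by
  rintro x ⟨h1, h2⟩
  have h3 : 0 < ‖x.2‖ ^ 2 - ‖x.1‖ ^ 2 := by
    by_contra h
    push Not at h
    nlinarith
  have h4 : 0 < 1 - ‖x.2‖ ^ 2 := by
    by_contra h
    push Not at h
    nlinarith
  constructor
  · exact lt_of_pow_lt_pow_left₀ 2 (norm_nonneg _) (by linarith)
  · exact lt_of_pow_lt_pow_left₀ 2 zero_le_one (by linarith)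

lemma isCompact_KN {N : ℝ} (hN : 0 < N) : IsCompact (KN N) := by
  have hcl : IsClosed (KN N) := by
    have h1 : IsClosed {x : ℂ × ℂ | 1 ≤ N * (‖x.2‖ ^ 2 - ‖x.1‖ ^ 2)} :=
      isClosed_le continuous_const (by fun_prop)
    have h2 : IsClosed {x : ℂ × ℂ | 1 ≤ N * (1 - ‖x.2‖ ^ 2)} :=
      isClosed_le continuous_const (by fun_prop)
    exact h1.inter h2
  refine (isCompact_closedBall (0 : ℂ × ℂ) 1).of_isClosed_subset hcl ?_
  intro x hx
  have hxT := KN_sub hN hx
  rw [← Om_zero_one] at hxT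
  simpa using norm_le_one_of_mem le_rfl hxT

lemma chi_supp (N : ℝ) : Function.support (chi N) ⊆ KN N := by
  intro x hx
  constructor
  · by_contra h
    push Not at h
    apply hx
    unfold chi
    rw [Real.smoothTransition.zero_of_nonpos (by linarith), zero_mul]
  · by_contra h
    push Not at h
    apply hx
    unfold chi
    rw [Real.smoothTransition.zero_of_nonpos (x := N * (1 - ‖x.2‖ ^ 2) - 1) (by linarith), mul_zero]

lemma chi_zero_near {N : ℝ} (hN : 0 < N) {x : ℂ × ℂ} (hx : x.2 = 0) :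
    ∀ᶠ y in 𝓝 x, chi N y = 0 := by
  have hc : Continuous fun y : ℂ × ℂ => N * (‖y.2‖ ^ 2 - ‖y.1‖ ^ 2) - 1 := by fun_prop
  have h1 : N * (‖x.2‖ ^ 2 - ‖x.1‖ ^ 2) - 1 < 0 := by
    rw [hx, norm_zero]
    nlinarith [sq_nonneg ‖x.1‖]
  filter_upwards [hc.continuousAt.eventually (gt_mem_nhds h1)] with y hy
  unfold chi
  rw [Real.smoothTransition.zero_of_nonpos hy.le, zero_mul]

lemma isTest_chi_mul {N : ℝ} (hN : 0 < N) {g : ℂ × ℂ → ℝ}
    (hg : ContDiffOn ℝ ∞ g {x | x.2 ≠ 0}) : IsTest Hartogs (fun x => chi N x * g x) := by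
  have hopen : IsOpen {x : ℂ × ℂ | x.2 ≠ 0} := isOpen_ne_fun continuous_snd continuous_const
  have hsupp : Function.support (fun x => chi N x * g x) ⊆ KN N := by
    intro x hx
    apply chi_supp N
    intro h
    apply hx
    simp only
    rw [h, zero_mul]
  refine ⟨?_, HasCompactSupport.of_support_subset_isCompact (isCompact_KN hN) hsupp,
    (closure_minimal hsupp (isCompact_KN hN).isClosed).trans (KN_sub hN)⟩
  rw [contDiff_iff_contDiffAt]
  intro x
  by_cases hx : x.2 = 0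
  · have : (fun x => chi N x * g x) =ᶠ[𝓝 x] fun _ => 0 := by
      filter_upwards [chi_zero_near hN hx] with y hy
      rw [hy, zero_mul]
    exact contDiffAt_const.congr_of_eventuallyEq this
  · exact (contDiff_chi N).contDiffAt.mul (hg.contDiffAt (hopen.mem_nhds hx))

lemma contDiffOn_thc {n : ℕ} (J : Idx (n + 1)) : ContDiffOn ℝ ∞ (thc J) {x : ℂ × ℂ | x.2 ≠ 0} :=
  (contDiffOn_dth (frame (J 0)).2 (S := {w | w ≠ 0}) fun _ hw => hw).comp contDiff_snd.contDiffOn
    fun _ hx => hx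

/-- truncated `dθ₂` -/
def psiN (N : ℝ) (hN : 0 < N) : TM 1 :=
  ⟨fun J x => chi N x * thc J x, fun J => isTest_chi_mul hN (contDiffOn_thc J)⟩

/-- multi-indices of length one -/
def idxOne : Idx 1 ≃ Fin 4 where
  toFun := fun J => J 0
  invFun := fun j => OrderEmbedding.ofStrictMono (fun _ : Fin 1 => j) (Subsingleton.strictMono _)
  left_inv := fun J => by
    ext i
    rw [Subsingleton.elim i 0]
    rfl
  right_inv := fun j => rfl

lemma sum_idxOne (G : Fin 4 → ℝ) : ∑ J : Idx 1, G (J 0) = ∑ j, G j :=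
  Fintype.sum_equiv idxOne _ _ fun _ => rfl

lemma chi_rot (N : ℝ) {x : ℂ × ℂ} : fderiv ℝ (chi N) x (0, Complex.I * x.2) = 0 := by
  have hd : DifferentiableAt ℝ (chi N) (x.1, ex 0 * x.2) :=
    (contDiff_chi N).differentiable (by simp) _
  have h1 : HasDerivAt (fun θ : ℝ => (x.1, ex θ * x.2)) (0, Complex.I * ex 0 * x.2) 0 :=
    (hasDerivAt_const _ _).prodMk ((hasDerivAt_ex 0).mul_const x.2)
  have h2 : HasDerivAt (fun θ : ℝ => chi N (x.1, ex θ * x.2))
      (fderiv ℝ (chi N) (x.1, ex 0 * x.2) (0, Complex.I * ex 0 * x.2)) 0 :=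
    HasFDerivAt.comp_hasDerivAt (f := fun θ : ℝ => (x.1, ex θ * x.2)) (0 : ℝ) hd.hasFDerivAt h1
  have h3 : (fun θ : ℝ => chi N (x.1, ex θ * x.2)) = fun _ => chi N x := by
    funext θ
    unfold chi
    simp only [norm_mul, norm_ex, one_mul]
  rw [h3] at h2
  have h4 := h2.unique (hasDerivAt_const _ _)
  have e : ex 0 = 1 := by simp [ex]
  rw [e, one_mul, mul_one] at h4
  exact h4

lemma codM_psiN (N : ℝ) (hN : 0 < N) : codM 0 (psiN N hN) = 0 := by
  apply Subtype.ext
  funext I x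
  change codT (fun (J : Idx 1) x => chi N x * thc J x) I x = 0
  unfold codT
  have hface : ∀ (J : Idx 1) (k : Fin 1), face J k = I := by
    intro J k
    ext i; exact i.elim0
  have h1 : ∀ J : Idx 1, (∑ k : Fin (0 + 1), if face J k = I then
      (-1 : ℝ) ^ (k : ℕ) * fderiv ℝ (fun x => chi N x * thc J x) x (frame (J k)) else 0)
      = fderiv ℝ (fun x => chi N x * thc J x) x (frame (J 0)) := by
    intro J
    refine (Fin.sum_univ_one _).trans ?_
    rw [if_pos (hface J 0)]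
    simp
  simp_rw [h1]
  rw [neg_eq_zero]
  by_cases hx : x.2 = 0
  · apply Finset.sum_eq_zero
    intro J _
    have : (fun x => chi N x * thc J x) =ᶠ[𝓝 x] fun _ => 0 := by
      filter_upwards [chi_zero_near hN hx] with y hy
      rw [hy, zero_mul]
    rw [this.fderiv_eq]
    simp
  · have h2 : ∀ J : Idx 1, fderiv ℝ (fun x => chi N x * thc J x) x (frame (J 0))
        = fderiv ℝ (chi N) x (frame (J 0)) * ((frame (J 0)).2 / x.2).im
          - chi N x * ((frame (J 0)).2 * (frame (J 0)).2 / x.2 ^ 2).im := by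
      intro J
      obtain ⟨L, hL, hL'⟩ := hasFDerivAt_dth (frame (J 0)).2 hx
      have h3 : HasFDerivAt (fun x : ℂ × ℂ => thc J x)
          (L.comp (ContinuousLinearMap.snd ℝ ℂ ℂ)) x := hL.comp x hasFDerivAt_snd
      have h4 : HasFDerivAt (chi N) (fderiv ℝ (chi N) x) x :=
        ((contDiff_chi N).differentiable (by simp) x).hasFDerivAt
      have h5 : HasFDerivAt (fun x : ℂ × ℂ => chi N x * thc J x) _ x := h4.mul h3
      rw [h5.fderiv]
      simp only [add_apply, smul_apply,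
        ContinuousLinearMap.comp_apply, ContinuousLinearMap.coe_snd', smul_eq_mul, hL', thc, dth]
      ring
    simp_rw [h2]
    rw [sum_idxOne (fun j => fderiv ℝ (chi N) x (frame j) * ((frame j).2 / x.2).im
          - chi N x * ((frame j).2 * (frame j).2 / x.2 ^ 2).im), Fin.sum_univ_four]
    have f0 : (frame 0).2 = 0 := by simp [frame]
    have f1 : (frame 1).2 = 0 := by simp [frame]
    have f2 : frame 2 = (0, 1) := by simp [frame]
    have f3 : frame 3 = (0, Complex.I) := by simp [frame]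
    rw [f0, f1, f2, f3]
    have hrot := chi_rot N (x := x)
    have hdec : ((0 : ℂ), Complex.I * x.2) = (-x.2.im) • ((0 : ℂ), (1 : ℂ))
        + x.2.re • ((0 : ℂ), Complex.I) := by
      have : Complex.I * x.2 = -x.2.im + x.2.re * Complex.I := by
        apply Complex.ext <;> simp
      simp only [Prod.smul_mk, Prod.mk_add_mk, smul_zero, add_zero, Complex.real_smul, mul_one]
      rw [this]
      push_cast
      rfl
    rw [hdec, map_add, map_smul, map_smul, smul_eq_mul, smul_eq_mul] at hrot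
    have hn : Complex.normSq x.2 ≠ 0 := by
      rw [Complex.normSq_eq_norm_sq]
      have := norm_pos_iff.2 hx
      positivity
    have i1 : (Complex.I / x.2).im = x.2.re / Complex.normSq x.2 := by simp [Complex.div_im]
    have i2 : (1 / x.2).im = - x.2.im / Complex.normSq x.2 := by simp
    have i3 : (Complex.I * Complex.I / x.2 ^ 2).im = - (1 * 1 / x.2 ^ 2).im := by
      rw [Complex.I_mul_I, ← Complex.neg_im]
      congr 1
      ring
    simp only [zero_div, mul_zero, Complex.zero_im, sub_zero, zero_add]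
    rw [i1, i2, i3]
    field_simp
    linarith

lemma chi_nonneg (N : ℝ) (x : ℂ × ℂ) : 0 ≤ chi N x :=
  mul_nonneg (Real.smoothTransition.nonneg _) (Real.smoothTransition.nonneg _)

lemma chi_le_one (N : ℝ) (x : ℂ × ℂ) : chi N x ≤ 1 :=
  mul_le_one₀ (Real.smoothTransition.le_one _) (Real.smoothTransition.nonneg _)
    (Real.smoothTransition.le_one _)

/-- a fixed truncation of `dθ₂` -/
def psi8 : TM 1 := psiN 8 (by norm_num)

lemma codM_psi8 : codM 0 psi8 = 0 := codM_psiN _ _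

lemma thc_psi8 : ∑ J, ∫ x, thc J x * psi8.1 J x ≠ 0 := by
  have h8 : (0 : ℝ) < 8 := by norm_num
  unfold psi8
  have e : ∀ (J : Idx 1) x, thc J x * (psiN 8 h8).1 J x = chi 8 x * (thc J x * thc J x) := by
    intro J x
    change thc J x * (chi 8 x * thc J x) = _
    ring
  have htest : ∀ J : Idx 1, IsTest Hartogs (fun x => chi 8 x * (thc J x * thc J x)) := fun J =>
    isTest_chi_mul h8 ((contDiffOn_thc J).mul (contDiffOn_thc J))
  have hnn : ∀ (J : Idx 1) x, 0 ≤ chi 8 x * (thc J x * thc J x) := fun J x =>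
    mul_nonneg (chi_nonneg 8 x) (mul_self_nonneg _)
  simp_rw [e]
  set J3 : Idx 1 := idxOne.symm 3 with hJ3
  have hpos : 0 < ∫ x, chi 8 x * (thc J3 x * thc J3 x) := by
    refine (htest J3).1.continuous.integral_pos_of_hasCompactSupport_nonneg_nonzero
      (x := ((0 : ℂ), (1 / 2 : ℂ))) (htest J3).2.1 (hnn J3) ?_
    have h1 : chi 8 ((0 : ℂ), (1 / 2 : ℂ)) = 1 := by
      unfold chi
      have e1 : ‖((0 : ℂ), (1 / 2 : ℂ)).2‖ = 1 / 2 := by simp
      have e2 : ‖((0 : ℂ), (1 / 2 : ℂ)).1‖ = 0 := by simp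
      rw [e1, e2, Real.smoothTransition.one_of_one_le (by norm_num),
        Real.smoothTransition.one_of_one_le (by norm_num)]
      norm_num
    have h2 : thc J3 ((0 : ℂ), (1 / 2 : ℂ)) = 2 := by
      unfold thc dth
      have : J3 0 = 3 := rfl
      rw [this]
      simp [frame]
    rw [h1, h2]; norm_num
  have hsum : ∫ x, chi 8 x * (thc J3 x * thc J3 x)
      ≤ ∑ J : Idx 1, ∫ x, chi 8 x * (thc J x * thc J x) :=
    Finset.single_le_sum (f := fun J : Idx 1 => ∫ x, chi 8 x * (thc J x * thc J x))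
      (fun J _ => integral_nonneg (hnn J)) (Finset.mem_univ J3)
  exact (lt_of_lt_of_le hpos hsum).ne'

lemma Hartogs_ne {x : ℂ × ℂ} (hx : x ∈ Hartogs) : x.2 ≠ 0 := by
  have : 0 < ‖x.2‖ := lt_of_le_of_lt (norm_nonneg _) hx.1
  exact norm_pos_iff.1 this

lemma contDiffOn_thc_Hartogs {n : ℕ} (J : Idx (n + 1)) : ContDiffOn ℝ ∞ (thc J) Hartogs :=
  (contDiffOn_thc J).mono fun _ hx => Hartogs_ne hx

lemma hint_thc (ψ : TM 1) (J : Idx 1) : Integrable (fun x => thc J x * ψ.1 J x) volume :=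
  integrable_mul_test (contDiffOn_thc_Hartogs J).continuousOn (ψ.2 J)

/-- weak solvability in degree one -/
theorem weak_solve_one {f : L2 1} (hf : WeakD f 0) (hn : inner ℝ f (TL 1 psi8) = 0) :
    ∃ u : L2 0, WeakD u f :=
  weak_solve psi8 codM_psi8 thc_psi8 hint_thc hf (fun ψ _ h => by
    have : ψ = psi8 := eq_of_heq h
    rw [this]; exact hn)

/-- weak solvability in higher degrees -/
theorem weak_solve_succ {n : ℕ} {f : L2 (n + 2)} (hf : WeakD f 0) : ∃ u : L2 (n + 1), WeakD u f :=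
  weak_solve psi8 codM_psi8 thc_psi8 hint_thc hf (fun _ h => absurd h (Nat.succ_ne_zero n))

lemma measurable_thc {n : ℕ} (J : Idx (n + 1)) : Measurable (thc J) := by
  unfold thc dth
  exact Complex.measurable_im.comp (by fun_prop)

lemma memLp_thc (J : Idx 1) : MemLp (thc J) 2 μT := by
  refine ⟨(measurable_thc J).aestronglyMeasurable, ?_⟩
  rw [eLpNorm_lt_top_iff_lintegral_rpow_enorm_lt_top (by norm_num) (by norm_num)]
  have h1 : ∫⁻ x in Hartogs, ‖thc J x‖ₑ ^ (2 : ℝ≥0∞).toReal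
      ≤ ∫⁻ x in Om 0 1, ENNReal.ofReal (‖x.2‖ ^ 2)⁻¹ := by
    rw [Om_zero_one]
    refine lintegral_mono fun x => ?_
    simp only [ENNReal.toReal_ofNat, ENNReal.rpow_ofNat]
    rw [← ofReal_norm, ← ENNReal.ofReal_pow (norm_nonneg _)]
    apply ENNReal.ofReal_le_ofReal
    unfold thc dth
    have h2 : |((frame (J 0)).2 / x.2).im| ≤ ‖x.2‖⁻¹ := by
      refine (Complex.abs_im_le_norm _).trans ?_
      rw [norm_div, div_eq_mul_inv]
      have : ‖(frame (J 0)).2‖ ≤ 1 := by
        rw [← norm_frame (J 0)]; exact norm_snd_le _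
      have h0 : 0 ≤ ‖x.2‖⁻¹ := by positivity
      nlinarith
    rw [← inv_pow, Real.norm_eq_abs]
    gcongr
  refine lt_of_le_of_lt h1 ?_
  rw [lintegral_Om_snd (H := fun w => ENNReal.ofReal (‖w‖ ^ 2)⁻¹) (by fun_prop)]
  have h3 : ∫⁻ w in Ann 0 1, ENNReal.ofReal (1 * ‖w‖) ^ 2 * NNReal.pi * ENNReal.ofReal (‖w‖ ^ 2)⁻¹
      ≤ ∫⁻ w in Ann 0 1, NNReal.pi := by
    refine setLIntegral_mono' (isOpen_Ann 0 1).measurableSet fun w hw => ?_
    have hw2 : 0 < ‖w‖ := hw.1
    rw [one_mul, ← ENNReal.ofReal_pow (norm_nonneg _), mul_right_comm,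
      ← ENNReal.ofReal_mul (by positivity), mul_inv_cancel₀ (by positivity), ENNReal.ofReal_one,
      one_mul]
  refine lt_of_le_of_lt h3 ?_
  rw [lintegral_const, Measure.restrict_apply_univ]
  refine ENNReal.mul_lt_top ENNReal.coe_lt_top ?_
  have h4 : Ann 0 1 ⊆ Metric.closedBall (0 : ℂ) 1 := fun w hw => by simpa using hw.2.le
  exact lt_of_le_of_lt (measure_mono h4) (isCompact_closedBall _ _).measure_lt_top

/-- the harmonic form `dθ₂` -/
def Theta : L2 1 := (memLp_tup fun J => memLp_thc J).toLp (tup thc)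

lemma Theta_coe : ∀ᵐ z ∂μT, Theta z = tup thc z := MemLp.coeFn_toLp _

lemma inner_Theta_TL (ψ : TM 1) : inner ℝ Theta (TL 1 ψ) = ∑ J, ∫ x, thc J x * ψ.1 J x := by
  rw [inner_TL]
  refine Finset.sum_congr rfl fun J _ => ?_
  have h1 : ∫ z in Hartogs, Theta z J * ψ.1 J z = ∫ z in Hartogs, thc J z * ψ.1 J z := by
    refine integral_congr_ae ?_
    filter_upwards [Theta_coe] with z hz
    rw [hz, tup_apply]
  rw [h1, setIntegral_eq_integral_of_forall_compl_eq_zero]
  intro x hx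
  have : ψ.1 J x = 0 := by
    by_contra h
    exact hx ((ψ.2 J).2.2 (subset_tsupport _ h))
  rw [this, mul_zero]

lemma dT_thc (J : Idx 2) {x : ℂ × ℂ} (hx : x.2 ≠ 0) : dT (thc : Idx 1 → ℂ × ℂ → ℝ) J x = 0 := by
  have h1 : ∀ (I : Idx 1) (u : ℂ × ℂ), fderiv ℝ (thc I) x u
      = - ((frame (I 0)).2 * u.2 / x.2 ^ 2).im := by
    intro I u
    obtain ⟨L, hL, hL'⟩ := hasFDerivAt_dth (frame (I 0)).2 hx
    have h3 : HasFDerivAt (fun x : ℂ × ℂ => thc I x)
        (L.comp (ContinuousLinearMap.snd ℝ ℂ ℂ)) x := hL.comp x hasFDerivAt_snd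
    have h4 : fderiv ℝ (thc I) x = L.comp (ContinuousLinearMap.snd ℝ ℂ ℂ) := h3.fderiv
    rw [h4]
    simp only [ContinuousLinearMap.comp_apply, ContinuousLinearMap.coe_snd', hL']
  unfold dT
  rw [Fin.sum_univ_two, h1, h1, face_zero, face_one]
  simp only [Fin.val_zero, pow_zero, Fin.val_one, pow_one]
  rw [mul_comm (frame (J 1)).2]
  ring

lemma Theta_closed : WeakD Theta 0 := by
  rw [weakD_iff]
  intro ψ
  rw [inner_zero_left, inner_Theta_TL]
  have h := ibp isOpen_Hartogs (u := (thc : Idx 1 → ℂ × ℂ → ℝ))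
    (fun I => contDiffOn_thc_Hartogs I) ψ.2
  change 0 = ∑ J, ∫ x, thc J x * codT ψ.1 J x
  rw [← h]
  symm
  apply Finset.sum_eq_zero
  intro J _
  have : ∀ x, dT (thc : Idx 1 → ℂ × ℂ → ℝ) J x * ψ.1 J x = 0 := by
    intro x
    by_cases hx : x ∈ Hartogs
    · rw [dT_thc J (Hartogs_ne hx), zero_mul]
    · have : ψ.1 J x = 0 := by
        by_contra h
        exact hx ((ψ.2 J).2.2 (subset_tsupport _ h))
      rw [this, mul_zero]
  simp_rw [this, integral_zero]

lemma tendsto_chi {x : ℂ × ℂ} (hx : x ∈ Hartogs) :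
    Tendsto (fun m : ℕ => chi ((m : ℝ) + 1) x) atTop (𝓝 1) := by
  have h1 : 0 < ‖x.2‖ ^ 2 - ‖x.1‖ ^ 2 := by
    have := hx.1
    nlinarith [norm_nonneg x.1]
  have h2 : 0 < 1 - ‖x.2‖ ^ 2 := by
    have := hx.2
    nlinarith [norm_nonneg x.2]
  have h3 : ∀ c : ℝ, 0 < c → ∀ᶠ m : ℕ in atTop, 1 ≤ ((m : ℝ) + 1) * c - 1 := by
    intro c hc
    obtain ⟨N, hN⟩ := exists_nat_gt (2 / c)
    filter_upwards [eventually_ge_atTop N] with m hm
    have : (N : ℝ) ≤ m := by exact_mod_cast hm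
    have h4 : 2 / c < m := lt_of_lt_of_le hN this
    rw [div_lt_iff₀ hc] at h4
    nlinarith
  refine tendsto_const_nhds.congr' ?_
  filter_upwards [h3 _ h1, h3 _ h2] with m hm1 hm2
  unfold chi
  rw [Real.smoothTransition.one_of_one_le hm1, Real.smoothTransition.one_of_one_le hm2, mul_one]

lemma Theta_perp {u : L2 0} {g : L2 1} (h : WeakD u g) : inner ℝ g Theta = 0 := by
  rw [weakD_iff] at h
  have h1 : ∀ m : ℕ, ∑ J, ∫ z in Hartogs, g z J * (chi ((m : ℝ) + 1) z * thc J z) = 0 := by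
    intro m
    have hN : (0 : ℝ) < (m : ℝ) + 1 := by positivity
    have h2 := h (psiN _ hN)
    rw [codM_psiN, map_zero, inner_zero_right, inner_TL] at h2
    exact h2
  have h3 : inner ℝ g Theta = ∑ J, ∫ z in Hartogs, g z J * thc J z := by
    rw [inner_L2]
    refine Finset.sum_congr rfl fun J _ => integral_congr_ae ?_
    filter_upwards [Theta_coe] with z hz
    rw [hz, tup_apply]
  have h4 : Tendsto (fun m : ℕ => ∑ J, ∫ z in Hartogs, g z J * (chi ((m : ℝ) + 1) z * thc J z))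
      atTop (𝓝 (∑ J, ∫ z in Hartogs, g z J * thc J z)) := by
    refine tendsto_finsetSum _ fun J _ => ?_
    have hgi : Integrable (fun z => g z J * thc J z) μT :=
      (L2_memLp_coord g J).integrable_mul (memLp_thc J)
    refine tendsto_integral_of_dominated_convergence (fun z => ‖g z J * thc J z‖) ?_ hgi.norm ?_ ?_
    · intro m
      exact (L2_memLp_coord g J).1.mul
        ((contDiff_chi _).continuous.aestronglyMeasurable.mul
          (measurable_thc J).aestronglyMeasurable)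
    · intro m
      refine Eventually.of_forall fun z => ?_
      have e : g z J * (chi ((m : ℝ) + 1) z * thc J z)
          = chi ((m : ℝ) + 1) z * (g z J * thc J z) := by ring
      rw [e, norm_mul, Real.norm_of_nonneg (chi_nonneg _ _)]
      calc _ ≤ 1 * ‖g z J * thc J z‖ := by gcongr; exact chi_le_one _ _
        _ = _ := one_mul _
    · rw [ae_restrict_iff' measurableSet_Hartogs]
      refine Eventually.of_forall fun z hz => ?_
      have := (tendsto_chi hz).mul_const (g z J * thc J z)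
      rw [one_mul] at this
      refine this.congr fun m => ?_
      ring
  rw [h3]
  simp_rw [h1] at h4
  exact (tendsto_nhds_unique h4 tendsto_const_nhds)

end Pool.Agent.H631R3
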