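import Mathlib

/-!
# Square integrable forms on the Hartogs triangle: definitions
-/

open scoped ContDiff Topology
open MeasureTheory Set Filter

noncomputable section

namespace Pool.Agent.H631R3

/-- The Hartogs triangle `{(z₁, z₂) : |z₁| < |z₂| < 1}`. -/
def Hartogs : Set (ℂ × ℂ) := {z | ‖z.1‖ < ‖z.2‖ ∧ ‖z.2‖ < 1}

/-- The standard orthonormal frame `∂/∂x₁, ∂/∂y₁, ∂/∂x₂, ∂/∂y₂` of `ℂ² = ℝ⁴`. -/
def frame : Fin 4 → ℂ × ℂ := ![(1, 0), (Complex.I, 0), (0, 1), (0, Complex.I)]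

/-- Increasing multi-indices `j₁ < ... < j_q` with values in `{0, 1, 2, 3}`. -/
abbrev Idx (q : ℕ) : Type := Fin q ↪o Fin 4

/-- The multi-index obtained from `J` by omitting its `k`-th entry. -/
def face {q : ℕ} (J : Idx (q + 1)) (k : Fin (q + 1)) : Idx q :=
  (Fin.succAboveOrderEmb k).trans J

/-- Alternating real `q`-forms on `ℂ² = ℝ⁴`. -/
abbrev Form (q : ℕ) : Type := (ℂ × ℂ) [⋀^Fin q]→L[ℝ] ℝ

/-- The Euclidean space of coefficients of `q`-forms with respect to the standard frame. -/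
abbrev Coef (q : ℕ) : Type := EuclideanSpace ℝ (Idx q)

/-- The coefficients `α(∂_{j₁}, ..., ∂_{j_q})`, `j₁ < ... < j_q`, of a `q`-form. -/
def coef {q : ℕ} (α : Form q) : Coef q := WithLp.toLp 2 fun J => α (frame ∘ J)

/-- The Hilbert space of square integrable real `q`-forms on the Hartogs triangle. -/
abbrev L2 (q : ℕ) : Type := Lp (Coef q) 2 ((volume : Measure (ℂ × ℂ)).restrict Hartogs)

/-- Real valued test functions on an open set. -/
def IsTest (U : Set (ℂ × ℂ)) (φ : ℂ × ℂ → ℝ) : Prop :=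
  ContDiff ℝ ∞ φ ∧ HasCompactSupport φ ∧ tsupport φ ⊆ U

/-- `g = df` in the sense of distributions on the Hartogs triangle: the graph of the weak maximal
extension of the exterior derivative. -/
def WeakD {q : ℕ} (f : L2 q) (g : L2 (q + 1)) : Prop :=
  ∀ (J : Idx (q + 1)) (φ : ℂ × ℂ → ℝ), IsTest Hartogs φ →
    ∫ z in Hartogs, g z J * φ z =
      - ∑ k : Fin (q + 1), (-1 : ℝ) ^ (k : ℕ) *
        ∫ z in Hartogs, f z (face J k) * fderiv ℝ φ z (frame (J k))

end Pool.Agent.H631R3
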