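import Pool.Agent.H631R3.EstC

/-! Compactness of the solution operators of the strong complex. -/

open scoped ContDiff Topology ENNReal NNReal
open MeasureTheory Set Filter

noncomputable section

namespace Pool.Agent.H631R3

lemma approxW_succ (n : ℕ) : ApproxW (n + 1) := by
  rcases n with _ | n
  · exact approxW_mid
  · exact approxW_high n

lemma EST_GS_succ (n : ℕ) {S : L2 (n + 2) →L[ℝ] L2 (n + 1)} (hS : IsSol (GS (n + 1)) S) :
    EST (n + 1) (GS (n + 1)) S := by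
  obtain ⟨D, hD0, hD⟩ := approxW_succ n
  refine EST_strong_of hS (Λ := fun _ => 0) (D := D) (E := 0) hD0 le_rfl (fun w => ?_) ?_
  · obtain ⟨u, g, h1, h2, h3⟩ := hD w
    exact ⟨u, g, h1, h2, by simpa using h3⟩
  · intro ε _ _ u v _ w
    simp

lemma EST_GS_zero {S : L2 1 →L[ℝ] L2 0} (hS : IsSol (GS 0) S) : EST 0 (GS 0) S := by
  obtain ⟨D, hD0, hD⟩ := approxW_low
  obtain ⟨D2, hD20, hD2⟩ := HM_bound 1
  have hvB := vB_pos
  have hvQ := vQ_pos
  set P := TL 1 psi8 with hP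
  set t : ℝ := inner ℝ Theta P with ht
  have ht0 : t ≠ 0 := inner_Theta_psi8_ne
  have ht0' : 0 < |t| := abs_pos.2 ht0
  set G : ℝ := D + ‖Theta‖ * (D * ‖P‖ + vB) / |t| with hG
  have hG0 : 0 ≤ G := by positivity
  refine EST_strong_of hS (Λ := fun w => |inner ℝ (SL 1 w) P|) (D := G) (E := (vQ + D2) * ‖P‖) hG0
    (by positivity) (fun w => ?_) ?_
  · obtain ⟨u, g, γ, hug, h1, h2⟩ := hD w
    have hgP : inner ℝ g P = 0 := weakD_test (GS_sub 0 u g hug)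
    have h5 : γ * t = inner ℝ (g - vB • SL 1 w + γ • Theta) P + vB * inner ℝ (SL 1 w) P := by
      rw [inner_add_left, inner_sub_left, hgP, real_inner_smul_left, real_inner_smul_left, ← ht]
      ring
    have h6 : |γ| * |t| ≤ D * ‖SL 2 (dM 1 w)‖ * ‖P‖ + vB * |inner ℝ (SL 1 w) P| := by
      rw [← abs_mul, h5]
      refine (abs_add_le _ _).trans (add_le_add ?_ ?_)
      · exact (abs_real_inner_le_norm _ _).trans (by gcongr)
      · rw [abs_mul, abs_of_pos hvB]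
    have h7 : |γ| ≤ (D * ‖SL 2 (dM 1 w)‖ * ‖P‖ + vB * |inner ℝ (SL 1 w) P|) / |t| := by
      rw [le_div_iff₀ ht0']; exact h6
    have hwn : 0 ≤ wn w := norm_nonneg _
    refine ⟨u, g, hug, h1.trans ?_, ?_⟩
    · gcongr
      rw [hG]
      have : 0 ≤ ‖Theta‖ * (D * ‖P‖ + vB) / |t| := by positivity
      linarith
    · have e : g - vB • SL 1 w = (g - vB • SL 1 w + γ • Theta) - γ • Theta := by abel
      rw [e]
      refine (norm_sub_le _ _).trans ?_
      rw [norm_smul, Real.norm_eq_abs]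
      calc ‖g - vB • SL 1 w + γ • Theta‖ + |γ| * ‖Theta‖
          ≤ D * ‖SL 2 (dM 1 w)‖ +
            ((D * ‖SL 2 (dM 1 w)‖ * ‖P‖ + vB * |inner ℝ (SL 1 w) P|) / |t|) * ‖Theta‖ := by gcongr
        _ ≤ D * ‖SL 2 (dM 1 w)‖ + D * |inner ℝ (SL 1 w) P| +
            (((D * ‖P‖ + vB) * (‖SL 2 (dM 1 w)‖ + |inner ℝ (SL 1 w) P|)) / |t|) * ‖Theta‖ := by
            have i1 : 0 ≤ D * |inner ℝ (SL 1 w) P| := by positivity
            have i2 : D * ‖SL 2 (dM 1 w)‖ * ‖P‖ + vB * |inner ℝ (SL 1 w) P|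
                ≤ (D * ‖P‖ + vB) * (‖SL 2 (dM 1 w)‖ + |inner ℝ (SL 1 w) P|) := by
              have i3 : 0 ≤ D * ‖P‖ * |inner ℝ (SL 1 w) P| := by positivity
              have i4 : 0 ≤ vB * ‖SL 2 (dM 1 w)‖ := by positivity
              nlinarith
            have i5 : ((D * ‖SL 2 (dM 1 w)‖ * ‖P‖ + vB * |inner ℝ (SL 1 w) P|) / |t|) * ‖Theta‖
                ≤ (((D * ‖P‖ + vB) * (‖SL 2 (dM 1 w)‖ + |inner ℝ (SL 1 w) P|)) / |t|) * ‖Theta‖ := by
              gcongr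
            linarith
        _ = G * (‖SL 2 (dM 1 w)‖ + |inner ℝ (SL 1 w) P|) := by rw [hG]; ring
  · intro ε hε hε8 u v huv w
    have hvP : inner ℝ v P = 0 := weakD_test (GS_sub 0 u v huv)
    have h1 : inner ℝ (SL 1 (dM 0 (HM ε w))) P = 0 := weakD_test (GS_sub 0 _ _ (mem_GS (HM ε w)))
    have h2 : inner ℝ (SL 1 (RM ε 1 w)) P
        = vQ * inner ℝ (SL 1 w - v) P + inner ℝ (SL 1 (HM ε (dM 1 w))) P := by
      rw [dM_HM hε.le, map_sub, map_sub, map_smul, inner_sub_left, inner_sub_left,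
        real_inner_smul_left] at h1
      rw [inner_sub_left, hvP]
      linarith
    rw [h2]
    refine (abs_add_le _ _).trans ?_
    have h3 : |vQ * inner ℝ (SL 1 w - v) P| ≤ vQ * (‖SL 1 w - v‖ * ‖P‖) := by
      rw [abs_mul, abs_of_pos hvQ]
      gcongr
      exact abs_real_inner_le_norm _ _
    have h4 : |inner ℝ (SL 1 (HM ε (dM 1 w))) P| ≤ D2 * ‖SL 2 (dM 1 w)‖ * ‖P‖ := by
      refine (abs_real_inner_le_norm _ _).trans ?_
      gcongr
      refine (hD2 ε hε.le hε8 _).trans ?_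
      gcongr
      have : ε * ‖SL 2 (dM 1 w)‖ ≤ 1 * ‖SL 2 (dM 1 w)‖ := by
        gcongr; linarith
      rwa [one_mul] at this
    have i1 : 0 ≤ vQ * (‖SL 2 (dM 1 w)‖ * ‖P‖) := by positivity
    have i2 : 0 ≤ D2 * ‖SL 1 w - v‖ * ‖P‖ := by positivity
    calc _ ≤ vQ * (‖SL 1 w - v‖ * ‖P‖) + D2 * ‖SL 2 (dM 1 w)‖ * ‖P‖ := add_le_add h3 h4
      _ ≤ vQ * (‖SL 1 w - v‖ * ‖P‖) + D2 * ‖SL 2 (dM 1 w)‖ * ‖P‖
          + (vQ * (‖SL 2 (dM 1 w)‖ * ‖P‖) + D2 * ‖SL 1 w - v‖ * ‖P‖) := by linarith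
      _ = _ := by ring

lemma compact_GS (n : ℕ) {S : L2 (n + 1) →L[ℝ] L2 n} (hS : IsSol (GS n) S) : IsCompactOperator S := by
  refine compact_of_EST (goodComplex_strong.range_closed n) hS ?_
  rcases n with _ | n
  · exact EST_GS_zero hS
  · exact EST_GS_succ n hS

end Pool.Agent.H631R3
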