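import Pool.Agent.H631R3.Stmt

/-!
# The strong maximal extension of the exterior derivative: definition
-/

open scoped ContDiff Topology
open MeasureTheory Set Filter

noncomputable section

namespace Pool.Agent.H631R3

/-- The graph of the strong maximal extension of the exterior derivative: `f` is the limit in `L²`
of a sequence of forms `F n` smooth up to the boundary of the Hartogs triangle whose exterior
derivatives converge to `g` in `L²`. -/
def StrongD {q : ℕ} (f : L2 q) (g : L2 (q + 1)) : Prop :=
  ∃ F : ℕ → ℂ × ℂ → Form q, (∀ n, ContDiff ℝ ∞ (F n)) ∧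
    Tendsto (fun n => eLpNorm (fun z => coef (F n z) - f z) 2
      ((volume : Measure (ℂ × ℂ)).restrict Hartogs)) atTop (𝓝 0) ∧
    Tendsto (fun n => eLpNorm (fun z => coef (extDeriv (F n) z) - g z) 2
      ((volume : Measure (ℂ × ℂ)).restrict Hartogs)) atTop (𝓝 0)

end Pool.Agent.H631R3
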