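import Pool.Agent.H631R3.Str6
import Pool.Agent.H631R3.StmtS

/-! The strong maximal complex is a good complex. -/

open scoped ContDiff Topology ENNReal NNReal
open MeasureTheory Set Filter

noncomputable section

namespace Pool.Agent.H631R3

lemma inner_Theta_psi8_ne : inner ℝ Theta (TL 1 psi8) ≠ 0 := by
  rw [inner_Theta_TL]; exact thc_psi8

lemma GS_solve1 (v : L2 1) (hv : (v, (0 : L2 2)) ∈ GS 1) (hn : inner ℝ v (TL 1 psi8) = 0) :
    ∃ u, (u, v) ∈ GS 0 := by
  obtain ⟨D, hD0, hD⟩ := approx_low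
  have hvB := vB_pos
  set P := TL 1 psi8 with hP
  set t : ℝ := inner ℝ Theta P with ht
  have ht0 : t ≠ 0 := inner_Theta_psi8_ne
  have ht0' : 0 < |t| := abs_pos.2 ht0
  set F : ℝ := (D + vB) * (1 + ‖P‖ * ‖Theta‖ / |t|) with hF
  have hF0 : 0 < F := by positivity
  obtain ⟨u, hu⟩ := solve_of_approx (isClosed_GS 0) (v := vB • v) (C := D * (‖v‖ + 1)) (by
    intro ε hε
    set δ := min 1 (ε / F) with hδ
    have hδ0 : 0 < δ := lt_min one_pos (by positivity)
    obtain ⟨w, hw1, hw2⟩ := exists_smooth hv hδ0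
    obtain ⟨u, g, γ, hug, h1, h2⟩ := hD w
    have hδ1 : δ ≤ 1 := min_le_left _ _
    have hδ2 : δ * F ≤ ε := by
      have := min_le_right 1 (ε / F)
      rwa [← hδ, le_div_iff₀ hF0] at this
    have h3 : ‖g - vB • SL 1 w + γ • Theta‖ ≤ D * δ := h2.trans (by gcongr)
    have h4 : ‖vB • (SL 1 w - v)‖ ≤ vB * δ := by
      rw [norm_smul, Real.norm_of_nonneg hvB.le]; gcongr
    have hgP : inner ℝ g P = 0 := weakD_test (GS_sub 0 u g hug)
    have h5 : γ * t = inner ℝ (g - vB • SL 1 w + γ • Theta) P + inner ℝ (vB • (SL 1 w - v)) P := by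
      rw [inner_add_left, inner_sub_left, hgP, real_inner_smul_left, real_inner_smul_left,
        real_inner_smul_left, inner_sub_left, hn, ← ht]
      ring
    have h6 : |γ * t| ≤ (D + vB) * δ * ‖P‖ := by
      rw [h5]
      calc _ ≤ |inner ℝ (g - vB • SL 1 w + γ • Theta) P| + |inner ℝ (vB • (SL 1 w - v)) P| :=
            abs_add_le _ _
        _ ≤ ‖g - vB • SL 1 w + γ • Theta‖ * ‖P‖ + ‖vB • (SL 1 w - v)‖ * ‖P‖ :=
            add_le_add (abs_real_inner_le_norm _ _) (abs_real_inner_le_norm _ _)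
        _ ≤ (D * δ) * ‖P‖ + (vB * δ) * ‖P‖ := by gcongr
        _ = _ := by ring
    have h7 : ‖γ • Theta‖ ≤ (D + vB) * δ * (‖P‖ * ‖Theta‖ / |t|) := by
      rw [norm_smul, Real.norm_eq_abs]
      have h8 : |γ| ≤ (D + vB) * δ * ‖P‖ / |t| := by
        rw [le_div_iff₀ ht0', ← abs_mul]; exact h6
      calc |γ| * ‖Theta‖ ≤ ((D + vB) * δ * ‖P‖ / |t|) * ‖Theta‖ := by gcongr
        _ = _ := by ring
    refine ⟨u, g, hug, ?_, ?_⟩
    · have e : g - vB • v = (g - vB • SL 1 w + γ • Theta) + (vB • (SL 1 w - v) - γ • Theta) := by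
        rw [smul_sub]; abel
      rw [e]
      refine (norm_add_le _ _).trans ?_
      have h9 := norm_sub_le (vB • (SL 1 w - v)) (γ • Theta)
      have h10 : (D + vB) * δ * (‖P‖ * ‖Theta‖ / |t|) + (D * δ + vB * δ) = δ * F := by
        rw [hF]; ring
      linarith
    · refine h1.trans ?_
      gcongr
      have e : SL 1 w = v + (SL 1 w - v) := by abel
      rw [e]
      refine (norm_add_le _ _).trans ?_
      linarith)
  refine ⟨vB⁻¹ • u, ?_⟩
  have := (GS 0).smul_mem vB⁻¹ hu
  rw [Prod.smul_mk, smul_smul, inv_mul_cancel₀ hvB.ne', one_smul] at this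
  exact this

lemma approx_succ (n : ℕ) : Approx (n + 1) := by
  rcases n with _ | n
  · exact approx_mid
  · exact approx_high n

lemma goodComplex_strong : GoodComplex GS where
  closed := isClosed_GS
  comp := GS_comp
  sub := GS_sub
  solve1 := GS_solve1
  solve := fun n _ h => solve_of_Approx (approx_succ n) h
  theta := GS_theta
  const := GS_const

lemma eLpNorm_frm {q : ℕ} (w : SM q) (f : L2 q) :
    eLpNorm (fun z => coef (frm w z) - f z) 2 μT = ‖SL q w - f‖ₑ := by
  rw [Lp.enorm_def]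
  apply eLpNorm_congr_ae
  filter_upwards [Lp.coeFn_sub (SL q w) f, mk_coe (SM_LL w)] with z h1 h2
  rw [h1, Pi.sub_apply]
  have h3 : (SL q w) z = tup w.1 z := h2
  rw [h3]
  congr 1
  unfold coef tup
  congr 1
  funext J
  exact frm_frame w z J

lemma strongD_iff {q : ℕ} (f : L2 q) (g : L2 (q + 1)) : StrongD f g ↔ (f, g) ∈ GS q := by
  constructor
  · rintro ⟨F, hF, h1, h2⟩
    set w : ℕ → SM q := fun n => ⟨fun J z => F n z (frame ∘ J), fun J =>
      (evalAt (frame ∘ J)).contDiff.comp (hF n)⟩ with hw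
    have hFw : ∀ n, F n = frm (w n) := fun n => by
      funext z
      exact (toForm_coef (F n z)).symm
    simp_rw [hFw, extDeriv_frm, eLpNorm_frm] at h1 h2
    have h3 : Tendsto (fun n => SL q (w n)) atTop (𝓝 f) := by
      rw [tendsto_iff_edist_tendsto_0]
      simpa only [edist_eq_enorm_sub] using h1
    have h4 : Tendsto (fun n => SL (q + 1) (dM q (w n))) atTop (𝓝 g) := by
      rw [tendsto_iff_edist_tendsto_0]
      simpa only [edist_eq_enorm_sub] using h2
    exact (isClosed_GS q).mem_of_tendsto (h3.prodMk_nhds h4)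
      (Eventually.of_forall fun n => mem_GS (w n))
  · intro h
    have h1 : (f, g) ∈ closure (GS0 q : Set (L2 q × L2 (q + 1))) := h
    obtain ⟨x, hx, hlim⟩ := mem_closure_iff_seq_limit.1 h1
    choose w hw using hx
    have h3 : Tendsto (fun n => SL q (w n)) atTop (𝓝 f) := by
      have := (continuous_fst.tendsto (f, g)).comp hlim
      refine this.congr fun n => ?_
      simp only [Function.comp_apply, ← hw n]
      rfl
    have h4 : Tendsto (fun n => SL (q + 1) (dM q (w n))) atTop (𝓝 g) := by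
      have := (continuous_snd.tendsto (f, g)).comp hlim
      refine this.congr fun n => ?_
      simp only [Function.comp_apply, ← hw n]
      rfl
    refine ⟨fun n => frm (w n), fun n => contDiff_frm (w n), ?_, ?_⟩
    · simp_rw [eLpNorm_frm]
      rw [tendsto_iff_edist_tendsto_0] at h3
      simpa only [edist_eq_enorm_sub] using h3
    · simp_rw [extDeriv_frm, eLpNorm_frm]
      rw [tendsto_iff_edist_tendsto_0] at h4
      simpa only [edist_eq_enorm_sub] using h4

theorem hodge_strong : HodgeTheorem (fun _ f g => StrongD f g) := by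
  have h : (fun (q : ℕ) (f : L2 q) (g : L2 (q + 1)) => StrongD f g)
      = fun q f g => (f, g) ∈ GS q := by
    funext q f g
    exact propext (strongD_iff f g)
  rw [h]
  exact goodComplex_strong.hodge

end Pool.Agent.H631R3
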