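import Pool.Agent.H631R3.Reg4
import Pool.Agent.H631R3.Str7

/-! Weighted approximate solutions for forms smooth up to the boundary. -/

open scoped ContDiff Topology ENNReal NNReal
open MeasureTheory Set Filter

noncomputable section

namespace Pool.Agent.H631R3

/-- approximate solutions modulo the exterior derivative of the data, weighted estimate -/
def ApproxW (n : ℕ) : Prop := ∃ D : ℝ, 0 ≤ D ∧ ∀ w : SM (n + 1), ∃ u g, (u, g) ∈ GS n ∧
  ‖u‖ ≤ D * wn w ∧ ‖g - vB • SL (n + 1) w‖ ≤ D * ‖SL (n + 2) (dM (n + 1) w)‖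

lemma K1M_boundW (n : ℕ) : ∃ C : ℝ≥0, ∀ w : SM (n + 1),
    ‖SL n (K1M w)‖ₑ ^ 2 ≤ C * ‖mk (wtu w) (wtu_LL w)‖ₑ ^ 2 := by
  obtain ⟨C1, h1⟩ := K1_intW n
  obtain ⟨C2, h2⟩ := int_frmW (n + 1)
  refine ⟨(Fintype.card (Idx n) : ℝ≥0) * (C1 * C2), fun w => ?_⟩
  refine bound_chain (mk_bound (SM_LL (K1M w)) fun J => ?_) le_rfl (h2 w)
  have h3 := h1 0 1 le_rfl (by norm_num) le_rfl (frm w) (contDiff_frm w).continuous J
  rw [Om_zero_one] at h3
  exact h3

lemma approxW_high (n : ℕ) : ApproxW (n + 2) := by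
  obtain ⟨C1, h1⟩ := K1M_boundW (n + 2)
  obtain ⟨C2, h2⟩ := K1M_bound (n + 3)
  set D := max (Real.sqrt C1) (Real.sqrt C2) with hD
  refine ⟨D, (Real.sqrt_nonneg _).trans (le_max_left _ _), fun w => ?_⟩
  refine ⟨SL (n + 2) (K1M w), SL (n + 3) (dM (n + 2) (K1M w)), mem_GS _, ?_, ?_⟩
  · refine (norm_le_of_enorm_sq (h1 w)).trans ?_
    change _ ≤ _ * ‖mk (wtu w) (wtu_LL w)‖
    gcongr
    exact le_max_left _ _
  · have e : SL (n + 3) (dM (n + 2) (K1M w)) - vB • SL (n + 3) w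
        = - SL (n + 3) (K1M (dM (n + 3) w)) := by
      rw [← map_smul, ← map_neg, ← map_sub]
      congr 1
      apply Subtype.ext
      funext J x
      change dT (K1 (frm w)) J x - vB * w.1 J x = - K1 (frm (dM (n + 3) w)) J x
      obtain ⟨k, hk⟩ := exists_lt_two J
      rw [dT_K1g (contDiff_frm w) (contDiff_extDeriv_frm w), PD_eq_zero _ hk, frm_frame,
        extDeriv_frm]
      ring
    rw [e, norm_neg]
    refine (norm_le_of_enorm_sq (h2 (dM (n + 3) w))).trans ?_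
    gcongr
    exact le_max_right _ _

lemma approxW_mid : ApproxW 1 := by
  obtain ⟨C1, h1⟩ := K1_intW 1
  obtain ⟨C2, h2⟩ := U1_intW
  obtain ⟨C3, h3⟩ := int_frmW 2
  obtain ⟨C4, h4⟩ := K1M_bound 2
  set C5 : ℝ≥0 := (Fintype.card (Idx 1) : ℝ≥0) * ((4 * (C1 + C2)) * C3) with hC5
  set D := max (Real.sqrt C5) (Real.sqrt C4) with hD
  refine ⟨D, (Real.sqrt_nonneg _).trans (le_max_left _ _), fun w => ?_⟩
  have hf := contDiff_frm w
  have hdf := contDiff_extDeriv_frm w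
  obtain ⟨B0, hB0, hB0'⟩ := exists_lin_bound (contDiff_ab1 hf) (ab1_zero _)
  have hB1 : ∀ I : Idx 1, ∃ C : ℝ, 0 ≤ C ∧ ∀ x ∈ Hartogs, |K1 (frm w) I x| ≤ C := fun I =>
    exists_bound_T (contDiff_K1 hf I).continuous
  choose B hBn hB using hB1
  set U : Idx 1 → ℂ × ℂ → ℝ := fun I x => K1 (frm w) I x + U1 (frm w) I x with hU
  set g : Idx 2 → ℂ × ℂ → ℝ := fun J x => vB * w.1 J x + (-1) * K1 (frm (dM 2 w)) J x with hg
  have hU1s : ∀ I, ContDiffOn ℝ ∞ (U1 (frm w) I) {x | x.2 ≠ 0} := fun I =>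
    (contDiffOn_Rad_snd (contDiff_ab1 hf)).mul (contDiffOn_thc I)
  have hUs : ∀ I, ContDiffOn ℝ ∞ (U I) {x | x.2 ≠ 0} := fun I =>
    (contDiff_K1 hf I).contDiffOn.add (hU1s I)
  set BB := (∑ I, B I) + B0 with hBB
  have hBB0 : 0 ≤ BB := add_nonneg (Finset.sum_nonneg fun I _ => hBn I) hB0
  have hUb : ∀ I, ∀ x ∈ Hartogs, |U I x| ≤ BB * ‖x.2‖⁻¹ := by
    intro I x hx
    have e1 : |K1 (frm w) I x| ≤ (∑ I, B I) * ‖x.2‖⁻¹ := by
      refine ((hB I x hx).trans (Finset.single_le_sum (fun I _ => hBn I) (Finset.mem_univ I))).trans ?_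
      exact le_mul_inv hx (Finset.sum_nonneg fun I _ => hBn I)
    have e2 : |U1 (frm w) I x| ≤ B0 * ‖x.2‖⁻¹ := by
      have e3 : U1 (frm w) I x = Rad (ab1 (frm w)) x.2 * thc I x := rfl
      rw [e3, abs_mul]
      have hxA : x.2 ∈ Ann 0 1 := by
        have := hx; rw [← Om_zero_one] at this; exact this.1
      exact mul_le_mul (Rad_bound hB0 hB0' hxA) (abs_thc_le I x) (abs_nonneg _) hB0
    calc |U I x| ≤ |K1 (frm w) I x| + |U1 (frm w) I x| := abs_add_le _ _
      _ ≤ _ := by rw [hBB, add_mul]; exact add_le_add e1 e2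
  have hLU : LL U := fun I => memLp_of_bound ((hUs I).continuousOn.mono fun x hx => Hartogs_ne hx)
    (hUb I)
  have hLg : LL g := fun J => memLp_of_continuous
    ((contDiff_const.mul (w.2 J)).add (contDiff_const.mul (contDiff_K1 (contDiff_frm _) J))).continuous
  have hdU : ∀ x ∈ Hartogs, ∀ J, dT U J x = g J x := by
    intro x hx J
    have hx' : x ∈ Om 0 1 := by rw [Om_zero_one]; exact hx
    rw [hU, dT_add (fun I => (contDiff_K1 hf I).differentiable (by simp) x)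
      (fun I => ((hU1s I).contDiffAt (isOpen_ne.mem_nhds (Hartogs_ne hx))).differentiableAt (by simp)),
      dT_K1g hf hdf, dT_U1 le_rfl (by norm_num) (by norm_num) hf.contDiffOn hx', frm_frame,
      extDeriv_frm]
    ring
  refine ⟨mk U hLU, mk g hLg, lemmaW hUs hBB0 hUb hLU hdU hLg, ?_, ?_⟩
  · have hmO : MeasurableSet Hartogs := measurableSet_Hartogs
    have e1 : ‖mk U hLU‖ₑ ^ 2 ≤ C5 * ‖mk (wtu w) (wtu_LL w)‖ₑ ^ 2 := by
      refine bound_chain (mk_bound hLU fun I => ?_) le_rfl (h3 w)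
      refine (int_add_bound _ ((contDiff_K1 hf I).continuous.aemeasurable)).trans ?_
      have e2 := h1 0 1 le_rfl (by norm_num) le_rfl (frm w) hf.continuous I
      have e3 := h2 0 1 le_rfl (by norm_num) (by norm_num) le_rfl (frm w) hf I
      rw [Om_zero_one] at e2 e3
      push_cast
      rw [mul_assoc, add_mul]
      gcongr
    refine (norm_le_of_enorm_sq e1).trans ?_
    change _ ≤ _ * ‖mk (wtu w) (wtu_LL w)‖
    gcongr
    exact le_max_left _ _
  · have e : mk g hLg - vB • SL 2 w = - SL 2 (K1M (dM 2 w)) := by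
      have h6 : LL (fun J x => vB * w.1 J x) := (SM_LL w).smul vB
      have h7 : LL (fun J x => (-1) * K1 (frm (dM 2 w)) J x) := (SM_LL (K1M (dM 2 w))).smul (-1)
      have h8 : mk g hLg = mk (fun J x => vB * w.1 J x) h6
          + mk (fun J x => (-1) * K1 (frm (dM 2 w)) J x) h7 := mk_add h6 h7 hLg
      have h9 : mk (fun J x => vB * w.1 J x) h6 = vB • SL 2 w := mk_smul vB (SM_LL w) h6
      have h10 : mk (fun J x => (-1) * K1 (frm (dM 2 w)) J x) h7
          = (-1 : ℝ) • SL 2 (K1M (dM 2 w)) := mk_smul (-1) (SM_LL (K1M (dM 2 w))) h7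
      rw [h8, h9, h10]
      simp
    rw [e, norm_neg]
    refine (norm_le_of_enorm_sq (h4 (dM 2 w))).trans ?_
    gcongr
    exact le_max_right _ _

lemma approxW_low : ∃ D : ℝ, 0 ≤ D ∧ ∀ w : SM 1, ∃ u g, ∃ γ : ℝ, (u, g) ∈ GS 0 ∧
    ‖u‖ ≤ D * wn w ∧ ‖g - vB • SL 1 w + γ • Theta‖ ≤ D * ‖SL 2 (dM 1 w)‖ := by
  obtain ⟨C1, h1⟩ := K1_intW 0
  obtain ⟨C2, h2⟩ := K2_intW 0
  obtain ⟨C3, h3⟩ := R0_intW
  obtain ⟨C4, h4⟩ := int_frmW 1
  obtain ⟨C5, h5⟩ := K1_int 1
  obtain ⟨C6, h6⟩ := K2_int 1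
  obtain ⟨C7, h7⟩ := R3_int
  obtain ⟨C8, h8⟩ := int_frm 2
  set κ : ℝ := 1 / (2 * Real.pi) with hκ
  set E1 : ℝ≥0 := (Fintype.card (Idx 0) : ℝ≥0) * ((4 * (C1 + 4 * (C2 + C3))) * C4) with hE1
  set E2 : ℝ≥0 := (Fintype.card (Idx 1) : ℝ≥0) *
    ((4 * (C5 + 4 * (C6 + (Real.toNNReal κ) ^ 2 * C7))) * C8) with hE2
  set D := max (Real.sqrt E1) (Real.sqrt E2) with hD
  refine ⟨D, (Real.sqrt_nonneg _).trans (le_max_left _ _), fun w => ?_⟩
  set f := frm w with hfdef
  have hf : ContDiff ℝ ∞ f := contDiff_frm w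
  have hdf : ContDiff ℝ ∞ (extDeriv f) := contDiff_extDeriv_frm w
  have hedf : extDeriv f = frm (dM 1 w) := extDeriv_frm w
  have hf2 : ContDiff ℝ ∞ (frm (dM 1 w)) := contDiff_frm _
  obtain ⟨B0, hB0, hB0'⟩ := exists_lin_bound (contDiff_ab0 hf) (ab0_zero _)
  have hRs := contDiffOn_Rad_snd (contDiff_ab0 hf)
  obtain ⟨B1, hB1, hB1'⟩ := exists_bound_T (contDiff_K1 hf idx0).continuous
  obtain ⟨B2, hB2, hB2'⟩ := exists_bound_T (contDiff_K2 hf idx0).continuous
  obtain ⟨B3, hB3, hB3'⟩ := exists_bound_T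
    ((contDiff_cper hf).comp contDiff_snd : ContDiff ℝ ∞ fun x : ℂ × ℂ => cper f x.2).continuous
  set γ := cper f (1 / 2) with hγ
  set U : Idx 0 → ℂ × ℂ → ℝ := fun I x => K1 f I x + ((-1) * K2 f I x + Rad (ab0 f) x.2) with hU
  set g : Idx 1 → ℂ × ℂ → ℝ := fun J x => vB * w.1 J x + ((-1) * K1 (frm (dM 1 w)) J x
    + (K2 (frm (dM 1 w)) J x + (-κ) * (cper f x.2 * thc J x))) with hg
  have hUs : ∀ I, ContDiffOn ℝ ∞ (U I) {x | x.2 ≠ 0} := fun I =>
    (contDiff_K1 hf I).contDiffOn.add ((contDiff_const.mul (contDiff_K2 hf I)).contDiffOn.add hRs)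
  have hUb : ∀ I, ∀ x ∈ Hartogs, |U I x| ≤ (B1 + (B2 + B0)) * ‖x.2‖⁻¹ := by
    intro I x hx
    rw [idx0_unique I]
    have hxA : x.2 ∈ Ann 0 1 := by
      have := hx; rw [← Om_zero_one] at this; exact this.1
    have e1 := hB1' x hx
    have e2 := hB2' x hx
    have e3 := Rad_bound hB0 hB0' hxA
    have e4 : |U idx0 x| ≤ B1 + (B2 + B0) := by
      refine (abs_add_le _ _).trans (add_le_add e1 ((abs_add_le _ _).trans (add_le_add ?_ e3)))
      rw [neg_one_mul, abs_neg]; exact e2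
    exact e4.trans (le_mul_inv hx (by positivity))
  have hLU : LL U := fun I => memLp_of_bound ((hUs I).continuousOn.mono fun x hx => Hartogs_ne hx)
    (hUb I)
  have hthcH : ∀ J : Idx 1, ContinuousOn (thc J) Hartogs := fun J =>
    (contDiffOn_thc_Hartogs J).continuousOn
  have hLct : LL (fun (J : Idx 1) x => cper f x.2 * thc J x) := fun J =>
    memLp_of_bound (C := B3)
      ((((contDiff_cper hf).comp contDiff_snd).continuous.continuousOn).mul (hthcH J)) (by
        intro x hx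
        rw [abs_mul]
        exact mul_le_mul (hB3' x hx) (abs_thc_le J x) (abs_nonneg _) hB3)
  have hLK1 : LL (fun (J : Idx 1) x => (-1) * K1 (frm (dM 1 w)) J x) := (SM_LL (K1M (dM 1 w))).smul (-1)
  have hLK2 : LL (fun (J : Idx 1) x => K2 (frm (dM 1 w)) J x) := SM_LL (K2M (dM 1 w))
  have hLw : LL (fun (J : Idx 1) x => vB * w.1 J x) := (SM_LL w).smul vB
  have hLg : LL g := hLw.add (hLK1.add (hLK2.add (hLct.smul (-κ))))
  have hdU : ∀ x ∈ Hartogs, ∀ J, dT U J x = g J x := by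
    intro x hx J
    have hx' : x ∈ Om 0 1 := by rw [Om_zero_one]; exact hx
    have d1 : ∀ I, DifferentiableAt ℝ (K1 f I) x := fun I =>
      (contDiff_K1 hf I).differentiable (by simp) x
    have d2 : ∀ I, DifferentiableAt ℝ (K2 f I) x := fun I =>
      (contDiff_K2 hf I).differentiable (by simp) x
    have d2' : ∀ I : Idx 0, DifferentiableAt ℝ (fun x => (-1) * K2 f I x) x := fun I =>
      (d2 I).const_mul _
    have d3 : DifferentiableAt ℝ (fun x : ℂ × ℂ => Rad (ab0 f) x.2) x :=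
      (hRs.contDiffAt (isOpen_ne.mem_nhds (Hartogs_ne hx))).differentiableAt (by simp)
    have hR : dT (fun (_ : Idx 0) (x : ℂ × ℂ) => Rad (ab0 f) x.2) J x
        = PA f J x - 1 / (2 * Real.pi) * K3 f idx0 x * dth (frame (J 0)).2 x.2 := by
      rw [dT_zero]
      exact dT_base0 le_rfl (by norm_num) (by norm_num) hf.contDiffOn hx' J idx0
    rw [hU, dT_add d1 (v := fun I x => (-1) * K2 f I x + Rad (ab0 f) x.2)
        (fun I => (d2' I).add d3),
      dT_add (u := fun I x => (-1) * K2 f I x) (v := fun _ x => Rad (ab0 f) x.2) d2'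
        (fun _ => d3), dT_smul _ d2, dT_K1g hf hdf, dT_K2g hf hdf, hR, K3_eq_cper, hedf, hfdef,
        frm_frame]
    simp only [hg, thc, hκ]
    ring
  refine ⟨mk U hLU, mk g hLg, κ * γ, lemmaW hUs (by positivity) hUb hLU hdU hLg, ?_, ?_⟩
  · have e1 : ‖mk U hLU‖ₑ ^ 2 ≤ E1 * ‖mk (wtu w) (wtu_LL w)‖ₑ ^ 2 := by
      refine bound_chain (mk_bound hLU fun I => ?_) le_rfl (h4 w)
      have e2 := h1 0 1 le_rfl (by norm_num) le_rfl f hf.continuous I
      have e3 := h2 0 1 le_rfl (by norm_num) le_rfl f hf.continuous I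
      have e4 := h3 0 1 le_rfl (by norm_num) (by norm_num) le_rfl f hf
      rw [Om_zero_one] at e2 e3 e4
      refine (int_add_bound _ ((contDiff_K1 hf I).continuous.aemeasurable)).trans ?_
      push_cast
      rw [mul_assoc, add_mul]
      gcongr
      refine (int_add_bound _ ((contDiff_const.mul (contDiff_K2 hf I)).continuous.aemeasurable)).trans ?_
      rw [mul_assoc, add_mul]
      gcongr
      refine le_trans (le_of_eq ?_) e3
      refine lintegral_congr fun x => ?_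
      rw [neg_one_mul, enorm_neg]
    refine (norm_le_of_enorm_sq e1).trans ?_
    change _ ≤ _ * ‖mk (wtu w) (wtu_LL w)‖
    gcongr
    exact le_max_left _ _
  · set r : Idx 1 → ℂ × ℂ → ℝ := fun J x => (-1) * K1 (frm (dM 1 w)) J x
      + (K2 (frm (dM 1 w)) J x + (-κ) * (Rad (bper f) x.2 * thc J x)) with hr
    have hLth : LL (thc : Idx 1 → ℂ × ℂ → ℝ) := fun J => memLp_thc J
    have hTh : mk (thc : Idx 1 → ℂ × ℂ → ℝ) hLth = Theta := rfl
    have hRb : ∀ x ∈ Hartogs, Rad (bper f) x.2 = cper f x.2 - γ := fun x hx =>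
      Rad_bper hf (Hartogs_ne hx)
    have hLgT : LL (fun J x => g J x + ((-vB) * w.1 J x + (κ * γ) * thc J x)) :=
      hLg.add (((SM_LL w).smul (-vB)).add (hLth.smul (κ * γ)))
    have hLr : LL r := by
      refine hLgT.congr ?_
      intro x hx J
      simp only [hg, hr, hRb x hx]
      ring
    have e : mk g hLg - vB • SL 1 w + (κ * γ) • Theta = mk r hLr := by
      have h9 : mk (fun J x => g J x + ((-vB) * w.1 J x + (κ * γ) * thc J x)) hLgT = mk r hLr := by
        refine mk_congr _ _ ?_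
        intro x hx J
        simp only [hg, hr, hRb x hx]
        ring
      rw [← h9]
      have h10 : mk (fun J x => (-vB) * w.1 J x) ((SM_LL w).smul (-vB)) = (-vB) • SL 1 w :=
        mk_smul (-vB) (SM_LL w) _
      have h11 : mk (fun (J : Idx 1) x => (κ * γ) * thc J x) (hLth.smul (κ * γ)) = (κ * γ) • Theta :=
        mk_smul (κ * γ) hLth _
      rw [mk_add hLg (((SM_LL w).smul (-vB)).add (hLth.smul (κ * γ))) hLgT,
        mk_add ((SM_LL w).smul (-vB)) (hLth.smul (κ * γ)), h10, h11, neg_smul]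
      abel
    rw [e]
    have e1 : ‖mk r hLr‖ₑ ^ 2 ≤ E2 * ‖SL 2 (dM 1 w)‖ₑ ^ 2 := by
      refine bound_chain (mk_bound hLr fun J => ?_) le_rfl (h8 (dM 1 w))
      have e2 := h5 0 1 le_rfl (by norm_num) le_rfl (frm (dM 1 w)) hf2.continuous J
      have e3 := h6 0 1 le_rfl (by norm_num) le_rfl (frm (dM 1 w)) hf2.continuous J
      have e4 := h7 f hf hdf J
      rw [hedf] at e4
      rw [Om_zero_one] at e2 e3
      refine (int_add_bound _ ((contDiff_const.mul (contDiff_K1 hf2 J)).continuous.aemeasurable)).trans ?_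
      push_cast
      rw [mul_assoc, add_mul]
      gcongr
      · refine le_trans (le_of_eq ?_) e2
        refine lintegral_congr fun x => ?_
        rw [neg_one_mul, enorm_neg]
      refine (int_add_bound _ ((contDiff_K2 hf2 J).continuous.aemeasurable)).trans ?_
      rw [mul_assoc, add_mul]
      gcongr
      have hκκ : ‖(-κ : ℝ)‖ₑ = (κ.toNNReal : ℝ≥0∞) := by
        rw [enorm_neg, ← ofReal_norm, Real.norm_of_nonneg (by positivity)]
        rfl
      simp_rw [enorm_mul (-κ), mul_pow]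
      rw [hκκ, lintegral_const_mul' _ _ (ENNReal.pow_ne_top ENNReal.coe_ne_top), mul_assoc]
      gcongr
    refine (norm_le_of_enorm_sq e1).trans ?_
    gcongr
    exact le_max_right _ _

end Pool.Agent.H631R3
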