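import Pool.Agent.H631R3.Sol
import Pool.Agent.H631R3.StrW

/-! Compactness of the solution operators. -/

open scoped ContDiff Topology ENNReal NNReal
open MeasureTheory Set Filter

noncomputable section

namespace Pool.Agent.H631R3

instance fact2 : Fact ((2 : ℝ≥0∞) ≠ ⊤) := ⟨by norm_num⟩

instance sepL2 (q : ℕ) : TopologicalSpace.SeparableSpace (L2 q) := by
  have : SecondCountableTopology (L2 q) := inferInstance
  infer_instance

/-- smoothing estimate for the canonical solution operator -/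
def EST (n : ℕ) (D : Submodule ℝ (L2 n × L2 (n + 1))) (S : L2 (n + 1) →L[ℝ] L2 n) : Prop :=
  ∃ C : ℝ, 0 ≤ C ∧ ∀ ε : ℝ, 0 < ε → ε ≤ 1 / 8 → ∀ u v, (u, v) ∈ D → ∀ δ : ℝ, 0 < δ →
    ∃ w : SM (n + 1), ‖SL (n + 1) w - v‖ < δ ∧
      ‖S v‖ ≤ C * (wn (RM ε (n + 1) w) + ε * ‖SL (n + 1) w‖ + δ)

lemma compact_of_EST {n : ℕ} {D : Submodule ℝ (L2 n × L2 (n + 1))} {S : L2 (n + 1) →L[ℝ] L2 n}
    (hR : IsClosed {v : L2 (n + 1) | ∃ u, (u, v) ∈ D}) (hS : IsSol D S) (hE : EST n D S) :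
    IsCompactOperator S := by
  obtain ⟨C, hC0, hC⟩ := hE
  have : CompleteSpace (rng D) := (isClosed_rng hR).completeSpace_coe
  refine compact_of_weak S ?_
  rintro v ⟨B, hB⟩ hv
  have hB0 : 0 ≤ B := (norm_nonneg _).trans (hB 0)
  set v' : ℕ → L2 (n + 1) := fun k => (rng D).starProjection (v k) with hv'
  have hSv : ∀ k, S (v k) = S (v' k) := by
    intro k
    have h1 : S (v k - v' k) = 0 := by
      refine hS.zero _ fun u g hug => ?_
      exact Submodule.starProjection_inner_eq_zero (v k) g (mem_rng.2 ⟨u, hug⟩)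
    rw [map_sub] at h1
    exact sub_eq_zero.1 h1
  have hv'B : ∀ k, ‖v' k‖ ≤ B := fun k =>
    (Submodule.norm_starProjection_apply_le (rng D) (v k)).trans (hB k)
  have hv'w : ∀ p, Tendsto (fun k => inner ℝ p (v' k)) atTop (𝓝 0) := by
    intro p
    refine (hv ((rng D).starProjection p)).congr fun k => ?_
    exact Submodule.inner_starProjection_left_eq_right _ p (v k)
  have hv'D : ∀ k, ∃ u, (u, v' k) ∈ D := fun k => mem_rng.1 (Submodule.starProjection_apply_mem _ _)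
  simp_rw [hSv]
  rw [Metric.tendsto_atTop]
  intro η hη
  set ε := min (1 / 8) (η / (4 * (C + 1) * (B + 1))) with hε
  have hε0 : 0 < ε := lt_min (by norm_num) (by positivity)
  have hε8 : ε ≤ 1 / 8 := min_le_left _ _
  have hεη : ε * (4 * (C + 1) * (B + 1)) ≤ η := by
    have := min_le_right (1 / 8) (η / (4 * (C + 1) * (B + 1)))
    rwa [← hε, le_div_iff₀ (by positivity)] at this
  have hδ : ∀ k : ℕ, (0 : ℝ) < 1 / ((k : ℝ) + 1) := fun k => by positivity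
  choose u hu using hv'D
  choose w hw1 hw2 using fun k => hC ε hε0 hε8 (u k) (v' k) (hu k) (1 / ((k : ℝ) + 1)) (hδ k)
  have hd : Tendsto (fun k : ℕ => 1 / ((k : ℝ) + 1)) atTop (𝓝 0) :=
    tendsto_one_div_add_atTop_nhds_zero_nat (𝕜 := ℝ)
  have hd1 : ∀ k : ℕ, 1 / ((k : ℝ) + 1) ≤ 1 := fun k => by
    rw [div_le_one (by positivity)]; linarith [(Nat.cast_nonneg k : (0 : ℝ) ≤ k)]
  have hdiff : Tendsto (fun k => SL (n + 1) (w k) - v' k) atTop (𝓝 0) := by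
    rw [tendsto_zero_iff_norm_tendsto_zero]
    exact squeeze_zero (fun _ => norm_nonneg _) (fun k => (hw1 k).le) hd
  have hwB : ∀ k, ‖SL (n + 1) (w k)‖ ≤ B + 1 := by
    intro k
    have e : SL (n + 1) (w k) = v' k + (SL (n + 1) (w k) - v' k) := by abel
    rw [e]
    refine (norm_add_le _ _).trans (add_le_add (hv'B k) ((hw1 k).le.trans (hd1 k)))
  have hww : ∀ p : L2 (n + 1), Tendsto (fun k => inner ℝ p (SL (n + 1) (w k))) atTop (𝓝 0) := by
    intro p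
    have h1 : Tendsto (fun k => inner ℝ p (v' k) + inner ℝ p (SL (n + 1) (w k) - v' k)) atTop
        (𝓝 (0 + inner ℝ p 0)) := (hv'w p).add ((continuous_const.inner continuous_id).tendsto _ |>.comp hdiff)
    rw [inner_zero_right, add_zero] at h1
    refine h1.congr fun k => ?_
    rw [← inner_add_right]
    congr 1
    abel
  have hsm := smoothing hε0 hε8 hwB hww
  have hlim : Tendsto (fun k : ℕ => C * (wn (RM ε (n + 1) (w k)) + 1 / ((k : ℝ) + 1))) atTop (𝓝 0) := by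
    have := (hsm.add hd).const_mul C
    simpa using this
  have hev := hlim.eventually (gt_mem_nhds (show (0 : ℝ) < η / 2 by positivity))
  obtain ⟨N, hN⟩ := eventually_atTop.1 hev
  refine ⟨N, fun k hk => ?_⟩
  rw [dist_zero_right]
  have h2 := hN k hk
  have h3 : C * (ε * ‖SL (n + 1) (w k)‖) ≤ η / 4 := by
    calc C * (ε * ‖SL (n + 1) (w k)‖) ≤ (C + 1) * (ε * (B + 1)) := by
          gcongr
          · linarith
          · exact hwB k
      _ = ε * (4 * (C + 1) * (B + 1)) / 4 := by ring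
      _ ≤ η / 4 := by gcongr
  calc ‖S (v' k)‖ ≤ C * (wn (RM ε (n + 1) (w k)) + ε * ‖SL (n + 1) (w k)‖ + 1 / ((k : ℝ) + 1)) := hw2 k
    _ = C * (wn (RM ε (n + 1) (w k)) + 1 / ((k : ℝ) + 1)) + C * (ε * ‖SL (n + 1) (w k)‖) := by ring
    _ < η := by linarith

/-- the strong estimate from approximate solutions with a remainder -/
lemma EST_strong_of {n : ℕ} {S : L2 (n + 1) →L[ℝ] L2 n} (hS : IsSol (GS n) S)
    {Λ : SM (n + 1) → ℝ} {D E : ℝ} (hD0 : 0 ≤ D) (hE0 : 0 ≤ E)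
    (hD : ∀ w : SM (n + 1), ∃ u g, (u, g) ∈ GS n ∧ ‖u‖ ≤ D * wn w ∧
      ‖g - vB • SL (n + 1) w‖ ≤ D * (‖SL (n + 2) (dM (n + 1) w)‖ + Λ w))
    (hΛ : ∀ ε : ℝ, 0 < ε → ε ≤ 1 / 8 → ∀ u v, (u, v) ∈ GS n → ∀ w : SM (n + 1),
      Λ (RM ε (n + 1) w) ≤ E * (‖SL (n + 1) w - v‖ + ‖SL (n + 2) (dM (n + 1) w)‖)) :
    EST n (GS n) S := by
  obtain ⟨D1, hD10, hD1⟩ := RM_bound (n + 2)
  obtain ⟨D2, hD20, hD2⟩ := HM_bound (n + 1)
  obtain ⟨D3, hD30, hD3⟩ := HM_bound n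
  have hvB := vB_pos
  have hvQ := vQ_pos
  set F : ℝ := vQ + vB⁻¹ * (D * (D1 + 2 * E)) + D2 with hF
  have hF0 : 0 ≤ F := by positivity
  set C : ℝ := vQ⁻¹ * (vB⁻¹ * D + D3 + ‖S‖ * F) with hC
  refine ⟨C, by positivity, fun ε hε hε8 u0 v huv δ hδ => ?_⟩
  obtain ⟨w, hw1, hw2⟩ := exists_smooth (GS_comp n u0 v huv) hδ
  refine ⟨w, hw1, ?_⟩
  obtain ⟨u', g', hug, hu', hg'⟩ := hD (RM ε (n + 1) w)
  set a := vB⁻¹ • u' - SL n (HM ε w) with ha
  set b := vB⁻¹ • g' - SL (n + 1) (dM n (HM ε w)) with hb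
  have hab : (a, b) ∈ GS n := (GS n).sub_mem ((GS n).smul_mem vB⁻¹ hug) (mem_GS (HM ε w))
  set z := vQ • v - b with hz
  have hzD : (S z, z) ∈ GS n := hS.mem (vQ • u0 - a) z ((GS n).sub_mem ((GS n).smul_mem vQ huv) hab)
  have hvD : (S v, v) ∈ GS n := hS.mem u0 v huv
  set X := vQ • S v - S z with hX
  have hκ : (X - a, (0 : L2 (n + 1))) ∈ GS n := by
    have h1 := (GS n).sub_mem ((GS n).sub_mem ((GS n).smul_mem vQ hvD) hzD) hab
    have h2 : vQ • (S v, v) - (S z, z) - (a, b) = (X - a, (0 : L2 (n + 1))) := by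
      rw [hX, hz]
      ext1
      · rfl
      · change vQ • v - (vQ • v - b) - b = 0
        abel
    rw [h2] at h1
    exact h1
  have hXperp : inner ℝ X (X - a) = 0 := by
    rw [hX, inner_sub_left, real_inner_smul_left, hS.perp v _ hκ, hS.perp z _ hκ]
    ring
  have hXa : ‖X‖ ≤ ‖a‖ := by
    rw [inner_sub_right, real_inner_self_eq_norm_sq] at hXperp
    have h1 := abs_real_inner_le_norm X a
    have h2 : ‖X‖ ^ 2 ≤ ‖X‖ * ‖a‖ := by
      have := le_abs_self (inner ℝ X a)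
      linarith
    rcases eq_or_lt_of_le (norm_nonneg X) with h3 | h3
    · rw [← h3]; exact norm_nonneg _
    · rw [sq] at h2
      exact le_of_mul_le_mul_left h2 h3
  have ha1 : ‖a‖ ≤ vB⁻¹ * (D * wn (RM ε (n + 1) w)) + D3 * (ε * ‖SL (n + 1) w‖) := by
    refine (norm_sub_le _ _).trans (add_le_add ?_ (hD3 ε hε.le hε8 w))
    rw [norm_smul, Real.norm_of_nonneg (by positivity)]
    gcongr
  have hz1 : ‖z‖ ≤ F * δ := by
    have e : z = - (vQ • (SL (n + 1) w - v)) - vB⁻¹ • (g' - vB • SL (n + 1) (RM ε (n + 1) w))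
        - SL (n + 1) (HM ε (dM (n + 1) w)) := by
      rw [hz, hb, dM_HM hε.le, map_sub, map_sub, map_smul, smul_sub, smul_sub, smul_smul,
        inv_mul_cancel₀ hvB.ne', one_smul]
      abel
    rw [e]
    have h1 : ‖- (vQ • (SL (n + 1) w - v))‖ ≤ vQ * δ := by
      rw [norm_neg, norm_smul, Real.norm_of_nonneg hvQ.le]; gcongr
    have h2 : ‖vB⁻¹ • (g' - vB • SL (n + 1) (RM ε (n + 1) w))‖ ≤ vB⁻¹ * (D * (D1 * δ + E * (δ + δ))) := by
      rw [norm_smul, Real.norm_of_nonneg (by positivity)]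
      gcongr
      refine hg'.trans ?_
      gcongr
      · rw [dM_RM hε.le]
        exact (hD1 ε hε.le hε8 _).trans (by gcongr)
      · exact (hΛ ε hε hε8 u0 v huv w).trans (by gcongr)
    have h3 : ‖SL (n + 1) (HM ε (dM (n + 1) w))‖ ≤ D2 * (1 * δ) := by
      refine (hD2 ε hε.le hε8 _).trans ?_
      gcongr
      linarith
    calc _ ≤ ‖- (vQ • (SL (n + 1) w - v)) - vB⁻¹ • (g' - vB • SL (n + 1) (RM ε (n + 1) w))‖
          + ‖SL (n + 1) (HM ε (dM (n + 1) w))‖ := norm_sub_le _ _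
      _ ≤ (‖- (vQ • (SL (n + 1) w - v))‖ + ‖vB⁻¹ • (g' - vB • SL (n + 1) (RM ε (n + 1) w))‖)
          + ‖SL (n + 1) (HM ε (dM (n + 1) w))‖ := by gcongr; exact norm_sub_le _ _
      _ ≤ (vQ * δ + vB⁻¹ * (D * (D1 * δ + E * (δ + δ)))) + D2 * (1 * δ) := by gcongr
      _ = F * δ := by rw [hF]; ring
  have hSv : vQ * ‖S v‖ ≤ ‖a‖ + ‖S‖ * (F * δ) := by
    have h1 : vQ * ‖S v‖ = ‖X + S z‖ := by
      rw [hX, sub_add_cancel, norm_smul, Real.norm_of_nonneg hvQ.le]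
    rw [h1]
    refine (norm_add_le _ _).trans (add_le_add hXa ?_)
    exact (S.le_opNorm z).trans (by gcongr)
  have hwn : 0 ≤ wn (RM ε (n + 1) w) := norm_nonneg _
  have h5 : ‖S v‖ ≤ vQ⁻¹ * (vB⁻¹ * (D * wn (RM ε (n + 1) w)) + D3 * (ε * ‖SL (n + 1) w‖) + ‖S‖ * (F * δ)) := by
    rw [inv_mul_eq_div, le_div_iff₀ hvQ]
    linarith
  refine h5.trans ?_
  rw [hC, mul_assoc]
  gcongr vQ⁻¹ * ?_
  have i1 : 0 ≤ vB⁻¹ * D := by positivity
  have i2 : 0 ≤ ‖S‖ * F := by positivity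
  have i3 : 0 ≤ ε * ‖SL (n + 1) w‖ := by positivity
  have e : (vB⁻¹ * D + D3 + ‖S‖ * F) * (wn (RM ε (n + 1) w) + ε * ‖SL (n + 1) w‖ + δ)
      = vB⁻¹ * (D * wn (RM ε (n + 1) w)) + D3 * (ε * ‖SL (n + 1) w‖) + ‖S‖ * (F * δ)
      + ((vB⁻¹ * D) * (ε * ‖SL (n + 1) w‖) + (vB⁻¹ * D) * δ + D3 * wn (RM ε (n + 1) w) + D3 * δ
      + (‖S‖ * F) * wn (RM ε (n + 1) w) + (‖S‖ * F) * (ε * ‖SL (n + 1) w‖)) := by ring
  rw [e]
  have i4 : 0 ≤ (vB⁻¹ * D) * (ε * ‖SL (n + 1) w‖) + (vB⁻¹ * D) * δ + D3 * wn (RM ε (n + 1) w) + D3 * δ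
      + (‖S‖ * F) * wn (RM ε (n + 1) w) + (‖S‖ * F) * (ε * ‖SL (n + 1) w‖) := by positivity
  linarith

end Pool.Agent.H631R3
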