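import Pool.Agent.H631R3.Kop

/-! Two special families of linear maps. -/

open scoped ContDiff Topology
open MeasureTheory Set Filter

noncomputable section

namespace Pool.Agent.H631R3

/-- the map `(z₁, z₂) ↦ (a z₁ + b z₂, c z₂)` -/
def M (a b c : ℂ) : (ℂ × ℂ) →L[ℝ] (ℂ × ℂ) :=
  ((ContinuousLinearMap.mul ℝ ℂ a).comp (ContinuousLinearMap.fst ℝ ℂ ℂ)
    + (ContinuousLinearMap.mul ℝ ℂ b).comp (ContinuousLinearMap.snd ℝ ℂ ℂ)).prod
    ((ContinuousLinearMap.mul ℝ ℂ c).comp (ContinuousLinearMap.snd ℝ ℂ ℂ))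

lemma M_apply (a b c : ℂ) (z : ℂ × ℂ) : M a b c z = (a * z.1 + b * z.2, c * z.2) := rfl

/-- `M` as a linear map -/
def Mlin : (ℂ × ℂ × ℂ) →L[ℝ] ((ℂ × ℂ) →L[ℝ] (ℂ × ℂ)) :=
  LinearMap.toContinuousLinearMap
    { toFun := fun p => M p.1 p.2.1 p.2.2
      map_add' := by
        intro p q
        ext z <;> simp [M_apply] <;> ring
      map_smul' := by
        intro r p
        ext z <;> simp [M_apply] <;> ring }

lemma Mlin_apply (p : ℂ × ℂ × ℂ) : Mlin p = M p.1 p.2.1 p.2.2 := rfl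

lemma contDiff_M {P : Type*} [NormedAddCommGroup P] [NormedSpace ℝ P] {a b c : P → ℂ}
    (ha : ContDiff ℝ ∞ a) (hb : ContDiff ℝ ∞ b) (hc : ContDiff ℝ ∞ c) :
    ContDiff ℝ ∞ (fun p => M (a p) (b p) (c p)) := by
  have e : (fun p => M (a p) (b p) (c p)) = fun p => Mlin (a p, b p, c p) := rfl
  rw [e]
  exact Mlin.contDiff.comp (ha.prodMk (hb.prodMk hc))

lemma hasDerivAt_M {a b c : ℝ → ℂ} {a' b' c' : ℂ} {t : ℝ}
    (ha : HasDerivAt a a' t) (hb : HasDerivAt b b' t) (hc : HasDerivAt c c' t) :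
    HasDerivAt (fun p => M (a p) (b p) (c p)) (M a' b' c') t := by
  have e : (fun p => M (a p) (b p) (c p)) = fun p => Mlin (a p, b p, c p) := rfl
  have e' : M a' b' c' = Mlin (a', b', c') := rfl
  rw [e, e']
  exact Mlin.hasFDerivAt.comp_hasDerivAt t (ha.prodMk (hb.prodMk hc))

/-- the disc over which we average -/
abbrev BB : Set ℂ := Metric.closedBall (0 : ℂ) (1 / 2)

lemma isCompact_BB : IsCompact BB := isCompact_closedBall _ _

lemma ftc_fubini {a b : ℝ} (hab : a ≤ b) {Ψ Ψ' : ℝ × ℂ → ℝ}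
    (hc : ContinuousOn Ψ' (Icc a b ×ˢ BB))
    (hd : ∀ t ∈ Icc a b, ∀ y ∈ BB, HasDerivAt (fun s => Ψ (s, y)) (Ψ' (t, y)) t) :
    ∫ p in Icc a b ×ˢ BB, Ψ' p = ∫ y in BB, (Ψ (b, y) - Ψ (a, y)) := by
  have hK : IsCompact (Icc a b ×ˢ BB) := isCompact_Icc.prod isCompact_BB
  have hint : IntegrableOn Ψ' (Icc a b ×ˢ BB) (volume.prod volume) :=
    hc.integrableOn_compact hK
  have e0 : (∫ p in Icc a b ×ˢ BB, Ψ' p) = ∫ p in Icc a b ×ˢ BB, Ψ' p ∂(volume.prod volume) := rfl
  rw [e0, setIntegral_prod _ hint]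
  rw [integral_integral_swap (f := fun t y => Ψ' (t, y))]
  · refine setIntegral_congr_fun isCompact_BB.isClosed.measurableSet fun y hy => ?_
    have hcy : ContinuousOn (fun t => Ψ' (t, y)) (Icc a b) :=
      hc.comp (by fun_prop) (fun t ht => ⟨ht, hy⟩)
    rw [integral_Icc_eq_integral_Ioc, ← intervalIntegral.integral_of_le hab]
    refine intervalIntegral.integral_eq_sub_of_hasDerivAt
      (f := fun t => Ψ (t, y)) (f' := fun t => Ψ' (t, y)) ?_ ?_
    · intro t ht
      rw [uIcc_of_le hab] at ht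
      exact hd t ht y hy
    · apply ContinuousOn.intervalIntegrable
      rw [uIcc_of_le hab]
      exact hcy
  · rw [IntegrableOn, ← Measure.prod_restrict] at hint
    exact hint

/-- the pullback of a form by a linear map, evaluated on a frame -/
def pull {q : ℕ} (f : ℂ × ℂ → Form q) (A : (ℂ × ℂ) →L[ℝ] (ℂ × ℂ)) (J : Idx q) (x : ℂ × ℂ) : ℝ :=
  f (A x) (fun j => A (frame (J j)))

/-- the exterior derivative of a tuple of coefficients -/
def dT {n : ℕ} (u : Idx n → ℂ × ℂ → ℝ) (J : Idx (n + 1)) (x : ℂ × ℂ) : ℝ :=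
  ∑ i : Fin (n + 1), (-1 : ℝ) ^ (i : ℕ) * fderiv ℝ (u (face J i)) x (frame (J i))

section pull

variable {P : Type*} [NormedAddCommGroup P] [NormedSpace ℝ P]

lemma contDiffOn_pull {q : ℕ} {f : ℂ × ℂ → Form q} {V : Set (ℂ × ℂ)}
    (hf : ContDiffOn ℝ ∞ f V) {A : P → (ℂ × ℂ) →L[ℝ] (ℂ × ℂ)} (hA : ContDiff ℝ ∞ A) (J : Idx q) :
    ContDiffOn ℝ ∞ (fun r : P × (ℂ × ℂ) => pull f (A r.1) J r.2)
      {r : P × (ℂ × ℂ) | A r.1 r.2 ∈ V} := by
  have h1 : ContDiff ℝ ∞ (fun r : P × (ℂ × ℂ) => A r.1 r.2) :=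
    (hA.comp contDiff_fst).clm_apply contDiff_snd
  apply contDiffOn_eval
  · exact hf.comp h1.contDiffOn fun r hr => hr
  · apply ContDiff.contDiffOn
    rw [contDiff_pi]
    intro j
    exact (hA.comp contDiff_fst).clm_apply contDiff_const

end pull

section ident

variable {a b : ℝ} (hab : a ≤ b) {n : ℕ} {f : ℂ × ℂ → Form (n + 1)} {V U : Set (ℂ × ℂ)}
  (hV : IsOpen V) (hU : IsOpen U) (hf : ContDiffOn ℝ ∞ f V)
  {A dA : ℝ × ℂ → (ℂ × ℂ) →L[ℝ] (ℂ × ℂ)} (hA : ContDiff ℝ ∞ A)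
  (hdA : ContDiff ℝ ∞ dA) (hder : ∀ t y, HasDerivAt (fun s => A (s, y)) (dA (t, y)) t)
  (hAU : ∀ p ∈ Icc a b ×ˢ BB, ∀ x ∈ U, A p x ∈ V)
  {w w' : ℝ → ℝ} (hw : ContDiff ℝ ∞ w) (hw' : Continuous w') (hww : ∀ t, HasDerivAt w (w' t) t)

include hab hV hU hf hA hdA hder hAU hw hw' hww

lemma dT_Kop_eq {x : ℂ × ℂ} (hx : x ∈ U) (hcl : ∀ p ∈ Icc a b ×ˢ BB, extDeriv f (A p x) = 0)
    (J : Idx (n + 1)) :
    dT (Kop volume (Icc a b ×ˢ BB) A (fun p => w p.1 • dA p) f) J x
      = (∫ y in BB, (w b * pull f (A (b, y)) J x - w a * pull f (A (a, y)) J x))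
        - ∫ p in Icc a b ×ˢ BB, w' p.1 * pull f (A p) J x := by
  have hK : IsCompact (Icc a b ×ˢ BB) := isCompact_Icc.prod isCompact_BB
  have hA' : ContDiff ℝ ∞ (fun p : ℝ × ℂ => w p.1 • dA p) := (hw.comp contDiff_fst).smul hdA
  have h1 := d_Kop (μ := (volume : Measure (ℝ × ℂ))) hK hV hU hf hA hA' hAU hx J
  unfold dT
  rw [h1]
  have hms : MeasurableSet (Icc a b ×ˢ BB) := hK.isClosed.measurableSet
  have hder2 : ∀ p ∈ Icc a b ×ˢ BB, HasDerivAt (fun s => pull f (A (s, p.2)) J x)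
      (fderiv ℝ f (A p x) (dA p x) (fun j => A p (frame (J j)))
        + ∑ i : Fin (n + 1), f (A p x)
          (Function.update (fun j => A p (frame (J j))) i (dA p (frame (J i))))) p.1 := by
    intro p hp
    exact hasDerivAt_pull (A := fun s => A (s, p.2)) (A' := fun s => dA (s, p.2)) (hder p.1 p.2)
      ((hf.contDiffAt (hV.mem_nhds (hAU p hp x hx))).differentiableAt (by simp)) J
  have hpc : ContinuousOn (fun p : ℝ × ℂ => pull f (A p) J x) (Icc a b ×ˢ BB) :=
    (contDiffOn_pull hf hA J).continuousOn.comp (f := fun p : ℝ × ℂ => (p, x)) (by fun_prop)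
      (fun p hp => hAU p hp x hx)
  have hpc' : ContinuousOn (fun p : ℝ × ℂ => fderiv ℝ f (A p x) (dA p x)
      (fun j => A p (frame (J j)))
        + ∑ i : Fin (n + 1), f (A p x)
          (Function.update (fun j => A p (frame (J j))) i (dA p (frame (J i)))))
            (Icc a b ×ˢ BB) := by
    have hAc : ContinuousOn (fun p : ℝ × ℂ => A p x) (Icc a b ×ˢ BB) :=
      (hA.continuous.clm_apply continuous_const).continuousOn
    have hfc : ContinuousOn (fun p : ℝ × ℂ => f (A p x)) (Icc a b ×ˢ BB) :=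
      hf.continuousOn.comp hAc (fun p hp => hAU p hp x hx)
    have hfc' : ContinuousOn (fun p : ℝ × ℂ => fderiv ℝ f (A p x) (dA p x)) (Icc a b ×ˢ BB) :=
      ((hf.continuousOn_fderiv_of_isOpen hV (by simp)).comp hAc
        (fun p hp => hAU p hp x hx)).clm_apply
        (hdA.continuous.clm_apply continuous_const).continuousOn
    have hev : ∀ {q : ℕ} {F : ℝ × ℂ → Form q} {v : ℝ × ℂ → Fin q → ℂ × ℂ},
        ContinuousOn F (Icc a b ×ˢ BB) → Continuous v →
        ContinuousOn (fun p => F p (v p)) (Icc a b ×ˢ BB) := by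
      intro q F v hF hv
      have : (fun p => F p (v p)) = fun p => ∑ I : Idx q, evalAt (frame ∘ I) (F p)
          * detForm I (v p) := by
        funext p; rw [form_apply_eq_sum]; rfl
      rw [this]
      refine continuousOn_finsetSum _ fun I _ => ?_
      exact ((evalAt (frame ∘ I)).continuous.comp_continuousOn hF).mul
        ((contDiff_detForm I).continuous.comp hv).continuousOn
    have hvA : ∀ v : ℂ × ℂ, Continuous fun p : ℝ × ℂ => A p v := fun v =>
      hA.continuous.clm_apply continuous_const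
    have hvdA : ∀ v : ℂ × ℂ, Continuous fun p : ℝ × ℂ => dA p v := fun v =>
      hdA.continuous.clm_apply continuous_const
    apply ContinuousOn.add
    · exact hev hfc' (continuous_pi fun j => hvA _)
    · refine continuousOn_finsetSum _ fun i _ => ?_
      refine hev hfc ?_
      exact (continuous_pi fun j => hvA _).update i (hvdA _)
  have h2 : ∫ p in Icc a b ×ˢ BB, (fderiv ℝ f (A p x) ((w p.1 • dA p) x)
        (fun j => A p (frame (J j)))
        + ∑ i : Fin (n + 1), f (A p x)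
          (Function.update (fun j => A p (frame (J j))) i ((w p.1 • dA p) (frame (J i))))
        - kern (extDeriv f) (A p) (w p.1 • dA p) J x)
      = ∫ p in Icc a b ×ˢ BB, ((w' p.1 * pull f (A p) J x
        + w p.1 * (fderiv ℝ f (A p x) (dA p x) (fun j => A p (frame (J j)))
        + ∑ i : Fin (n + 1), f (A p x)
          (Function.update (fun j => A p (frame (J j))) i (dA p (frame (J i))))))
          - w' p.1 * pull f (A p) J x) := by
    refine setIntegral_congr_fun hms fun p hp => ?_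
    have hk : kern (extDeriv f) (A p) (w p.1 • dA p) J x = 0 := by
      unfold kern; rw [hcl p hp]; rfl
    simp only [hk, sub_zero]
    have e1 : ∀ i : Fin (n + 1), f (A p x)
          (Function.update (fun j => A p (frame (J j))) i ((w p.1 • dA p) (frame (J i))))
        = w p.1 * f (A p x)
          (Function.update (fun j => A p (frame (J j))) i (dA p (frame (J i)))) := by
      intro i
      rw [ContinuousLinearMap.smul_apply, ContinuousAlternatingMap.map_update_smul, smul_eq_mul]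
    simp_rw [e1]
    rw [← Finset.mul_sum]
    simp only [ContinuousLinearMap.smul_apply, map_smul, ContinuousAlternatingMap.smul_apply,
      smul_eq_mul]
    ring
  rw [h2]
  have hw1 : ContinuousOn (fun p : ℝ × ℂ => w' p.1) (Icc a b ×ˢ BB) :=
    (hw'.comp continuous_fst).continuousOn
  have hw2 : ContinuousOn (fun p : ℝ × ℂ => w p.1) (Icc a b ×ˢ BB) :=
    (hw.continuous.comp continuous_fst).continuousOn
  rw [integral_sub]
  · congr 1
    refine ftc_fubini (Ψ := fun p => w p.1 * pull f (A p) J x) hab ?_ ?_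
    · exact (hw1.mul hpc).add (hw2.mul hpc')
    · intro t ht y hy
      exact (hww t).mul (hder2 (t, y) ⟨ht, hy⟩)
  · exact ((hw1.mul hpc).add (hw2.mul hpc')).integrableOn_compact hK
  · exact (hw1.mul hpc).integrableOn_compact hK

end ident

end Pool.Agent.H631R3
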