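import Pool.Agent.H631R3.Defs

/-!
# The Hodge theorem on the Hartogs triangle: statement

Closed, densely defined operators are described by their graphs.
-/

open scoped ContDiff Topology
open MeasureTheory Set Filter

noncomputable section

namespace Pool.Agent.H631R3

/-- `AdjointRel D g f`: the pair `(g, f)` is in the graph of the Hilbert space adjoint of the
operator with graph `D`. -/
def AdjointRel {q : ℕ} (D : L2 q → L2 (q + 1) → Prop) (g : L2 (q + 1)) (f : L2 q) : Prop :=
  ∀ u v, D u v → inner ℝ g v = inner ℝ f u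

/-- `Laplacian D q f h`: the form `f` is in the domain of `D D* + D* D` on `q`-forms and its image
is `h`. In degree `0` this is `D* D`. -/
def Laplacian (D : ∀ q, L2 q → L2 (q + 1) → Prop) : ∀ q : ℕ, L2 q → L2 q → Prop
  | 0, f, h => ∃ u, D 0 f u ∧ AdjointRel (D 0) u h
  | q + 1, f, h => ∃ a b u v, AdjointRel (D q) f a ∧ D q a b ∧ D (q + 1) f u ∧
      AdjointRel (D (q + 1)) u v ∧ h = b + v

lemma isOpen_Hartogs' : IsOpen Hartogs :=
  (isOpen_lt (continuous_norm.comp continuous_fst) (continuous_norm.comp continuous_snd)).inter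
    (isOpen_lt (continuous_norm.comp continuous_snd) continuous_const)

/-- `α` is smooth on the Hartogs triangle and `dα = 0` there (values outside are irrelevant). -/
def IsClosedForm {q : ℕ} (α : ℂ × ℂ → Form q) : Prop :=
  ContDiffOn ℝ ∞ α Hartogs ∧ ∀ x ∈ Hartogs, extDeriv α x = 0

/-- `α = dη` on the Hartogs triangle for some `η` smooth there; in degree `0`: `α = 0` there. -/
def IsExactForm : ∀ {q : ℕ}, (ℂ × ℂ → Form q) → Prop
  | 0, α => ∀ x ∈ Hartogs, α x = 0
  | q + 1, α => ∃ η : ℂ × ℂ → Form q, ContDiffOn ℝ ∞ η Hartogs ∧ ∀ x ∈ Hartogs, α x = extDeriv η x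

lemma IsClosedForm.add {q : ℕ} {α η : ℂ × ℂ → Form q} (hα : IsClosedForm α)
    (hη : IsClosedForm η) : IsClosedForm (α + η) := by
  obtain ⟨h1, h2⟩ := hα
  obtain ⟨h3, h4⟩ := hη
  refine ⟨h1.add h3, fun x hx => ?_⟩
  have d1 : DifferentiableAt ℝ α x :=
    (h1.contDiffAt (isOpen_Hartogs'.mem_nhds hx)).differentiableAt (by simp)
  have d2 : DifferentiableAt ℝ η x :=
    (h3.contDiffAt (isOpen_Hartogs'.mem_nhds hx)).differentiableAt (by simp)
  rw [extDeriv_add d1 d2, h2 x hx, h4 x hx, add_zero]

lemma extDeriv_zero' {q : ℕ} (x : ℂ × ℂ) : extDeriv (0 : ℂ × ℂ → Form q) x = 0 := by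
  have h := extDeriv_smul (x := x) (0 : ℝ) (0 : ℂ × ℂ → Form q)
  rwa [zero_smul, zero_smul] at h

lemma IsClosedForm.zero {q : ℕ} : IsClosedForm (0 : ℂ × ℂ → Form q) :=
  ⟨contDiffOn_const, fun x _ => extDeriv_zero' x⟩

lemma IsClosedForm.smul {q : ℕ} (c : ℝ) {α : ℂ × ℂ → Form q} (hα : IsClosedForm α) :
    IsClosedForm (c • α) := by
  refine ⟨contDiffOn_const.smul hα.1, fun x hx => ?_⟩
  rw [extDeriv_smul, hα.2 x hx, smul_zero]

lemma IsExactForm.add {q : ℕ} {α η : ℂ × ℂ → Form q} (hα : IsExactForm α)
    (hη : IsExactForm η) : IsExactForm (α + η) := by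
  rcases q with _ | q
  · intro x hx
    rw [Pi.add_apply, hα x hx, hη x hx, add_zero]
  · obtain ⟨ξ, h1, h2⟩ := hα
    obtain ⟨ξ', h3, h4⟩ := hη
    refine ⟨ξ + ξ', h1.add h3, fun x hx => ?_⟩
    have d1 : DifferentiableAt ℝ ξ x :=
      (h1.contDiffAt (isOpen_Hartogs'.mem_nhds hx)).differentiableAt (by simp)
    have d2 : DifferentiableAt ℝ ξ' x :=
      (h3.contDiffAt (isOpen_Hartogs'.mem_nhds hx)).differentiableAt (by simp)
    rw [extDeriv_add d1 d2, ← h2 x hx, ← h4 x hx]
    rfl

lemma IsExactForm.zero {q : ℕ} : IsExactForm (0 : ℂ × ℂ → Form q) := by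
  rcases q with _ | q
  · intro x _; rfl
  · exact ⟨0, contDiffOn_const, fun x _ => by rw [extDeriv_zero']; rfl⟩

lemma IsExactForm.smul {q : ℕ} (c : ℝ) {α : ℂ × ℂ → Form q} (hα : IsExactForm α) :
    IsExactForm (c • α) := by
  rcases q with _ | q
  · intro x hx
    rw [Pi.smul_apply, hα x hx, smul_zero]
  · obtain ⟨ξ, h1, h2⟩ := hα
    refine ⟨c • ξ, contDiffOn_const.smul h1, fun x hx => ?_⟩
    rw [extDeriv_smul, ← h2 x hx]
    rfl

/-- The space of smooth closed `q`-forms on the Hartogs triangle. -/
def closedForms (q : ℕ) :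
    @Submodule ℝ (ℂ × ℂ → Form q) _ AddCommGroup.toAddCommMonoid inferInstance where
  carrier := {α | IsClosedForm α}
  add_mem' := IsClosedForm.add
  zero_mem' := IsClosedForm.zero
  smul_mem' := fun c _ h => h.smul c

/-- The space of exact `q`-forms on the Hartogs triangle. -/
def exactForms (q : ℕ) :
    @Submodule ℝ (ℂ × ℂ → Form q) _ AddCommGroup.toAddCommMonoid inferInstance where
  carrier := {α | IsExactForm α}
  add_mem' := IsExactForm.add
  zero_mem' := IsExactForm.zero
  smul_mem' := fun c _ h => h.smul c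

/-- The de Rham cohomology of the Hartogs triangle in degree `q`: closed forms modulo exact
forms. -/
def DeRham (q : ℕ) : Type := closedForms q ⧸ (exactForms q).submoduleOf (closedForms q)

instance instGroupDeRham (q : ℕ) : AddCommGroup (DeRham q) :=
  Submodule.Quotient.addCommGroup ((exactForms q).submoduleOf (closedForms q))

instance instModuleDeRham (q : ℕ) : Module ℝ (DeRham q) :=
  Submodule.Quotient.module ((exactForms q).submoduleOf (closedForms q))

/-- The de Rham class of a closed form. -/
def deRhamClass {q : ℕ} (α : closedForms q) : DeRham q := Submodule.Quotient.mk α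

/-- The class `h` of square integrable forms is represented by the pointwise defined form `α`. -/
def Represents {q : ℕ} (α : ℂ × ℂ → Form q) (h : L2 q) : Prop :=
  ∀ᵐ z ∂((volume : Measure (ℂ × ℂ)).restrict Hartogs), h z = coef (α z)

/-- `c` is the de Rham class of `h`: the form `h` has a representative which is smooth and closed
in the interior, and `c` is the class of any such representative. -/
def IsClassOf {q : ℕ} (c : DeRham q) (h : L2 q) : Prop :=
  (∃ α : closedForms q, Represents α.1 h) ∧
    ∀ α : closedForms q, Represents α.1 h → c = deRhamClass α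

/-- The real vector space `K`, mapped by `i` to square integrable `q`-forms, represents the de Rham
cohomology: the forms `i h` have representatives which are smooth and closed in the interior, and
the map sending `h` to the de Rham class of `i h` is a linear isomorphism of `K` onto the de Rham
cohomology. -/
def RepresentsCohomology (q : ℕ) {K : Type} [AddCommMonoid K] [Module ℝ K] (i : K → L2 q) : Prop :=
  ∃ Φ : K ≃ₗ[ℝ] DeRham q, ∀ h : K, IsClassOf (Φ h) (i h)

/-- `K` is the kernel of the Laplacian on `q`-forms. -/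
def IsKernel (D : ∀ q, L2 q → L2 (q + 1) → Prop) (q : ℕ) (K : Submodule ℝ (L2 q)) : Prop :=
  ∀ h : L2 q, h ∈ K ↔ Laplacian D q h 0

/-- The Hodge theorem on the Hartogs triangle for the Laplacian of the operators with graphs `D`:
for every `q` the Laplacian on `q`-forms has closed range, and its kernel represents the de Rham
cohomology. -/
def HodgeTheorem (D : ∀ q, L2 q → L2 (q + 1) → Prop) : Prop :=
  ∀ q : ℕ, IsClosed {h : L2 q | ∃ f, Laplacian D q f h} ∧
    ∃ K : Submodule ℝ (L2 q), IsKernel D q K ∧ RepresentsCohomology q (fun h : K => h.1)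

end Pool.Agent.H631R3
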