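import Pool.Agent.H631R3.Cplx
import Pool.Agent.H631R3.Stmt

/-! From a good complex to the Hodge theorem. -/

open scoped ContDiff Topology ENNReal NNReal
open MeasureTheory Set Filter

noncomputable section

namespace Pool.Agent.H631R3

lemma graph_equiv {A B : Type} [AddCommGroup A] [Module ℝ A] [AddCommGroup B] [Module ℝ B]
    {K : Submodule ℝ A} (Γ : Submodule ℝ (A × B))
    (h1 : ∀ k ∈ K, ∃ v, (k, v) ∈ Γ) (h2 : ∀ v, (0, v) ∈ Γ → v = 0)
    (h3 : ∀ v, ∃ k ∈ K, (k, v) ∈ Γ) (h4 : ∀ k ∈ K, (k, 0) ∈ Γ → k = 0) :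
    ∃ Φ : K ≃ₗ[ℝ] B, ∀ (k : K) (v : B), (k.1, v) ∈ Γ → Φ k = v := by
  have u1 : ∀ k v v', (k, v) ∈ Γ → (k, v') ∈ Γ → v = v' := by
    intro k v v' h h'
    have := Γ.sub_mem h h'
    rw [Prod.mk_sub_mk, sub_self] at this
    exact sub_eq_zero.1 (h2 _ this)
  have u2 : ∀ k k' v, k ∈ K → k' ∈ K → (k, v) ∈ Γ → (k', v) ∈ Γ → k = k' := by
    intro k k' v hk hk' h h'
    have := Γ.sub_mem h h'
    rw [Prod.mk_sub_mk, sub_self] at this
    exact sub_eq_zero.1 (h4 _ (K.sub_mem hk hk') this)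
  choose f hfΓ using h1
  choose g hgK hgΓ using h3
  refine ⟨{ toFun := fun k => f k.1 k.2
            invFun := fun v => ⟨g v, hgK v⟩
            map_add' := ?_, map_smul' := ?_, left_inv := ?_, right_inv := ?_ }, ?_⟩
  · intro k k'
    refine u1 (k.1 + k'.1) _ _ (hfΓ _ (K.add_mem k.2 k'.2)) ?_
    exact Γ.add_mem (hfΓ k.1 k.2) (hfΓ k'.1 k'.2)
  · intro c k
    refine u1 (c • k.1) _ _ (hfΓ _ (K.smul_mem c k.2)) ?_
    exact Γ.smul_mem c (hfΓ k.1 k.2)
  · intro k
    apply Subtype.ext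
    exact u2 _ _ _ (hgK _) k.2 (hgΓ _) (hfΓ k.1 k.2)
  · intro v
    exact u1 _ _ _ (hfΓ _ _) (hgΓ v)
  · intro k v hkv
    exact u1 _ _ _ (hfΓ k.1 k.2) hkv

/-- the axioms of a complex for which the Hodge theorem follows -/
structure GoodComplex (G : ∀ q, Submodule ℝ (L2 q × L2 (q + 1))) : Prop where
  closed : ∀ q, IsClosed (G q : Set (L2 q × L2 (q + 1)))
  comp : ∀ q u v, (u, v) ∈ G q → (v, (0 : L2 (q + 2))) ∈ G (q + 1)
  sub : ∀ q u v, (u, v) ∈ G q → WeakD u v
  solve1 : ∀ v : L2 1, (v, 0) ∈ G 1 → inner ℝ v (TL 1 psi8) = 0 → ∃ u, (u, v) ∈ G 0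
  solve : ∀ n (v : L2 (n + 2)), (v, 0) ∈ G (n + 2) → ∃ u, (u, v) ∈ G (n + 1)
  theta : (Theta, 0) ∈ G 1
  const : ∀ f : L2 0, (∃ c : ℝ, ∀ᵐ z ∂μT, f z idx0 = c) → (f, 0) ∈ G 0

section good

variable {G : ∀ q, Submodule ℝ (L2 q × L2 (q + 1))} (hG : GoodComplex G)

include hG

lemma GoodComplex.range_closed (q : ℕ) : IsClosed {v : L2 (q + 1) | ∃ u, (u, v) ∈ G q} := by
  rcases q with _ | q
  · have : {v : L2 1 | ∃ u, (u, v) ∈ G 0}
        = (fun v => (v, (0 : L2 2))) ⁻¹' (G 1 : Set (L2 1 × L2 2)) ∩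
          {v | inner ℝ v (TL 1 psi8) = 0} := by
      ext v
      constructor
      · rintro ⟨u, hu⟩
        exact ⟨hG.comp 0 u v hu, weakD_test (hG.sub 0 u v hu)⟩
      · rintro ⟨h1, h2⟩
        exact hG.solve1 v h1 h2
    rw [this]
    exact ((hG.closed 1).preimage (by fun_prop)).inter (isClosed_eq (by fun_prop) continuous_const)
  · have : {v : L2 (q + 2) | ∃ u, (u, v) ∈ G (q + 1)}
        = (fun v => (v, (0 : L2 (q + 3)))) ⁻¹' (G (q + 2) : Set (L2 (q + 2) × L2 (q + 3))) := by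
      ext v
      constructor
      · rintro ⟨u, hu⟩
        exact hG.comp (q + 1) u v hu
      · intro h
        exact hG.solve q v h
    rw [this]
    exact (hG.closed (q + 2)).preimage (by fun_prop)

omit hG in
/-- the zero relation used in degree zero -/
lemma lap_zero_iff (f h : L2 0) : Laplacian (fun q f g => (f, g) ∈ G q) 0 f h ↔
    LapR (fun a b => (a, b) ∈ ((⊤ : Submodule ℝ (L2 0)).prod (⊥ : Submodule ℝ (L2 0))))
      (fun a b => (a, b) ∈ G 0) f h := by
  constructor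
  · rintro ⟨u, h1, h2⟩
    refine ⟨0, 0, u, h, ?_, Submodule.zero_mem _, h1, h2, by simp⟩
    intro x y hxy
    have : y = 0 := hxy.2
    rw [this, inner_zero_right, inner_zero_left]
  · rintro ⟨a, b, u, v, _, h2, h3, h4, h5⟩
    have : b = 0 := h2.2
    rw [this, zero_add] at h5
    rw [h5]
    exact ⟨u, h3, h4⟩

omit hG in
lemma lap_succ_iff (q : ℕ) (f h : L2 (q + 1)) : Laplacian (fun q f g => (f, g) ∈ G q) (q + 1) f h ↔
    LapR (fun a b => (a, b) ∈ G q) (fun a b => (a, b) ∈ G (q + 1)) f h := Iff.rfl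

lemma GoodComplex.lap_closed_range (q : ℕ) :
    IsClosed {h : L2 q | ∃ f, Laplacian (fun q f g => (f, g) ∈ G q) q f h} := by
  rcases q with _ | q
  · simp_rw [lap_zero_iff]
    refine lap_closed ?_ (hG.closed 0) ?_ (hG.range_closed 0) ?_
    · have : (((⊤ : Submodule ℝ (L2 0)).prod (⊥ : Submodule ℝ (L2 0))) : Set (L2 0 × L2 0))
        = {p | p.2 = 0} := by
        ext p
        simp
      rw [this]
      exact isClosed_eq continuous_snd continuous_const
    · have : {v : L2 0 | ∃ u, (u, v) ∈ (⊤ : Submodule ℝ (L2 0)).prod (⊥ : Submodule ℝ (L2 0))}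
        = {0} := by
        ext v
        simp [Submodule.mem_prod]
      rw [this]
      exact isClosed_singleton
    · intro u v huv
      have : v = 0 := huv.2
      rw [this]
      exact (G 0).zero_mem
  · exact lap_closed (hG.closed q) (hG.closed (q + 1)) (hG.range_closed q)
      (hG.range_closed (q + 1)) (hG.comp q)

lemma GoodComplex.ker_zero_iff (h : L2 0) :
    Laplacian (fun q f g => (f, g) ∈ G q) 0 h 0 ↔ ∃ c : ℝ, ∀ᵐ z ∂μT, h z idx0 = c := by
  rw [lap_zero_iff, lap_ker]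
  constructor
  · rintro ⟨h1, _⟩
    exact ker_zero (hG.sub 0 _ _ h1)
  · intro h1
    refine ⟨hG.const h h1, fun a b hab => ?_⟩
    have : b = 0 := hab.2
    rw [this, inner_zero_right]

lemma GoodComplex.ker_one_iff (h : L2 1) :
    Laplacian (fun q f g => (f, g) ∈ G q) 1 h 0 ↔ ∃ c : ℝ, h = c • Theta := by
  rw [lap_succ_iff, lap_ker]
  have hperp : ∀ a b, (a, b) ∈ G 0 → inner ℝ Theta b = 0 := fun a b hab => by
    rw [real_inner_comm]; exact Theta_perp (hG.sub 0 a b hab)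
  have hne : inner ℝ Theta (TL 1 psi8) ≠ 0 := by
    rw [inner_Theta_TL]; exact thc_psi8
  constructor
  · rintro ⟨h1, h2⟩
    set c : ℝ := inner ℝ h (TL 1 psi8) / inner ℝ Theta (TL 1 psi8) with hc
    refine ⟨c, ?_⟩
    have h3 : (h - c • Theta, (0 : L2 2)) ∈ G 1 := by
      have := (G 1).sub_mem h1 ((G 1).smul_mem c hG.theta)
      simpa using this
    obtain ⟨u, hu⟩ := hG.solve1 _ h3 (by
      rw [inner_sub_left, inner_smul_left, hc]
      simp only [conj_trivial]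
      rw [div_mul_cancel₀ _ hne, sub_self])
    have h4 : inner ℝ (h - c • Theta) (h - c • Theta) = 0 := by
      have e1 := h2 u _ hu
      have e2 := hperp u _ hu
      rw [inner_sub_left, inner_smul_left, e1, e2, mul_zero, sub_zero]
    exact sub_eq_zero.1 (inner_self_eq_zero.1 h4)
  · rintro ⟨c, rfl⟩
    refine ⟨?_, fun a b hab => ?_⟩
    · have := (G 1).smul_mem c hG.theta
      simpa using this
    · rw [inner_smul_left, hperp a b hab, mul_zero]

lemma GoodComplex.ker_high_iff (q : ℕ) (h : L2 (q + 2)) :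
    Laplacian (fun q f g => (f, g) ∈ G q) (q + 2) h 0 ↔ h = 0 := by
  rw [lap_succ_iff, lap_ker]
  constructor
  · rintro ⟨h1, h2⟩
    obtain ⟨u, hu⟩ := hG.solve q h h1
    exact inner_self_eq_zero.1 (h2 u h hu)
  · rintro rfl
    exact ⟨(G (q + 2)).zero_mem, fun a b _ => inner_zero_left _⟩

end good

end Pool.Agent.H631R3
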