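import Pool.Agent.H631R3.Final

/-! Representation of de Rham cohomology by harmonic forms. -/

open scoped ContDiff Topology ENNReal NNReal
open MeasureTheory Set Filter

noncomputable section

namespace Pool.Agent.H631R3

lemma coef_apply {q : ℕ} (α : Form q) (J : Idx q) : coef α J = α (frame ∘ J) := rfl

lemma eq_zero_of_rep {q : ℕ} {α : ℂ × ℂ → Form q} (hα : ContDiffOn ℝ ∞ α Hartogs)
    (h : Represents α (0 : L2 q)) : ∀ x ∈ Hartogs, α x = 0 := by
  intro x hx
  apply form_ext
  intro J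
  have h1 : (fun z => α z (frame ∘ J)) =ᵐ[volume.restrict Hartogs] fun _ => 0 := by
    have h2 : ∀ᵐ z ∂μT, (0 : L2 q) z = 0 := Lp.coeFn_zero _ _ _
    filter_upwards [h, h2] with z hz hz0
    rw [hz0] at hz
    have := congrArg (fun c : Coef q => c J) hz
    exact this.symm
  have h3 : ContinuousOn (fun z => α z (frame ∘ J)) Hartogs :=
    (evalAt (frame ∘ J)).continuous.comp_continuousOn hα.continuousOn
  exact Measure.eqOn_open_of_ae_eq h1 isOpen_Hartogs h3 continuousOn_const hx

/-- pairs of a square integrable form and the class of a smooth closed representative -/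
def Gam (q : ℕ) : Submodule ℝ (L2 q × DeRham q) where
  carrier := {p | ∃ α : closedForms q, Represents α.1 p.1 ∧ deRhamClass α = p.2}
  add_mem' := by
    rintro ⟨h, c⟩ ⟨h', c'⟩ ⟨α, h2, h3⟩ ⟨α', h2', h3'⟩
    refine ⟨α + α', ?_, ?_⟩
    · have := Lp.coeFn_add h h'
      filter_upwards [h2, h2', this] with z hz hz' hz3
      simp only [Prod.mk_add_mk]
      rw [hz3, Pi.add_apply, hz, hz']
      rfl
    · have e1 : deRhamClass α = c := h3
      have e2 : deRhamClass α' = c' := h3'
      change deRhamClass (α + α') = c + c'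
      rw [← e1, ← e2]; rfl
  zero_mem' := by
    refine ⟨0, ?_, rfl⟩
    have := Lp.coeFn_zero (Coef q) 2 μT
    filter_upwards [this] with z hz
    simp only [Prod.fst_zero]
    rw [hz]
    rfl
  smul_mem' := by
    rintro a ⟨h, c⟩ ⟨α, h2, h3⟩
    refine ⟨a • α, ?_, ?_⟩
    · have := Lp.coeFn_smul a h
      filter_upwards [h2, this] with z hz hz3
      simp only [Prod.smul_mk]
      rw [hz3, Pi.smul_apply, hz]
      rfl
    · have e1 : deRhamClass α = c := h3
      change deRhamClass (a • α) = a • c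
      rw [← e1]; rfl

lemma class_eq {q : ℕ} {α β : closedForms q} (h : IsExactForm (α.1 - β.1)) :
    deRhamClass α = deRhamClass β :=
  (Submodule.Quotient.eq ((exactForms q).submoduleOf (closedForms q))).2 h

lemma class_eq_zero {q : ℕ} {α : closedForms q} : deRhamClass α = 0 ↔ IsExactForm α.1 :=
  Submodule.Quotient.mk_eq_zero ((exactForms q).submoduleOf (closedForms q))

lemma zero_mem_exact {q : ℕ} {α : ℂ × ℂ → Form q} (h : ∀ x ∈ Hartogs, α x = 0) :
    IsExactForm α := by
  rcases q with _ | q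
  · exact h
  · refine ⟨0, contDiffOn_const, fun x hx => ?_⟩
    rw [extDeriv_zero', h x hx]

lemma Gam_h2 {q : ℕ} (c : DeRham q) (h : ((0 : L2 q), c) ∈ Gam q) :
    c = 0 := by
  obtain ⟨α, h2, h3⟩ := h
  change deRhamClass α = c at h3
  rw [← h3, class_eq_zero]
  exact zero_mem_exact (eq_zero_of_rep α.2.1 h2)

/-- solving on the whole Hartogs triangle -/
lemma solve_Hartogs {n : ℕ} {α : ℂ × ℂ → Form (n + 1)} (hα : IsClosedForm α) :
    ∃ (η : ℂ × ℂ → Form n) (c : ℝ), ContDiffOn ℝ ∞ η Hartogs ∧ (n ≠ 0 → c = 0) ∧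
      ∀ x ∈ Hartogs, α x - c • toForm (fun J => thc J x) = extDeriv η x := by
  obtain ⟨C, hC⟩ := solvable n
  have hcl := hα.2
  have hsm := hα.1
  rw [← Om_zero_one] at hcl hsm ⊢
  obtain ⟨u, hu, ⟨c, hc, hdu⟩, _⟩ := hC 0 1 le_rfl (by norm_num) (by norm_num) le_rfl α hsm hcl
  refine ⟨fun x => toForm fun I => u I x, c, contDiff_toForm hu, hc, fun x hx => ?_⟩
  apply form_ext
  intro J
  rw [extDeriv_toForm (fun I => ((hu I).contDiffAt ((isOpen_Om 0 1).mem_nhds hx)).differentiableAt
    (by simp)), hdu x hx J]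
  simp only [ContinuousAlternatingMap.sub_apply, ContinuousAlternatingMap.smul_apply, smul_eq_mul]
  rw [toForm_frame]

lemma isPreconnected_Hartogs : IsPreconnected Hartogs := by
  rw [← Om_zero_one]; exact isPreconnected_Om le_rfl

lemma const_of_closed {α : ℂ × ℂ → Form 0} (hα : IsClosedForm α) :
    ∃ c : ℝ, ∀ x ∈ Hartogs, α x = toForm (fun _ => c) := by
  set u : Idx 0 → ℂ × ℂ → ℝ := fun I x => α x (frame ∘ I) with hu
  have hus : ∀ I, ContDiffOn ℝ ∞ (u I) Hartogs := fun I =>
    (evalAt (frame ∘ I)).contDiff.comp_contDiffOn hα.1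
  have hαu : α = fun x => toForm fun I => u I x := by
    funext x; exact (toForm_coef (α x)).symm
  obtain ⟨c, hc⟩ : ∃ c : ℝ, ∀ x ∈ Hartogs, u idx0 x = c := by
    refine isOpen_Hartogs.exists_is_const_of_fderiv_eq_zero isPreconnected_Hartogs
      ((hus idx0).differentiableOn (by simp)) ?_
    intro x hx
    refine fderiv_eq_zero_of_dT (fun J => ?_) idx0
    rw [← extDeriv_toForm (fun I => ((hus I).contDiffAt
      (isOpen_Hartogs.mem_nhds hx)).differentiableAt (by simp)) J, ← hαu, hα.2 x hx]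
    rfl
  refine ⟨c, fun x hx => ?_⟩
  apply form_ext
  intro J
  rw [toForm_frame, idx0_unique J]
  exact hc x hx

/-- constant zero-forms are closed -/
lemma const_closed (c : ℝ) : IsClosedForm (fun _ => toForm (fun _ => c) : ℂ × ℂ → Form 0) := by
  refine ⟨contDiffOn_const, fun x _ => ?_⟩
  apply form_ext
  intro J
  rw [extDeriv_toForm (u := fun (_ : Idx 0) (_ : ℂ × ℂ) => c) (fun I => differentiableAt_const _)]
  unfold dT
  simp

/-- the smooth form `dθ₂` -/
def thForm (x : ℂ × ℂ) : Form 1 := toForm fun J => thc J x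

lemma thForm_closed : IsClosedForm thForm := by
  refine ⟨contDiff_toForm fun J => contDiffOn_thc_Hartogs J, fun x hx => ?_⟩
  apply form_ext
  intro J
  unfold thForm
  rw [extDeriv_toForm (fun I => ((contDiffOn_thc_Hartogs I).contDiffAt
      (isOpen_Hartogs.mem_nhds hx)).differentiableAt (by simp)), dT_thc J (Hartogs_ne hx)]
  rfl

lemma thForm_rep : Represents thForm Theta := by
  filter_upwards [Theta_coe] with z hz
  rw [hz]
  ext J
  rw [tup_apply, coef_apply, thForm, toForm_frame]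

lemma thForm_not_exact {c : ℝ} (h : IsExactForm (c • thForm)) : c = 0 := by
  obtain ⟨η, h1, h2⟩ := h
  set u : Idx 0 → ℂ × ℂ → ℝ := fun I x => η x (frame ∘ I) with hu
  have hus : ∀ I, ContDiffOn ℝ ∞ (u I) Hartogs := fun I =>
    (evalAt (frame ∘ I)).contDiff.comp_contDiffOn h1
  have hηu : η = fun x => toForm fun I => u I x := by
    funext x; exact (toForm_coef (η x)).symm
  have hd : ∀ x ∈ Hartogs, ∀ v : ℂ × ℂ, fderiv ℝ (u idx0) x v = c * (v.2 / x.2).im := by
    intro x hx v
    have h3 : fderiv ℝ (u idx0) x - c • (Complex.imCLM.comp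
        (((ContinuousLinearMap.mul ℝ ℂ (x.2)⁻¹)).comp (ContinuousLinearMap.snd ℝ ℂ ℂ))) = 0 := by
      apply clm_eq_zero_of_frame
      intro j
      have h4 := congrArg (fun β : Form 1 => β (frame ∘ (idxOne.symm j))) (h2 x hx)
      simp only at h4
      rw [hηu, extDeriv_toForm (fun I => ((hus I).contDiffAt
        (isOpen_Hartogs.mem_nhds hx)).differentiableAt (by simp)), dT_zero,
        idx0_unique (face _ 0)] at h4
      rw [sub_apply]
      have h5 : (c • thForm) x (frame ∘ (idxOne.symm j)) = c * ((frame j).2 / x.2).im := by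
        change c * (thForm x (frame ∘ (idxOne.symm j))) = _
        unfold thForm
        rw [toForm_frame]
        rfl
      have h6 : fderiv ℝ (u idx0) x (frame j) = c * ((frame j).2 / x.2).im := by
        rw [← h5]; exact h4.symm
      rw [h6]
      simp [div_eq_mul_inv, mul_comm]
    have h7 := congrArg (fun L : (ℂ × ℂ) →L[ℝ] ℝ => L v) (sub_eq_zero.1 h3)
    rw [h7]
    simp [div_eq_mul_inv, mul_comm]
  set γ : ℝ → ℂ × ℂ := fun θ => (0, ex θ * (1 / 2)) with hγ
  have hγT : ∀ θ, γ θ ∈ Hartogs := by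
    intro θ
    constructor
    · simp [hγ, norm_ex]
    · simp only [hγ, norm_mul, norm_ex, one_mul]; norm_num
  have hγd : ∀ θ, HasDerivAt γ (0, Complex.I * ex θ * (1 / 2)) θ := fun θ =>
    (hasDerivAt_const _ _).prodMk ((hasDerivAt_ex θ).mul_const _)
  have hg : ∀ θ, HasDerivAt (fun θ => u idx0 (γ θ) - c * θ) 0 θ := by
    intro θ
    have h3 : DifferentiableAt ℝ (u idx0) (γ θ) := ((hus idx0).contDiffAt
      (isOpen_Hartogs.mem_nhds (hγT θ))).differentiableAt (by simp)
    have h4 : HasDerivAt (fun θ => u idx0 (γ θ))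
        (fderiv ℝ (u idx0) (γ θ) (0, Complex.I * ex θ * (1 / 2))) θ :=
      HasFDerivAt.comp_hasDerivAt (f := γ) θ h3.hasFDerivAt (hγd θ)
    have h5 : fderiv ℝ (u idx0) (γ θ) (0, Complex.I * ex θ * (1 / 2)) = c := by
      rw [hd _ (hγT θ)]
      have hex : ex θ ≠ 0 := norm_pos_iff.1 (by rw [norm_ex]; norm_num)
      have : Complex.I * ex θ * (1 / 2) / (γ θ).2 = Complex.I := by
        simp only [hγ]
        field_simp
      rw [this]
      simp
    rw [h5] at h4
    have h6 : HasDerivAt (fun θ : ℝ => c * θ) c θ := by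
      simpa using (hasDerivAt_id θ).const_mul c
    have := h4.sub h6
    rw [sub_self] at this
    exact this
  have hconst := is_const_of_deriv_eq_zero (fun θ => (hg θ).differentiableAt)
    (fun θ => (hg θ).deriv) (2 * Real.pi) 0
  have hper : γ (2 * Real.pi) = γ 0 := by
    simp [hγ, ex]
  rw [hper] at hconst
  have hpi := Real.pi_pos
  have : c * (2 * Real.pi) = 0 := by linarith
  rcases mul_eq_zero.1 this with h | h
  · exact h
  · exact absurd h (by positivity)

lemma rep_smul {q : ℕ} {α : ℂ × ℂ → Form q} {h : L2 q} (c : ℝ) (hr : Represents α h) :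
    Represents (c • α) (c • h) := by
  have := Lp.coeFn_smul c h
  filter_upwards [hr, this] with z hz hz3
  rw [hz3, Pi.smul_apply, hz]
  rfl

lemma rep_unique {q : ℕ} {α β : ℂ × ℂ → Form q} {h : L2 q} (hα : ContDiffOn ℝ ∞ α Hartogs)
    (hβ : ContDiffOn ℝ ∞ β Hartogs) (h1 : Represents α h) (h2 : Represents β h) :
    ∀ x ∈ Hartogs, α x = β x := by
  have h3 : Represents (α - β) (0 : L2 q) := by
    have := Lp.coeFn_zero (Coef q) 2 μT
    filter_upwards [h1, h2, this] with z hz1 hz2 hz0
    rw [hz0]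
    have h4 : coef (α z) = coef (β z) := by rw [← hz1, ← hz2]
    have h5 : coef ((α - β) z) = coef (α z) - coef (β z) := rfl
    rw [h5, h4, sub_self]
    rfl
  intro x hx
  exact sub_eq_zero.1 (eq_zero_of_rep (hα.sub hβ) h3 x hx)

theorem GoodComplex.hodge {G : ∀ q, Submodule ℝ (L2 q × L2 (q + 1))} (hG : GoodComplex G) :
    HodgeTheorem (fun q f g => (f, g) ∈ G q) := by
  intro q
  refine ⟨hG.lap_closed_range q, ?_⟩
  -- the kernel as a submodule
  obtain ⟨K, hK⟩ : ∃ K : Submodule ℝ (L2 q), ∀ h, h ∈ K ↔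
      Laplacian (fun q f g => (f, g) ∈ G q) q h 0 := by
    rcases q with _ | _ | q
    · refine ⟨{ carrier := {h | (h, (0 : L2 1)) ∈ G 0}
                add_mem' := fun h1 h2 => by simpa using (G 0).add_mem h1 h2
                zero_mem' := (G 0).zero_mem
                smul_mem' := fun c h h1 => by simpa using (G 0).smul_mem c h1 }, fun h => ?_⟩
      rw [hG.ker_zero_iff]
      exact ⟨fun h1 => ker_zero (hG.sub 0 _ _ h1), fun h1 => hG.const h h1⟩
    · refine ⟨Submodule.span ℝ {Theta}, fun h => ?_⟩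
      refine Iff.trans ?_ (hG.ker_one_iff h).symm
      refine Submodule.mem_span_singleton.trans ?_
      exact ⟨fun ⟨c, hc⟩ => ⟨c, hc.symm⟩, fun ⟨c, hc⟩ => ⟨c, hc.symm⟩⟩
    · refine ⟨⊥, fun h => ?_⟩
      rw [hG.ker_high_iff, Submodule.mem_bot]
  have hrep : ∀ h ∈ K, ∃ α : closedForms q, Represents α.1 h := by
    intro h hh
    rw [hK] at hh
    rcases q with _ | _ | q
    · obtain ⟨c, hc⟩ := (hG.ker_zero_iff h).1 hh
      refine ⟨⟨_, const_closed c⟩, ?_⟩
      filter_upwards [hc] with z hz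
      ext J
      rw [coef_apply, toForm_frame, idx0_unique J, hz]
    · obtain ⟨c, rfl⟩ := (hG.ker_one_iff h).1 hh
      exact ⟨⟨c • thForm, thForm_closed.smul c⟩, rep_smul c thForm_rep⟩
    · rw [hG.ker_high_iff] at hh
      subst hh
      exact ⟨⟨0, IsClosedForm.zero⟩, Lp.coeFn_zero (Coef (q + 2)) 2 μT⟩
  obtain ⟨Φ, hΦ⟩ := graph_equiv (K := K) (Gam q)
    (fun h hh => by
      obtain ⟨α, h2⟩ := hrep h hh
      exact ⟨_, α, h2, rfl⟩)
    (fun v h => Gam_h2 v h)
    (fun v => by
      obtain ⟨α, rfl⟩ := Submodule.Quotient.mk_surjective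
        ((exactForms q).submoduleOf (closedForms q)) v
      rcases q with _ | _ | q
      · obtain ⟨c, hc⟩ := const_of_closed α.2
        set h : L2 0 := (memLp_tup (μ := μT) (ψ := fun (_ : Idx 0) (_ : ℂ × ℂ) => c)
          fun J => memLp_const c).toLp _ with hh
        have hcoe : ∀ᵐ z ∂μT, h z = tup (fun (_ : Idx 0) (_ : ℂ × ℂ) => c) z :=
          MemLp.coeFn_toLp _
        refine ⟨h, ?_, α, ?_, rfl⟩
        · rw [hK, hG.ker_zero_iff]
          refine ⟨c, ?_⟩
          filter_upwards [hcoe] with z hz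
          rw [hz, tup_apply]
        · have h5 : ∀ᵐ z ∂μT, z ∈ Hartogs := ae_restrict_mem measurableSet_Hartogs
          filter_upwards [hcoe, h5] with z hz hzT
          rw [hz, hc z hzT]
          ext J
          rw [tup_apply, coef_apply, toForm_frame]
      · obtain ⟨η, c, h1, _, h3⟩ := solve_Hartogs α.2
        refine ⟨c • Theta, ?_, ⟨c • thForm, thForm_closed.smul c⟩, rep_smul c thForm_rep, ?_⟩
        · rw [hK]
          exact (hG.ker_one_iff _).2 ⟨c, rfl⟩
        · exact (class_eq (α := α) (β := ⟨c • thForm, thForm_closed.smul c⟩)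
            ⟨η, h1, fun x hx => h3 x hx⟩).symm
      · obtain ⟨η, c, h1, h2, h3⟩ := solve_Hartogs α.2
        have hc : c = 0 := h2 (Nat.succ_ne_zero q)
        refine ⟨0, K.zero_mem, ⟨0, IsClosedForm.zero⟩,
          Lp.coeFn_zero (Coef (q + 2)) 2 μT, ?_⟩
        refine (class_eq (α := α) (β := ⟨0, IsClosedForm.zero⟩) ⟨η, h1, fun x hx => ?_⟩).symm
        have := h3 x hx
        rw [hc, zero_smul] at this
        exact this)
    (fun h hh hz => by
      obtain ⟨α, h2, h3⟩ := hz
      have h3' : deRhamClass α = 0 := h3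
      rw [class_eq_zero] at h3'
      rw [hK] at hh
      rcases q with _ | _ | q
      · have h4 : ∀ᵐ z ∂μT, z ∈ Hartogs := ae_restrict_mem measurableSet_Hartogs
        apply Lp.ext
        have h5 := Lp.coeFn_zero (Coef 0) 2 μT
        filter_upwards [h2, h4, h5] with z hz hzT hz0
        rw [hz0, hz, h3' z hzT]
        rfl
      · obtain ⟨c, rfl⟩ := (hG.ker_one_iff h).1 hh
        have h4 := rep_unique α.2.1 (thForm_closed.smul c).1 h2
          (rep_smul c thForm_rep)
        have h5 : IsExactForm (c • thForm) := by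
          obtain ⟨η, h6, h7⟩ := h3'
          exact ⟨η, h6, fun x hx => by rw [← h4 x hx]; exact h7 x hx⟩
        rw [thForm_not_exact h5, zero_smul]
      · rw [hG.ker_high_iff] at hh
        exact hh)
  refine ⟨K, hK, Φ, fun h => ⟨hrep h.1 h.2, fun α hr => ?_⟩⟩
  exact hΦ h _ ⟨α, hr, rfl⟩

end Pool.Agent.H631R3
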