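import Pool.Agent.H631R3.Defs

/-! Coefficients of alternating forms. -/

open scoped ContDiff Topology
open MeasureTheory Set Filter

noncomputable section

namespace Pool.Agent.H631R3

/-- the standard frame as a basis -/
def frameBasis : Module.Basis (Fin 4) ℝ (ℂ × ℂ) :=
  (Complex.basisOneI.prod Complex.basisOneI).reindex (finSumFinEquiv (m := 2) (n := 2))

lemma frameBasis_apply (i : Fin 4) : frameBasis i = frame i := by
  fin_cases i
  · have : (finSumFinEquiv (m := 2) (n := 2)).symm (0 : Fin 4) = Sum.inl 0 := by decide
    simp [frameBasis, frame, this, Module.Basis.prod_apply, Complex.coe_basisOneI]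
  · have : (finSumFinEquiv (m := 2) (n := 2)).symm (1 : Fin 4) = Sum.inl 1 := by decide
    simp [frameBasis, frame, this, Module.Basis.prod_apply, Complex.coe_basisOneI]
  · have : (finSumFinEquiv (m := 2) (n := 2)).symm (2 : Fin 4) = Sum.inr 0 := by decide
    simp [frameBasis, frame, this, Module.Basis.prod_apply, Complex.coe_basisOneI]
  · have : (finSumFinEquiv (m := 2) (n := 2)).symm (3 : Fin 4) = Sum.inr 1 := by decide
    simp [frameBasis, frame, this, Module.Basis.prod_apply, Complex.coe_basisOneI]

lemma coe_frameBasis : (frameBasis : Fin 4 → ℂ × ℂ) = frame := funext frameBasis_apply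

/-- two forms with the same coefficients coincide -/
lemma form_ext {q : ℕ} {α η : Form q} (h : ∀ J : Idx q, α (frame ∘ J) = η (frame ∘ J)) :
    α = η := by
  have h1 : α.toAlternatingMap = η.toAlternatingMap := by
    refine Module.Basis.ext_alternating frameBasis fun v hv => ?_
    have hmono : StrictMono (v ∘ Tuple.sort v) :=
      (Tuple.monotone_sort v).strictMono_of_injective (hv.comp (Tuple.sort v).injective)
    have h2 := h (OrderEmbedding.ofStrictMono _ hmono)
    have e1 : (fun i => frameBasis (v i)) = frame ∘ v := by
      funext i; simp [frameBasis_apply]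
    have e2 : frame ∘ (OrderEmbedding.ofStrictMono _ hmono) = (frame ∘ v) ∘ Tuple.sort v := by
      funext i; simp
    rw [e2] at h2
    have h3 := α.toAlternatingMap.map_perm (frame ∘ v) (Tuple.sort v)
    have h4 := η.toAlternatingMap.map_perm (frame ∘ v) (Tuple.sort v)
    have h5 : α.toAlternatingMap ((frame ∘ v) ∘ Tuple.sort v)
        = η.toAlternatingMap ((frame ∘ v) ∘ Tuple.sort v) := h2
    rw [h3, h4] at h5
    rw [e1]
    exact smul_left_cancel _ h5
  ext v
  exact congrArg (fun f : (ℂ × ℂ) [⋀^Fin q]→ₗ[ℝ] ℝ => f v) h1

/-- the linear coordinates `(x_{j₁}, ..., x_{j_q})` -/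
def coordMap {q : ℕ} (I : Idx q) : (ℂ × ℂ) →L[ℝ] (Fin q → ℝ) :=
  ContinuousLinearMap.pi fun a => (frameBasis.coord (I a)).toContinuousLinearMap

lemma coordMap_frame {q : ℕ} (I : Idx q) (j : Fin 4) (a : Fin q) :
    coordMap I (frame j) a = if I a = j then 1 else 0 := by
  simp only [coordMap, ContinuousLinearMap.coe_pi', LinearMap.coe_toContinuousLinearMap',
    Module.Basis.coord_apply, ← frameBasis_apply, Module.Basis.repr_self]
  rw [Finsupp.single_apply]
  simp only [eq_comm]

/-- the form `dx_{j₁} ∧ ... ∧ dx_{j_q}` -/
def detForm {q : ℕ} (I : Idx q) : Form q :=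
  { (Matrix.detRowAlternating.compLinearMap (coordMap I).toLinearMap :
      (ℂ × ℂ) [⋀^Fin q]→ₗ[ℝ] ℝ) with
    cont := by
      have : Continuous fun v : Fin q → ℂ × ℂ =>
          Matrix.det (Matrix.of fun a => coordMap I (v a)) := by
        apply Continuous.matrix_det
        apply continuous_matrix
        intro i j
        exact (continuous_apply j).comp ((coordMap I).continuous.comp (continuous_apply i))
      exact this }

lemma detForm_apply {q : ℕ} (I : Idx q) (v : Fin q → ℂ × ℂ) :
    detForm I v = Matrix.det (Matrix.of fun a => coordMap I (v a)) := rfl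

lemma detForm_frame {q : ℕ} (I J : Idx q) :
    detForm I (frame ∘ J) = if I = J then 1 else 0 := by
  rw [detForm_apply]
  split_ifs with h
  · subst h
    have : (Matrix.of fun a => coordMap I ((frame ∘ I) a)) = (1 : Matrix (Fin q) (Fin q) ℝ) := by
      ext a b
      rw [Matrix.of_apply, Function.comp_apply, coordMap_frame, Matrix.one_apply]
      simp [I.injective.eq_iff, eq_comm]
    rw [this, Matrix.det_one]
  · obtain ⟨a, ha⟩ : ∃ a, ∀ b, I b ≠ J a := by
      by_contra hcon
      push Not at hcon
      apply h
      have hr : Set.range J ⊆ Set.range I := by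
        rintro _ ⟨a, rfl⟩
        obtain ⟨b, hb⟩ := hcon a
        exact ⟨b, hb⟩
      have hcard : (Finset.univ.image J).card = (Finset.univ.image I).card := by
        rw [Finset.card_image_of_injective _ J.injective,
          Finset.card_image_of_injective _ I.injective]
      have hsub : Finset.univ.image J ⊆ Finset.univ.image I := by
        intro x hx
        simp only [Finset.mem_image, Finset.mem_univ, true_and] at hx ⊢
        exact hr hx
      have heq := Finset.eq_of_subset_of_card_le hsub hcard.ge
      have hr2 : Set.range I = Set.range J := by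
        have := congrArg (fun s : Finset (Fin 4) => (s : Set (Fin 4))) heq
        simpa using this.symm
      ext a
      exact congrArg Fin.val (congrFun (I.strictMono.range_inj J.strictMono |>.1 hr2) a)
    apply Matrix.det_eq_zero_of_row_eq_zero a
    intro b
    rw [Matrix.of_apply, Function.comp_apply, coordMap_frame, if_neg (ha b)]

/-- the form with given coefficients -/
def toForm {q : ℕ} (c : Idx q → ℝ) : Form q := ∑ I, c I • detForm I

lemma toForm_frame {q : ℕ} (c : Idx q → ℝ) (J : Idx q) : toForm c (frame ∘ J) = c J := by
  rw [toForm, ContinuousAlternatingMap.sum_apply]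
  simp [detForm_frame]

lemma toForm_coef {q : ℕ} (α : Form q) : toForm (fun J => α (frame ∘ J)) = α :=
  form_ext fun J => toForm_frame _ J

end Pool.Agent.H631R3
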