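import Mathlib

/-! Abstract Hodge theory for closed complexes of relations between Hilbert spaces. -/

open scoped Topology
open Set

noncomputable section

namespace Pool.Agent.H631R3

lemma riesz_of_bound {M H : Type*} [AddCommGroup M] [Module ℝ M] [NormedAddCommGroup H]
    [InnerProductSpace ℝ H] [CompleteSpace H] (S : M →ₗ[ℝ] H) (l : M →ₗ[ℝ] ℝ) (C : ℝ)
    (h : ∀ m, |l m| ≤ C * ‖S m‖) : ∃ u : H, ∀ m, inner ℝ u (S m) = l m := by
  have hk : l ∈ (LinearMap.ker S).dualAnnihilator := by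
    rw [Submodule.mem_dualAnnihilator]
    intro m hm
    have h1 := h m
    rw [LinearMap.mem_ker.1 hm, norm_zero, mul_zero] at h1
    exact abs_eq_zero.1 (le_antisymm h1 (abs_nonneg _))
  rw [← LinearMap.range_dualMap_eq_dualAnnihilator_ker] at hk
  obtain ⟨g, hg⟩ := hk
  have hg' : ∀ m, g (S m) = l m := fun m => by rw [← hg]; rfl
  set gR : LinearMap.range S →ₗ[ℝ] ℝ := g.comp (LinearMap.range S).subtype with hgR
  have hb : ∀ x : LinearMap.range S, ‖gR x‖ ≤ C * ‖x‖ := by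
    rintro ⟨x, m, rfl⟩
    have : gR ⟨S m, m, rfl⟩ = l m := hg' m
    rw [this, Real.norm_eq_abs]
    exact h m
  obtain ⟨G, hG, _⟩ := exists_extension_norm_eq (LinearMap.range S) (gR.mkContinuous C hb)
  refine ⟨(InnerProductSpace.toDual ℝ H).symm G, fun m => ?_⟩
  rw [InnerProductSpace.toDual_symm_apply]
  have := hG ⟨S m, m, rfl⟩
  rw [this]
  exact hg' m

variable {H H' : Type*} [NormedAddCommGroup H] [InnerProductSpace ℝ H] [CompleteSpace H]
  [NormedAddCommGroup H'] [InnerProductSpace ℝ H'] [CompleteSpace H']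

lemma closed_range_adj {D : Submodule ℝ (H × H')} (hD : IsClosed (D : Set (H × H')))
    (hR : IsClosed {v : H' | ∃ u, (u, v) ∈ D}) {w : H} (hw : ∀ u, (u, (0 : H')) ∈ D → inner ℝ w u = 0) :
    ∃ g : H', (∃ u, (u, g) ∈ D) ∧ ∀ u v, (u, v) ∈ D → inner ℝ g v = inner ℝ w u := by
  set R : Submodule ℝ H' := D.map (LinearMap.snd ℝ H H') with hRdef
  have hmem : ∀ v, v ∈ R ↔ ∃ u, (u, v) ∈ D := by
    intro v
    rw [hRdef, Submodule.mem_map]
    constructor
    · rintro ⟨⟨u, v'⟩, h1, rfl⟩; exact ⟨u, h1⟩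
    · rintro ⟨u, h1⟩; exact ⟨(u, v), h1, rfl⟩
  have hRc : IsClosed (R : Set H') := by
    have : (R : Set H') = {v : H' | ∃ u, (u, v) ∈ D} := by
      ext v; exact hmem v
    rw [this]; exact hR
  have : CompleteSpace D := hD.completeSpace_coe
  have : CompleteSpace R := hRc.completeSpace_coe
  set T : D →L[ℝ] R := ((ContinuousLinearMap.snd ℝ H H').comp D.subtypeL).codRestrict R
    (fun d => (hmem _).2 ⟨d.1.1, d.2⟩) with hT
  have hTs : Function.Surjective T := by
    rintro ⟨v, hv⟩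
    obtain ⟨u, hu⟩ := (hmem v).1 hv
    exact ⟨⟨(u, v), hu⟩, rfl⟩
  obtain ⟨C, hC0, hC⟩ := T.exists_preimage_norm_le hTs
  set l : D →ₗ[ℝ] ℝ :=
    ((innerSL ℝ w).toLinearMap.comp (LinearMap.fst ℝ H H')).comp D.subtype with hl
  have hlap : ∀ d : D, l d = inner ℝ w d.1.1 := fun d => rfl
  obtain ⟨g, hg⟩ := riesz_of_bound (T.toLinearMap) l (‖w‖ * C) (by
    intro d
    obtain ⟨d', hd', hn⟩ := hC (T d)
    have h1 : l d = l d' := by
      have h2 : (d - d').1.2 = 0 := by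
        have : (T d' : H') = T d := by rw [hd']
        have h3 : d'.1.2 = d.1.2 := this
        simp [h3]
      have h4 : l (d - d') = 0 := by
        rw [hlap]
        apply hw
        have h5 := (d - d').2
        have h6 : (d - d').1 = ((d - d').1.1, (0 : H')) := by
          rw [← h2]
        rw [h6] at h5
        exact h5
      rw [map_sub] at h4
      linarith
    rw [h1, hlap]
    calc |inner ℝ w d'.1.1| ≤ ‖w‖ * ‖d'.1.1‖ := abs_real_inner_le_norm _ _
      _ ≤ ‖w‖ * ‖d'‖ := by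
          gcongr
          exact norm_fst_le d'.1
      _ ≤ ‖w‖ * (C * ‖T d‖) := by gcongr
      _ = _ := by
          rw [mul_assoc]; rfl)
  refine ⟨g.1, (hmem _).1 g.2, fun u v huv => ?_⟩
  have := hg ⟨(u, v), huv⟩
  exact this

section hodge

variable {H0 H1 H2 : Type*} [NormedAddCommGroup H0] [InnerProductSpace ℝ H0] [CompleteSpace H0]
  [NormedAddCommGroup H1] [InnerProductSpace ℝ H1] [CompleteSpace H1]
  [NormedAddCommGroup H2] [InnerProductSpace ℝ H2] [CompleteSpace H2]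

/-- adjoint relation -/
def Adj {H H' : Type*} [NormedAddCommGroup H] [InnerProductSpace ℝ H]
    [NormedAddCommGroup H'] [InnerProductSpace ℝ H'] (D : H → H' → Prop) (g : H') (f : H) : Prop :=
  ∀ u v, D u v → inner ℝ g v = inner ℝ f u

/-- the Laplacian of two consecutive relations -/
def LapR (D0 : H0 → H1 → Prop) (D1 : H1 → H2 → Prop) (f h : H1) : Prop :=
  ∃ (a : H0) (b : H1) (u : H2) (v : H1), Adj D0 f a ∧ D0 a b ∧ D1 f u ∧ Adj D1 u v ∧ h = b + v

variable {D0 : Submodule ℝ (H0 × H1)} {D1 : Submodule ℝ (H1 × H2)}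

lemma lap_ker (f : H1) : LapR (fun a b => (a, b) ∈ D0) (fun a b => (a, b) ∈ D1) f 0 ↔
    (f, (0 : H2)) ∈ D1 ∧ ∀ a b, (a, b) ∈ D0 → inner ℝ f b = 0 := by
  constructor
  · rintro ⟨a, b, u, v, h1, h2, h3, h4, h5⟩
    have e1 : inner ℝ f b = inner ℝ a a := h1 a b h2
    have e2 : inner ℝ u u = inner ℝ v f := h4 f u h3
    have e3 : inner ℝ f (b + v) = 0 := by rw [← h5, inner_zero_right]
    rw [inner_add_right, e1, real_inner_comm v f, ← e2] at e3
    have ha : 0 ≤ inner ℝ a a := real_inner_self_nonneg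
    have hu : 0 ≤ inner ℝ u u := real_inner_self_nonneg
    have ha0 : a = 0 := inner_self_eq_zero.1 (le_antisymm (by linarith) ha)
    have hu0 : u = 0 := inner_self_eq_zero.1 (le_antisymm (by linarith) hu)
    refine ⟨by rw [hu0] at h3; exact h3, fun a' b' hab => ?_⟩
    have := h1 a' b' hab
    rw [this, ha0, inner_zero_left]
  · rintro ⟨h1, h2⟩
    refine ⟨0, 0, 0, 0, fun u v huv => ?_, D0.zero_mem, h1, fun u v _ => ?_, by simp⟩
    · rw [inner_zero_left]; exact h2 u v huv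
    · rw [inner_zero_left, inner_zero_left]

lemma lap_range (hD0 : IsClosed (D0 : Set (H0 × H1))) (hD1 : IsClosed (D1 : Set (H1 × H2)))
    (hR0 : IsClosed {v : H1 | ∃ u, (u, v) ∈ D0}) (hR1 : IsClosed {v : H2 | ∃ u, (u, v) ∈ D1})
    (hcomp : ∀ u v, (u, v) ∈ D0 → (v, (0 : H2)) ∈ D1) (h : H1) :
    (∃ f, LapR (fun a b => (a, b) ∈ D0) (fun a b => (a, b) ∈ D1) f h) ↔
      ∀ k, LapR (fun a b => (a, b) ∈ D0) (fun a b => (a, b) ∈ D1) k 0 → inner ℝ h k = 0 := by
  constructor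
  · rintro ⟨f, a, b, u, v, h1, h2, h3, h4, rfl⟩ k hk
    obtain ⟨k1, k2⟩ := (lap_ker k).1 hk
    rw [inner_add_left, real_inner_comm k b, k2 a b h2]
    have := h4 k 0 k1
    rw [← this, inner_zero_right, add_zero]
  · intro hh
    -- submodules
    set R0 : Submodule ℝ H1 := D0.map (LinearMap.snd ℝ H0 H1) with hR0def
    have hmem0 : ∀ v, v ∈ R0 ↔ ∃ u, (u, v) ∈ D0 := by
      intro v
      rw [hR0def, Submodule.mem_map]
      constructor
      · rintro ⟨⟨u, v'⟩, h1, rfl⟩; exact ⟨u, h1⟩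
      · rintro ⟨u, h1⟩; exact ⟨(u, v), h1, rfl⟩
    have hR0c : IsClosed (R0 : Set H1) := by
      have : (R0 : Set H1) = {v : H1 | ∃ u, (u, v) ∈ D0} := by
        ext v; exact hmem0 v
      rw [this]; exact hR0
    have : CompleteSpace R0 := hR0c.completeSpace_coe
    -- kernel of D0
    set N0 : Submodule ℝ H0 := D0.comap (LinearMap.inl ℝ H0 H1) with hN0
    have hN0c : IsClosed (N0 : Set H0) := by
      have : (N0 : Set H0) = (fun x : H0 => (x, (0 : H1))) ⁻¹' (D0 : Set (H0 × H1)) := rfl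
      rw [this]
      exact hD0.preimage (by fun_prop)
    have : CompleteSpace N0 := hN0c.completeSpace_coe
    -- kernel of D1
    set Z1 : Submodule ℝ H1 := D1.comap (LinearMap.inl ℝ H1 H2) with hZ1
    have hZ1mem : ∀ x, x ∈ Z1 ↔ (x, (0 : H2)) ∈ D1 := fun x => Iff.rfl
    have hZ1c : IsClosed (Z1 : Set H1) := by
      have : (Z1 : Set H1) = (fun x : H1 => (x, (0 : H2))) ⁻¹' (D1 : Set (H1 × H2)) := rfl
      rw [this]
      exact hD1.preimage (by fun_prop)
    have : CompleteSpace Z1 := hZ1c.completeSpace_coe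
    -- decomposition of h
    obtain ⟨p, hp, q, hq, hpq⟩ := R0.exists_add_mem_mem_orthogonal h
    -- first part
    obtain ⟨a, hap⟩ := (hmem0 p).1 hp
    obtain ⟨n, hn, m, hm, hnm⟩ := N0.exists_add_mem_mem_orthogonal a
    have hmp : (m, p) ∈ D0 := by
      have h1 : (n, (0 : H1)) ∈ D0 := hn
      have h2 := D0.sub_mem hap h1
      have h3 : (a, p) - (n, (0 : H1)) = (m, p) := by
        rw [Prod.mk_sub_mk, sub_zero, hnm]; simp
      rwa [h3] at h2
    obtain ⟨f1, ⟨c1, hc1⟩, hf1⟩ := closed_range_adj hD0 hR0 (w := m) (by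
      intro u hu
      exact (Submodule.mem_orthogonal' N0 m).1 hm u hu)
    -- second part
    obtain ⟨x, hx, ⟨hqx⟩⟩ : ∃ x, x = q ∧ True := ⟨q, rfl, trivial⟩
    have hqZ : ∀ z ∈ Z1, inner ℝ q z = 0 := by
      intro z hz
      obtain ⟨z0, hz0, z1, hz1, hz01⟩ := R0.exists_add_mem_mem_orthogonal z
      have h1 : inner ℝ q z0 = 0 := (Submodule.mem_orthogonal' R0 q).1 hq z0 hz0
      have hz0Z : z0 ∈ Z1 := by
        obtain ⟨y, hy⟩ := (hmem0 z0).1 hz0
        exact hcomp y z0 hy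
      have hz1Z : z1 ∈ Z1 := by
        have : z1 = z - z0 := by rw [hz01]; simp
        rw [this]; exact Z1.sub_mem hz hz0Z
      have hk : LapR (fun a b => (a, b) ∈ D0) (fun a b => (a, b) ∈ D1) z1 0 := by
        rw [lap_ker]
        exact ⟨hz1Z, fun a b hab =>
          (Submodule.mem_orthogonal' R0 z1).1 hz1 b ((hmem0 b).2 ⟨a, hab⟩)⟩
      have h2 := hh z1 hk
      have h3 : inner ℝ p z1 = 0 := (Submodule.mem_orthogonal R0 z1).1 hz1 p hp
      rw [hpq, inner_add_left, h3, zero_add] at h2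
      rw [hz01, inner_add_right, h1, h2, add_zero]
    obtain ⟨w, ⟨f2', hf2'⟩, hw⟩ := closed_range_adj hD1 hR1 (w := q) (fun u hu => hqZ u hu)
    obtain ⟨y, hy, f2, hf2, hyf⟩ := Z1.exists_add_mem_mem_orthogonal f2'
    have hf2w : (f2, w) ∈ D1 := by
      have h1 : (y, (0 : H2)) ∈ D1 := hy
      have h2 := D1.sub_mem hf2' h1
      have h3 : (f2', w) - (y, (0 : H2)) = (f2, w) := by
        rw [Prod.mk_sub_mk, sub_zero, hyf]; simp
      rwa [h3] at h2
    refine ⟨f1 + f2, m, p, w, q, ?_, hmp, ?_, hw, hpq⟩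
    · intro u v huv
      rw [inner_add_left, hf1 u v huv]
      have : inner ℝ f2 v = 0 :=
        (Submodule.mem_orthogonal' Z1 f2).1 hf2 v (hcomp u v huv)
      rw [this, add_zero]
    · have h1 : (f1, (0 : H2)) ∈ D1 := hcomp c1 f1 hc1
      have h2 := D1.add_mem h1 hf2w
      simpa using h2

lemma lap_closed (hD0 : IsClosed (D0 : Set (H0 × H1))) (hD1 : IsClosed (D1 : Set (H1 × H2)))
    (hR0 : IsClosed {v : H1 | ∃ u, (u, v) ∈ D0}) (hR1 : IsClosed {v : H2 | ∃ u, (u, v) ∈ D1})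
    (hcomp : ∀ u v, (u, v) ∈ D0 → (v, (0 : H2)) ∈ D1) :
    IsClosed {h : H1 | ∃ f, LapR (fun a b => (a, b) ∈ D0) (fun a b => (a, b) ∈ D1) f h} := by
  have : {h : H1 | ∃ f, LapR (fun a b => (a, b) ∈ D0) (fun a b => (a, b) ∈ D1) f h}
      = ⋂ k ∈ {k | LapR (fun a b => (a, b) ∈ D0) (fun a b => (a, b) ∈ D1) k 0},
        {h : H1 | inner ℝ h k = 0} := by
    ext h
    simp only [mem_ofPred_eq, mem_iInter]
    exact lap_range hD0 hD1 hR0 hR1 hcomp h
  rw [this]
  refine isClosed_biInter fun k _ => ?_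
  exact isClosed_eq (by fun_prop) continuous_const

end hodge

end Pool.Agent.H631R3
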