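import Pool.Agent.H631R3.Hilb

/-! Duality lemmas for closed relations. -/

open scoped Topology
open Set Filter

noncomputable section

namespace Pool.Agent.H631R3

variable {H H' : Type*} [NormedAddCommGroup H] [InnerProductSpace ℝ H] [CompleteSpace H]
  [NormedAddCommGroup H'] [InnerProductSpace ℝ H'] [CompleteSpace H']

/-- a closed relation is determined by its annihilator -/
lemma mem_of_annihilator {D : Submodule ℝ (H × H')} (hD : IsClosed (D : Set (H × H'))) {x : H} {y : H'}
    (h : ∀ p q, (∀ u g, (u, g) ∈ D → inner ℝ p u + inner ℝ q g = 0) →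
      inner ℝ p x + inner ℝ q y = 0) : (x, y) ∈ D := by
  by_contra hxy
  obtain ⟨f, r, hf1, hf2⟩ := geometric_hahn_banach_closed_point (D.convex) hD hxy
  have hz : ∀ z ∈ D, f z = 0 := by
    intro z hz
    by_contra hne
    have h1 := hf1 (((r + 1) / f z) • z) (D.smul_mem _ hz)
    rw [map_smul, smul_eq_mul, div_mul_cancel₀ _ hne] at h1
    linarith
  have hr : 0 < r := by
    have := hf1 0 D.zero_mem
    rwa [map_zero] at this
  set p : H := (InnerProductSpace.toDual ℝ H).symm (f.comp (ContinuousLinearMap.inl ℝ H H')) with hp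
  set q : H' := (InnerProductSpace.toDual ℝ H').symm (f.comp (ContinuousLinearMap.inr ℝ H H')) with hq
  have hpq : ∀ a b, inner ℝ p a + inner ℝ q b = f (a, b) := by
    intro a b
    rw [hp, hq, InnerProductSpace.toDual_symm_apply, InnerProductSpace.toDual_symm_apply]
    simp only [ContinuousLinearMap.comp_apply, ContinuousLinearMap.inl_apply,
      ContinuousLinearMap.inr_apply]
    rw [← map_add]
    simp
  have h2 := h p q (fun u g hug => by rw [hpq]; exact hz _ hug)
  rw [hpq] at h2
  linarith

/-- weak compactness: approximate solutions with bounds give solutions -/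
lemma solve_of_approx {D : Submodule ℝ (H × H')} (hD : IsClosed (D : Set (H × H'))) {v : H'} {C : ℝ}
    (h : ∀ ε > 0, ∃ u g, (u, g) ∈ D ∧ ‖g - v‖ ≤ ε ∧ ‖u‖ ≤ C) : ∃ u, (u, v) ∈ D := by
  set M : Submodule ℝ (H × H') :=
    { carrier := {m | ∀ u g, (u, g) ∈ D → inner ℝ m.1 u + inner ℝ m.2 g = 0}
      add_mem' := by
        intro a b ha hb u g hug
        have h1 := ha u g hug
        have h2 := hb u g hug
        simp only [Prod.fst_add, Prod.snd_add, inner_add_left]
        linarith
      zero_mem' := by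
        intro u g _
        simp
      smul_mem' := by
        intro c a ha u g hug
        have h1 := ha u g hug
        simp only [Prod.smul_fst, Prod.smul_snd, inner_smul_left, conj_trivial]
        rw [← mul_add, h1, mul_zero] } with hM
  have hMm : ∀ m : M, ∀ u g, (u, g) ∈ D → inner ℝ m.1.1 u + inner ℝ m.1.2 g = 0 := fun m => m.2
  obtain ⟨u, hu⟩ := riesz_of_bound ((LinearMap.fst ℝ H H').comp M.subtype)
    (-((innerSL ℝ v).toLinearMap.comp ((LinearMap.snd ℝ H H').comp M.subtype))) C (by
      intro m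
      have e1 : (-((innerSL ℝ v).toLinearMap.comp ((LinearMap.snd ℝ H H').comp M.subtype))) m
        = - inner ℝ v m.1.2 := rfl
      have e2 : ((LinearMap.fst ℝ H H').comp M.subtype) m = m.1.1 := rfl
      rw [e1, e2, abs_neg]
      refine le_of_forall_pos_le_add fun δ hδ => ?_
      have hq : 0 < ‖m.1.2‖ + 1 := by positivity
      obtain ⟨u, g, hug, h1, h2⟩ := h (δ / (‖m.1.2‖ + 1)) (by positivity)
      have h3 := hMm m u g hug
      have h4 : inner ℝ v m.1.2 = - inner ℝ (g - v) m.1.2 - inner ℝ m.1.1 u := by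
        rw [inner_sub_left, real_inner_comm m.1.2 g]
        linarith
      rw [h4]
      calc |-inner ℝ (g - v) m.1.2 - inner ℝ m.1.1 u|
          ≤ |inner ℝ (g - v) m.1.2| + |inner ℝ m.1.1 u| := by
            refine (abs_sub _ _).trans ?_
            rw [abs_neg]
        _ ≤ ‖g - v‖ * ‖m.1.2‖ + ‖m.1.1‖ * ‖u‖ :=
            add_le_add (abs_real_inner_le_norm _ _) (abs_real_inner_le_norm _ _)
        _ ≤ δ / (‖m.1.2‖ + 1) * (‖m.1.2‖ + 1) + ‖m.1.1‖ * C := by
            gcongr
            linarith
        _ = C * ‖m.1.1‖ + δ := by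
            rw [div_mul_cancel₀ _ hq.ne']; ring)
  refine ⟨u, mem_of_annihilator hD fun p q hpq => ?_⟩
  have h1 := hu ⟨(p, q), hpq⟩
  have e1 : (-((innerSL ℝ v).toLinearMap.comp ((LinearMap.snd ℝ H H').comp M.subtype)))
      ⟨(p, q), hpq⟩ = - inner ℝ v q := rfl
  have e2 : ((LinearMap.fst ℝ H H').comp M.subtype) ⟨(p, q), hpq⟩ = p := rfl
  rw [e1, e2] at h1
  rw [real_inner_comm u p, h1, real_inner_comm v q]
  ring

end Pool.Agent.H631R3
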