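import Mathlib

/-! Smoothness of integrals depending on a parameter. -/

open scoped Topology ContDiff
open Set Metric MeasureTheory

noncomputable section

namespace Pool.Agent.H631R3

section PI

variable {P E : Type} [NormedAddCommGroup P] [NormedSpace ℝ P] [MeasurableSpace P] [BorelSpace P]
  [NormedAddCommGroup E] [NormedSpace ℝ E] [FiniteDimensional ℝ E]

lemma hasFDerivAt_PI {μ : Measure P} [IsFiniteMeasureOnCompacts μ] {K : Set P} (hK : IsCompact K)
    {W : Set (P × E)} (hW : IsOpen W) {U : Set E} (hU : IsOpen U) (hKU : K ×ˢ U ⊆ W)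
    {k : P × E → ℝ} (hk : ContDiffOn ℝ 1 k W) {y₀ : E} (hy₀ : y₀ ∈ U) :
    HasFDerivAt (fun y => ∫ s in K, k (s, y) ∂μ)
      (∫ s in K, (fderiv ℝ k (s, y₀)).comp (ContinuousLinearMap.inr ℝ P E) ∂μ) y₀ := by
  obtain ⟨δ, hδ, hδU⟩ := Metric.nhds_basis_closedBall.mem_iff.1 (hU.mem_nhds hy₀)
  have hcf : ContinuousOn (fderiv ℝ k) W := hk.continuousOn_fderiv_of_isOpen hW le_rfl
  have hcF' : ContinuousOn (fun q : P × E => (fderiv ℝ k q).comp
      (ContinuousLinearMap.inr ℝ P E)) W :=
    hcf.clm_comp continuousOn_const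
  have hcomp : IsCompact (K ×ˢ closedBall y₀ δ) :=
    hK.prod (isCompact_closedBall _ _)
  obtain ⟨C, hC⟩ := hcomp.exists_bound_of_continuousOn
    (hcF'.mono ((prod_mono subset_rfl hδU).trans hKU))
  have hμK : μ K < ⊤ := hK.measure_lt_top
  have hfin : IsFiniteMeasure (μ.restrict K) := ⟨by simpa using hμK⟩
  have hms : MeasurableSet K := hK.isClosed.measurableSet
  have hcont : ∀ y ∈ U, ContinuousOn (fun s : P => k (s, y)) K := by
    intro y hy
    exact hk.continuousOn.comp (by fun_prop) (fun s hs => hKU ⟨hs, hy⟩)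
  have hcont' : ∀ y ∈ U, ContinuousOn (fun s : P => (fderiv ℝ k (s, y)).comp
      (ContinuousLinearMap.inr ℝ P E)) K := by
    intro y hy
    exact hcF'.comp (by fun_prop) (fun s hs => hKU ⟨hs, hy⟩)
  refine hasFDerivAt_integral_of_dominated_of_fderiv_le
    (F := fun y s => k (s, y))
    (F' := fun y s => (fderiv ℝ k (s, y)).comp (ContinuousLinearMap.inr ℝ P E))
    (bound := fun _ => C) (closedBall_mem_nhds y₀ hδ) ?_ ?_ ?_ ?_ ?_ ?_
  · filter_upwards [hU.mem_nhds hy₀] with y hy
    exact (hcont y hy).aestronglyMeasurable hms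
  · exact (hcont y₀ hy₀).integrableOn_compact hK
  · exact (hcont' y₀ hy₀).aestronglyMeasurable hms
  · rw [ae_restrict_iff' hms]
    refine Filter.Eventually.of_forall fun t ht y hy => ?_
    exact hC (t, y) ⟨ht, hy⟩
  · exact integrable_const _
  · rw [ae_restrict_iff' hms]
    refine Filter.Eventually.of_forall fun t ht y hy => ?_
    have hd : DifferentiableAt ℝ k (t, y) :=
      (hk.contDiffAt (hW.mem_nhds (hKU ⟨ht, hδU hy⟩))).differentiableAt (by simp)
    exact hd.hasFDerivAt.comp y (hasFDerivAt_prodMk_right t y)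

lemma fderiv_PI_apply {μ : Measure P} [IsFiniteMeasureOnCompacts μ] {K : Set P} (hK : IsCompact K)
    {W : Set (P × E)} (hW : IsOpen W) {U : Set E} (hU : IsOpen U) (hKU : K ×ˢ U ⊆ W)
    {k : P × E → ℝ} (hk : ContDiffOn ℝ 1 k W) {y₀ : E} (hy₀ : y₀ ∈ U) (v : E) :
    fderiv ℝ (fun y => ∫ s in K, k (s, y) ∂μ) y₀ v
      = ∫ s in K, fderiv ℝ k (s, y₀) ((0 : P), v) ∂μ := by
  rw [(hasFDerivAt_PI hK hW hU hKU hk hy₀).fderiv]
  have hcf : ContinuousOn (fderiv ℝ k) W := hk.continuousOn_fderiv_of_isOpen hW le_rfl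
  have hcF' : ContinuousOn (fun q : P × E => (fderiv ℝ k q).comp
      (ContinuousLinearMap.inr ℝ P E)) W :=
    hcf.clm_comp continuousOn_const
  have hint : Integrable (fun s => (fderiv ℝ k (s, y₀)).comp
            (ContinuousLinearMap.inr ℝ P E)) (μ.restrict K) := by
    have hc : ContinuousOn (fun s : P => (fderiv ℝ k (s, y₀)).comp
        (ContinuousLinearMap.inr ℝ P E)) K :=
      hcF'.comp (by fun_prop) (fun s hs => hKU ⟨hs, hy₀⟩)
    exact hc.integrableOn_compact hK
  rw [ContinuousLinearMap.integral_apply hint]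
  rfl

lemma contDiffOn_PI_nat {μ : Measure P} [IsFiniteMeasureOnCompacts μ] {K : Set P}
    (hK : IsCompact K)
    {W : Set (P × E)} (hW : IsOpen W) {U : Set E} (hU : IsOpen U) (hKU : K ×ˢ U ⊆ W) (n : ℕ) :
    ∀ k : P × E → ℝ, ContDiffOn ℝ ∞ k W →
      ContDiffOn ℝ n (fun y => ∫ s in K, k (s, y) ∂μ) U := by
  induction n with
  | zero =>
    intro k hk
    rw [Nat.cast_zero, contDiffOn_zero]
    intro y hy
    exact (hasFDerivAt_PI hK hW hU hKU (hk.of_le (by simp)) hy).continuousAt.continuousWithinAt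
  | succ n ih =>
    intro k hk
    have h1 : ContDiffOn ℝ ((n : ℕ∞ω) + 1) (fun y => ∫ s in K, k (s, y) ∂μ) U := by
      apply contDiffOn_succ_of_fderiv_apply
      · intro y hy
        exact (hasFDerivAt_PI hK hW hU hKU (hk.of_le (by simp))
          hy).differentiableAt.differentiableWithinAt
      · simp
      · intro v
        have h2 : ContDiffOn ℝ ∞ (fun q : P × E => fderiv ℝ k q ((0:P), v)) W := by
          have := hk.fderiv_of_isOpen hW (m := ∞) (by simp)
          exact this.clm_apply contDiffOn_const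
        refine (ih _ h2).congr ?_
        intro y hy
        rw [fderivWithin_of_isOpen hU hy]
        exact fderiv_PI_apply hK hW hU hKU (hk.of_le (by simp)) hy v
    simpa using h1

lemma contDiffOn_PI {μ : Measure P} [IsFiniteMeasureOnCompacts μ] {K : Set P}
    (hK : IsCompact K)
    {W : Set (P × E)} (hW : IsOpen W) {U : Set E} (hU : IsOpen U) (hKU : K ×ˢ U ⊆ W)
    {k : P × E → ℝ} (hk : ContDiffOn ℝ ∞ k W) :
    ContDiffOn ℝ ∞ (fun y => ∫ s in K, k (s, y) ∂μ) U :=
  contDiffOn_infty.2 fun n => contDiffOn_PI_nat hK hW hU hKU n k hk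

end PI

end Pool.Agent.H631R3
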