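import Pool.Agent.H631R3.Star
import Pool.Agent.H631R3.PI

/-! Homotopy operators given by families of linear maps. -/

open scoped ContDiff Topology
open MeasureTheory Set Filter

noncomputable section

namespace Pool.Agent.H631R3

lemma form_apply_eq_sum {q : ℕ} (α : Form q) (v : Fin q → ℂ × ℂ) :
    α v = ∑ I : Idx q, α (frame ∘ I) * detForm I v := by
  conv_lhs => rw [← toForm_coef α]
  rw [toForm, ContinuousAlternatingMap.sum_apply]
  rfl

lemma contDiff_detForm {q : ℕ} (I : Idx q) :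
    ContDiff ℝ ∞ (fun v : Fin q → ℂ × ℂ => detForm I v) :=
  (detForm I).toContinuousMultilinearMap.contDiff

/-- evaluation of a form at a tuple of vectors -/
def evalAt {q : ℕ} (v : Fin q → ℂ × ℂ) : Form q →L[ℝ] ℝ :=
  ContinuousAlternatingMap.apply ℝ (ℂ × ℂ) ℝ v

lemma evalAt_apply {q : ℕ} (v : Fin q → ℂ × ℂ) (α : Form q) : evalAt v α = α v := rfl

lemma contDiffOn_eval {X : Type*} [NormedAddCommGroup X] [NormedSpace ℝ X] {q : ℕ}
    {f : X → Form q} {v : X → Fin q → ℂ × ℂ} {S : Set X}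
    (hf : ContDiffOn ℝ ∞ f S) (hv : ContDiffOn ℝ ∞ v S) :
    ContDiffOn ℝ ∞ (fun x => f x (v x)) S := by
  have : (fun x => f x (v x)) = fun x => ∑ I : Idx q, evalAt (frame ∘ I) (f x) * detForm I (v x) := by
    funext x; rw [form_apply_eq_sum]; rfl
  rw [this]
  refine ContDiffOn.sum fun I _ => ?_
  exact ((evalAt (frame ∘ I)).contDiff.comp_contDiffOn hf).mul
    ((contDiff_detForm I).comp_contDiffOn hv)

section op

variable {P : Type} [NormedAddCommGroup P] [NormedSpace ℝ P]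

/-- the kernel is smooth jointly in the parameter and in the point -/
lemma contDiffOn_kern {n : ℕ} {f : ℂ × ℂ → Form (n + 1)} {V : Set (ℂ × ℂ)}
    (hf : ContDiffOn ℝ ∞ f V) {A A' : P → (ℂ × ℂ) →L[ℝ] (ℂ × ℂ)} (hA : ContDiff ℝ ∞ A)
    (hA' : ContDiff ℝ ∞ A') (I : Idx n) :
    ContDiffOn ℝ ∞ (fun r : P × (ℂ × ℂ) => kern f (A r.1) (A' r.1) I r.2)
      {r : P × (ℂ × ℂ) | A r.1 r.2 ∈ V} := by
  have h1 : ContDiff ℝ ∞ (fun r : P × (ℂ × ℂ) => A r.1 r.2) :=
    (hA.comp contDiff_fst).clm_apply contDiff_snd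
  have h2 : ContDiff ℝ ∞ (fun r : P × (ℂ × ℂ) => A' r.1 r.2) :=
    (hA'.comp contDiff_fst).clm_apply contDiff_snd
  apply contDiffOn_eval
  · exact hf.comp h1.contDiffOn fun r hr => hr
  · apply ContDiff.contDiffOn
    rw [contDiff_pi]
    intro j
    refine Fin.cases ?_ (fun j => ?_) j
    · simpa using h2
    · simp only [Fin.cons_succ]
      exact (hA.comp contDiff_fst).clm_apply contDiff_const

lemma isOpen_kern {V : Set (ℂ × ℂ)} (hV : IsOpen V) {A : P → (ℂ × ℂ) →L[ℝ] (ℂ × ℂ)}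
    (hA : ContDiff ℝ ∞ A) : IsOpen {r : P × (ℂ × ℂ) | A r.1 r.2 ∈ V} := by
  have h1 : Continuous (fun r : P × (ℂ × ℂ) => A r.1 r.2) :=
    ((hA.comp contDiff_fst).clm_apply contDiff_snd).continuous
  exact hV.preimage h1

variable [MeasurableSpace P] [BorelSpace P]

/-- the homotopy operator `f ↦ ∫ ι_{A'_p x} A_p^* f dp` -/
def Kop {n : ℕ} (μ : Measure P) (K : Set P) (A A' : P → (ℂ × ℂ) →L[ℝ] (ℂ × ℂ))
    (f : ℂ × ℂ → Form (n + 1)) (I : Idx n) (x : ℂ × ℂ) : ℝ :=
  ∫ p in K, kern f (A p) (A' p) I x ∂μ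

variable {μ : Measure P} [IsFiniteMeasureOnCompacts μ] {K : Set P} (hK : IsCompact K)
  {n : ℕ} {f : ℂ × ℂ → Form (n + 1)} {V U : Set (ℂ × ℂ)} (hV : IsOpen V) (hU : IsOpen U)
  (hf : ContDiffOn ℝ ∞ f V) {A A' : P → (ℂ × ℂ) →L[ℝ] (ℂ × ℂ)} (hA : ContDiff ℝ ∞ A)
  (hA' : ContDiff ℝ ∞ A') (hAU : ∀ p ∈ K, ∀ x ∈ U, A p x ∈ V)

include hK hV hU hf hA hA' hAU

lemma contDiffOn_Kop (I : Idx n) : ContDiffOn ℝ ∞ (Kop μ K A A' f I) U :=
  contDiffOn_PI hK (isOpen_kern hV hA) hU (fun r hr => hAU r.1 hr.1 r.2 hr.2)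
    (contDiffOn_kern hf hA hA' I)

lemma d_Kop {x : ℂ × ℂ} (hx : x ∈ U) (J : Idx (n + 1)) :
    ∑ i : Fin (n + 1), (-1 : ℝ) ^ (i : ℕ) * fderiv ℝ (Kop μ K A A' f (face J i)) x (frame (J i))
      = ∫ p in K, (fderiv ℝ f (A p x) (A' p x) (fun j => A p (frame (J j)))
        + ∑ i : Fin (n + 1), f (A p x)
          (Function.update (fun j => A p (frame (J j))) i (A' p (frame (J i))))
        - kern (extDeriv f) (A p) (A' p) J x) ∂μ := by
  have hsub : K ×ˢ U ⊆ {r : P × (ℂ × ℂ) | A r.1 r.2 ∈ V} := fun r hr => hAU r.1 hr.1 r.2 hr.2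
  have h1 : ∀ i : Fin (n + 1), (-1 : ℝ) ^ (i : ℕ) *
      fderiv ℝ (Kop μ K A A' f (face J i)) x (frame (J i))
      = ∫ p in K, (-1 : ℝ) ^ (i : ℕ) *
        fderiv ℝ (fun y => kern f (A p) (A' p) (face J i) y) x (frame (J i)) ∂μ := by
    intro i
    have h2 := fderiv_PI_apply (μ := μ) hK (isOpen_kern hV hA) hU hsub
      ((contDiffOn_kern hf hA hA' (face J i)).of_le (by simp)) hx (frame (J i))
    unfold Kop
    rw [h2, ← integral_const_mul]
    refine setIntegral_congr_fun hK.isClosed.measurableSet fun p hp => ?_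
    have hd : DifferentiableAt ℝ (fun r : P × (ℂ × ℂ) => kern f (A r.1) (A' r.1) (face J i) r.2)
        (p, x) :=
      ((contDiffOn_kern hf hA hA' (face J i)).contDiffAt
        ((isOpen_kern hV hA).mem_nhds (hAU p hp x hx))).differentiableAt (by simp)
    have h3 : HasFDerivAt (fun y => kern f (A p) (A' p) (face J i) y)
        ((fderiv ℝ (fun r : P × (ℂ × ℂ) => kern f (A r.1) (A' r.1) (face J i) r.2)
        (p, x)).comp (ContinuousLinearMap.inr ℝ P (ℂ × ℂ))) x :=
      hd.hasFDerivAt.comp x (hasFDerivAt_prodMk_right p x)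
    rw [h3.fderiv]
    simp
  simp_rw [h1]
  rw [← integral_finsetSum]
  · refine setIntegral_congr_fun hK.isClosed.measurableSet fun p hp => ?_
    refine star ?_ J
    exact (hf.contDiffAt (hV.mem_nhds (hAU p hp x hx))).differentiableAt (by simp)
  · intro i _
    apply Integrable.const_mul
    have hc : ContinuousOn (fun p => fderiv ℝ
        (fun r : P × (ℂ × ℂ) => kern f (A r.1) (A' r.1) (face J i) r.2) (p, x)
          ((0 : P), frame (J i))) K := by
      have h4 : ContinuousOn (fderiv ℝ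
        (fun r : P × (ℂ × ℂ) => kern f (A r.1) (A' r.1) (face J i) r.2))
          {r : P × (ℂ × ℂ) | A r.1 r.2 ∈ V} :=
        (contDiffOn_kern hf hA hA' (face J i)).continuousOn_fderiv_of_isOpen
          (isOpen_kern hV hA) (by simp)
      exact (h4.comp (by fun_prop) (fun p hp => hAU p hp x hx)).clm_apply continuousOn_const
    refine (hc.integrableOn_compact hK).congr_fun (fun p hp => ?_) hK.isClosed.measurableSet
    have hd : DifferentiableAt ℝ (fun r : P × (ℂ × ℂ) => kern f (A r.1) (A' r.1) (face J i) r.2)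
        (p, x) :=
      ((contDiffOn_kern hf hA hA' (face J i)).contDiffAt
        ((isOpen_kern hV hA).mem_nhds (hAU p hp x hx))).differentiableAt (by simp)
    have h3 : HasFDerivAt (fun y => kern f (A p) (A' p) (face J i) y)
        ((fderiv ℝ (fun r : P × (ℂ × ℂ) => kern f (A r.1) (A' r.1) (face J i) r.2)
        (p, x)).comp (ContinuousLinearMap.inr ℝ P (ℂ × ℂ))) x :=
      hd.hasFDerivAt.comp x (hasFDerivAt_prodMk_right p x)
    simp only
    rw [h3.fderiv]
    simp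

end op

/-- derivative in the parameter of the pullback -/
lemma hasDerivAt_pull {n : ℕ} {f : ℂ × ℂ → Form (n + 1)} {A A' : ℝ → (ℂ × ℂ) →L[ℝ] (ℂ × ℂ)}
    {t : ℝ} (hA : HasDerivAt A (A' t) t) {x : ℂ × ℂ} (hf : DifferentiableAt ℝ f (A t x))
    (J : Idx (n + 1)) :
    HasDerivAt (fun s => f (A s x) (fun j => A s (frame (J j))))
      (fderiv ℝ f (A t x) (A' t x) (fun j => A t (frame (J j)))
        + ∑ i : Fin (n + 1),
          f (A t x) (Function.update (fun j => A t (frame (J j))) i (A' t (frame (J i))))) t := by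
  have h1 : ∀ y, HasDerivAt (fun s => A s y) (A' t y) t := fun y => by
    have := hA.clm_apply (hasDerivAt_const t y)
    simpa using this
  have h2 : HasFDerivAt (fun s => f (A s x))
      ((fderiv ℝ f (A t x)).comp (ContinuousLinearMap.toSpanSingleton ℝ (A' t x))) t :=
    hf.hasFDerivAt.comp t (h1 x).hasFDerivAt
  have h3 := h2.continuousAlternatingMap_apply
    (g := fun j s => A s (frame (J j))) (fun j => (h1 (frame (J j))).hasFDerivAt)
  have h4 := h3.hasDerivAt
  refine h4.congr_deriv ?_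
  simp [ContinuousAlternatingMap.toContinuousLinearMap]

end Pool.Agent.H631R3
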