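import Pool.Agent.H631R3.Rad
import Pool.Agent.H631R3.Fam

/-! Square integral estimates. -/

open scoped ContDiff Topology ENNReal
open MeasureTheory Set Filter

noncomputable section

namespace Pool.Agent.H631R3

lemma cs_lintegral {α : Type*} [MeasurableSpace α] (μ : Measure α) {f g : α → ℝ≥0∞}
    (hf : AEMeasurable f μ) (hg : AEMeasurable g μ) :
    (∫⁻ x, f x * g x ∂μ) ^ 2 ≤ (∫⁻ x, f x ^ 2 ∂μ) * ∫⁻ x, g x ^ 2 ∂μ := by
  have h := ENNReal.lintegral_mul_le_Lp_mul_Lq μ (Real.HolderConjugate.two_two) hf hg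
  have h1 : ∀ k : α → ℝ≥0∞, (∫⁻ x, k x ^ (2 : ℝ) ∂μ) = ∫⁻ x, k x ^ 2 ∂μ := fun k => by
    simp
  rw [h1, h1] at h
  calc (∫⁻ x, f x * g x ∂μ) ^ 2
      ≤ ((∫⁻ x, f x ^ 2 ∂μ) ^ (1 / (2 : ℝ)) * (∫⁻ x, g x ^ 2 ∂μ) ^ (1 / (2 : ℝ))) ^ 2 := by
        gcongr
        exact h
    _ = _ := by
        rw [mul_pow, ← ENNReal.rpow_natCast, ← ENNReal.rpow_natCast, ← ENNReal.rpow_mul,
          ← ENNReal.rpow_mul]
        norm_num

lemma cs_lintegral_one {α : Type*} [MeasurableSpace α] (μ : Measure α) {f : α → ℝ≥0∞}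
    (hf : AEMeasurable f μ) :
    (∫⁻ x, f x ∂μ) ^ 2 ≤ μ univ * ∫⁻ x, f x ^ 2 ∂μ := by
  have := cs_lintegral μ hf (aemeasurable_const (b := (1 : ℝ≥0∞)))
  simp only [mul_one, one_pow, lintegral_const, one_mul] at this
  rwa [mul_comm] at this

lemma lintegral_affine {g : ℂ → ℝ≥0∞} (hg : Measurable g) {c : ℂ} (hc : c ≠ 0) (b : ℂ) :
    ∫⁻ z, g (c * z + b) = ENNReal.ofReal (‖c‖ ^ 2)⁻¹ * ∫⁻ z, g z := by
  have h1 : ∫⁻ z, g (c * z + b) = ∫⁻ z, g (c * z) := by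
    have : ∫⁻ z, g (c * z + b) = ∫⁻ z, (fun z => g (c * z)) (z + b / c) := by
      congr 1; funext z
      simp only
      congr 1
      field_simp
    rw [this, lintegral_add_right_eq_self (fun z => g (c * z))]
  rw [h1]
  have hdet : LinearMap.det (LinearMap.mulLeft ℝ c) = ‖c‖ ^ 2 := by
    have := Algebra.norm_complex_apply c
    rw [Algebra.norm_apply] at this
    rw [← Complex.normSq_eq_norm_sq, ← this]
    rfl
  have hc2 : (‖c‖ ^ 2 : ℝ) ≠ 0 := by positivity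
  have h2 := Measure.map_linearMap_addHaar_eq_smul_addHaar (volume : Measure ℂ)
    (f := LinearMap.mulLeft ℝ c) (by rw [hdet]; exact hc2)
  have h3 : ∫⁻ z, g (c * z) = ∫⁻ z, g z ∂(Measure.map (LinearMap.mulLeft ℝ c) volume) := by
    rw [lintegral_map hg (by
      have : Continuous (LinearMap.mulLeft ℝ c) := by
        change Continuous fun z => c * z
        fun_prop
      exact this.measurable)]
    rfl
  rw [h3, h2, lintegral_smul_measure, hdet, abs_of_nonneg (by positivity)]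
  rfl

/-- truncated Hartogs triangles -/
def Om (τ s : ℝ) : Set (ℂ × ℂ) := {z | z.2 ∈ Ann τ s ∧ ‖z.1‖ < s * ‖z.2‖}

lemma isOpen_Om (τ s : ℝ) : IsOpen (Om τ s) :=
  ((isOpen_Ann τ s).preimage continuous_snd).inter
    (isOpen_lt (continuous_norm.comp continuous_fst)
      (continuous_const.mul (continuous_norm.comp continuous_snd)))

lemma Om_zero_one : Om 0 1 = Hartogs := by
  ext z
  simp only [Om, Ann, Hartogs, mem_ofPred_eq, one_mul]
  constructor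
  · rintro ⟨⟨_, h2⟩, h3⟩; exact ⟨h3, h2⟩
  · rintro ⟨h1, h2⟩; exact ⟨⟨lt_of_le_of_lt (norm_nonneg _) h1, h2⟩, h1⟩

lemma mem_Om_avg {τ s : ℝ} (hs : 1 / 2 < s) {z : ℂ × ℂ} (hz : z ∈ Om τ s) (hτ : 0 ≤ τ)
    {t : ℝ} (ht0 : 0 ≤ t) (ht1 : t ≤ 1) {y : ℂ} (hy : y ∈ BB) :
    ((t : ℂ) * z.1 + ((1 - t : ℝ) : ℂ) * y * z.2, z.2) ∈ Om τ s := by
  refine ⟨hz.1, ?_⟩
  have hz2 : 0 < ‖z.2‖ := lt_of_le_of_lt hτ hz.1.1
  have hy' : ‖y‖ ≤ 1 / 2 := by simpa [BB] using hy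
  have h1 : ‖(t : ℂ) * z.1 + ((1 - t : ℝ) : ℂ) * y * z.2‖ ≤ t * ‖z.1‖ + (1 - t) * ‖y‖ * ‖z.2‖ := by
    refine (norm_add_le _ _).trans ?_
    rw [norm_mul, norm_mul, norm_mul, Complex.norm_real, Complex.norm_real,
      Real.norm_of_nonneg ht0, Real.norm_of_nonneg (by linarith)]
  have h2 := hz.2
  simp only
  have h3 : (1 - t) * ‖y‖ * ‖z.2‖ ≤ (1 - t) * (1 / 2) * ‖z.2‖ := by
    apply mul_le_mul_of_nonneg_right _ hz2.le
    exact mul_le_mul_of_nonneg_left hy' (by linarith)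
  rcases eq_or_lt_of_le ht0 with h | h
  · subst h
    have : 1 / 2 * ‖z.2‖ < s * ‖z.2‖ := mul_lt_mul_of_pos_right hs hz2
    linarith
  · have h4 : t * ‖z.1‖ < t * (s * ‖z.2‖) := mul_lt_mul_of_pos_left h2 h
    have h5 : (1 - t) * (1 / 2) * ‖z.2‖ ≤ (1 - t) * s * ‖z.2‖ := by
      apply mul_le_mul_of_nonneg_right _ hz2.le
      exact mul_le_mul_of_nonneg_left hs.le (by linarith)
    nlinarith

lemma lintegral_Om_snd {τ s : ℝ} {H : ℂ → ℝ≥0∞} (hH : Measurable H) :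
    ∫⁻ z in Om τ s, H z.2 = ∫⁻ w in Ann τ s, ENNReal.ofReal (s * ‖w‖) ^ 2 * NNReal.pi * H w := by
  have hmO : MeasurableSet (Om τ s) := (isOpen_Om τ s).measurableSet
  have hmA : MeasurableSet (Ann τ s) := (isOpen_Ann τ s).measurableSet
  rw [← lintegral_indicator hmO, ← lintegral_indicator hmA, Measure.volume_eq_prod,
    lintegral_prod_symm _ (show Measurable ((Om τ s).indicator fun z : ℂ × ℂ => H z.2) from
      (hH.comp measurable_snd).indicator hmO).aemeasurable]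
  refine lintegral_congr fun w => ?_
  by_cases hw : w ∈ Ann τ s
  · rw [indicator_of_mem hw]
    have : ∀ v : ℂ, (Om τ s).indicator (fun z : ℂ × ℂ => H z.2) (v, w)
        = (Metric.ball (0 : ℂ) (s * ‖w‖)).indicator (fun _ => H w) v := by
      intro v
      by_cases hv : ‖v‖ < s * ‖w‖
      · rw [indicator_of_mem (show (v, w) ∈ Om τ s from ⟨hw, hv⟩), indicator_of_mem (by simpa using hv)]
      · rw [indicator_of_notMem (fun h => hv h.2), indicator_of_notMem (by simpa using hv)]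
    simp_rw [this]
    rw [lintegral_indicator Metric.isOpen_ball.measurableSet, lintegral_const,
      Measure.restrict_apply_univ, Complex.volume_ball, mul_comm]
  · rw [indicator_of_notMem hw]
    have : ∀ v : ℂ, (Om τ s).indicator (fun z : ℂ × ℂ => H z.2) (v, w) = 0 := fun v =>
      indicator_of_notMem (fun h => hw h.1) _
    simp_rw [this, lintegral_zero]

/-- substitution in the first variable -/
lemma bound_X {τ s : ℝ} (hs : 1 / 2 < s) (hτ : 0 ≤ τ) {F : ℂ × ℂ → ℝ≥0∞} (hF : Measurable F)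
    {t : ℝ} (ht0 : 1 / 2 ≤ t) (ht1 : t ≤ 1) {y : ℂ} (hy : y ∈ BB) :
    ∫⁻ z in Om τ s, F ((t : ℂ) * z.1 + ((1 - t : ℝ) : ℂ) * y * z.2, z.2)
      ≤ 4 * ∫⁻ z in Om τ s, F z := by
  have hmO : MeasurableSet (Om τ s) := (isOpen_Om τ s).measurableSet
  have htc : (t : ℂ) ≠ 0 := by
    have : t ≠ 0 := by linarith
    exact_mod_cast this
  set G := (Om τ s).indicator F with hG
  have hGm : Measurable G := hF.indicator hmO
  calc ∫⁻ z in Om τ s, F ((t : ℂ) * z.1 + ((1 - t : ℝ) : ℂ) * y * z.2, z.2)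
      = ∫⁻ z in Om τ s, G ((t : ℂ) * z.1 + ((1 - t : ℝ) : ℂ) * y * z.2, z.2) := by
        refine setLIntegral_congr_fun hmO fun z hz => ?_
        rw [hG, indicator_of_mem (mem_Om_avg hs hz hτ (by linarith) ht1 hy)]
    _ ≤ ∫⁻ z : ℂ × ℂ, G ((t : ℂ) * z.1 + ((1 - t : ℝ) : ℂ) * y * z.2, z.2) :=
        setLIntegral_le_lintegral _ _
    _ = ∫⁻ w : ℂ, ∫⁻ v : ℂ, G ((t : ℂ) * v + ((1 - t : ℝ) : ℂ) * y * w, w) := by
        rw [Measure.volume_eq_prod, lintegral_prod_symm _ (by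
          apply Measurable.aemeasurable
          exact hGm.comp (by fun_prop))]
    _ = ∫⁻ w : ℂ, ENNReal.ofReal (‖(t : ℂ)‖ ^ 2)⁻¹ * ∫⁻ v : ℂ, G (v, w) := by
        refine lintegral_congr fun w => ?_
        exact lintegral_affine (g := fun v => G (v, w)) (hGm.comp (by fun_prop)) htc _
    _ ≤ ∫⁻ w : ℂ, 4 * ∫⁻ v : ℂ, G (v, w) := by
        refine lintegral_mono fun w => ?_
        gcongr
        rw [Complex.norm_real, Real.norm_of_nonneg (by linarith)]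
        have : ENNReal.ofReal ((t ^ 2)⁻¹) ≤ ENNReal.ofReal 4 := by
          apply ENNReal.ofReal_le_ofReal
          rw [inv_le_comm₀ (by positivity) (by norm_num)]
          nlinarith
        refine this.trans (by norm_num)
    _ = 4 * ∫⁻ z in Om τ s, F z := by
        rw [lintegral_const_mul' _ _ (by norm_num), ← lintegral_indicator hmO,
          Measure.volume_eq_prod, lintegral_prod_symm _ hGm.aemeasurable]

/-- substitution in the averaging variable, slice version -/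
lemma bound_slice {τ s : ℝ} (hs : 1 / 2 < s) (hτ : 0 ≤ τ) {F : ℂ × ℂ → ℝ≥0∞} (hF : Measurable F)
    {t : ℝ} (ht0 : 0 ≤ t) (ht1 : t ≤ 1 / 2) {z : ℂ × ℂ} (hz : z ∈ Om τ s) :
    ∫⁻ y in BB, F ((t : ℂ) * z.1 + ((1 - t : ℝ) : ℂ) * y * z.2, z.2)
      ≤ ENNReal.ofReal (4 * (‖z.2‖ ^ 2)⁻¹) * ∫⁻ v : ℂ, (Om τ s).indicator F (v, z.2) := by
  have hmO : MeasurableSet (Om τ s) := (isOpen_Om τ s).measurableSet
  have hz2 : 0 < ‖z.2‖ := lt_of_le_of_lt hτ hz.1.1
  have h1t : (0 : ℝ) < 1 - t := by linarith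
  have hc : ((1 - t : ℝ) : ℂ) * z.2 ≠ 0 := by
    rw [← norm_pos_iff, norm_mul, Complex.norm_real, Real.norm_of_nonneg h1t.le]
    positivity
  set G := (Om τ s).indicator F with hG
  have hGm : Measurable G := hF.indicator hmO
  calc ∫⁻ y in BB, F ((t : ℂ) * z.1 + ((1 - t : ℝ) : ℂ) * y * z.2, z.2)
      = ∫⁻ y in BB, G ((t : ℂ) * z.1 + ((1 - t : ℝ) : ℂ) * y * z.2, z.2) := by
        refine setLIntegral_congr_fun isCompact_BB.isClosed.measurableSet fun y hy => ?_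
        rw [hG, indicator_of_mem (mem_Om_avg hs hz hτ ht0 (by linarith) hy)]
    _ ≤ ∫⁻ y : ℂ, G ((t : ℂ) * z.1 + ((1 - t : ℝ) : ℂ) * y * z.2, z.2) :=
        setLIntegral_le_lintegral _ _
    _ = ∫⁻ y : ℂ, G (((1 - t : ℝ) : ℂ) * z.2 * y + (t : ℂ) * z.1, z.2) := by
        refine lintegral_congr fun y => ?_
        congr 2
        ring
    _ = ENNReal.ofReal (‖((1 - t : ℝ) : ℂ) * z.2‖ ^ 2)⁻¹ * ∫⁻ v : ℂ, G (v, z.2) :=
        lintegral_affine (g := fun v => G (v, z.2)) (hGm.comp (by fun_prop)) hc _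
    _ ≤ _ := by
        gcongr
        rw [norm_mul, Complex.norm_real, Real.norm_of_nonneg h1t.le, mul_pow, mul_inv]
        gcongr
        rw [inv_le_comm₀ (by positivity) (by norm_num)]
        nlinarith

/-- substitution in the averaging variable -/
lemma bound_Y {τ s : ℝ} (hs : 1 / 2 < s) (hs1 : s ≤ 1) (hτ : 0 ≤ τ) {F : ℂ × ℂ → ℝ≥0∞}
    (hF : Measurable F) {t : ℝ} (ht0 : 0 ≤ t) (ht1 : t ≤ 1 / 2) :
    ∫⁻ z in Om τ s, ∫⁻ y in BB, F ((t : ℂ) * z.1 + ((1 - t : ℝ) : ℂ) * y * z.2, z.2)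
      ≤ 4 * NNReal.pi * ∫⁻ z in Om τ s, F z := by
  have hmO : MeasurableSet (Om τ s) := (isOpen_Om τ s).measurableSet
  have hmA : MeasurableSet (Ann τ s) := (isOpen_Ann τ s).measurableSet
  have hGm : Measurable ((Om τ s).indicator F) := hF.indicator hmO
  have hHm : Measurable fun w : ℂ => ∫⁻ v : ℂ, (Om τ s).indicator F (v, w) :=
    hGm.lintegral_prod_left'
  calc ∫⁻ z in Om τ s, ∫⁻ y in BB, F ((t : ℂ) * z.1 + ((1 - t : ℝ) : ℂ) * y * z.2, z.2)
      ≤ ∫⁻ z in Om τ s, ENNReal.ofReal (4 * (‖z.2‖ ^ 2)⁻¹)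
          * ∫⁻ v : ℂ, (Om τ s).indicator F (v, z.2) :=
        setLIntegral_mono' hmO fun z hz => bound_slice hs hτ hF ht0 ht1 hz
    _ = ∫⁻ w in Ann τ s, ENNReal.ofReal (s * ‖w‖) ^ 2 * NNReal.pi *
          (ENNReal.ofReal (4 * (‖w‖ ^ 2)⁻¹) * ∫⁻ v : ℂ, (Om τ s).indicator F (v, w)) := by
        rw [lintegral_Om_snd
          (H := fun w => ENNReal.ofReal (4 * (‖w‖ ^ 2)⁻¹)
          * ∫⁻ v : ℂ, (Om τ s).indicator F (v, w))]
        exact (by fun_prop : Measurable fun w : ℂ => ENNReal.ofReal (4 * (‖w‖ ^ 2)⁻¹)).mul hHm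
    _ ≤ ∫⁻ w in Ann τ s, 4 * NNReal.pi * ∫⁻ v : ℂ, (Om τ s).indicator F (v, w) := by
        refine setLIntegral_mono' hmA fun w hw => ?_
        have hw2 : 0 < ‖w‖ := lt_of_le_of_lt hτ hw.1
        have h1 : ENNReal.ofReal (s * ‖w‖) ^ 2 * ENNReal.ofReal (4 * (‖w‖ ^ 2)⁻¹) ≤ 4 := by
          rw [← ENNReal.ofReal_pow (by positivity), ← ENNReal.ofReal_mul (by positivity)]
          have : ENNReal.ofReal ((s * ‖w‖) ^ 2 * (4 * (‖w‖ ^ 2)⁻¹)) ≤ ENNReal.ofReal 4 := by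
            apply ENNReal.ofReal_le_ofReal
            have e : (s * ‖w‖) ^ 2 * (4 * (‖w‖ ^ 2)⁻¹) = 4 * s ^ 2 := by
              field_simp
            rw [e]; nlinarith
          exact this.trans (by norm_num)
        calc _ = (ENNReal.ofReal (s * ‖w‖) ^ 2 * ENNReal.ofReal (4 * (‖w‖ ^ 2)⁻¹)) *
            (NNReal.pi * ∫⁻ v : ℂ, (Om τ s).indicator F (v, w)) := by ring
          _ ≤ 4 * (NNReal.pi * ∫⁻ v : ℂ, (Om τ s).indicator F (v, w)) := by gcongr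
          _ = _ := by ring
    _ ≤ ∫⁻ w : ℂ, 4 * NNReal.pi * ∫⁻ v : ℂ, (Om τ s).indicator F (v, w) :=
        setLIntegral_le_lintegral _ _
    _ = 4 * NNReal.pi * ∫⁻ z in Om τ s, F z := by
        rw [lintegral_const_mul _ hHm, ← lintegral_indicator hmO,
          Measure.volume_eq_prod, lintegral_prod_symm _ hGm.aemeasurable]

/-- the averaged estimate on the base -/
lemma bound_Y0 {τ s : ℝ} (hs : 1 / 2 < s) (hτ : 0 ≤ τ) {F : ℂ × ℂ → ℝ≥0∞}
    (hF : Measurable F) :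
    ∫⁻ w in Ann τ s, ENNReal.ofReal (‖w‖ ^ 2) * ∫⁻ y in BB, F (y * w, w)
      ≤ 4 * ∫⁻ z in Om τ s, F z := by
  have hmO : MeasurableSet (Om τ s) := (isOpen_Om τ s).measurableSet
  have hmA : MeasurableSet (Ann τ s) := (isOpen_Ann τ s).measurableSet
  have hGm : Measurable ((Om τ s).indicator F) := hF.indicator hmO
  have hHm : Measurable fun w : ℂ => ∫⁻ v : ℂ, (Om τ s).indicator F (v, w) :=
    hGm.lintegral_prod_left'
  calc ∫⁻ w in Ann τ s, ENNReal.ofReal (‖w‖ ^ 2) * ∫⁻ y in BB, F (y * w, w)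
      ≤ ∫⁻ w in Ann τ s, 4 * ∫⁻ v : ℂ, (Om τ s).indicator F (v, w) := by
        refine setLIntegral_mono' hmA fun w hw => ?_
        have hw2 : 0 < ‖w‖ := lt_of_le_of_lt hτ hw.1
        have hz : ((0 : ℂ), w) ∈ Om τ s := ⟨hw, by
          simp only [norm_zero]
          have : 0 < s := by linarith
          positivity⟩
        have h := bound_slice hs hτ hF le_rfl (by norm_num) hz
        simp only [Complex.ofReal_zero, zero_mul, zero_add, sub_zero, Complex.ofReal_one,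
          one_mul] at h
        calc _ ≤ ENNReal.ofReal (‖w‖ ^ 2) * (ENNReal.ofReal (4 * (‖w‖ ^ 2)⁻¹) *
              ∫⁻ v : ℂ, (Om τ s).indicator F (v, w)) := by gcongr
          _ = (ENNReal.ofReal (‖w‖ ^ 2) * ENNReal.ofReal (4 * (‖w‖ ^ 2)⁻¹)) *
              ∫⁻ v : ℂ, (Om τ s).indicator F (v, w) := by ring
          _ = _ := by
            congr 1
            rw [← ENNReal.ofReal_mul (by positivity)]
            have e : ‖w‖ ^ 2 * (4 * (‖w‖ ^ 2)⁻¹) = 4 := by field_simp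
            rw [e]; norm_num
    _ ≤ ∫⁻ w : ℂ, 4 * ∫⁻ v : ℂ, (Om τ s).indicator F (v, w) :=
        setLIntegral_le_lintegral _ _
    _ = 4 * ∫⁻ z in Om τ s, F z := by
        rw [lintegral_const_mul _ hHm, ← lintegral_indicator hmO,
          Measure.volume_eq_prod, lintegral_prod_symm _ hGm.aemeasurable]

lemma lintegral_inv_sq : ∫⁻ t in Ioi (1 / 2 : ℝ), ENNReal.ofReal (t ^ 2)⁻¹ = 2 := by
  have h1 := integral_Ioi_rpow_of_lt (a := -2) (by norm_num) (c := 1 / 2) (by norm_num)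
  have h2 := integrableOn_Ioi_rpow_of_lt (a := -2) (by norm_num) (c := 1 / 2) (by norm_num)
  have h3 : ∫⁻ t in Ioi (1 / 2 : ℝ), ENNReal.ofReal (t ^ 2)⁻¹
      = ∫⁻ t in Ioi (1 / 2 : ℝ), ENNReal.ofReal (t ^ (-2 : ℝ)) := by
    refine setLIntegral_congr_fun measurableSet_Ioi fun t ht => ?_
    have ht0 : (0 : ℝ) < t := lt_trans (by norm_num) (show (1 / 2 : ℝ) < t from ht)
    rw [Real.rpow_neg ht0.le]
    norm_num
  rw [h3, ← ofReal_integral_eq_lintegral_ofReal h2, h1]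
  · norm_num
  · rw [Filter.EventuallyLE, ae_restrict_iff' measurableSet_Ioi]
    refine Filter.Eventually.of_forall fun t ht => ?_
    have ht0 : (0 : ℝ) < t := lt_trans (by norm_num) (show (1 / 2 : ℝ) < t from ht)
    exact Real.rpow_nonneg ht0.le _

lemma bound_Rad {τ s : ℝ} (hτ : 0 ≤ τ) (hτ' : τ < 1 / 2) (hs : 1 / 2 < s) (hs1 : s ≤ 1)
    {a : ℂ → ℝ} (ha : Continuous a) :
    ∫⁻ z in Ann τ s, ‖Rad a z‖ₑ ^ 2 ≤ 4 * ∫⁻ z in Ann τ s, ‖a z‖ₑ ^ 2 := by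
  have hmA : MeasurableSet (Ann τ s) := (isOpen_Ann τ s).measurableSet
  set G : ℂ → ℝ≥0∞ := (Ann τ s).indicator fun z => ‖a z‖ₑ ^ 2 with hG
  have hGm : Measurable G := (by fun_prop : Measurable fun z => ‖a z‖ₑ ^ 2).indicator hmA
  have h1 : ∀ z ∈ Ann τ s, ‖Rad a z‖ₑ ^ 2 ≤ 2 * ∫⁻ t in Ioi (1 / 2 : ℝ), G (t • z) := by
    intro z hz
    have hz0 : 0 < ‖z‖ := lt_of_le_of_lt hτ hz.1
    set S := uIoc (1 / (2 * ‖z‖)) 1 with hS
    have hSm : MeasurableSet S := measurableSet_uIoc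
    have hd : 1 / 2 < 1 / (2 * ‖z‖) := by
      rw [div_lt_div_iff₀ (by norm_num) (by positivity)]
      linarith [hz.2]
    have hSI : S ⊆ Ioi (1 / 2 : ℝ) := by
      intro t ht
      rw [hS] at ht
      have : min (1 / (2 * ‖z‖)) 1 < t := ht.1
      exact lt_of_lt_of_le (lt_min hd (by norm_num)) this.le
    have h2 : ‖Rad a z‖ₑ ≤ ∫⁻ t in S, ‖a (t • z)‖ₑ * ‖t⁻¹‖ₑ := by
      have e : ‖Rad a z‖ₑ = ‖∫ t in S, a (t • z) / t‖ₑ := by
        rw [← ofReal_norm, ← ofReal_norm]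
        congr 1
        exact intervalIntegral.norm_intervalIntegral_eq _ _ _ _
      rw [e]
      refine (enorm_integral_le_lintegral_enorm _).trans (le_of_eq ?_)
      refine lintegral_congr fun t => ?_
      rw [div_eq_mul_inv, enorm_mul]
    calc ‖Rad a z‖ₑ ^ 2 ≤ (∫⁻ t in S, ‖a (t • z)‖ₑ * ‖t⁻¹‖ₑ) ^ 2 := by gcongr
      _ ≤ (∫⁻ t in S, ‖a (t • z)‖ₑ ^ 2) * ∫⁻ t in S, ‖t⁻¹‖ₑ ^ 2 := by
          apply cs_lintegral
          · exact (ha.comp (by fun_prop : Continuous fun t : ℝ => t • z)).measurable.enorm.aemeasurable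
          · exact (by fun_prop : Measurable fun t : ℝ => ‖t⁻¹‖ₑ).aemeasurable
      _ ≤ (∫⁻ t in Ioi (1 / 2 : ℝ), G (t • z)) * 2 := by
          refine mul_le_mul' ?_ ?_
          · calc ∫⁻ t in S, ‖a (t • z)‖ₑ ^ 2 = ∫⁻ t in S, G (t • z) := by
                  refine setLIntegral_congr_fun hSm fun t ht => ?_
                  simp only [hG]
                  rw [indicator_of_mem (smul_mem_Ann hτ hτ' hs hz (uIoc_subset_uIcc ht)).2]
              _ ≤ _ := lintegral_mono_set hSI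
          · calc ∫⁻ t in S, ‖t⁻¹‖ₑ ^ 2 ≤ ∫⁻ t in Ioi (1 / 2 : ℝ), ‖t⁻¹‖ₑ ^ 2 :=
                  lintegral_mono_set hSI
              _ = ∫⁻ t in Ioi (1 / 2 : ℝ), ENNReal.ofReal (t ^ 2)⁻¹ := by
                  refine lintegral_congr fun t => ?_
                  rw [← ofReal_norm, ← ENNReal.ofReal_pow (norm_nonneg _), Real.norm_eq_abs,
                    sq_abs, inv_pow]
              _ = 2 := lintegral_inv_sq
      _ = _ := by ring
  have hjm : Measurable fun p : ℂ × ℝ => G (p.2 • p.1) := hGm.comp (by fun_prop)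
  calc ∫⁻ z in Ann τ s, ‖Rad a z‖ₑ ^ 2
      ≤ ∫⁻ z in Ann τ s, 2 * ∫⁻ t in Ioi (1 / 2 : ℝ), G (t • z) := setLIntegral_mono' hmA h1
    _ ≤ ∫⁻ z : ℂ, 2 * ∫⁻ t in Ioi (1 / 2 : ℝ), G (t • z) := setLIntegral_le_lintegral _ _
    _ = 2 * ∫⁻ z : ℂ, ∫⁻ t in Ioi (1 / 2 : ℝ), G (t • z) := by
        rw [lintegral_const_mul' _ _ (by norm_num)]
    _ = 2 * ∫⁻ t in Ioi (1 / 2 : ℝ), ∫⁻ z : ℂ, G (t • z) := by
        congr 1
        exact lintegral_lintegral_swap hjm.aemeasurable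
    _ = 2 * ∫⁻ t in Ioi (1 / 2 : ℝ), ENNReal.ofReal (t ^ 2)⁻¹ * ∫⁻ z, G z := by
        congr 1
        refine setLIntegral_congr_fun measurableSet_Ioi fun t ht => ?_
        have ht0 : (0 : ℝ) < t := lt_trans (by norm_num) (show (1 / 2 : ℝ) < t from ht)
        have h := lintegral_affine hGm (c := (t : ℂ)) (by exact_mod_cast ht0.ne') 0
        simp only [add_zero, Complex.norm_real, Real.norm_of_nonneg ht0.le] at h
        rw [← h]
        refine lintegral_congr fun z => ?_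
        rw [Complex.real_smul]
    _ = 4 * ∫⁻ z in Ann τ s, ‖a z‖ₑ ^ 2 := by
        rw [lintegral_mul_const _ (by fun_prop), lintegral_inv_sq, hG, lintegral_indicator hmA,
          ← mul_assoc]
        norm_num

end Pool.Agent.H631R3
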