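import Pool.Agent.H631R3.Test

/-! Mollification of square integrable forms. -/

open scoped ContDiff Topology ENNReal NNReal Convolution
open MeasureTheory Set Filter

noncomputable section

namespace Pool.Agent.H631R3

instance instHaarC2 : (volume : Measure (ℂ × ℂ)).IsAddHaarMeasure :=
  inferInstanceAs ((volume : Measure ℂ).prod (volume : Measure ℂ)).IsAddHaarMeasure

/-- mollification -/
def mol (b : ContDiffBump (0 : ℂ × ℂ)) (F : ℂ × ℂ → ℝ) (x : ℂ × ℂ) : ℝ :=
  ∫ t, F t * b.normed volume (x - t)

variable (b : ContDiffBump (0 : ℂ × ℂ)) {F : ℂ × ℂ → ℝ}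

lemma mol_eq : mol b F = F ⋆[ContinuousLinearMap.mul ℝ ℝ, volume] b.normed volume := rfl

lemma contDiff_mol (hF : LocallyIntegrable F) : ContDiff ℝ ∞ (mol b F) := by
  rw [mol_eq]
  exact b.hasCompactSupport_normed.contDiff_convolution_right (n := (⊤ : ℕ∞)) _ hF b.contDiff_normed

lemma fderiv_mol (hF : LocallyIntegrable F) (x v : ℂ × ℂ) :
    fderiv ℝ (mol b F) x v = ∫ t, F t * fderiv ℝ (b.normed volume) (x - t) v := by
  rw [mol_eq]
  have hcs : HasCompactSupport (b.normed (volume : Measure (ℂ × ℂ))) := b.hasCompactSupport_normed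
  have hcd : ContDiff ℝ 1 (b.normed (volume : Measure (ℂ × ℂ))) := b.contDiff_normed (n := 1)
  have h := hcs.hasFDerivAt_convolution_right (ContinuousLinearMap.mul ℝ ℝ) hF hcd x
  rw [h.fderiv, convolution_precompR_apply _ hF (hcs.fderiv ℝ)
    (hcd.continuous_fderiv one_ne_zero)]
  rfl

/-- extension by zero of a coefficient -/
def ext0 {q : ℕ} (f : L2 q) (J : Idx q) : ℂ × ℂ → ℝ := Hartogs.indicator fun z => f z J

lemma volume_Hartogs_lt_top : volume Hartogs < ⊤ := by
  have h : Hartogs ⊆ Metric.closedBall (0 : ℂ × ℂ) 1 := by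
    intro z hz
    rw [← Om_zero_one] at hz
    simpa using norm_le_one_of_mem le_rfl hz
  exact lt_of_le_of_lt (measure_mono h) (isCompact_closedBall _ _).measure_lt_top

instance : IsFiniteMeasure μT := ⟨by
  rw [Measure.restrict_apply_univ]; exact volume_Hartogs_lt_top⟩

lemma memLp_ext0 {q : ℕ} (f : L2 q) (J : Idx q) : MemLp (ext0 f J) 2 volume :=
  (memLp_indicator_iff_restrict measurableSet_Hartogs).2 (L2_memLp_coord f J)

lemma integrable_ext0 {q : ℕ} (f : L2 q) (J : Idx q) : Integrable (ext0 f J) volume := by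
  have h : Integrable (fun z => f z J) μT := (L2_memLp_coord f J).integrable (by norm_num)
  exact (integrable_indicator_iff measurableSet_Hartogs).2 h

lemma mol_dist {n : ℕ} {f : L2 n} {g : L2 (n + 1)} (h : WeakD f g) {x : ℂ × ℂ}
    (hx : Metric.closedBall x b.rOut ⊆ Hartogs) (J : Idx (n + 1)) :
    dT (fun I => mol b (ext0 f I)) J x = mol b (ext0 g J) x := by
  set φ : ℂ × ℂ → ℝ := fun t => b.normed volume (x - t) with hφ
  have hsupp : Function.support φ ⊆ Metric.closedBall x b.rOut := by
    intro t ht
    have h1 : x - t ∈ Function.support (b.normed volume) := ht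
    rw [b.support_normed_eq] at h1
    rw [Metric.mem_closedBall, dist_comm, dist_eq_norm]
    rw [mem_ball_zero_iff] at h1
    exact h1.le
  have hcd : ContDiff ℝ ∞ φ := (b.contDiff_normed (n := (⊤ : ℕ∞))).comp (contDiff_const.sub contDiff_id)
  have htest : IsTest Hartogs φ := by
    refine ⟨hcd, HasCompactSupport.of_support_subset_isCompact (isCompact_closedBall _ _) hsupp, ?_⟩
    exact (closure_minimal hsupp Metric.isClosed_closedBall).trans hx
  have hd : ∀ t v, fderiv ℝ φ t v = - fderiv ℝ (b.normed volume) (x - t) v := by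
    intro t v
    have h1 : HasFDerivAt (fun t : ℂ × ℂ => x - t) (-(ContinuousLinearMap.id ℝ (ℂ × ℂ))) t :=
      (hasFDerivAt_id t).const_sub x
    have h2 : DifferentiableAt ℝ (b.normed volume) (x - t) :=
      (b.contDiff_normed (n := 1)).differentiable (by simp) _
    have h3 : HasFDerivAt φ _ t := h2.hasFDerivAt.comp t h1
    rw [h3.fderiv]
    simp
  have key := h J φ htest
  have e1 : ∫ z in Hartogs, g z J * φ z = mol b (ext0 g J) x := by
    unfold mol ext0
    rw [← integral_indicator measurableSet_Hartogs]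
    congr 1
    funext t
    by_cases ht : t ∈ Hartogs
    · rw [indicator_of_mem ht, indicator_of_mem ht]
    · rw [indicator_of_notMem ht, indicator_of_notMem ht, zero_mul]
  rw [← e1, key]
  unfold dT
  rw [← Finset.sum_neg_distrib]
  refine Finset.sum_congr rfl fun k _ => ?_
  rw [fderiv_mol b (integrable_ext0 f _).locallyIntegrable, ← mul_neg, ← integral_neg]
  congr 1
  unfold ext0
  rw [← integral_indicator measurableSet_Hartogs]
  congr 1
  funext t
  by_cases ht : t ∈ Hartogs
  · rw [indicator_of_mem ht, indicator_of_mem ht, hd]; ring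
  · rw [indicator_of_notMem ht, indicator_of_notMem ht, zero_mul]

lemma lintegral_rho (x : ℂ × ℂ) :
    ∫⁻ t, ENNReal.ofReal (b.normed volume (x - t)) = 1 := by
  rw [lintegral_sub_left_eq_self (fun t => ENNReal.ofReal (b.normed volume t)) x,
    ← ofReal_integral_eq_lintegral_ofReal b.integrable_normed
      (Eventually.of_forall fun t => b.nonneg_normed t), b.integral_normed, ENNReal.ofReal_one]

lemma lintegral_rho' (t : ℂ × ℂ) :
    ∫⁻ x, ENNReal.ofReal (b.normed volume (x - t)) = 1 := by
  rw [lintegral_sub_right_eq_self (fun t => ENNReal.ofReal (b.normed volume t)) t,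
    ← ofReal_integral_eq_lintegral_ofReal b.integrable_normed
      (Eventually.of_forall fun t => b.nonneg_normed t), b.integral_normed, ENNReal.ofReal_one]

lemma mol_L2 (hF : AEMeasurable F volume) :
    ∫⁻ x, ‖mol b F x‖ₑ ^ 2 ≤ ∫⁻ x, ‖F x‖ₑ ^ 2 := by
  have hρm : Measurable fun p : (ℂ × ℂ) × (ℂ × ℂ) => ENNReal.ofReal (b.normed volume (p.1 - p.2)) :=
    ENNReal.measurable_ofReal.comp (b.continuous_normed.comp (by fun_prop)).measurable
  have h1 : ∀ x, ‖mol b F x‖ₑ ^ 2 ≤
      ∫⁻ t, ENNReal.ofReal (b.normed volume (x - t)) * ‖F t‖ₑ ^ 2 := by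
    intro x
    have hm : Measurable fun t => ENNReal.ofReal (b.normed volume (x - t)) :=
      ENNReal.measurable_ofReal.comp (b.continuous_normed.comp (by fun_prop)).measurable
    set ν := (volume : Measure (ℂ × ℂ)).withDensity
      fun t => ENNReal.ofReal (b.normed volume (x - t)) with hν
    have hac : ν ≪ volume := withDensity_absolutelyContinuous _ _
    have hF' : AEMeasurable (fun t => ‖F t‖ₑ) ν := (hF.mono_ac hac).enorm
    calc ‖mol b F x‖ₑ ^ 2 ≤ (∫⁻ t, ENNReal.ofReal (b.normed volume (x - t)) * ‖F t‖ₑ) ^ 2 := by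
          gcongr
          refine (enorm_integral_le_lintegral_enorm _).trans (le_of_eq ?_)
          refine lintegral_congr fun t => ?_
          rw [enorm_mul, mul_comm]
          congr 1
          rw [← ofReal_norm, Real.norm_of_nonneg (b.nonneg_normed _)]
      _ = (∫⁻ t, ‖F t‖ₑ ∂ν) ^ 2 := by
          rw [hν, lintegral_withDensity_eq_lintegral_mul₀' hm.aemeasurable hF']
          rfl
      _ ≤ ν univ * ∫⁻ t, ‖F t‖ₑ ^ 2 ∂ν := cs_lintegral_one ν hF'
      _ = _ := by
          have : ν univ = 1 := by
            rw [hν, withDensity_apply _ MeasurableSet.univ, Measure.restrict_univ, lintegral_rho]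
          rw [this, one_mul, hν,
            lintegral_withDensity_eq_lintegral_mul₀' hm.aemeasurable (hF'.pow_const 2)]
          rfl
  calc ∫⁻ x, ‖mol b F x‖ₑ ^ 2
      ≤ ∫⁻ x, ∫⁻ t, ENNReal.ofReal (b.normed volume (x - t)) * ‖F t‖ₑ ^ 2 := lintegral_mono h1
    _ = ∫⁻ t, ∫⁻ x, ENNReal.ofReal (b.normed volume (x - t)) * ‖F t‖ₑ ^ 2 := by
        refine lintegral_lintegral_swap ?_
        refine hρm.aemeasurable.mul ?_
        have : AEMeasurable (fun t => ‖F t‖ₑ ^ 2) volume := hF.enorm.pow_const 2
        exact this.comp_quasiMeasurePreserving Measure.quasiMeasurePreserving_snd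
    _ = ∫⁻ x, ‖F x‖ₑ ^ 2 := by
        refine lintegral_congr fun t => ?_
        rw [lintegral_mul_const, lintegral_rho', one_mul]
        exact ENNReal.measurable_ofReal.comp (b.continuous_normed.comp (by fun_prop)).measurable

lemma integral_rho' (t : ℂ × ℂ) : ∫ x, b.normed volume (x - t) = 1 := by
  rw [integral_sub_right_eq_self (fun t => b.normed volume t) t, b.integral_normed]

lemma mol_pairing (hF : Integrable F volume) {ψ : ℂ × ℂ → ℝ} (hψ : Continuous ψ)
    (hψc : HasCompactSupport ψ) {ε : ℝ}
    (hε : ∀ x t : ℂ × ℂ, ‖x - t‖ < b.rOut → |ψ x - ψ t| ≤ ε) :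
    |(∫ x, mol b F x * ψ x) - ∫ x, F x * ψ x| ≤ ε * ∫ x, |F x| := by
  obtain ⟨C, hC⟩ := b.continuous_normed (μ := volume) |>.bounded_above_of_compact_support
    b.hasCompactSupport_normed
  have hψi : Integrable ψ volume := hψ.integrable_of_hasCompactSupport hψc
  have hjoint : Integrable (fun p : (ℂ × ℂ) × (ℂ × ℂ) => (ψ p.1 * F p.2) *
      b.normed volume (p.1 - p.2)) (volume.prod volume) := by
    refine (hψi.mul_prod hF).mul_bdd (c := C) ?_ ?_
    · exact (b.continuous_normed.comp (by fun_prop)).aestronglyMeasurable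
    · exact Eventually.of_forall fun p => hC _
  have h1 : ∫ x, mol b F x * ψ x = ∫ t, ∫ x, (ψ x * F t) * b.normed volume (x - t) := by
    have h2 : ∀ x, mol b F x * ψ x = ∫ t, (ψ x * F t) * b.normed volume (x - t) := by
      intro x
      unfold mol
      rw [← integral_mul_const]
      congr 1
      funext t
      ring
    simp_rw [h2]
    exact integral_integral_swap hjoint
  have h3 : ∀ t, F t * ψ t = ∫ x, (ψ t * F t) * b.normed volume (x - t) := by
    intro t
    rw [integral_const_mul, integral_rho', mul_one, mul_comm]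
  have hFψ : Integrable (fun t => F t * ψ t) volume := by
    obtain ⟨C', hC'⟩ := hψ.bounded_above_of_compact_support hψc
    exact hF.mul_bdd (c := C') hψ.aestronglyMeasurable (Eventually.of_forall hC')
  have h4 : ∀ t, |(∫ x, (ψ x * F t) * b.normed volume (x - t)) - F t * ψ t| ≤ ε * |F t| := by
    intro t
    rw [h3 t, ← integral_sub]
    · have h5 : ∀ x, (ψ x * F t) * b.normed volume (x - t) - (ψ t * F t) * b.normed volume (x - t)
          = F t * ((ψ x - ψ t) * b.normed volume (x - t)) := fun x => by ring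
      simp_rw [h5]
      rw [integral_const_mul, abs_mul, mul_comm ε]
      gcongr
      have h6 : ∀ x, ‖(ψ x - ψ t) * b.normed volume (x - t)‖ ≤ ε * b.normed volume (x - t) := by
        intro x
        rw [norm_mul, Real.norm_of_nonneg (b.nonneg_normed _), Real.norm_eq_abs]
        by_cases hx : ‖x - t‖ < b.rOut
        · exact mul_le_mul_of_nonneg_right (hε x t hx) (b.nonneg_normed _)
        · have : b.normed volume (x - t) = 0 := by
            rw [← Function.notMem_support, b.support_normed_eq]
            simpa using hx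
          rw [this, mul_zero, mul_zero]
      have hi : Integrable (fun x => ε * b.normed volume (x - t)) volume := by
        apply Integrable.const_mul
        exact (b.integrable_normed (μ := volume)).comp_sub_right t
      calc |∫ x, (ψ x - ψ t) * b.normed volume (x - t)|
          ≤ ∫ x, ε * b.normed volume (x - t) := by
            rw [← Real.norm_eq_abs]
            exact norm_integral_le_of_norm_le hi (Eventually.of_forall h6)
        _ = ε := by rw [integral_const_mul, integral_rho', mul_one]
    · have hc : Continuous fun x => (ψ x * F t) * b.normed volume (x - t) :=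
        (hψ.mul continuous_const).mul (b.continuous_normed.comp (by fun_prop))
      refine hc.integrable_of_hasCompactSupport ?_
      exact (hψc.mul_right).mul_right
    · apply Integrable.const_mul
      exact (b.integrable_normed (μ := volume)).comp_sub_right t
  rw [h1, ← integral_sub]
  · calc |∫ t, ((∫ x, (ψ x * F t) * b.normed volume (x - t)) - F t * ψ t)|
        ≤ ∫ t, ε * |F t| := by
          rw [← Real.norm_eq_abs]
          exact norm_integral_le_of_norm_le (hF.abs.const_mul ε)
            (Eventually.of_forall fun t => by rw [Real.norm_eq_abs]; exact h4 t)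
      _ = _ := integral_const_mul _ _
  · exact hjoint.integral_prod_right
  · exact hFψ

/-- a sequence of bump functions with shrinking supports -/
def bseq (n : ℕ) : ContDiffBump (0 : ℂ × ℂ) :=
  ⟨1 / (n + 1) / 2, 1 / (n + 1), by positivity, by
    have : (0 : ℝ) < 1 / (n + 1) := by positivity
    linarith⟩

lemma tendsto_mol (hF : Integrable F volume) {ψ : ℂ × ℂ → ℝ} (hψ : Continuous ψ)
    (hψc : HasCompactSupport ψ) :
    Tendsto (fun n => ∫ x, mol (bseq n) F x * ψ x) atTop (𝓝 (∫ x, F x * ψ x)) := by
  rw [Metric.tendsto_atTop]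
  intro ε hε
  set A : ℝ := ∫ x, |F x| with hA
  have hA0 : 0 ≤ A := integral_nonneg fun x => abs_nonneg _
  obtain ⟨δ, hδ, hδ'⟩ := Metric.uniformContinuous_iff.1
    (hψc.uniformContinuous_of_continuous hψ) (ε / (A + 1) / 2) (by positivity)
  obtain ⟨N, hN⟩ := exists_nat_one_div_lt hδ
  refine ⟨N, fun n hn => ?_⟩
  have h1 : (bseq n).rOut ≤ 1 / ((N : ℝ) + 1) := by
    change 1 / ((n : ℝ) + 1) ≤ _
    have : (N : ℝ) ≤ n := by exact_mod_cast hn
    gcongr
  have h2 := mol_pairing (bseq n) hF hψ hψc (ε := ε / (A + 1) / 2) (by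
    intro x t hxt
    have h3 : dist x t < δ := by
      rw [dist_eq_norm]; linarith
    exact (hδ' h3).le)
  rw [Real.dist_eq]
  refine lt_of_le_of_lt h2 ?_
  rw [← hA]
  have h4 : ε / (A + 1) / 2 * A ≤ ε / 2 := by
    have : A / (A + 1) ≤ 1 := by rw [div_le_one (by linarith)]; linarith
    calc ε / (A + 1) / 2 * A = ε / 2 * (A / (A + 1)) := by ring
      _ ≤ ε / 2 * 1 := by gcongr
      _ = _ := by ring
  linarith

end Pool.Agent.H631R3
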