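import Pool.Agent.H631R3.PI

/-! The radial integration operator on annuli. -/

open scoped ContDiff Topology ENNReal
open MeasureTheory Set Filter

noncomputable section

namespace Pool.Agent.H631R3

/-- the annulus `τ < |z| < s` -/
def Ann (τ s : ℝ) : Set ℂ := {z | τ < ‖z‖ ∧ ‖z‖ < s}

lemma isOpen_Ann (τ s : ℝ) : IsOpen (Ann τ s) :=
  (isOpen_lt continuous_const continuous_norm).inter (isOpen_lt continuous_norm continuous_const)

/-- the radial primitive of `a` for `dt / t` vanishing on the circle of radius `1/2` -/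
def Rad (a : ℂ → ℝ) (z : ℂ) : ℝ := ∫ t in (1 / (2 * ‖z‖))..1, a (t • z) / t

lemma Rad_eq (a : ℂ → ℝ) (z : ℂ) : Rad a z = (1 - 1 / (2 * ‖z‖)) *
    ∫ l in Icc (0 : ℝ) 1, a (((1 - 1 / (2 * ‖z‖)) * l + 1 / (2 * ‖z‖)) • z) /
      ((1 - 1 / (2 * ‖z‖)) * l + 1 / (2 * ‖z‖)) := by
  have h := intervalIntegral.smul_integral_comp_mul_add (a := 0) (b := 1)
    (fun t : ℝ => a (t • z) / t) (1 - 1 / (2 * ‖z‖)) (1 / (2 * ‖z‖))
  rw [mul_zero, zero_add, mul_one, sub_add_cancel, smul_eq_mul,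
    intervalIntegral.integral_of_le zero_le_one, ← integral_Icc_eq_integral_Ioc] at h
  rw [h]; rfl

lemma smul_mem_Ann {τ s : ℝ} (hτ : 0 ≤ τ) (hτ' : τ < 1 / 2) (hs : 1 / 2 < s) {z : ℂ}
    (hz : z ∈ Ann τ s) {t : ℝ} (ht : t ∈ uIcc (1 / (2 * ‖z‖)) 1) : 0 < t ∧ t • z ∈ Ann τ s := by
  have hz0 : 0 < ‖z‖ := lt_of_le_of_lt hτ hz.1
  have e : 1 / (2 * ‖z‖) * ‖z‖ = 1 / 2 := by field_simp
  have hd : 0 < 1 / (2 * ‖z‖) := by positivity
  have ht0 : 0 < t := by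
    rcases le_total (1 / (2 * ‖z‖)) 1 with h | h
    · rw [uIcc_of_le h] at ht; exact lt_of_lt_of_le hd ht.1
    · rw [uIcc_of_ge h] at ht; linarith [ht.1]
  refine ⟨ht0, ?_⟩
  have hn : ‖t • z‖ = t * ‖z‖ := by rw [norm_smul, Real.norm_of_nonneg ht0.le]
  rcases le_total (1 / (2 * ‖z‖)) 1 with h | h
  · rw [uIcc_of_le h] at ht
    have h1 := mul_le_mul_of_nonneg_right ht.1 hz0.le
    have h2 := mul_le_mul_of_nonneg_right ht.2 hz0.le
    rw [e] at h1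
    refine ⟨?_, ?_⟩ <;> rw [hn] <;> linarith [hz.2]
  · rw [uIcc_of_ge h] at ht
    have h1 := mul_le_mul_of_nonneg_right ht.1 hz0.le
    have h2 := mul_le_mul_of_nonneg_right ht.2 hz0.le
    rw [e] at h2
    refine ⟨?_, ?_⟩ <;> rw [hn] <;> linarith [hz.1, hz.2]

lemma contDiffOn_Rad {τ s : ℝ} (hτ : 0 ≤ τ) (hτ' : τ < 1 / 2) (hs : 1 / 2 < s) {a : ℂ → ℝ}
    (ha : ContDiffOn ℝ ∞ a (Ann τ s)) : ContDiffOn ℝ ∞ (Rad a) (Ann τ s) := by
  have hne : ∀ z ∈ Ann τ s, z ≠ 0 := fun z hz h => by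
    have := hz.1; rw [h, norm_zero] at this; linarith
  have hd : ContDiffOn ℝ ∞ (fun z : ℂ => 1 / (2 * ‖z‖)) (Ann τ s) := by
    apply ContDiffOn.div contDiffOn_const
    · exact contDiffOn_const.mul fun z hz => (contDiffAt_norm ℝ (hne z hz)).contDiffWithinAt
    · intro z hz
      have := norm_pos_iff.2 (hne z hz)
      positivity
  have hρ : ContDiffOn ℝ ∞ (fun r : ℝ × ℂ => (1 - 1 / (2 * ‖r.2‖)) * r.1 + 1 / (2 * ‖r.2‖))
      {r : ℝ × ℂ | r.2 ∈ Ann τ s} := by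
    have h1 : ContDiffOn ℝ ∞ (fun r : ℝ × ℂ => 1 / (2 * ‖r.2‖)) {r : ℝ × ℂ | r.2 ∈ Ann τ s} :=
      hd.comp contDiff_snd.contDiffOn fun r hr => hr
    exact ((contDiffOn_const.sub h1).mul contDiff_fst.contDiffOn).add h1
  have hAo : IsOpen {r : ℝ × ℂ | r.2 ∈ Ann τ s} := (isOpen_Ann τ s).preimage continuous_snd
  have hρz : ContDiffOn ℝ ∞ (fun r : ℝ × ℂ => ((1 - 1 / (2 * ‖r.2‖)) * r.1 + 1 / (2 * ‖r.2‖)) • r.2)
      {r : ℝ × ℂ | r.2 ∈ Ann τ s} := hρ.smul contDiff_snd.contDiffOn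
  set W : Set (ℝ × ℂ) := {r : ℝ × ℂ | r.2 ∈ Ann τ s} ∩
    (fun r : ℝ × ℂ => ((1 - 1 / (2 * ‖r.2‖)) * r.1 + 1 / (2 * ‖r.2‖),
      ((1 - 1 / (2 * ‖r.2‖)) * r.1 + 1 / (2 * ‖r.2‖)) • r.2)) ⁻¹' (Ioi 0 ×ˢ Ann τ s) with hW
  have hWo : IsOpen W :=
    (hρ.continuousOn.prodMk hρz.continuousOn).isOpen_inter_preimage hAo
      (isOpen_Ioi.prod (isOpen_Ann τ s))
  have hk : ContDiffOn ℝ ∞ (fun r : ℝ × ℂ =>
      a (((1 - 1 / (2 * ‖r.2‖)) * r.1 + 1 / (2 * ‖r.2‖)) • r.2) /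
      ((1 - 1 / (2 * ‖r.2‖)) * r.1 + 1 / (2 * ‖r.2‖))) W := by
    apply ContDiffOn.div
    · exact ha.comp (hρz.mono fun r hr => hr.1) fun r hr => hr.2.2
    · exact hρ.mono fun r hr => hr.1
    · intro r hr
      exact (show (0 : ℝ) < _ from hr.2.1).ne'
  have hKU : Icc (0 : ℝ) 1 ×ˢ Ann τ s ⊆ W := by
    rintro ⟨l, z⟩ ⟨hl, hz⟩
    have hz0 : 0 < ‖z‖ := norm_pos_iff.2 (hne z hz)
    have hm : (1 - 1 / (2 * ‖z‖)) * l + 1 / (2 * ‖z‖) ∈ uIcc (1 / (2 * ‖z‖)) 1 := by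
      rcases le_total (1 / (2 * ‖z‖)) 1 with h | h
      · rw [uIcc_of_le h]
        constructor <;> nlinarith [hl.1, hl.2]
      · rw [uIcc_of_ge h]
        constructor <;> nlinarith [hl.1, hl.2]
    have := smul_mem_Ann hτ hτ' hs hz hm
    exact ⟨hz, this.1, this.2⟩
  have h1 := contDiffOn_PI (μ := (volume : Measure ℝ)) isCompact_Icc hWo (isOpen_Ann τ s) hKU hk
  have h2 : ContDiffOn ℝ ∞ (fun z : ℂ => 1 - 1 / (2 * ‖z‖)) (Ann τ s) := contDiffOn_const.sub hd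
  refine (h2.mul h1).congr fun z hz => ?_
  rw [Rad_eq]

lemma fderiv_Rad_self {τ s : ℝ} (hτ : 0 ≤ τ) (hτ' : τ < 1 / 2) (hs : 1 / 2 < s) {a : ℂ → ℝ}
    (ha : ContDiffOn ℝ ∞ a (Ann τ s)) {z : ℂ} (hz : z ∈ Ann τ s) :
    fderiv ℝ (Rad a) z z = a z := by
  have hz0 : 0 < ‖z‖ := lt_of_le_of_lt hτ hz.1
  have hdR : DifferentiableAt ℝ (Rad a) ((1 : ℝ) • z) := by
    rw [one_smul]
    exact ((contDiffOn_Rad hτ hτ' hs ha).contDiffAt ((isOpen_Ann τ s).mem_nhds hz)).differentiableAt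
      (by simp)
  have h1 : HasDerivAt (fun x : ℝ => Rad a (x • z)) (fderiv ℝ (Rad a) ((1 : ℝ) • z) z) 1 := by
    have hs : HasDerivAt (fun x : ℝ => x • z) z 1 := by
      simpa using (hasDerivAt_id (1 : ℝ)).smul_const z
    exact hdR.hasFDerivAt.comp_hasDerivAt (1 : ℝ) hs
  rw [one_smul] at h1
  have hev : (fun x : ℝ => Rad a (x • z)) =ᶠ[𝓝 1]
      fun x => ∫ t in (1 / (2 * ‖z‖))..x, a (t • z) / t := by
    filter_upwards [lt_mem_nhds (zero_lt_one' ℝ)] with x hx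
    have h2 := intervalIntegral.smul_integral_comp_mul_left (a := 1 / (2 * ‖x • z‖)) (b := 1)
      (fun t : ℝ => a (t • z) / t) x
    have e1 : x * (1 / (2 * ‖x • z‖)) = 1 / (2 * ‖z‖) := by
      rw [norm_smul, Real.norm_of_nonneg hx.le]; field_simp
    rw [e1, mul_one] at h2
    rw [← h2, smul_eq_mul, ← intervalIntegral.integral_const_mul]
    unfold Rad
    congr 1
    funext t
    rw [smul_smul, mul_comm x t]
    rcases eq_or_ne t 0 with h | h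
    · simp [h]
    · field_simp
  have hcont : ContinuousOn (fun t : ℝ => a (t • z) / t) (uIcc (1 / (2 * ‖z‖)) 1) := by
    apply ContinuousOn.div
    · exact ha.continuousOn.comp (by fun_prop) fun t ht => (smul_mem_Ann hτ hτ' hs hz ht).2
    · fun_prop
    · intro t ht; exact (smul_mem_Ann hτ hτ' hs hz ht).1.ne'
  have hnear : ∀ᶠ t : ℝ in 𝓝 1, ContinuousAt (fun t : ℝ => a (t • z) / t) t := by
    have hm : ∀ᶠ t : ℝ in 𝓝 1, t • z ∈ Ann τ s := by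
      have hc : ContinuousAt (fun t : ℝ => t • z) 1 := by fun_prop
      apply hc.preimage_mem_nhds
      rw [one_smul]
      exact (isOpen_Ann τ s).mem_nhds hz
    filter_upwards [hm, lt_mem_nhds (zero_lt_one' ℝ)] with t ht ht0
    apply ContinuousAt.div
    · have h3 : ContinuousAt a (t • z) := ha.continuousOn.continuousAt ((isOpen_Ann τ s).mem_nhds ht)
      exact ContinuousAt.comp (f := fun t : ℝ => t • z) h3 (by fun_prop)
    · fun_prop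
    · exact ht0.ne'
  have h4 := intervalIntegral.integral_hasDerivAt_right (a := 1 / (2 * ‖z‖)) (b := 1)
    hcont.intervalIntegrable
    (by
      obtain ⟨v, hv, hvo, hv1⟩ := eventually_nhds_iff.1 hnear
      have : ContinuousOn (fun t : ℝ => a (t • z) / t) v := fun t ht => (hv t ht).continuousWithinAt
      exact ⟨v, hvo.mem_nhds hv1, this.aestronglyMeasurable hvo.measurableSet⟩)
    hnear.self_of_nhds
  have h5 := h4.congr_of_eventuallyEq hev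
  have := h1.unique h5
  simpa using this

lemma Rad_rot {τ s : ℝ} (hτ : 0 ≤ τ) (hτ' : τ < 1 / 2) (hs : 1 / 2 < s) {a : ℂ → ℝ}
    {c : ℂ} (hc : ‖c‖ = 1) (ha : ∀ z ∈ Ann τ s, a (c * z) = a z) {z : ℂ} (hz : z ∈ Ann τ s) :
    Rad a (c * z) = Rad a z := by
  unfold Rad
  rw [norm_mul, hc, one_mul]
  refine intervalIntegral.integral_congr fun t ht => ?_
  have h1 := (smul_mem_Ann hτ hτ' hs hz ht).2
  rw [← ha _ h1, mul_smul_comm]

end Pool.Agent.H631R3
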