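import Pool.Agent.H631R3.Wt1

/-! Regularisation operators averaging over small linear maps of the Hartogs triangle. -/

open scoped ContDiff Topology ENNReal NNReal
open MeasureTheory Set Filter

noncomputable section

namespace Pool.Agent.H631R3

/-- the averaging parameters -/
abbrev QQ : Set (ℂ × ℂ) := BB ×ˢ BB

lemma isCompact_QQ : IsCompact QQ := isCompact_BB.prod isCompact_BB

/-- volume of the parameter set -/
def vQ : ℝ := (volume QQ).toReal

lemma vQ_pos : 0 < vQ := by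
  apply ENNReal.toReal_pos
  · have h1 : volume QQ = volume BB * volume BB := by
      rw [Measure.volume_eq_prod]; exact Measure.prod_prod _ _
    rw [h1]
    have h2 : volume BB ≠ 0 := (Metric.measure_closedBall_pos volume (0 : ℂ) (by norm_num)).ne'
    exact mul_ne_zero h2 h2
  · exact isCompact_QQ.measure_lt_top.ne

/-- the family of linear maps near the identity -/
def AR (p : ℝ × (ℂ × ℂ)) : (ℂ × ℂ) →L[ℝ] (ℂ × ℂ) :=
  M ((1 - 3 * p.1 : ℝ) : ℂ) ((p.1 : ℂ) * p.2.1) (((1 - p.1 : ℝ) : ℂ) + (p.1 : ℂ) * p.2.2)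

/-- its velocity -/
def dAR (p : ℝ × (ℂ × ℂ)) : (ℂ × ℂ) →L[ℝ] (ℂ × ℂ) := M (-3) p.2.1 (-1 + p.2.2)

lemma contDiff_AR : ContDiff ℝ ∞ AR := by
  unfold AR
  apply contDiff_M
  · exact Complex.ofRealCLM.contDiff.comp (contDiff_const.sub (contDiff_const.mul contDiff_fst))
  · exact (Complex.ofRealCLM.contDiff.comp contDiff_fst).mul (contDiff_fst.comp contDiff_snd)
  · exact (Complex.ofRealCLM.contDiff.comp (contDiff_const.sub contDiff_fst)).add
      ((Complex.ofRealCLM.contDiff.comp contDiff_fst).mul (contDiff_snd.comp contDiff_snd))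

lemma contDiff_dAR : ContDiff ℝ ∞ dAR := by
  unfold dAR
  exact contDiff_M contDiff_const (contDiff_fst.comp contDiff_snd)
    (contDiff_const.add (contDiff_snd.comp contDiff_snd))

lemma hasDerivAt_AR (t : ℝ) (y : ℂ × ℂ) : HasDerivAt (fun s => AR (s, y)) (dAR (t, y)) t := by
  unfold AR dAR
  have h0 : HasDerivAt (fun s : ℝ => (s : ℂ)) 1 t := Complex.ofRealCLM.hasDerivAt
  apply hasDerivAt_M
  · have h2 : (fun s : ℝ => ((1 - 3 * s : ℝ) : ℂ)) = fun s : ℝ => 1 - 3 * (s : ℂ) := by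
      funext s; push_cast; ring
    rw [h2]
    simpa using (h0.const_mul 3).const_sub 1
  · simpa using h0.mul_const y.1
  · have h2 : (fun s : ℝ => ((1 - s : ℝ) : ℂ) + (s : ℂ) * y.2) = fun s : ℝ => 1 - (s : ℂ) + (s : ℂ) * y.2 := by
      funext s; push_cast; ring
    rw [h2]
    have h3 := (h0.const_sub 1).add (h0.mul_const y.2)
    rw [one_mul] at h3
    exact h3

/-- the averaged pullback -/
def RR {q : ℕ} (ε : ℝ) (f : ℂ × ℂ → Form q) (J : Idx q) (x : ℂ × ℂ) : ℝ :=
  ∫ y in QQ, pull f (AR (ε, y)) J x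

/-- the homotopy operator -/
def HR {n : ℕ} (ε : ℝ) (f : ℂ × ℂ → Form (n + 1)) : Idx n → ℂ × ℂ → ℝ :=
  Kop volume (Icc (0 : ℝ) ε ×ˢ QQ) AR dAR f

lemma contDiff_RR {q : ℕ} (ε : ℝ) {f : ℂ × ℂ → Form q} (hf : ContDiff ℝ ∞ f) (J : Idx q) :
    ContDiff ℝ ∞ (RR ε f J) := by
  rw [← contDiffOn_univ]
  have hA : ContDiff ℝ ∞ (fun y : ℂ × ℂ => AR (ε, y)) :=
    contDiff_AR.comp (contDiff_const.prodMk contDiff_id)
  refine contDiffOn_PI isCompact_QQ (W := univ) isOpen_univ isOpen_univ (fun r _ => mem_univ _)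
    (k := fun r : (ℂ × ℂ) × (ℂ × ℂ) => pull f (AR (ε, r.1)) J r.2) ?_
  exact (contDiffOn_pull (V := univ) hf.contDiffOn hA J).mono fun _ _ => mem_univ _

lemma contDiff_HR {n : ℕ} (ε : ℝ) {f : ℂ × ℂ → Form (n + 1)} (hf : ContDiff ℝ ∞ f) (I : Idx n) :
    ContDiff ℝ ∞ (HR ε f I) := by
  rw [← contDiffOn_univ]
  exact contDiffOn_Kop (isCompact_Icc.prod isCompact_QQ) isOpen_univ isOpen_univ hf.contDiffOn
    contDiff_AR contDiff_dAR (fun _ _ _ _ => mem_univ _) I

lemma ftc_fubiniQ {a b : ℝ} (hab : a ≤ b) {Ψ Ψ' : ℝ × (ℂ × ℂ) → ℝ}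
    (hc : ContinuousOn Ψ' (Icc a b ×ˢ QQ))
    (hd : ∀ t ∈ Icc a b, ∀ y ∈ QQ, HasDerivAt (fun s => Ψ (s, y)) (Ψ' (t, y)) t) :
    ∫ p in Icc a b ×ˢ QQ, Ψ' p = ∫ y in QQ, (Ψ (b, y) - Ψ (a, y)) := by
  have hK : IsCompact (Icc a b ×ˢ QQ) := isCompact_Icc.prod isCompact_QQ
  have hint : IntegrableOn Ψ' (Icc a b ×ˢ QQ) (volume.prod volume) :=
    hc.integrableOn_compact hK
  have e0 : (∫ p in Icc a b ×ˢ QQ, Ψ' p) = ∫ p in Icc a b ×ˢ QQ, Ψ' p ∂(volume.prod volume) := rfl
  rw [e0, setIntegral_prod _ hint]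
  rw [integral_integral_swap (f := fun t y => Ψ' (t, y))]
  · refine setIntegral_congr_fun isCompact_QQ.isClosed.measurableSet fun y hy => ?_
    have hcy : ContinuousOn (fun t => Ψ' (t, y)) (Icc a b) :=
      hc.comp (by fun_prop) (fun t ht => ⟨ht, hy⟩)
    rw [integral_Icc_eq_integral_Ioc, ← intervalIntegral.integral_of_le hab]
    refine intervalIntegral.integral_eq_sub_of_hasDerivAt
      (f := fun t => Ψ (t, y)) (f' := fun t => Ψ' (t, y)) ?_ ?_
    · intro t ht
      rw [uIcc_of_le hab] at ht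
      exact hd t ht y hy
    · apply ContinuousOn.intervalIntegrable
      rw [uIcc_of_le hab]
      exact hcy
  · rw [IntegrableOn, ← Measure.prod_restrict] at hint
    exact hint

lemma dT_HR {ε : ℝ} (hε : 0 ≤ ε) {n : ℕ} {f : ℂ × ℂ → Form (n + 1)}
    (hf : ContDiff ℝ ∞ f) (hdf : ContDiff ℝ ∞ (extDeriv f)) (x : ℂ × ℂ) (J : Idx (n + 1)) :
    dT (HR ε f) J x = RR ε f J x - vQ * f x (frame ∘ J) - HR ε (extDeriv f) J x := by
  have hK : IsCompact (Icc 0 ε ×ˢ QQ) := isCompact_Icc.prod isCompact_QQ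
  have h1 := d_Kop (μ := (volume : Measure (ℝ × (ℂ × ℂ)))) hK isOpen_univ isOpen_univ hf.contDiffOn
    contDiff_AR contDiff_dAR (fun _ _ _ _ => mem_univ _) (mem_univ x) J
  unfold dT HR
  rw [h1]
  have hder2 : ∀ p : ℝ × (ℂ × ℂ), HasDerivAt (fun s => pull f (AR (s, p.2)) J x)
      (fderiv ℝ f (AR p x) (dAR p x) (fun j => AR p (frame (J j)))
        + ∑ i : Fin (n + 1), f (AR p x)
          (Function.update (fun j => AR p (frame (J j))) i (dAR p (frame (J i))))) p.1 := by
    intro p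
    exact hasDerivAt_pull (A := fun s => AR (s, p.2)) (A' := fun s => dAR (s, p.2))
      (hasDerivAt_AR p.1 p.2) (hf.differentiable (by simp) _) J
  have hpc' : Continuous (fun p : ℝ × (ℂ × ℂ) => fderiv ℝ f (AR p x) (dAR p x)
      (fun j => AR p (frame (J j)))
        + ∑ i : Fin (n + 1), f (AR p x)
          (Function.update (fun j => AR p (frame (J j))) i (dAR p (frame (J i))))) := by
    have hAc : Continuous (fun p : ℝ × (ℂ × ℂ) => AR p x) :=
      contDiff_AR.continuous.clm_apply continuous_const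
    have hfc : Continuous (fun p : ℝ × (ℂ × ℂ) => f (AR p x)) := hf.continuous.comp hAc
    have hfc' : Continuous (fun p : ℝ × (ℂ × ℂ) => fderiv ℝ f (AR p x) (dAR p x)) :=
      ((hf.continuous_fderiv (by simp)).comp hAc).clm_apply
        (contDiff_dAR.continuous.clm_apply continuous_const)
    have hev : ∀ {q : ℕ} {F : ℝ × (ℂ × ℂ) → Form q} {v : ℝ × (ℂ × ℂ) → Fin q → ℂ × ℂ},
        Continuous F → Continuous v → Continuous (fun p => F p (v p)) := by
      intro q F v hF hv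
      have : (fun p => F p (v p)) = fun p => ∑ I : Idx q, evalAt (frame ∘ I) (F p)
          * detForm I (v p) := by
        funext p; rw [form_apply_eq_sum]; rfl
      rw [this]
      refine continuous_finsetSum _ fun I _ => ?_
      exact ((evalAt (frame ∘ I)).continuous.comp hF).mul
        ((contDiff_detForm I).continuous.comp hv)
    have hvA : ∀ v : ℂ × ℂ, Continuous fun p : ℝ × (ℂ × ℂ) => AR p v := fun v =>
      contDiff_AR.continuous.clm_apply continuous_const
    have hvdA : ∀ v : ℂ × ℂ, Continuous fun p : ℝ × (ℂ × ℂ) => dAR p v := fun v =>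
      contDiff_dAR.continuous.clm_apply continuous_const
    apply Continuous.add
    · exact hev hfc' (continuous_pi fun j => hvA _)
    · refine continuous_finsetSum _ fun i _ => ?_
      refine hev hfc ?_
      exact (continuous_pi fun j => hvA _).update i (hvdA _)
  have hkc : ContinuousOn (fun p : ℝ × (ℂ × ℂ) => kern (extDeriv f) (AR p) (dAR p) J x)
      (Icc 0 ε ×ˢ QQ) :=
    (contDiffOn_kern (V := univ) hdf.contDiffOn contDiff_AR contDiff_dAR J).continuousOn.comp
      (f := fun p : ℝ × (ℂ × ℂ) => (p, x)) (by fun_prop) (fun p hp => mem_univ _)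
  rw [integral_sub]
  · congr 1
    rw [ftc_fubiniQ (Ψ := fun p => pull f (AR p) J x) hε hpc'.continuousOn
      (fun t _ y _ => hder2 (t, y))]
    have hpc : ∀ s : ℝ, ContinuousOn (fun y : ℂ × ℂ => pull f (AR (s, y)) J x) QQ := by
      intro s
      have hA : ContDiff ℝ ∞ (fun y : ℂ × ℂ => AR (s, y)) :=
        contDiff_AR.comp (contDiff_const.prodMk contDiff_id)
      exact (contDiffOn_pull (V := univ) hf.contDiffOn hA J).continuousOn.comp
        (f := fun y : ℂ × ℂ => (y, x)) (by fun_prop) (fun p hp => mem_univ _)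
    rw [integral_sub ((hpc ε).integrableOn_compact isCompact_QQ)
      ((hpc 0).integrableOn_compact isCompact_QQ)]
    congr 1
    have e0 : ∀ y : ℂ × ℂ, AR (0, y) = ContinuousLinearMap.id ℝ (ℂ × ℂ) := by
      intro y; ext z <;> simp [AR, M_apply]
    simp_rw [e0]
    rw [setIntegral_const]
    rfl
  · exact hpc'.continuousOn.integrableOn_compact hK
  · exact hkc.integrableOn_compact hK

end Pool.Agent.H631R3
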