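import Pool.Agent.H631R3.Reg

/-! Regularisation operators: square integral bounds and smoothing. -/

open scoped ContDiff Topology ENNReal NNReal
open MeasureTheory Set Filter

noncomputable section

namespace Pool.Agent.H631R3

lemma lintegral_M {G : ℂ × ℂ → ℝ≥0∞} (hG : Measurable G) {a b c : ℂ} (ha : a ≠ 0) (hc : c ≠ 0) :
    ∫⁻ z, G (M a b c z)
      = ENNReal.ofReal (‖a‖ ^ 2)⁻¹ * (ENNReal.ofReal (‖c‖ ^ 2)⁻¹ * ∫⁻ z, G z) := by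
  have hm : Measurable fun z : ℂ × ℂ => G (M a b c z) := hG.comp (M a b c).continuous.measurable
  rw [Measure.volume_eq_prod, lintegral_prod_symm _ hm.aemeasurable,
    lintegral_prod_symm _ hG.aemeasurable]
  have h1 : ∀ w : ℂ, ∫⁻ v : ℂ, G (M a b c (v, w))
      = ENNReal.ofReal (‖a‖ ^ 2)⁻¹ * ∫⁻ v : ℂ, G (v, c * w + 0) := by
    intro w
    have h2 := lintegral_affine (g := fun v : ℂ => G (v, c * w + 0)) (hG.comp (by fun_prop)) ha (b * w)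
    rw [← h2]
    refine lintegral_congr fun v => ?_
    simp [M_apply]
  simp_rw [h1]
  rw [lintegral_const_mul' _ _ ENNReal.ofReal_ne_top]
  congr 1
  exact lintegral_affine (g := fun w : ℂ => ∫⁻ v : ℂ, G (v, w)) hG.lintegral_prod_left' hc 0

lemma AR_apply (s : ℝ) (y x : ℂ × ℂ) : AR (s, y) x
    = (((1 - 3 * s : ℝ) : ℂ) * x.1 + (s : ℂ) * y.1 * x.2, (((1 - s : ℝ) : ℂ) + (s : ℂ) * y.2) * x.2) := by
  simp [AR, M_apply]

lemma norm_QQ {y : ℂ × ℂ} (hy : y ∈ QQ) : ‖y.1‖ ≤ 1 / 2 ∧ ‖y.2‖ ≤ 1 / 2 := by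
  have h1 := hy.1
  have h2 := hy.2
  simp only [BB, Metric.mem_closedBall, dist_zero_right] at h1 h2
  exact ⟨h1, h2⟩

lemma AR_c_bounds {s : ℝ} (hs0 : 0 ≤ s) (hs1 : s ≤ 1 / 8) {y : ℂ × ℂ} (hy : y ∈ QQ) :
    1 - 3 / 2 * s ≤ ‖((1 - s : ℝ) : ℂ) + (s : ℂ) * y.2‖ ∧
    ‖((1 - s : ℝ) : ℂ) + (s : ℂ) * y.2‖ ≤ 1 := by
  have h2 := (norm_QQ hy).2
  have h3 : ‖(s : ℂ) * y.2‖ ≤ s / 2 := by
    rw [norm_mul, Complex.norm_real, Real.norm_of_nonneg hs0]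
    nlinarith
  have h4 : ‖((1 - s : ℝ) : ℂ)‖ = 1 - s := by
    rw [Complex.norm_real, Real.norm_of_nonneg (by linarith)]
  constructor
  · have := norm_sub_le_norm_add ((1 - s : ℝ) : ℂ) ((s : ℂ) * y.2)
    linarith
  · have := norm_add_le ((1 - s : ℝ) : ℂ) ((s : ℂ) * y.2)
    linarith

/-- the maps send truncated triangles to slightly larger ones -/
lemma AR_mem {τ s0 s : ℝ} (hτ : 0 ≤ τ) (hs0 : 1 / 2 < s0) (hs : 0 ≤ s) (hs1 : s ≤ 1 / 8)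
    {y : ℂ × ℂ} (hy : y ∈ QQ) {x : ℂ × ℂ} (hx : x ∈ Om τ s0) : AR (s, y) x ∈ Om (τ / 2) s0 := by
  obtain ⟨h1, h2⟩ := AR_c_bounds hs hs1 hy
  have h3 := (norm_QQ hy).1
  have hx2 : 0 < ‖x.2‖ := lt_of_le_of_lt hτ hx.1.1
  rw [AR_apply]
  refine ⟨⟨?_, ?_⟩, ?_⟩
  · simp only [norm_mul]
    have : τ < ‖x.2‖ := hx.1.1
    nlinarith
  · simp only [norm_mul]
    have : ‖x.2‖ < s0 := hx.1.2
    nlinarith
  · simp only [norm_mul]
    have h4 : ‖((1 - 3 * s : ℝ) : ℂ) * x.1 + (s : ℂ) * y.1 * x.2‖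
        ≤ (1 - 3 * s) * ‖x.1‖ + s / 2 * ‖x.2‖ := by
      refine (norm_add_le _ _).trans ?_
      rw [norm_mul, norm_mul, norm_mul, Complex.norm_real, Complex.norm_real,
        Real.norm_of_nonneg (by linarith : 0 ≤ 1 - 3 * s), Real.norm_of_nonneg hs]
      have : s * ‖y.1‖ ≤ s / 2 := by nlinarith
      nlinarith
    have h5 : (1 - 3 * s) * ‖x.1‖ < (1 - 3 * s) * (s0 * ‖x.2‖) :=
      mul_lt_mul_of_pos_left hx.2 (by linarith)
    have h6 : s0 * ((1 - 3 / 2 * s) * ‖x.2‖)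
        ≤ s0 * (‖((1 - s : ℝ) : ℂ) + (s : ℂ) * y.2‖ * ‖x.2‖) := by gcongr
    have h7 : 0 ≤ s * ‖x.2‖ := by positivity
    have h8 : s * ‖x.2‖ * (1 / 2) ≤ s * ‖x.2‖ * s0 := by gcongr
    nlinarith

lemma AR_memT {s : ℝ} (hs : 0 ≤ s) (hs1 : s ≤ 1 / 8) {y : ℂ × ℂ} (hy : y ∈ QQ) {x : ℂ × ℂ}
    (hx : x ∈ Hartogs) : AR (s, y) x ∈ Hartogs := by
  rw [← Om_zero_one] at hx ⊢
  have := AR_mem le_rfl (by norm_num) hs hs1 hy hx
  rwa [zero_div] at this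

lemma int_AR {G : ℂ × ℂ → ℝ≥0∞} (hG : Measurable G) {s : ℝ} (hs : 0 ≤ s) (hs1 : s ≤ 1 / 8)
    {y : ℂ × ℂ} (hy : y ∈ QQ) :
    ∫⁻ x in Hartogs, G (AR (s, y) x) ≤ 16 * ∫⁻ x in Hartogs, G x := by
  obtain ⟨h1, h2⟩ := AR_c_bounds hs hs1 hy
  have hc : 1 / 2 ≤ ‖((1 - s : ℝ) : ℂ) + (s : ℂ) * y.2‖ := by linarith
  have ha : 1 / 2 ≤ ‖((1 - 3 * s : ℝ) : ℂ)‖ := by
    rw [Complex.norm_real, Real.norm_of_nonneg (by linarith)]; linarith
  set G' := Hartogs.indicator G with hG'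
  have hG'm : Measurable G' := hG.indicator measurableSet_Hartogs
  have hinv : ∀ r : ℝ, 1 / 2 ≤ r → ENNReal.ofReal (r ^ 2)⁻¹ ≤ 4 := by
    intro r hr
    rw [show (4 : ℝ≥0∞) = ENNReal.ofReal 4 by norm_num]
    apply ENNReal.ofReal_le_ofReal
    rw [inv_le_comm₀ (by positivity) (by norm_num)]
    nlinarith
  calc ∫⁻ x in Hartogs, G (AR (s, y) x) = ∫⁻ x in Hartogs, G' (AR (s, y) x) := by
        refine setLIntegral_congr_fun measurableSet_Hartogs fun x hx => ?_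
        rw [hG', indicator_of_mem (AR_memT hs hs1 hy hx)]
    _ ≤ ∫⁻ x, G' (AR (s, y) x) := setLIntegral_le_lintegral _ _
    _ = _ := lintegral_M hG'm (norm_pos_iff.1 (by linarith)) (norm_pos_iff.1 (by linarith))
    _ ≤ 4 * (4 * ∫⁻ z, G' z) := by
        gcongr
        · exact hinv _ ha
        · exact hinv _ hc
    _ = _ := by
        rw [hG', lintegral_indicator measurableSet_Hartogs, ← mul_assoc]
        norm_num

end Pool.Agent.H631R3
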