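import Pool.Agent.H631R3.Reg2

/-! Regularisation operators on smooth tuples. -/

open scoped ContDiff Topology ENNReal NNReal
open MeasureTheory Set Filter

noncomputable section

namespace Pool.Agent.H631R3

abbrev K0 : Set (ℝ × (ℂ × ℂ)) := Icc (0 : ℝ) (1 / 8) ×ˢ QQ

lemma isCompact_K0 : IsCompact K0 := isCompact_Icc.prod isCompact_QQ

lemma pull_bound (q : ℕ) : ∃ C : ℝ≥0, ∀ (f : ℂ × ℂ → Form q) (J : Idx q), ∀ p ∈ K0, ∀ x : ℂ × ℂ,
    ‖pull f (AR p) J x‖ₑ ≤ C * ‖f (AR p x)‖ₑ := by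
  obtain ⟨C, hC0, hC⟩ := exists_bound_fam isCompact_K0 contDiff_AR.continuous
  refine ⟨⟨C ^ q, by positivity⟩, fun f J p hp x => ?_⟩
  have h3 : ‖pull f (AR p) J x‖ ≤ C ^ q * ‖f (AR p x)‖ := by
    unfold pull
    refine ((f (AR p x)).le_opNorm _).trans ?_
    rw [mul_comm]
    gcongr
    calc _ ≤ ∏ _i : Fin q, C := by
          refine Finset.prod_le_prod (fun i _ => norm_nonneg _) (fun i _ => ?_)
          calc ‖AR p (frame (J i))‖ ≤ ‖AR p‖ * ‖frame (J i)‖ := (AR p).le_opNorm _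
            _ ≤ C := by rw [norm_frame, mul_one]; exact hC p hp
      _ = C ^ q := by simp
  rw [← ofReal_norm, ← ofReal_norm]
  calc ENNReal.ofReal ‖pull f (AR p) J x‖ ≤ ENNReal.ofReal (C ^ q * ‖f (AR p x)‖) :=
        ENNReal.ofReal_le_ofReal h3
    _ = _ := by
        rw [ENNReal.ofReal_mul (by positivity)]
        congr 1
        exact ENNReal.ofReal_eq_coe_nnreal _

lemma RR_sq_le (q : ℕ) : ∃ C : ℝ≥0, ∀ ε : ℝ, 0 ≤ ε → ε ≤ 1 / 8 → ∀ f : ℂ × ℂ → Form q,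
    Continuous f → ∀ (J : Idx q) (x : ℂ × ℂ),
    ‖RR ε f J x‖ₑ ^ 2 ≤ C * ∫⁻ y in QQ, ‖f (AR (ε, y) x)‖ₑ ^ 2 := by
  obtain ⟨C, hC⟩ := pull_bound q
  have hμ : volume QQ ≠ ⊤ := isCompact_QQ.measure_lt_top.ne
  refine ⟨(volume QQ).toNNReal * C ^ 2, fun ε hε hε1 f hf J x => ?_⟩
  have hA : Continuous (fun y : ℂ × ℂ => AR (ε, y)) :=
    contDiff_AR.continuous.comp (by fun_prop)
  have hm : Continuous (fun y : ℂ × ℂ => ‖f (AR (ε, y) x)‖ₑ) :=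
    (hf.comp (hA.clm_apply continuous_const)).enorm
  have hms : MeasurableSet QQ := isCompact_QQ.isClosed.measurableSet
  calc ‖RR ε f J x‖ₑ ^ 2 ≤ (∫⁻ y in QQ, C * ‖f (AR (ε, y) x)‖ₑ) ^ 2 := by
        gcongr
        refine (enorm_integral_le_lintegral_enorm _).trans ?_
        exact setLIntegral_mono' hms fun y hy => hC f J (ε, y) ⟨⟨hε, hε1⟩, hy⟩ x
    _ ≤ (volume.restrict QQ) univ * ∫⁻ y in QQ, (C * ‖f (AR (ε, y) x)‖ₑ) ^ 2 :=
        cs_lintegral_one _ (hm.measurable.const_mul _).aemeasurable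
    _ = _ := by
        rw [Measure.restrict_apply_univ]
        simp_rw [mul_pow]
        rw [lintegral_const_mul _ (hm.measurable.pow_const 2), ENNReal.coe_mul,
          ENNReal.coe_toNNReal hμ, ENNReal.coe_pow, mul_assoc]

lemma RR_int (q : ℕ) : ∃ C : ℝ≥0, ∀ ε : ℝ, 0 ≤ ε → ε ≤ 1 / 8 → ∀ f : ℂ × ℂ → Form q,
    Continuous f → ∀ J : Idx q,
    ∫⁻ x in Hartogs, ‖RR ε f J x‖ₑ ^ 2 ≤ C * ∫⁻ x in Hartogs, ‖f x‖ₑ ^ 2 := by
  obtain ⟨C, hC⟩ := RR_sq_le q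
  have hμ : volume QQ ≠ ⊤ := isCompact_QQ.measure_lt_top.ne
  refine ⟨C * ((volume QQ).toNNReal * 16), fun ε hε hε1 f hf J => ?_⟩
  have hA : Continuous (fun r : (ℂ × ℂ) × (ℂ × ℂ) => AR (ε, r.2) r.1) :=
    (contDiff_AR.continuous.comp (by fun_prop : Continuous fun r : (ℂ × ℂ) × (ℂ × ℂ) => (ε, r.2))).clm_apply
      continuous_fst
  have hms : MeasurableSet QQ := isCompact_QQ.isClosed.measurableSet
  calc ∫⁻ x in Hartogs, ‖RR ε f J x‖ₑ ^ 2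
      ≤ ∫⁻ x in Hartogs, C * ∫⁻ y in QQ, ‖f (AR (ε, y) x)‖ₑ ^ 2 :=
        lintegral_mono fun x => hC ε hε hε1 f hf J x
    _ = C * ∫⁻ x in Hartogs, ∫⁻ y in QQ, ‖f (AR (ε, y) x)‖ₑ ^ 2 :=
        lintegral_const_mul' _ _ ENNReal.coe_ne_top
    _ = C * ∫⁻ y in QQ, ∫⁻ x in Hartogs, ‖f (AR (ε, y) x)‖ₑ ^ 2 := by
        rw [lintegral_lintegral_swap]
        exact ((hf.comp hA).enorm.measurable.pow_const 2).aemeasurable
    _ ≤ C * ∫⁻ y in QQ, 16 * ∫⁻ x in Hartogs, ‖f x‖ₑ ^ 2 := by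
        refine mul_le_mul' le_rfl ?_
        exact setLIntegral_mono' hms fun y hy =>
          int_AR (G := fun x => ‖f x‖ₑ ^ 2) (hf.enorm.measurable.pow_const 2) hε hε1 hy
    _ = _ := by
        rw [lintegral_const, Measure.restrict_apply_univ, ENNReal.coe_mul, ENNReal.coe_mul,
          ENNReal.coe_toNNReal hμ]
        push_cast
        ring

lemma HR_int (n : ℕ) : ∃ C : ℝ≥0, ∀ ε : ℝ, 0 ≤ ε → ε ≤ 1 / 8 → ∀ f : ℂ × ℂ → Form (n + 1),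
    Continuous f → ∀ I : Idx n,
    ∫⁻ x in Hartogs, ‖HR ε f I x‖ₑ ^ 2 ≤ C * (ENNReal.ofReal ε ^ 2 * ∫⁻ x in Hartogs, ‖f x‖ₑ ^ 2) := by
  obtain ⟨C, hC⟩ := kern_bound isCompact_K0 contDiff_AR.continuous contDiff_dAR.continuous n
  have hμ : volume QQ ≠ ⊤ := isCompact_QQ.measure_lt_top.ne
  refine ⟨C ^ 2 * ((volume QQ).toNNReal ^ 2 * 16), fun ε hε hε1 f hf I => ?_⟩
  have hA : Continuous (fun r : (ℂ × ℂ) × (ℝ × (ℂ × ℂ)) => AR r.2 r.1) :=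
    (contDiff_AR.continuous.comp continuous_snd).clm_apply continuous_fst
  set K : Set (ℝ × (ℂ × ℂ)) := Icc 0 ε ×ˢ QQ with hK
  have hKc : IsCompact K := isCompact_Icc.prod isCompact_QQ
  have hms : MeasurableSet K := hKc.isClosed.measurableSet
  have hsub : ∀ p ∈ K, p ∈ K0 := fun p hp => ⟨⟨hp.1.1, hp.1.2.trans hε1⟩, hp.2⟩
  have hvK : volume K = ENNReal.ofReal ε * volume QQ := by
    rw [hK, Measure.volume_eq_prod, Measure.prod_prod, Real.volume_Icc, sub_zero]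
  have h1 : ∀ x ∈ Hartogs, ‖HR ε f I x‖ₑ ^ 2
      ≤ volume K * (C ^ 2 * ∫⁻ p in K, ‖f (AR p x)‖ₑ ^ 2) := by
    intro x hx
    have hx1 : ‖x‖ ≤ 1 := by
      rw [← Om_zero_one] at hx
      exact norm_le_one_of_mem le_rfl hx
    have hm : Continuous (fun p => ‖f (AR p x)‖ₑ) :=
      (hf.comp (contDiff_AR.continuous.clm_apply continuous_const)).enorm
    calc ‖HR ε f I x‖ₑ ^ 2 ≤ (∫⁻ p in K, C * ‖f (AR p x)‖ₑ) ^ 2 := by
          gcongr
          refine (enorm_integral_le_lintegral_enorm _).trans ?_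
          exact setLIntegral_mono' hms fun p hp => hC f I p (hsub p hp) x hx1
      _ ≤ (volume.restrict K) univ * ∫⁻ p in K, (C * ‖f (AR p x)‖ₑ) ^ 2 :=
          cs_lintegral_one _ (hm.measurable.const_mul _).aemeasurable
      _ = _ := by
          rw [Measure.restrict_apply_univ]
          simp_rw [mul_pow]
          rw [lintegral_const_mul _ (hm.measurable.pow_const 2)]
  calc ∫⁻ x in Hartogs, ‖HR ε f I x‖ₑ ^ 2
      ≤ ∫⁻ x in Hartogs, volume K * (C ^ 2 * ∫⁻ p in K, ‖f (AR p x)‖ₑ ^ 2) :=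
        setLIntegral_mono' measurableSet_Hartogs h1
    _ = volume K * (C ^ 2 * ∫⁻ x in Hartogs, ∫⁻ p in K, ‖f (AR p x)‖ₑ ^ 2) := by
        rw [lintegral_const_mul' _ _ hKc.measure_lt_top.ne,
          lintegral_const_mul' _ _ (ENNReal.pow_ne_top ENNReal.coe_ne_top)]
    _ = volume K * (C ^ 2 * ∫⁻ p in K, ∫⁻ x in Hartogs, ‖f (AR p x)‖ₑ ^ 2) := by
        rw [lintegral_lintegral_swap]
        exact ((hf.comp hA).enorm.measurable.pow_const 2).aemeasurable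
    _ ≤ volume K * (C ^ 2 * ∫⁻ p in K, 16 * ∫⁻ x in Hartogs, ‖f x‖ₑ ^ 2) := by
        refine mul_le_mul' le_rfl (mul_le_mul' le_rfl ?_)
        refine setLIntegral_mono' hms fun p hp => ?_
        exact int_AR (G := fun x => ‖f x‖ₑ ^ 2) (hf.enorm.measurable.pow_const 2) hp.1.1
          (hp.1.2.trans hε1) hp.2
    _ = _ := by
        rw [lintegral_const, Measure.restrict_apply_univ, hvK, ENNReal.coe_mul, ENNReal.coe_mul,
          ENNReal.coe_pow, ENNReal.coe_pow, ENNReal.coe_toNNReal hμ]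
        push_cast
        ring

lemma RR_ptwise (q : ℕ) : ∃ C : ℝ≥0, ∀ ε : ℝ, 0 < ε → ε ≤ 1 / 8 → ∀ f : ℂ × ℂ → Form q,
    Continuous f → ∀ (J : Idx q), ∀ x ∈ Hartogs,
    ‖RR ε f J x‖ₑ ^ 2 ≤ C * (ENNReal.ofReal ((ε * ‖x.2‖) ^ 2)⁻¹ ^ 2 * ∫⁻ x in Hartogs, ‖f x‖ₑ ^ 2) := by
  obtain ⟨C, hC⟩ := RR_sq_le q
  refine ⟨C, fun ε hε hε1 f hf J x hx => (hC ε hε.le hε1 f hf J x).trans ?_⟩
  gcongr
  have hx2 : 0 < ‖x.2‖ := norm_pos_iff.2 (Hartogs_ne hx)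
  have hms : MeasurableSet QQ := isCompact_QQ.isClosed.measurableSet
  set G' := Hartogs.indicator (fun z => ‖f z‖ₑ ^ 2) with hG'
  have hG'm : Measurable G' := (hf.enorm.measurable.pow_const 2).indicator measurableSet_Hartogs
  set c : ℂ := (ε : ℂ) * x.2 with hc
  have hcn : ‖c‖ = ε * ‖x.2‖ := by rw [hc, norm_mul, Complex.norm_real, Real.norm_of_nonneg hε.le]
  have hc0 : c ≠ 0 := by rw [← norm_pos_iff, hcn]; positivity
  set a : ℂ := ((1 - 3 * ε : ℝ) : ℂ) * x.1 with ha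
  set b : ℂ := ((1 - ε : ℝ) : ℂ) * x.2 with hb
  calc ∫⁻ y in QQ, ‖f (AR (ε, y) x)‖ₑ ^ 2 = ∫⁻ y in QQ, G' (c * y.1 + a, c * y.2 + b) := by
        refine setLIntegral_congr_fun hms fun y hy => ?_
        have e : AR (ε, y) x = (c * y.1 + a, c * y.2 + b) := by
          rw [AR_apply, hc, ha, hb]
          ext <;> simp <;> ring
        rw [← e, hG', indicator_of_mem (AR_memT hε.le hε1 hy hx)]
    _ ≤ ∫⁻ y : ℂ × ℂ, G' (c * y.1 + a, c * y.2 + b) := setLIntegral_le_lintegral _ _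
    _ = ∫⁻ y1 : ℂ, ∫⁻ y2 : ℂ, G' (c * y1 + a, c * y2 + b) := by
        rw [Measure.volume_eq_prod, lintegral_prod _ (by
          apply Measurable.aemeasurable
          exact hG'm.comp (by fun_prop))]
    _ = ∫⁻ y1 : ℂ, ENNReal.ofReal (‖c‖ ^ 2)⁻¹ * ∫⁻ y2 : ℂ, G' (c * y1 + a, y2) := by
        refine lintegral_congr fun y1 => ?_
        exact lintegral_affine (g := fun v => G' (c * y1 + a, v)) (hG'm.comp (by fun_prop)) hc0 b
    _ = ENNReal.ofReal (‖c‖ ^ 2)⁻¹ * ∫⁻ y1 : ℂ, ∫⁻ y2 : ℂ, G' (c * y1 + a, y2) :=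
        lintegral_const_mul' _ _ ENNReal.ofReal_ne_top
    _ = ENNReal.ofReal (‖c‖ ^ 2)⁻¹ * (ENNReal.ofReal (‖c‖ ^ 2)⁻¹ * ∫⁻ y1 : ℂ, ∫⁻ y2 : ℂ, G' (y1, y2)) := by
        congr 1
        exact lintegral_affine (g := fun v : ℂ => ∫⁻ y2 : ℂ, G' (v, y2))
          hG'm.lintegral_prod_right' hc0 a
    _ = _ := by
        have e : ∫⁻ y1 : ℂ, ∫⁻ y2 : ℂ, G' (y1, y2) = ∫⁻ z, G' z := by
          rw [Measure.volume_eq_prod, lintegral_prod _ hG'm.aemeasurable]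
        rw [e, hG', lintegral_indicator measurableSet_Hartogs, hcn, sq (ENNReal.ofReal _), mul_assoc]

end Pool.Agent.H631R3
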