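import Pool.Agent.H631R3.Reg3

/-! Regularisation operators as operators on smooth tuples, and the smoothing property. -/

open scoped ContDiff Topology ENNReal NNReal
open MeasureTheory Set Filter

noncomputable section

namespace Pool.Agent.H631R3

lemma frm_add {q : ℕ} (v w : SM q) : frm (v + w) = fun x => frm v x + frm w x := by
  funext x
  apply form_ext
  intro J
  rw [frm_frame]
  change v.1 J x + w.1 J x = frm v x (frame ∘ J) + frm w x (frame ∘ J)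
  rw [frm_frame, frm_frame]

lemma frm_smul {q : ℕ} (c : ℝ) (w : SM q) : frm (c • w) = fun x => c • frm w x := by
  funext x
  apply form_ext
  intro J
  rw [frm_frame]
  change c * w.1 J x = c * frm w x (frame ∘ J)
  rw [frm_frame]

lemma cont_pull_AR {q : ℕ} (ε : ℝ) (w : SM q) (J : Idx q) (x : ℂ × ℂ) :
    ContinuousOn (fun y : ℂ × ℂ => pull (frm w) (AR (ε, y)) J x) QQ := by
  have hA : ContDiff ℝ ∞ (fun y : ℂ × ℂ => AR (ε, y)) :=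
    contDiff_AR.comp (contDiff_const.prodMk contDiff_id)
  exact (contDiffOn_pull (V := univ) (contDiff_frm w).contDiffOn hA J).continuousOn.comp
    (f := fun y : ℂ × ℂ => (y, x)) (by fun_prop) (fun p hp => mem_univ _)

/-- the averaged pullback on smooth tuples -/
def RM (ε : ℝ) (q : ℕ) : SM q →ₗ[ℝ] SM q where
  toFun := fun w => ⟨RR ε (frm w), fun J => contDiff_RR ε (contDiff_frm w) J⟩
  map_add' := fun v w => by
    apply Subtype.ext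
    funext J x
    change RR ε (frm (v + w)) J x = RR ε (frm v) J x + RR ε (frm w) J x
    unfold RR
    rw [← integral_add ((cont_pull_AR ε v J x).integrableOn_compact isCompact_QQ)
      ((cont_pull_AR ε w J x).integrableOn_compact isCompact_QQ), frm_add]
    rfl
  map_smul' := fun c w => by
    apply Subtype.ext
    funext J x
    change RR ε (frm (c • w)) J x = c * RR ε (frm w) J x
    unfold RR
    rw [← integral_const_mul, frm_smul]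
    rfl

/-- the homotopy operator on smooth tuples -/
def HM (ε : ℝ) {n : ℕ} (w : SM (n + 1)) : SM n :=
  ⟨HR ε (frm w), fun J => contDiff_HR ε (contDiff_frm w) J⟩

lemma dM_dM {n : ℕ} (w : SM n) : dM (n + 1) (dM n w) = 0 := by
  apply Subtype.ext
  funext L x
  exact dT_dT w.2 L x

lemma dM_HM {ε : ℝ} (hε : 0 ≤ ε) {n : ℕ} (w : SM (n + 1)) :
    dM n (HM ε w) = RM ε (n + 1) w - vQ • w - HM ε (dM (n + 1) w) := by
  apply Subtype.ext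
  funext J x
  change dT (HR ε (frm w)) J x = RR ε (frm w) J x - vQ * w.1 J x - HR ε (frm (dM (n + 1) w)) J x
  rw [dT_HR hε (contDiff_frm w) (contDiff_extDeriv_frm w), frm_frame, extDeriv_frm]

lemma HM_zero (ε : ℝ) (n : ℕ) : HM ε (0 : SM (n + 1)) = 0 := by
  apply Subtype.ext
  funext I x
  change HR ε (frm (0 : SM (n + 1))) I x = 0
  unfold HR Kop
  have : ∀ p, kern (frm (0 : SM (n + 1))) (AR p) (dAR p) I x = 0 := by
    intro p
    have h := frm_smul (0 : ℝ) (0 : SM (n + 1))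
    rw [zero_smul] at h
    unfold kern
    rw [h]
    simp
  simp_rw [this, integral_zero]

lemma dM_RM {ε : ℝ} (hε : 0 ≤ ε) {n : ℕ} (w : SM (n + 1)) :
    dM (n + 1) (RM ε (n + 1) w) = RM ε (n + 2) (dM (n + 1) w) := by
  have h1 := congrArg (dM (n + 1)) (dM_HM hε w)
  rw [dM_dM, map_sub, map_sub, map_smul, dM_HM hε (dM (n + 1) w), dM_dM, HM_zero] at h1
  have h2 : dM (n + 1) (RM ε (n + 1) w) = RM ε (n + 2) (dM (n + 1) w) +
      (dM (n + 1) (RM ε (n + 1) w) - vQ • dM (n + 1) w -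
        (RM ε (n + 2) (dM (n + 1) w) - vQ • dM (n + 1) w - 0)) := by abel
  rw [← h1, add_zero] at h2
  exact h2

lemma RM_bound (q : ℕ) : ∃ D : ℝ, 0 ≤ D ∧ ∀ ε : ℝ, 0 ≤ ε → ε ≤ 1 / 8 → ∀ w : SM q,
    ‖SL q (RM ε q w)‖ ≤ D * ‖SL q w‖ := by
  obtain ⟨C1, h1⟩ := RR_int q
  obtain ⟨C2, h2⟩ := int_frm q
  refine ⟨_, Real.sqrt_nonneg _, fun ε hε hε1 w => norm_le_of_enorm_sq (C :=
    (Fintype.card (Idx q) : ℝ≥0) * (C1 * C2)) ?_⟩
  exact bound_chain (mk_bound (SM_LL (RM ε q w)) fun J =>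
    h1 ε hε hε1 (frm w) (contDiff_frm w).continuous J) le_rfl (h2 w)

lemma HM_bound (n : ℕ) : ∃ D : ℝ, 0 ≤ D ∧ ∀ ε : ℝ, 0 ≤ ε → ε ≤ 1 / 8 → ∀ w : SM (n + 1),
    ‖SL n (HM ε w)‖ ≤ D * (ε * ‖SL (n + 1) w‖) := by
  obtain ⟨C1, h1⟩ := HR_int n
  obtain ⟨C2, h2⟩ := int_frm (n + 1)
  refine ⟨Real.sqrt ((Fintype.card (Idx n) : ℝ≥0) * (C1 * C2) : ℝ≥0), Real.sqrt_nonneg _,
    fun ε hε hε1 w => ?_⟩
  have h3 : ‖SL n (HM ε w)‖ₑ ^ 2 ≤ ((Fintype.card (Idx n) : ℝ≥0) * (C1 * C2) : ℝ≥0) *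
      ‖ε • SL (n + 1) w‖ₑ ^ 2 := by
    refine (mk_bound (SM_LL (HM ε w)) fun J =>
      h1 ε hε hε1 (frm w) (contDiff_frm w).continuous J).trans ?_
    rw [enorm_smul, mul_pow, ENNReal.coe_mul, ENNReal.coe_mul]
    have e : ‖ε‖ₑ = ENNReal.ofReal ε := by rw [← ofReal_norm, Real.norm_of_nonneg hε]
    rw [e]
    calc (Fintype.card (Idx n) : ℝ≥0) * (C1 * (ENNReal.ofReal ε ^ 2 * ∫⁻ x in Hartogs, ‖frm w x‖ₑ ^ 2))
        ≤ (Fintype.card (Idx n) : ℝ≥0) * (C1 * (ENNReal.ofReal ε ^ 2 * (C2 * ‖SL (n + 1) w‖ₑ ^ 2))) := by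
          gcongr
          exact h2 w
      _ = _ := by ring
  have h4 := norm_le_of_enorm_sq h3
  rw [norm_smul, Real.norm_of_nonneg hε] at h4
  exact h4

/-- weighted tuples -/
def wtu {q : ℕ} (w : SM q) (J : Idx q) (x : ℂ × ℂ) : ℝ := ‖x.2‖ * w.1 J x

lemma wtu_LL {q : ℕ} (w : SM q) : LL (wtu w) := fun J =>
  memLp_of_continuous ((by fun_prop : Continuous fun x : ℂ × ℂ => ‖x.2‖).mul (w.2 J).continuous)

/-- the weighted norm -/
def wn {q : ℕ} (w : SM q) : ℝ := ‖mk (wtu w) (wtu_LL w)‖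

lemma wn_enorm {q : ℕ} (w : SM q) : ‖mk (wtu w) (wtu_LL w)‖ₑ ^ 2
    = ∑ J, ∫⁻ x in Hartogs, ‖x.2‖ₑ ^ 2 * ‖w.1 J x‖ₑ ^ 2 := by
  rw [mk_enorm_sq]
  refine Finset.sum_congr rfl fun J _ => lintegral_congr fun x => ?_
  unfold wtu
  rw [enorm_mul, mul_pow]
  congr 2
  rw [← ofReal_norm, ← ofReal_norm, norm_norm]

lemma int_frmW (q : ℕ) : ∃ C : ℝ≥0, ∀ w : SM q,
    ∫⁻ x in Hartogs, ‖x.2‖ₑ ^ 2 * ‖frm w x‖ₑ ^ 2 ≤ C * ‖mk (wtu w) (wtu_LL w)‖ₑ ^ 2 := by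
  obtain ⟨C, hC⟩ := toForm_bound q
  refine ⟨C, fun w => ?_⟩
  rw [wn_enorm, ← lintegral_finsetSum', ← lintegral_const_mul' _ _ ENNReal.coe_ne_top]
  · refine lintegral_mono fun x => ?_
    rw [← Finset.mul_sum]
    calc ‖x.2‖ₑ ^ 2 * ‖frm w x‖ₑ ^ 2 ≤ ‖x.2‖ₑ ^ 2 * (C * ∑ J, ‖w.1 J x‖ₑ ^ 2) := by
          gcongr
          exact hC _
      _ = _ := by ring
  · intro J _
    exact (((by fun_prop : Measurable fun x : ℂ × ℂ => ‖x.2‖ₑ ^ 2)).mul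
      ((w.2 J).continuous.enorm.measurable.pow_const 2)).aemeasurable

lemma exists_riesz_RM {ε : ℝ} (hε : 0 < ε) (hε1 : ε ≤ 1 / 8) (q : ℕ) (J : Idx q) {x : ℂ × ℂ}
    (hx : x ∈ Hartogs) : ∃ p : L2 q, ∀ w : SM q, inner ℝ p (SL q w) = (RM ε q w).1 J x := by
  obtain ⟨C1, h1⟩ := RR_ptwise q
  obtain ⟨C2, h2⟩ := int_frm q
  set l : SM q →ₗ[ℝ] ℝ :=
    { toFun := fun w => (RM ε q w).1 J x
      map_add' := fun v w => by rw [map_add]; rfl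
      map_smul' := fun c w => by rw [map_smul]; rfl } with hl
  set t : ℝ≥0∞ := ENNReal.ofReal ((ε * ‖x.2‖) ^ 2)⁻¹ ^ 2 with ht
  have htf : t ≠ ⊤ := ENNReal.pow_ne_top ENNReal.ofReal_ne_top
  have h3 : ∀ w : SM q, ‖l w‖ₑ ^ 2 ≤ (C1 * (t.toNNReal * C2) : ℝ≥0) * ‖SL q w‖ₑ ^ 2 := by
    intro w
    refine (h1 ε hε hε1 (frm w) (contDiff_frm w).continuous J x hx).trans ?_
    rw [ENNReal.coe_mul, ENNReal.coe_mul, ENNReal.coe_toNNReal htf, mul_assoc, mul_assoc]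
    gcongr
    exact h2 w
  exact riesz_of_bound (SL q) l _ fun w => norm_le_of_enorm_sq (h3 w)

/-- the regularisation operators are smoothing -/
lemma smoothing {ε : ℝ} (hε : 0 < ε) (hε1 : ε ≤ 1 / 8) {q : ℕ} {w : ℕ → SM q} {B : ℝ}
    (hB : ∀ k, ‖SL q (w k)‖ ≤ B)
    (hw : ∀ p : L2 q, Tendsto (fun k => inner ℝ p (SL q (w k))) atTop (𝓝 0)) :
    Tendsto (fun k => wn (RM ε q (w k))) atTop (𝓝 0) := by
  have hB0 : 0 ≤ B := (norm_nonneg _).trans (hB 0)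
  obtain ⟨C1, h1⟩ := RR_ptwise q
  obtain ⟨C2, h2⟩ := int_frm q
  have hinv : ∫⁻ x, ‖(‖x.2‖⁻¹ : ℝ)‖ₑ ^ 2 ∂μT ≠ ⊤ := by
    have := memLp_inv.2
    rw [eLpNorm_lt_top_iff_lintegral_rpow_enorm_lt_top (by norm_num) (by norm_num)] at this
    simp only [ENNReal.toReal_ofNat, ENNReal.rpow_ofNat] at this
    exact this.ne
  set Cb : ℝ≥0∞ := C1 * ((ENNReal.ofReal (ε ^ 2)⁻¹) ^ 2 * (C2 * ENNReal.ofReal B ^ 2)) with hCb
  have hCbf : Cb ≠ ⊤ := by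
    rw [hCb]
    exact ENNReal.mul_ne_top ENNReal.coe_ne_top (ENNReal.mul_ne_top
      (ENNReal.pow_ne_top ENNReal.ofReal_ne_top) (ENNReal.mul_ne_top ENNReal.coe_ne_top
        (ENNReal.pow_ne_top ENNReal.ofReal_ne_top)))
  have hpt : ∀ (J : Idx q) (k : ℕ), ∀ x ∈ Hartogs,
      ‖x.2‖ₑ ^ 2 * ‖(RM ε q (w k)).1 J x‖ₑ ^ 2 ≤ Cb * ‖(‖x.2‖⁻¹ : ℝ)‖ₑ ^ 2 := by
    intro J k x hx
    have hx2 : 0 < ‖x.2‖ := norm_pos_iff.2 (Hartogs_ne hx)
    have h3 := h1 ε hε hε1 (frm (w k)) (contDiff_frm (w k)).continuous J x hx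
    have h4 : ∫⁻ x in Hartogs, ‖frm (w k) x‖ₑ ^ 2 ≤ C2 * ENNReal.ofReal B ^ 2 := by
      refine (h2 (w k)).trans ?_
      gcongr
      rw [← ofReal_norm]
      exact ENNReal.ofReal_le_ofReal (hB k)
    have h5 : ‖x.2‖ₑ ^ 2 * ENNReal.ofReal ((ε * ‖x.2‖) ^ 2)⁻¹ ^ 2
        = (ENNReal.ofReal (ε ^ 2)⁻¹) ^ 2 * ‖(‖x.2‖⁻¹ : ℝ)‖ₑ ^ 2 := by
      rw [← ofReal_norm, ← ofReal_norm, norm_inv, norm_norm, ← mul_pow, ← mul_pow,
        ← ENNReal.ofReal_mul (by positivity), ← ENNReal.ofReal_mul (by positivity)]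
      congr 2
      field_simp
    calc ‖x.2‖ₑ ^ 2 * ‖(RM ε q (w k)).1 J x‖ₑ ^ 2
        ≤ ‖x.2‖ₑ ^ 2 * (C1 * (ENNReal.ofReal ((ε * ‖x.2‖) ^ 2)⁻¹ ^ 2 * (C2 * ENNReal.ofReal B ^ 2))) := by
          gcongr
          refine h3.trans ?_
          gcongr
      _ = C1 * ((‖x.2‖ₑ ^ 2 * ENNReal.ofReal ((ε * ‖x.2‖) ^ 2)⁻¹ ^ 2) * (C2 * ENNReal.ofReal B ^ 2)) := by
          ring
      _ = _ := by rw [h5, hCb]; ring
  have hJ : ∀ J : Idx q, Tendsto (fun k => ∫⁻ x in Hartogs, ‖x.2‖ₑ ^ 2 * ‖(RM ε q (w k)).1 J x‖ₑ ^ 2)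
      atTop (𝓝 0) := by
    intro J
    have h6 : Tendsto (fun k => ∫⁻ x, ‖x.2‖ₑ ^ 2 * ‖(RM ε q (w k)).1 J x‖ₑ ^ 2 ∂μT) atTop
        (𝓝 (∫⁻ _x, 0 ∂μT)) := by
      refine tendsto_lintegral_of_dominated_convergence (fun x => Cb * ‖(‖x.2‖⁻¹ : ℝ)‖ₑ ^ 2)
        ?_ ?_ ?_ ?_
      · intro k
        exact (by fun_prop : Measurable fun x : ℂ × ℂ => ‖x.2‖ₑ ^ 2).mul
          (((RM ε q (w k)).2 J).continuous.enorm.measurable.pow_const 2)
      · intro k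
        filter_upwards [ae_restrict_mem measurableSet_Hartogs] with x hx
        exact hpt J k x hx
      · rw [lintegral_const_mul' _ _ hCbf]
        exact ENNReal.mul_ne_top hCbf hinv
      · filter_upwards [ae_restrict_mem measurableSet_Hartogs] with x hx
        obtain ⟨p, hp⟩ := exists_riesz_RM hε hε1 q J hx
        have h7 : Tendsto (fun k => (RM ε q (w k)).1 J x) atTop (𝓝 0) := by
          simp_rw [← hp]
          exact hw p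
        have h8 : Tendsto (fun k => ‖x.2‖ₑ ^ 2 * ‖(RM ε q (w k)).1 J x‖ₑ ^ 2) atTop
            (𝓝 (‖x.2‖ₑ ^ 2 * ‖(0 : ℝ)‖ₑ ^ 2)) := by
          refine ENNReal.Tendsto.const_mul ?_ (Or.inr (ENNReal.pow_ne_top enorm_ne_top))
          exact ((ENNReal.continuous_pow 2).tendsto _).comp ((continuous_enorm.tendsto _).comp h7)
        simpa using h8
    rw [lintegral_zero] at h6
    exact h6
  have h9 : Tendsto (fun k => ‖mk (wtu (RM ε q (w k))) (wtu_LL (RM ε q (w k)))‖ₑ ^ 2) atTop (𝓝 0) := by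
    simp_rw [wn_enorm]
    have := tendsto_finsetSum (Finset.univ : Finset (Idx q)) fun J _ => hJ J
    simpa using this
  refine tendsto_of_enorm_sq ?_
  refine h9.congr fun k => ?_
  unfold wn
  rw [← ofReal_norm, ← ofReal_norm, norm_norm]

end Pool.Agent.H631R3
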