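import Pool.Agent.H631R3.Hilb2

/-! Canonical solution operators of closed relations, and a compactness criterion. -/

open scoped Topology
open Set Filter

noncomputable section

namespace Pool.Agent.H631R3

variable {H H' : Type*} [NormedAddCommGroup H] [InnerProductSpace ℝ H] [CompleteSpace H]
  [NormedAddCommGroup H'] [InnerProductSpace ℝ H'] [CompleteSpace H']

/-- `S` is the canonical solution operator of the relation `D` -/
structure IsSol (D : Submodule ℝ (H × H')) (S : H' →L[ℝ] H) : Prop where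
  mem : ∀ u v, (u, v) ∈ D → (S v, v) ∈ D
  perp : ∀ v a, (a, (0 : H')) ∈ D → inner ℝ (S v) a = 0
  zero : ∀ v, (∀ u g, (u, g) ∈ D → inner ℝ v g = 0) → S v = 0

/-- range submodule of a relation -/
def rng (D : Submodule ℝ (H × H')) : Submodule ℝ H' := D.map (LinearMap.snd ℝ H H')

omit [CompleteSpace H] [CompleteSpace H'] in
lemma mem_rng {D : Submodule ℝ (H × H')} {v : H'} : v ∈ rng D ↔ ∃ u, (u, v) ∈ D := by
  unfold rng
  rw [Submodule.mem_map]
  constructor
  · rintro ⟨⟨u, v'⟩, h1, rfl⟩; exact ⟨u, h1⟩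
  · rintro ⟨u, h1⟩; exact ⟨(u, v), h1, rfl⟩

omit [CompleteSpace H] [CompleteSpace H'] in
lemma isClosed_rng {D : Submodule ℝ (H × H')} (hR : IsClosed {v : H' | ∃ u, (u, v) ∈ D}) :
    IsClosed (rng D : Set H') := by
  have : (rng D : Set H') = {v : H' | ∃ u, (u, v) ∈ D} := by
    ext v; exact mem_rng
  rw [this]; exact hR

lemma exists_sol {D : Submodule ℝ (H × H')} (hD : IsClosed (D : Set (H × H')))
    (hR : IsClosed {v : H' | ∃ u, (u, v) ∈ D}) : ∃ S : H' →L[ℝ] H, IsSol D S := by
  have : CompleteSpace (rng D) := (isClosed_rng hR).completeSpace_coe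
  set N : Submodule ℝ H := D.comap (LinearMap.inl ℝ H H') with hN
  have hNmem : ∀ a, a ∈ N ↔ (a, (0 : H')) ∈ D := fun a => Iff.rfl
  have hNc : IsClosed (N : Set H) := by
    have : (N : Set H) = (fun x : H => (x, (0 : H'))) ⁻¹' (D : Set (H × H')) := rfl
    rw [this]
    exact hD.preimage (by fun_prop)
  have : CompleteSpace N := hNc.completeSpace_coe
  set D' : Submodule ℝ (H × H') := D ⊓ (Nᗮ).prod ⊤ with hD'
  have hD'c : IsClosed (D' : Set (H × H')) := by
    have e : (D' : Set (H × H')) = (D : Set (H × H')) ∩ (Prod.fst ⁻¹' (Nᗮ : Set H)) := by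
      ext p
      simp [hD']
    rw [e]
    exact hD.inter ((Submodule.isClosed_orthogonal N).preimage continuous_fst)
  have : CompleteSpace D' := hD'c.completeSpace_coe
  set T : D' →L[ℝ] rng D := ((ContinuousLinearMap.snd ℝ H H').comp D'.subtypeL).codRestrict (rng D)
    (fun d => mem_rng.2 ⟨d.1.1, d.2.1⟩) with hT
  have hTap : ∀ d : D', (T d : H') = d.1.2 := fun d => rfl
  have hker : T.ker = ⊥ := by
    rw [LinearMap.ker_eq_bot']
    intro d hd
    have h1 : d.1.2 = 0 := by
      have : (T d : H') = 0 := by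
        have h := congrArg (Subtype.val) hd
        exact h
      rwa [hTap] at this
    have h2 : d.1.1 ∈ N := by
      rw [hNmem]
      have h3 : d.1 = (d.1.1, (0 : H')) := by rw [← h1]
      rw [← h3]; exact d.2.1
    have h4 : d.1.1 = 0 := by
      have h5 : inner ℝ d.1.1 d.1.1 = 0 := (Submodule.mem_orthogonal N d.1.1).1 d.2.2.1 _ h2
      exact inner_self_eq_zero.1 h5
    apply Subtype.ext
    exact Prod.ext h4 h1
  have hran : T.range = ⊤ := by
    rw [LinearMap.range_eq_top]
    rintro ⟨v, hv⟩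
    obtain ⟨u, hu⟩ := mem_rng.1 hv
    obtain ⟨n, hn, m, hm, hnm⟩ := N.exists_add_mem_mem_orthogonal u
    have h1 : (m, v) ∈ D := by
      have h2 := D.sub_mem hu ((hNmem n).1 hn)
      have h3 : (u, v) - (n, (0 : H')) = (m, v) := by
        rw [Prod.mk_sub_mk, sub_zero, hnm]; simp
      rwa [h3] at h2
    refine ⟨⟨(m, v), h1, hm, Submodule.mem_top⟩, ?_⟩
    apply Subtype.ext
    rfl
  set E := ContinuousLinearEquiv.ofBijective T hker hran with hE
  have hEap : ∀ v : rng D, (E.symm v).1.2 = v := by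
    intro v
    have h1 : E (E.symm v) = v := E.apply_symm_apply v
    have h2 : T (E.symm v) = v := h1
    rw [← hTap, h2]
  refine ⟨((ContinuousLinearMap.fst ℝ H H').comp D'.subtypeL).comp
    ((E.symm : rng D →L[ℝ] D').comp (rng D).orthogonalProjectionOnto), ⟨?_, ?_, ?_⟩⟩
  · intro u v huv
    have hv : v ∈ rng D := mem_rng.2 ⟨u, huv⟩
    have h1 : (rng D).orthogonalProjectionOnto v = ⟨v, hv⟩ :=
      Submodule.orthogonalProjectionOnto_mem_subspace_eq_self (⟨v, hv⟩ : rng D)
    change ((E.symm ((rng D).orthogonalProjectionOnto v)).1.1, v) ∈ D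
    rw [h1]
    have h2 : ((E.symm ⟨v, hv⟩).1.1, v) = (E.symm ⟨v, hv⟩).1 := by
      ext
      · rfl
      · exact (hEap ⟨v, hv⟩).symm
    rw [h2]
    exact (E.symm ⟨v, hv⟩).2.1
  · intro v a ha
    change inner ℝ (E.symm ((rng D).orthogonalProjectionOnto v)).1.1 a = 0
    exact (Submodule.mem_orthogonal' N _).1 (E.symm ((rng D).orthogonalProjectionOnto v)).2.2.1 a ha
  · intro v hv
    have h1 : (rng D).orthogonalProjectionOnto v = 0 := by
      rw [Submodule.orthogonalProjectionOnto_eq_zero_iff, Submodule.mem_orthogonal']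
      intro g hg
      obtain ⟨u, hu⟩ := mem_rng.1 hg
      exact hv u g hu
    change (E.symm ((rng D).orthogonalProjectionOnto v)).1.1 = 0
    rw [h1, map_zero]
    rfl

/-- bounded operators mapping bounded weakly null sequences to null sequences are compact -/
lemma compact_of_weak [TopologicalSpace.SeparableSpace H'] (S : H' →L[ℝ] H)
    (h : ∀ v : ℕ → H', (∃ B, ∀ k, ‖v k‖ ≤ B) →
      (∀ p, Tendsto (fun k => inner ℝ p (v k)) atTop (𝓝 0)) →
      Tendsto (fun k => S (v k)) atTop (𝓝 0)) : IsCompactOperator S := by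
  refine (isCompactOperator_iff_isCompact_closure_image_closedBall (S : H' →ₗ[ℝ] H) one_pos).2 ?_
  have hseq : IsSeqCompact ((S : H' →ₗ[ℝ] H) '' Metric.closedBall 0 1) := by
    intro x hx
    choose v hv hvx using hx
    have hv1 : ∀ k, ‖v k‖ ≤ 1 := fun k => by simpa using hv k
    have hW := WeakDual.isSeqCompact_closedBall ℝ H' (0 : StrongDual ℝ H') 1
    have hm : ∀ k, (StrongDual.toWeakDual (InnerProductSpace.toDual ℝ H' (v k))) ∈
        WeakDual.toStrongDual ⁻¹' Metric.closedBall (0 : StrongDual ℝ H') 1 := by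
      intro k
      simpa using hv1 k
    obtain ⟨a, ha, φ, hφ, hlim⟩ := hW hm
    set va : H' := (InnerProductSpace.toDual ℝ H').symm (WeakDual.toStrongDual a) with hva
    have hva1 : ‖va‖ ≤ 1 := by
      rw [hva, LinearIsometryEquiv.norm_map]
      simpa using ha
    have hp : ∀ p, Tendsto (fun k => inner ℝ (v (φ k)) p) atTop (𝓝 (inner ℝ va p)) := by
      intro p
      have h1 := (tendsto_iff_forall_eval_tendsto_topDualPairing.1 hlim) p
      have h2 : inner ℝ va p = a p := by
        rw [hva, InnerProductSpace.toDual_symm_apply]; rfl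
      rw [h2]
      exact h1
    have h3 := h (fun k => v (φ k) - va) ⟨2, fun k => by
      refine (norm_sub_le _ _).trans ?_
      linarith [hv1 (φ k)]⟩ (fun p => by
        have h4 := (hp p).sub_const (inner ℝ va p)
        rw [sub_self] at h4
        refine h4.congr fun k => ?_
        rw [inner_sub_right, real_inner_comm, real_inner_comm va])
    refine ⟨S va, ⟨va, by simpa using hva1, rfl⟩, φ, hφ, ?_⟩
    have h5 : Tendsto (fun k => S (v (φ k) - va) + S va) atTop (𝓝 (0 + S va)) := h3.add_const _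
    rw [zero_add] at h5
    refine h5.congr fun k => ?_
    rw [map_sub, sub_add_cancel]
    exact hvx (φ k)
  have hc : IsCompact ((S : H' →ₗ[ℝ] H) '' Metric.closedBall 0 1) := hseq.isCompact
  rw [hc.isClosed.closure_eq]
  exact hc

end Pool.Agent.H631R3
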