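import Pool.Agent.H631R3.Bnd

/-! The solution operator with estimates. -/

open scoped ContDiff Topology ENNReal NNReal
open MeasureTheory Set Filter

noncomputable section

namespace Pool.Agent.H631R3

lemma add_sq_le_four (x y : ℝ≥0∞) : (x + y) ^ 2 ≤ 4 * (x ^ 2 + y ^ 2) := by
  rcases le_total x y with h | h
  · calc (x + y) ^ 2 ≤ (y + y) ^ 2 := by gcongr
      _ = 4 * y ^ 2 := by ring
      _ ≤ 4 * (x ^ 2 + y ^ 2) := by gcongr; exact le_add_self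
  · calc (x + y) ^ 2 ≤ (x + x) ^ 2 := by gcongr
      _ = 4 * x ^ 2 := by ring
      _ ≤ 4 * (x ^ 2 + y ^ 2) := by gcongr; exact le_self_add

lemma int_add_bound {α : Type*} [MeasurableSpace α] (μ : Measure α) {u v : α → ℝ}
    (hu : AEMeasurable u μ) :
    ∫⁻ x, ‖u x + v x‖ₑ ^ 2 ∂μ ≤ 4 * ((∫⁻ x, ‖u x‖ₑ ^ 2 ∂μ) + ∫⁻ x, ‖v x‖ₑ ^ 2 ∂μ) := by
  rw [← lintegral_add_left' (hu.enorm.pow_const 2), ← lintegral_const_mul' _ _ (by norm_num)]
  refine lintegral_mono fun x => ?_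
  calc ‖u x + v x‖ₑ ^ 2 ≤ (‖u x‖ₑ + ‖v x‖ₑ) ^ 2 := by gcongr; exact enorm_add_le _ _
    _ ≤ _ := add_sq_le_four _ _

section

variable {τ s : ℝ} (hτ : 0 ≤ τ) (hτ' : τ < 1 / 2) (hs : 1 / 2 < s) (hs1 : s ≤ 1)

include hτ hτ' hs hs1

lemma base_bound {a : ℂ → ℝ} (ha : Continuous a) (ha' : ContDiffOn ℝ ∞ a (Ann τ s))
    {m : ℂ × ℂ → ℝ} (hm : ∀ x ∈ Om τ s, |m x| ≤ ‖x.2‖⁻¹) :
    ∫⁻ x in Om τ s, ‖Rad a x.2 * m x‖ₑ ^ 2
      ≤ (NNReal.pi * 4) * ∫⁻ w in Ann τ s, ‖a w‖ₑ ^ 2 := by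
  have hmA : MeasurableSet (Ann τ s) := (isOpen_Ann τ s).measurableSet
  have hmO : MeasurableSet (Om τ s) := (isOpen_Om τ s).measurableSet
  set H : ℂ → ℝ≥0∞ := (Ann τ s).indicator
    (fun w => ‖Rad a w‖ₑ ^ 2 * ENNReal.ofReal (‖w‖ ^ 2)⁻¹) with hH
  have hHm : Measurable H := by
    have h1 : Measurable ((Ann τ s).indicator (fun w => ‖Rad a w‖ₑ)) := by
      classical
      rw [← Set.piecewise_eq_indicator]
      refine ContinuousOn.measurable_piecewise ?_ continuousOn_const hmA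
      exact (contDiffOn_Rad hτ hτ' hs ha').continuousOn.enorm
    have h2 : H = fun w => ((Ann τ s).indicator (fun w => ‖Rad a w‖ₑ) w) ^ 2 *
        ENNReal.ofReal (‖w‖ ^ 2)⁻¹ := by
      funext w
      rw [hH]
      by_cases hw : w ∈ Ann τ s
      · rw [indicator_of_mem hw, indicator_of_mem hw]
      · rw [indicator_of_notMem hw, indicator_of_notMem hw]
        simp
    rw [h2]
    exact (h1.pow_const 2).mul (by fun_prop)
  calc ∫⁻ x in Om τ s, ‖Rad a x.2 * m x‖ₑ ^ 2 ≤ ∫⁻ x in Om τ s, H x.2 := by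
        refine setLIntegral_mono' hmO fun x hx => ?_
        rw [hH, indicator_of_mem hx.1, enorm_mul, mul_pow]
        gcongr
        rw [← ofReal_norm, Real.norm_eq_abs, ← ENNReal.ofReal_pow (abs_nonneg _)]
        apply ENNReal.ofReal_le_ofReal
        calc |m x| ^ 2 ≤ (‖x.2‖⁻¹) ^ 2 := by
              have := hm x hx
              gcongr
          _ = _ := by rw [inv_pow]
    _ = ∫⁻ w in Ann τ s, ENNReal.ofReal (s * ‖w‖) ^ 2 * NNReal.pi * H w := lintegral_Om_snd hHm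
    _ ≤ ∫⁻ w in Ann τ s, NNReal.pi * ‖Rad a w‖ₑ ^ 2 := by
        refine setLIntegral_mono' hmA fun w hw => ?_
        have hw2 : 0 < ‖w‖ := lt_of_le_of_lt hτ hw.1
        rw [hH, indicator_of_mem hw]
        have h1 : ENNReal.ofReal (s * ‖w‖) ^ 2 * ENNReal.ofReal (‖w‖ ^ 2)⁻¹ ≤ 1 := by
          rw [← ENNReal.ofReal_pow (by positivity), ← ENNReal.ofReal_mul (by positivity)]
          rw [← ENNReal.ofReal_one]
          apply ENNReal.ofReal_le_ofReal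
          have e : (s * ‖w‖) ^ 2 * (‖w‖ ^ 2)⁻¹ = s ^ 2 := by
            field_simp
          rw [e]; nlinarith
        calc _ = (ENNReal.ofReal (s * ‖w‖) ^ 2 * ENNReal.ofReal (‖w‖ ^ 2)⁻¹) *
            (NNReal.pi * ‖Rad a w‖ₑ ^ 2) := by ring
          _ ≤ 1 * (NNReal.pi * ‖Rad a w‖ₑ ^ 2) := by gcongr
          _ = _ := by rw [one_mul]
    _ = NNReal.pi * ∫⁻ w in Ann τ s, ‖Rad a w‖ₑ ^ 2 := by
        rw [lintegral_const_mul' _ _ ENNReal.coe_ne_top]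
    _ ≤ NNReal.pi * (4 * ∫⁻ w in Ann τ s, ‖a w‖ₑ ^ 2) := by
        gcongr
        exact bound_Rad hτ hτ' hs hs1 ha
    _ = _ := by ring

end

lemma ab0_ptwise : ∃ C : ℝ≥0, ∀ f : ℂ × ℂ → Form 1, Continuous f → ∀ w : ℂ,
    ‖ab0 f w‖ₑ ^ 2 ≤ C * (ENNReal.ofReal (‖w‖ ^ 2) * ∫⁻ p in KR, ‖f (A2 p (0, w))‖ₑ ^ 2) := by
  have hμ : volume KR ≠ ⊤ := isCompact_KR.measure_lt_top.ne
  set c : ℝ := 1 / (2 * Real.pi) with hc
  have hc0 : 0 ≤ c := by positivity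
  refine ⟨(volume KR).toNNReal * c.toNNReal ^ 2, fun f hf w => ?_⟩
  have hm : Continuous (fun p : ℝ × ℂ => ‖f (A2 p (0, w))‖ₑ) :=
    (hf.comp (contDiff_A2.continuous.clm_apply continuous_const)).enorm
  have h1 : ∀ p ∈ KR, ‖f (A2 p (0, w)) (fun _ => A2 p (0, w))‖ₑ
      ≤ ENNReal.ofReal ‖w‖ * ‖f (A2 p (0, w))‖ₑ := by
    intro p hp
    have hy : ‖p.2‖ ≤ 1 / 2 := by simpa [BB] using hp.2
    have h2 : ‖A2 p ((0 : ℂ), w)‖ ≤ ‖w‖ := by
      simp only [A2, M_apply, mul_zero, zero_add]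
      apply max_le
      · simp only [norm_mul, norm_ex, one_mul]
        nlinarith [norm_nonneg w]
      · simp only [norm_mul, norm_ex, one_mul]; exact le_rfl
    rw [← ofReal_norm, ← ofReal_norm, ← ENNReal.ofReal_mul (norm_nonneg _)]
    apply ENNReal.ofReal_le_ofReal
    refine ((f (A2 p (0, w))).le_opNorm _).trans ?_
    rw [mul_comm]
    gcongr
    simpa using h2
  have hms : MeasurableSet KR := isCompact_KR.isClosed.measurableSet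
  have hcc : ‖c‖ₑ = (c.toNNReal : ℝ≥0∞) := by
    rw [← ofReal_norm, Real.norm_of_nonneg hc0]
    rfl
  calc ‖ab0 f w‖ₑ ^ 2 ≤ (‖c‖ₑ * ∫⁻ p in KR, ENNReal.ofReal ‖w‖ * ‖f (A2 p (0, w))‖ₑ) ^ 2 := by
        unfold ab0
        rw [enorm_mul]
        gcongr
        refine (enorm_integral_le_lintegral_enorm _).trans ?_
        exact setLIntegral_mono' hms h1
    _ = ‖c‖ₑ ^ 2 * (∫⁻ p in KR, ENNReal.ofReal ‖w‖ * ‖f (A2 p (0, w))‖ₑ) ^ 2 := by ring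
    _ ≤ ‖c‖ₑ ^ 2 * (((volume.restrict KR) univ) *
          ∫⁻ p in KR, (ENNReal.ofReal ‖w‖ * ‖f (A2 p (0, w))‖ₑ) ^ 2) := by
        gcongr
        exact cs_lintegral_one _ (hm.measurable.const_mul _).aemeasurable
    _ = _ := by
        rw [Measure.restrict_apply_univ, hcc]
        simp_rw [mul_pow]
        rw [lintegral_const_mul _ (hm.measurable.pow_const 2), ENNReal.coe_mul,
          ENNReal.coe_toNNReal hμ, ENNReal.coe_pow, ENNReal.ofReal_pow (norm_nonneg _)]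
        ring

lemma ab1_ptwise : ∃ C : ℝ≥0, ∀ f : ℂ × ℂ → Form 2, Continuous f → ∀ w : ℂ, ‖w‖ ≤ 1 →
    ‖ab1 f w‖ₑ ^ 2 ≤ C * (ENNReal.ofReal (‖w‖ ^ 2) * ∫⁻ y in BB, ‖f (y * w, w)‖ₑ ^ 2) := by
  have hμ : volume BB ≠ ⊤ := volume_BB_ne_top
  refine ⟨(volume BB).toNNReal, fun f hf w hw => ?_⟩
  have hm : Continuous (fun y : ℂ => ‖f (y * w, w)‖ₑ) :=
    (hf.comp (by fun_prop : Continuous fun y : ℂ => (y * w, w))).enorm
  have h1 : ∀ y ∈ BB, ‖f (M 0 y 1 (0, w)) (fun j => M 0 y 1 (v01 j))‖ₑ ≤ ‖f (y * w, w)‖ₑ := by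
    intro y hy
    have hy : ‖y‖ ≤ 1 / 2 := by simpa [BB] using hy
    have e : M 0 y 1 (0, w) = (y * w, w) := by simp [M_apply]
    rw [e, ← ofReal_norm, ← ofReal_norm]
    apply ENNReal.ofReal_le_ofReal
    refine ((f (y * w, w)).le_opNorm _).trans ?_
    have h2 : ∀ j : Fin 2, ‖M 0 y 1 (v01 j)‖ ≤ 1 := by
      intro j
      have : (v01 j).2 = 1 ∨ (v01 j).2 = Complex.I := by
        fin_cases j <;> simp [v01]
      have h3 : ‖(v01 j).2‖ = 1 := by rcases this with h | h <;> rw [h] <;> simp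
      simp only [M_apply, zero_mul, zero_add, one_mul]
      apply max_le
      · rw [norm_mul, h3]; linarith
      · exact h3.le
    calc _ ≤ ‖f (y * w, w)‖ * ∏ _j : Fin 2, (1 : ℝ) := by
          gcongr
          exact h2 _
      _ = _ := by simp
  have hms : MeasurableSet BB := isCompact_BB.isClosed.measurableSet
  calc ‖ab1 f w‖ₑ ^ 2 ≤ (ENNReal.ofReal (‖w‖ ^ 2) * ∫⁻ y in BB, ‖f (y * w, w)‖ₑ) ^ 2 := by
        unfold ab1 hb1
        rw [enorm_mul]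
        have e : ‖(‖w‖ ^ 2 : ℝ)‖ₑ = ENNReal.ofReal (‖w‖ ^ 2) := by
          rw [← ofReal_norm, Real.norm_of_nonneg (by positivity)]
        rw [e]
        gcongr
        refine (enorm_integral_le_lintegral_enorm _).trans ?_
        exact setLIntegral_mono' hms h1
    _ = (ENNReal.ofReal (‖w‖ ^ 2)) ^ 2 * (∫⁻ y in BB, ‖f (y * w, w)‖ₑ) ^ 2 := by ring
    _ ≤ ENNReal.ofReal (‖w‖ ^ 2) * (((volume.restrict BB) univ) *
          ∫⁻ y in BB, ‖f (y * w, w)‖ₑ ^ 2) := by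
        gcongr
        · rw [← ENNReal.ofReal_pow (by positivity)]
          apply ENNReal.ofReal_le_ofReal
          have : ‖w‖ ^ 2 ≤ 1 := pow_le_one₀ (norm_nonneg _) hw
          nlinarith [sq_nonneg ‖w‖]
        · exact cs_lintegral_one _ hm.measurable.aemeasurable
    _ = _ := by
        rw [Measure.restrict_apply_univ, ENNReal.coe_toNNReal hμ]
        ring

lemma K1_int (n : ℕ) : ∃ C : ℝ≥0, ∀ τ s : ℝ, 0 ≤ τ → 1 / 2 < s → s ≤ 1 →
    ∀ f : ℂ × ℂ → Form (n + 1), Continuous f → ∀ I : Idx n,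
    ∫⁻ x in Om τ s, ‖K1 f I x‖ₑ ^ 2 ≤ C * ∫⁻ x in Om τ s, ‖f x‖ₑ ^ 2 := by
  obtain ⟨C, hC⟩ := Kop_bound (μ := (volume : Measure (ℝ × ℂ)))
    (isCompact_Icc.prod isCompact_BB : IsCompact (Icc (0 : ℝ) 1 ×ˢ BB)) contDiff_A1.continuous
    (A' := fun p => (1 : ℝ) • dA1 p) (by simpa using contDiff_dA1.continuous) n
  have hfin : (4 * NNReal.pi + 4 * volume BB : ℝ≥0∞) ≠ ⊤ :=
    ENNReal.add_ne_top.2 ⟨ENNReal.mul_ne_top (by norm_num) ENNReal.coe_ne_top,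
      ENNReal.mul_ne_top (by norm_num) volume_BB_ne_top⟩
  refine ⟨C * (4 * NNReal.pi + 4 * volume BB : ℝ≥0∞).toNNReal, fun τ s hτ hs hs1 f hf I => ?_⟩
  have hmO : MeasurableSet (Om τ s) := (isOpen_Om τ s).measurableSet
  calc ∫⁻ x in Om τ s, ‖K1 f I x‖ₑ ^ 2
      ≤ ∫⁻ x in Om τ s, C * ∫⁻ p in Icc (0 : ℝ) 1 ×ˢ BB, ‖f (A1 p x)‖ₑ ^ 2 :=
        setLIntegral_mono' hmO fun x hx => hC f hf I x (norm_le_one_of_mem hs1 hx)
    _ = C * ∫⁻ x in Om τ s, ∫⁻ p in Icc (0 : ℝ) 1 ×ˢ BB, ‖f (A1 p x)‖ₑ ^ 2 :=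
        lintegral_const_mul' _ _ ENNReal.coe_ne_top
    _ ≤ C * ((4 * NNReal.pi + 4 * volume BB) * ∫⁻ z in Om τ s, ‖f z‖ₑ ^ 2) := by
        gcongr
        exact int_A1 hτ hs hs1 (F := fun z => ‖f z‖ₑ ^ 2) (hf.enorm.measurable.pow_const 2)
    _ = _ := by
        rw [ENNReal.coe_mul, ENNReal.coe_toNNReal hfin]; ring

lemma K2_int (n : ℕ) : ∃ C : ℝ≥0, ∀ τ s : ℝ, 0 ≤ τ → 1 / 2 < s → s ≤ 1 →
    ∀ f : ℂ × ℂ → Form (n + 1), Continuous f → ∀ I : Idx n,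
    ∫⁻ x in Om τ s, ‖K2 f I x‖ₑ ^ 2 ≤ C * ∫⁻ x in Om τ s, ‖f x‖ₑ ^ 2 := by
  obtain ⟨C, hC⟩ := Kop_bound (μ := (volume : Measure (ℝ × ℂ)))
    isCompact_KR contDiff_A2.continuous
    (A' := fun p => (1 - p.1 / (2 * Real.pi)) • dA2 p)
    (((contDiff_const.sub (contDiff_fst.div_const _)).smul contDiff_dA2).continuous) n
  have hfin : (ENNReal.ofReal (2 * Real.pi) * (4 * NNReal.pi) : ℝ≥0∞) ≠ ⊤ :=
    ENNReal.mul_ne_top ENNReal.ofReal_ne_top (ENNReal.mul_ne_top (by norm_num) ENNReal.coe_ne_top)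
  refine ⟨C * (ENNReal.ofReal (2 * Real.pi) * (4 * NNReal.pi) : ℝ≥0∞).toNNReal,
    fun τ s hτ hs hs1 f hf I => ?_⟩
  have hmO : MeasurableSet (Om τ s) := (isOpen_Om τ s).measurableSet
  calc ∫⁻ x in Om τ s, ‖K2 f I x‖ₑ ^ 2
      ≤ ∫⁻ x in Om τ s, C * ∫⁻ p in KR, ‖f (A2 p x)‖ₑ ^ 2 :=
        setLIntegral_mono' hmO fun x hx => hC f hf I x (norm_le_one_of_mem hs1 hx)
    _ = C * ∫⁻ x in Om τ s, ∫⁻ p in KR, ‖f (A2 p x)‖ₑ ^ 2 :=
        lintegral_const_mul' _ _ ENNReal.coe_ne_top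
    _ ≤ C * ((ENNReal.ofReal (2 * Real.pi) * (4 * NNReal.pi)) *
          ∫⁻ z in Om τ s, ‖f z‖ₑ ^ 2) := by
        gcongr
        exact int_A2 hτ hs hs1 (F := fun z => ‖f z‖ₑ ^ 2) (hf.enorm.measurable.pow_const 2)
    _ = _ := by
        rw [ENNReal.coe_mul, ENNReal.coe_toNNReal hfin]; ring

lemma R0_int : ∃ C : ℝ≥0, ∀ τ s : ℝ, 0 ≤ τ → τ < 1 / 2 → 1 / 2 < s → s ≤ 1 →
    ∀ f : ℂ × ℂ → Form 1, ContDiff ℝ ∞ f →
    ∫⁻ x in Om τ s, ‖Rad (ab0 f) x.2‖ₑ ^ 2 ≤ C * ∫⁻ x in Om τ s, ‖f x‖ₑ ^ 2 := by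
  obtain ⟨C, hC⟩ := ab0_ptwise
  refine ⟨NNReal.pi * 4 * (C * (Real.toNNReal (2 * Real.pi) * 4)),
    fun τ s hτ hτ' hs hs1 f hf => ?_⟩
  have hmO : MeasurableSet (Om τ s) := (isOpen_Om τ s).measurableSet
  have ha : ContDiffOn ℝ ∞ (ab0 f) univ :=
    contDiffOn_ab0 isOpen_univ isOpen_univ hf.contDiffOn fun _ _ _ _ => mem_univ _
  have ha' : ContDiff ℝ ∞ (ab0 f) := contDiffOn_univ.1 ha
  have h1 := base_bound hτ hτ' hs hs1 ha'.continuous ha'.contDiffOn (m := fun _ => 1) (by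
    intro x hx
    have hx2 : 0 < ‖x.2‖ := lt_of_le_of_lt hτ hx.1.1
    rw [abs_one, one_le_inv₀ hx2]
    linarith [hx.1.2])
  simp only [mul_one] at h1
  refine h1.trans ?_
  calc (NNReal.pi * 4 : ℝ≥0∞) * ∫⁻ w in Ann τ s, ‖ab0 f w‖ₑ ^ 2
      ≤ (NNReal.pi * 4 : ℝ≥0∞) * ∫⁻ w in Ann τ s, C * (ENNReal.ofReal (‖w‖ ^ 2) *
          ∫⁻ p in KR, ‖f (A2 p (0, w))‖ₑ ^ 2) := by
        gcongr
        exact hC f hf.continuous _
    _ = (NNReal.pi * 4 : ℝ≥0∞) * (C * ∫⁻ w in Ann τ s, (ENNReal.ofReal (‖w‖ ^ 2) *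
          ∫⁻ p in KR, ‖f (A2 p (0, w))‖ₑ ^ 2)) := by
        rw [lintegral_const_mul' _ _ ENNReal.coe_ne_top]
    _ ≤ (NNReal.pi * 4 : ℝ≥0∞) * (C * ((ENNReal.ofReal (2 * Real.pi) * 4) *
          ∫⁻ z in Om τ s, ‖f z‖ₑ ^ 2)) := by
        gcongr
        exact int_A2_base hτ hs (F := fun z => ‖f z‖ₑ ^ 2)
          (hf.continuous.enorm.measurable.pow_const 2)
    _ = _ := by
        push_cast
        rw [ENNReal.ofReal]
        ring

lemma U1_int : ∃ C : ℝ≥0, ∀ τ s : ℝ, 0 ≤ τ → τ < 1 / 2 → 1 / 2 < s → s ≤ 1 →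
    ∀ f : ℂ × ℂ → Form 2, ContDiff ℝ ∞ f → ∀ I : Idx 1,
    ∫⁻ x in Om τ s, ‖U1 f I x‖ₑ ^ 2 ≤ C * ∫⁻ x in Om τ s, ‖f x‖ₑ ^ 2 := by
  obtain ⟨C, hC⟩ := ab1_ptwise
  refine ⟨NNReal.pi * 4 * (C * 4), fun τ s hτ hτ' hs hs1 f hf I => ?_⟩
  have hmA : MeasurableSet (Ann τ s) := (isOpen_Ann τ s).measurableSet
  have ha : ContDiffOn ℝ ∞ (ab1 f) univ :=
    contDiffOn_ab1 isOpen_univ isOpen_univ hf.contDiffOn fun _ _ _ _ => mem_univ _
  have ha' : ContDiff ℝ ∞ (ab1 f) := contDiffOn_univ.1 ha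
  have h1 := base_bound hτ hτ' hs hs1 ha'.continuous ha'.contDiffOn
    (m := fun x => dth (frame (I 0)).2 x.2) (by
    intro x hx
    unfold dth
    refine (Complex.abs_im_le_norm _).trans ?_
    rw [norm_div, div_eq_mul_inv]
    have : ‖(frame (I 0)).2‖ ≤ 1 := by
      rw [← norm_frame (I 0)]; exact norm_snd_le _
    have h0 : 0 ≤ ‖x.2‖⁻¹ := by positivity
    nlinarith)
  refine h1.trans ?_
  calc (NNReal.pi * 4 : ℝ≥0∞) * ∫⁻ w in Ann τ s, ‖ab1 f w‖ₑ ^ 2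
      ≤ (NNReal.pi * 4 : ℝ≥0∞) * ∫⁻ w in Ann τ s, C * (ENNReal.ofReal (‖w‖ ^ 2) *
          ∫⁻ y in BB, ‖f (y * w, w)‖ₑ ^ 2) := by
        refine mul_le_mul' le_rfl ?_
        exact setLIntegral_mono' hmA fun w hw => hC f hf.continuous w (hw.2.trans_le hs1).le
    _ = (NNReal.pi * 4 : ℝ≥0∞) * (C * ∫⁻ w in Ann τ s, (ENNReal.ofReal (‖w‖ ^ 2) *
          ∫⁻ y in BB, ‖f (y * w, w)‖ₑ ^ 2)) := by
        rw [lintegral_const_mul' _ _ ENNReal.coe_ne_top]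
    _ ≤ (NNReal.pi * 4 : ℝ≥0∞) * (C * (4 * ∫⁻ z in Om τ s, ‖f z‖ₑ ^ 2)) := by
        gcongr
        exact bound_Y0 hs hτ (F := fun z => ‖f z‖ₑ ^ 2)
          (hf.continuous.enorm.measurable.pow_const 2)
    _ = _ := by
        push_cast
        ring

/-- coefficients of the closed form `dθ₂` -/
def thc {n : ℕ} (J : Idx (n + 1)) (x : ℂ × ℂ) : ℝ := dth (frame (J 0)).2 x.2

lemma dT_smul {n : ℕ} (c : ℝ) {u : Idx n → ℂ × ℂ → ℝ} {x : ℂ × ℂ}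
    (hu : ∀ I, DifferentiableAt ℝ (u I) x) (J : Idx (n + 1)) :
    dT (fun I x => c * u I x) J x = c * dT u J x := by
  unfold dT
  rw [Finset.mul_sum]
  refine Finset.sum_congr rfl fun i _ => ?_
  rw [fderiv_const_mul (hu _)]
  simp only [ContinuousLinearMap.smul_apply, smul_eq_mul]
  ring

lemma dT_add {n : ℕ} {u v : Idx n → ℂ × ℂ → ℝ} {x : ℂ × ℂ}
    (hu : ∀ I, DifferentiableAt ℝ (u I) x) (hv : ∀ I, DifferentiableAt ℝ (v I) x)
    (J : Idx (n + 1)) :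
    dT (fun I x => u I x + v I x) J x = dT u J x + dT v J x := by
  unfold dT
  rw [← Finset.sum_add_distrib]
  refine Finset.sum_congr rfl fun i _ => ?_
  rw [fderiv_fun_add (hu _) (hv _)]
  simp only [ContinuousLinearMap.add_apply]
  ring

lemma dT_zero (u : Idx 0 → ℂ × ℂ → ℝ) (J : Idx 1) (x : ℂ × ℂ) :
    dT u J x = fderiv ℝ (u (face J 0)) x (frame (J 0)) := by
  unfold dT
  exact (Fin.sum_univ_one _).trans (by simp)

/-- the main solvability statement, with uniform estimates -/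
def Solvable (n : ℕ) (C : ℝ≥0) : Prop :=
  ∀ τ s : ℝ, 0 ≤ τ → τ < 1 / 2 → 1 / 2 < s → s ≤ 1 →
    ∀ f : ℂ × ℂ → Form (n + 1), ContDiffOn ℝ ∞ f (Om τ s) → (∀ x ∈ Om τ s, extDeriv f x = 0) →
    ∃ u : Idx n → ℂ × ℂ → ℝ, (∀ I, ContDiffOn ℝ ∞ (u I) (Om τ s)) ∧
      (∃ c : ℝ, (n ≠ 0 → c = 0) ∧ ∀ x ∈ Om τ s, ∀ J : Idx (n + 1),
        dT u J x = f x (frame ∘ J) - c * thc J x) ∧
      (ContDiff ℝ ∞ f → ∀ I, ∫⁻ x in Om τ s, ‖u I x‖ₑ ^ 2 ≤ C * ∫⁻ x in Om τ s, ‖f x‖ₑ ^ 2)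

lemma int_smul_bound {α : Type*} [MeasurableSpace α] (μ : Measure α) {c : ℝ} (hc : 0 ≤ c)
    {u : α → ℝ} : ∫⁻ x, ‖c * u x‖ₑ ^ 2 ∂μ = (Real.toNNReal c : ℝ≥0∞) ^ 2 * ∫⁻ x, ‖u x‖ₑ ^ 2 ∂μ := by
  rw [← lintegral_const_mul' _ _ (by finiteness)]
  refine lintegral_congr fun x => ?_
  rw [enorm_mul, mul_pow]
  congr 2
  rw [← ofReal_norm, Real.norm_of_nonneg hc]
  rfl

lemma solve_high (n : ℕ) : ∃ C : ℝ≥0, Solvable (n + 2) C := by
  obtain ⟨C, hC⟩ := K1_int (n + 2)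
  refine ⟨Real.toNNReal vB⁻¹ ^ 2 * C, fun τ s hτ hτ' hs hs1 f hf hcl => ?_⟩
  refine ⟨fun I x => vB⁻¹ * K1 f I x, fun I => contDiffOn_const.mul (contDiffOn_K1 hτ hs hf I),
    ⟨0, fun _ => rfl, fun x hx J => ?_⟩, fun hf' I => ?_⟩
  · rw [dT_smul _ (fun I => ((contDiffOn_K1 hτ hs hf I).contDiffAt
      ((isOpen_Om τ s).mem_nhds hx)).differentiableAt (by simp)), dT_K1 hτ hs hf hcl hx]
    obtain ⟨k, hk⟩ := exists_lt_two J
    rw [PD_eq_zero f hk]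
    have := vB_pos
    field_simp
    ring
  · rw [int_smul_bound _ (inv_nonneg.2 vB_pos.le)]
    push_cast
    rw [mul_assoc]
    gcongr
    exact hC τ s hτ hs hs1 f hf'.continuous I

lemma solve_one : ∃ C : ℝ≥0, Solvable 1 C := by
  obtain ⟨C, hC⟩ := K1_int 1
  obtain ⟨C', hC'⟩ := U1_int
  refine ⟨Real.toNNReal vB⁻¹ ^ 2 * (4 * (C + C')), fun τ s hτ hτ' hs hs1 f hf hcl => ?_⟩
  have hmO : MeasurableSet (Om τ s) := (isOpen_Om τ s).measurableSet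
  have h1 := fun I => contDiffOn_K1 hτ hs hf I
  have h2 := fun I => contDiffOn_U1 hτ hs hτ' hf I
  refine ⟨fun I x => vB⁻¹ * (K1 f I x + U1 f I x),
    fun I => contDiffOn_const.mul ((h1 I).add (h2 I)),
    ⟨0, fun _ => rfl, fun x hx J => ?_⟩, fun hf' I => ?_⟩
  · have h1' := fun I => ((h1 I).contDiffAt
      ((isOpen_Om τ s).mem_nhds hx)).differentiableAt (by simp)
    have h2' := fun I => ((h2 I).contDiffAt
      ((isOpen_Om τ s).mem_nhds hx)).differentiableAt (by simp)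
    rw [dT_smul (u := fun I x => K1 f I x + U1 f I x) _ (fun I => (h1' I).add (h2' I)),
      dT_add h1' h2', dT_K1 hτ hs hf hcl hx, dT_U1 hτ hs hτ' hf hx]
    have := vB_pos
    field_simp
    ring
  · rw [int_smul_bound _ (inv_nonneg.2 vB_pos.le)]
    push_cast
    rw [mul_assoc]
    gcongr
    refine (int_add_bound _ ((h1 I).continuousOn.aemeasurable hmO)).trans ?_
    rw [mul_assoc, add_mul]
    gcongr
    · exact hC τ s hτ hs hs1 f hf'.continuous I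
    · exact hC' τ s hτ hτ' hs hs1 f hf' I

lemma solve_zero : ∃ C : ℝ≥0, Solvable 0 C := by
  obtain ⟨C1, hC1⟩ := K1_int 0
  obtain ⟨C2, hC2⟩ := K2_int 0
  obtain ⟨C3, hC3⟩ := R0_int
  refine ⟨Real.toNNReal vB⁻¹ ^ 2 * (4 * (C1 + 4 * (C2 + C3))),
    fun τ s hτ hτ' hs hs1 f hf hcl => ?_⟩
  have hmO : MeasurableSet (Om τ s) := (isOpen_Om τ s).measurableSet
  have h1 := fun I => contDiffOn_K1 hτ hs hf I
  have h2 := fun I => contDiffOn_K2 hτ hs hf I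
  have h3 := fun I => contDiffOn_K3 hτ hs hf I
  have hab : ContDiffOn ℝ ∞ (ab0 f) (Ann τ s) :=
    contDiffOn_ab0 (isOpen_Om τ s) (isOpen_Ann τ s) hf
      fun p hp w hw => A2_mem hτ hs hp.2 (zero_mem_Om hτ hs hw)
  have h4 : ContDiffOn ℝ ∞ (fun x : ℂ × ℂ => Rad (ab0 f) x.2) (Om τ s) :=
    (contDiffOn_Rad hτ hτ' hs hab).comp contDiff_snd.contDiffOn fun x hx => hx.1
  -- the constant
  set I₀ : Idx 0 := ⟨⟨fun i => i.elim0, fun i => i.elim0⟩, fun {i} => i.elim0⟩ with hI₀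
  have hsub : ∀ I : Idx 0, I = I₀ := fun I => by
    ext i; exact i.elim0
  obtain ⟨c, hc⟩ : ∃ c : ℝ, ∀ x ∈ Om τ s, K3 f I₀ x = c := by
    refine (isOpen_Om τ s).exists_is_const_of_fderiv_eq_zero (isPreconnected_Om hτ)
      ((h3 I₀).differentiableOn (by simp)) ?_
    intro x hx
    have hz : ∀ j : Fin 4, fderiv ℝ (K3 f I₀) x (frame j) = 0 := by
      intro j
      set J : Idx 1 := OrderEmbedding.ofStrictMono (fun _ : Fin 1 => j) (Subsingleton.strictMono _)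
      have := dT_K3 hτ hs hf hcl hx J
      rw [dT_zero, hsub (face J 0)] at this
      exact this
    have hlin : (fderiv ℝ (K3 f I₀) x).toLinearMap = 0 := by
      apply frameBasis.ext
      intro j
      rw [frameBasis_apply]
      exact hz j
    ext v <;> exact congrArg (fun L : (ℂ × ℂ) →ₗ[ℝ] ℝ => L _) hlin
  refine ⟨fun I x => vB⁻¹ * (K1 f I x + ((-1) * K2 f I x + Rad (ab0 f) x.2)),
    fun I => contDiffOn_const.mul ((h1 I).add ((contDiffOn_const.mul (h2 I)).add h4)),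
    ⟨vB⁻¹ * (1 / (2 * Real.pi) * c), fun h => absurd rfl h, fun x hx J => ?_⟩, fun hf' I => ?_⟩
  · have h1' := fun I => ((h1 I).contDiffAt
      ((isOpen_Om τ s).mem_nhds hx)).differentiableAt (by simp)
    have h2' := fun I => ((h2 I).contDiffAt
      ((isOpen_Om τ s).mem_nhds hx)).differentiableAt (by simp)
    have h4' := (h4.contDiffAt ((isOpen_Om τ s).mem_nhds hx)).differentiableAt (by simp)
    have h2'' : ∀ I, DifferentiableAt ℝ (fun x => (-1) * K2 f I x) x := fun I =>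
      (h2' I).const_mul _
    have hR : dT (fun (_ : Idx 0) (x : ℂ × ℂ) => Rad (ab0 f) x.2) J x
        = PA f J x - 1 / (2 * Real.pi) * K3 f I₀ x * dth (frame (J 0)).2 x.2 := by
      rw [dT_zero]
      exact dT_base0 hτ hτ' hs hf hx J I₀
    rw [dT_smul (u := fun I x => K1 f I x + ((-1) * K2 f I x + Rad (ab0 f) x.2)) _
        (fun I => (h1' I).add ((h2'' I).add h4')),
      dT_add h1' (v := fun I x => (-1) * K2 f I x + Rad (ab0 f) x.2) (fun I => (h2'' I).add h4'),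
      dT_add (u := fun I x => (-1) * K2 f I x) (v := fun _ x => Rad (ab0 f) x.2) h2''
        (fun _ => h4'), dT_smul _ h2', dT_K1 hτ hs hf hcl hx, dT_K2 hτ hs hf hcl hx, hR,
      hc x hx]
    have := vB_pos
    unfold thc
    field_simp
    ring
  · rw [int_smul_bound _ (inv_nonneg.2 vB_pos.le)]
    push_cast
    rw [mul_assoc]
    gcongr
    refine (int_add_bound _ ((h1 I).continuousOn.aemeasurable hmO)).trans ?_
    rw [mul_assoc, add_mul]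
    gcongr
    · exact hC1 τ s hτ hs hs1 f hf'.continuous I
    · refine (int_add_bound _
        ((contDiffOn_const.mul (h2 I)).continuousOn.aemeasurable hmO)).trans ?_
      rw [mul_assoc, add_mul]
      gcongr
      · refine le_trans (le_of_eq ?_) (hC2 τ s hτ hs hs1 f hf'.continuous I)
        refine lintegral_congr fun x => ?_
        rw [neg_one_mul, enorm_neg]
      · exact hC3 τ s hτ hτ' hs hs1 f hf'

theorem solvable (n : ℕ) : ∃ C : ℝ≥0, Solvable n C := by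
  rcases n with _ | _ | n
  · exact solve_zero
  · exact solve_one
  · exact solve_high n

end Pool.Agent.H631R3
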