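import Pool.Agent.H631R3.L2b

/-! Solving `du = f` for smooth closed forms on the truncated Hartogs triangles: identities. -/

open scoped ContDiff Topology ENNReal
open MeasureTheory Set Filter

noncomputable section

namespace Pool.Agent.H631R3

/-- volume of the averaging disc -/
def vB : ℝ := (volume BB).toReal

lemma vB_pos : 0 < vB := by
  apply ENNReal.toReal_pos
  · exact (Metric.measure_closedBall_pos volume (0 : ℂ) (by norm_num)).ne'
  · exact isCompact_BB.measure_lt_top.ne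

/-- first family -/
def A1 (p : ℝ × ℂ) : (ℂ × ℂ) →L[ℝ] (ℂ × ℂ) := M (p.1 : ℂ) (((1 - p.1 : ℝ) : ℂ) * p.2) 1
/-- its velocity -/
def dA1 (p : ℝ × ℂ) : (ℂ × ℂ) →L[ℝ] (ℂ × ℂ) := M 1 (-p.2) 0
/-- rotation factor -/
def ex (σ : ℝ) : ℂ := Complex.exp (σ * Complex.I)
/-- second family -/
def A2 (p : ℝ × ℂ) : (ℂ × ℂ) →L[ℝ] (ℂ × ℂ) := M 0 (ex p.1 * p.2) (ex p.1)
/-- its velocity -/
def dA2 (p : ℝ × ℂ) : (ℂ × ℂ) →L[ℝ] (ℂ × ℂ) := M 0 (Complex.I * (ex p.1 * p.2)) (Complex.I * ex p.1)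

lemma contDiff_ex : ContDiff ℝ ∞ ex := by
  unfold ex
  exact Complex.contDiff_exp.comp ((Complex.ofRealCLM.contDiff).mul contDiff_const)

lemma norm_ex (σ : ℝ) : ‖ex σ‖ = 1 := Complex.norm_exp_ofReal_mul_I σ

lemma hasDerivAt_ex (σ : ℝ) : HasDerivAt ex (Complex.I * ex σ) σ := by
  unfold ex
  have h1 : HasDerivAt (fun σ : ℝ => (σ : ℂ) * Complex.I) (Complex.I) σ := by
    simpa using (Complex.ofRealCLM.hasDerivAt (x := σ)).mul_const Complex.I
  have := h1.cexp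
  rwa [mul_comm] at this

lemma contDiff_A1 : ContDiff ℝ ∞ A1 := by
  unfold A1
  apply contDiff_M
  · exact Complex.ofRealCLM.contDiff.comp contDiff_fst
  · exact (Complex.ofRealCLM.contDiff.comp (contDiff_const.sub contDiff_fst)).mul contDiff_snd
  · exact contDiff_const

lemma contDiff_dA1 : ContDiff ℝ ∞ dA1 := by
  unfold dA1
  exact contDiff_M contDiff_const contDiff_snd.neg contDiff_const

lemma hasDerivAt_A1 (t : ℝ) (y : ℂ) : HasDerivAt (fun s => A1 (s, y)) (dA1 (t, y)) t := by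
  unfold A1 dA1
  apply hasDerivAt_M
  · exact Complex.ofRealCLM.hasDerivAt
  · have h1 : HasDerivAt (fun s : ℝ => ((1 - s : ℝ) : ℂ)) (-1) t := by
      have h2 : (fun s : ℝ => ((1 - s : ℝ) : ℂ)) = fun s : ℝ => 1 - (s : ℂ) := by
        funext s; push_cast; ring
      rw [h2]
      exact (Complex.ofRealCLM.hasDerivAt (x := t)).const_sub 1
    simpa using h1.mul_const y
  · exact hasDerivAt_const _ _

lemma contDiff_A2 : ContDiff ℝ ∞ A2 := by
  unfold A2
  exact contDiff_M contDiff_const ((contDiff_ex.comp contDiff_fst).mul contDiff_snd)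
    (contDiff_ex.comp contDiff_fst)

lemma contDiff_dA2 : ContDiff ℝ ∞ dA2 := by
  unfold dA2
  exact contDiff_M contDiff_const
    (contDiff_const.mul ((contDiff_ex.comp contDiff_fst).mul contDiff_snd))
    (contDiff_const.mul (contDiff_ex.comp contDiff_fst))

lemma hasDerivAt_A2 (t : ℝ) (y : ℂ) : HasDerivAt (fun s => A2 (s, y)) (dA2 (t, y)) t := by
  unfold A2 dA2
  apply hasDerivAt_M
  · exact hasDerivAt_const _ _
  · have := (hasDerivAt_ex t).mul_const y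
    rwa [mul_assoc] at this
  · exact hasDerivAt_ex t

section

variable {τ s : ℝ} (hτ : 0 ≤ τ) (hs : 1 / 2 < s)

include hτ hs

lemma A1_mem {p : ℝ × ℂ} (hp : p ∈ Icc (0 : ℝ) 1 ×ˢ BB) {x : ℂ × ℂ} (hx : x ∈ Om τ s) :
    A1 p x ∈ Om τ s := by
  have := mem_Om_avg hs hx hτ hp.1.1 hp.1.2 hp.2
  simpa [A1, M_apply] using this

lemma A2_mem {σ : ℝ} {y : ℂ} (hy : y ∈ BB) {x : ℂ × ℂ} (hx : x ∈ Om τ s) :
    A2 (σ, y) x ∈ Om τ s := by
  have hy' : ‖y‖ ≤ 1 / 2 := by simpa [BB] using hy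
  have hx2 : 0 < ‖x.2‖ := lt_of_le_of_lt hτ hx.1.1
  refine ⟨⟨?_, ?_⟩, ?_⟩
  · simp only [A2, M_apply, norm_mul, norm_ex, one_mul]; exact hx.1.1
  · simp only [A2, M_apply, norm_mul, norm_ex, one_mul]; exact hx.1.2
  · simp only [A2, M_apply, norm_mul, norm_ex, one_mul, zero_mul, zero_add]
    nlinarith

end

/-- the averaged restriction to the discs `z₁ = y z₂` -/
def PD {q : ℕ} (f : ℂ × ℂ → Form q) (J : Idx q) (x : ℂ × ℂ) : ℝ :=
  ∫ y in BB, pull f (M 0 y 1) J x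

/-- the rotational average -/
def PA {q : ℕ} (f : ℂ × ℂ → Form q) (J : Idx q) (x : ℂ × ℂ) : ℝ :=
  1 / (2 * Real.pi) * ∫ p in Icc 0 (2 * Real.pi) ×ˢ BB, pull f (A2 p) J x

/-- first homotopy operator -/
def K1 {n : ℕ} (f : ℂ × ℂ → Form (n + 1)) : Idx n → ℂ × ℂ → ℝ :=
  Kop volume (Icc (0 : ℝ) 1 ×ˢ BB) A1 (fun p => (1 : ℝ) • dA1 p) f

/-- second homotopy operator -/
def K2 {n : ℕ} (f : ℂ × ℂ → Form (n + 1)) : Idx n → ℂ × ℂ → ℝ :=
  Kop volume (Icc 0 (2 * Real.pi) ×ˢ BB) A2 (fun p => (1 - p.1 / (2 * Real.pi)) • dA2 p) f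

/-- third homotopy operator -/
def K3 {n : ℕ} (f : ℂ × ℂ → Form (n + 1)) : Idx n → ℂ × ℂ → ℝ :=
  Kop volume (Icc 0 (2 * Real.pi) ×ˢ BB) A2 (fun p => (1 : ℝ) • dA2 p) f

section ident

variable {τ s : ℝ} (hτ : 0 ≤ τ) (hs : 1 / 2 < s) {n : ℕ} {f : ℂ × ℂ → Form (n + 1)}
  (hf : ContDiffOn ℝ ∞ f (Om τ s))

include hτ hs hf

lemma contDiffOn_K1 (I : Idx n) : ContDiffOn ℝ ∞ (K1 f I) (Om τ s) :=
  contDiffOn_Kop (isCompact_Icc.prod isCompact_BB) (isOpen_Om τ s) (isOpen_Om τ s) hf contDiff_A1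
    (A' := fun p => (1 : ℝ) • dA1 p) (by simpa using contDiff_dA1) (fun _ hp _ hx => A1_mem hτ hs hp hx) I

lemma contDiffOn_K2 (I : Idx n) : ContDiffOn ℝ ∞ (K2 f I) (Om τ s) :=
  contDiffOn_Kop (isCompact_Icc.prod isCompact_BB) (isOpen_Om τ s) (isOpen_Om τ s) hf contDiff_A2
    ((contDiff_const.sub (contDiff_fst.div_const _)).smul contDiff_dA2)
    (fun _ hp _ hx => A2_mem hτ hs hp.2 hx) I

lemma contDiffOn_K3 (I : Idx n) : ContDiffOn ℝ ∞ (K3 f I) (Om τ s) :=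
  contDiffOn_Kop (isCompact_Icc.prod isCompact_BB) (isOpen_Om τ s) (isOpen_Om τ s) hf contDiff_A2
    (A' := fun p => (1 : ℝ) • dA2 p) (by simpa using contDiff_dA2) (fun _ hp _ hx => A2_mem hτ hs hp.2 hx) I

variable (hcl : ∀ x ∈ Om τ s, extDeriv f x = 0)

include hcl

lemma dT_K1 {x : ℂ × ℂ} (hx : x ∈ Om τ s) (J : Idx (n + 1)) :
    dT (K1 f) J x = vB * f x (frame ∘ J) - PD f J x := by
  have h := dT_Kop_eq (a := 0) (b := 1) zero_le_one (isOpen_Om τ s) (isOpen_Om τ s) hf contDiff_A1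
    contDiff_dA1 hasDerivAt_A1 (fun _ hp _ hx => A1_mem hτ hs hp hx) (w := fun _ => 1)
    (w' := fun _ => 0) contDiff_const continuous_const (fun t => hasDerivAt_const _ _) hx
    (fun p hp => hcl _ (A1_mem hτ hs hp hx)) J
  unfold K1
  rw [h]
  simp only [one_mul, zero_mul, integral_zero, sub_zero]
  have e1 : ∀ y : ℂ, A1 (1, y) = ContinuousLinearMap.id ℝ (ℂ × ℂ) := by
    intro y; ext z <;> simp [A1, M_apply]
  have e2 : ∀ y : ℂ, A1 (0, y) = M 0 y 1 := by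
    intro y; simp [A1]
  simp_rw [e1, e2]
  rw [integral_sub]
  · rw [setIntegral_const]
    rfl
  · apply ContinuousOn.integrableOn_compact isCompact_BB
    exact continuousOn_const
  · apply ContinuousOn.integrableOn_compact isCompact_BB
    have hc := (contDiffOn_pull hf (A := fun y : ℂ => M 0 y 1)
      (contDiff_M contDiff_const contDiff_id contDiff_const) J).continuousOn
    refine hc.comp (f := fun y : ℂ => (y, x)) (by fun_prop) fun y hy => ?_
    have := A1_mem hτ hs (p := (0, y)) ⟨by simp, hy⟩ hx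
    rw [e2] at this
    exact this

lemma dT_K2 {x : ℂ × ℂ} (hx : x ∈ Om τ s) (J : Idx (n + 1)) :
    dT (K2 f) J x = PA f J x - PD f J x := by
  have hpi : (0 : ℝ) < 2 * Real.pi := by positivity
  have h := dT_Kop_eq (a := 0) (b := 2 * Real.pi) hpi.le (isOpen_Om τ s) (isOpen_Om τ s) hf
    contDiff_A2 contDiff_dA2 hasDerivAt_A2 (fun _ hp _ hx => A2_mem hτ hs hp.2 hx)
    (w := fun t => 1 - t / (2 * Real.pi)) (w' := fun _ => - (1 / (2 * Real.pi)))
    (contDiff_const.sub (contDiff_id.div_const _)) continuous_const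
    (fun t => by simpa using ((hasDerivAt_id t).div_const (2 * Real.pi)).const_sub 1) hx
    (fun p hp => hcl _ (A2_mem hτ hs hp.2 hx)) J
  unfold K2
  rw [h]
  have e2 : ∀ y : ℂ, A2 (0, y) = M 0 y 1 := by
    intro y; simp [A2, ex]
  simp_rw [e2]
  rw [integral_const_mul, PA, PD]
  have e3 : (1 : ℝ) - 2 * Real.pi / (2 * Real.pi) = 0 := by
    rw [div_self hpi.ne', sub_self]
  simp only [e3, zero_mul, zero_div, sub_zero, one_mul, zero_sub, integral_neg]
  ring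

lemma dT_K3 {x : ℂ × ℂ} (hx : x ∈ Om τ s) (J : Idx (n + 1)) :
    dT (K3 f) J x = 0 := by
  have hpi : (0 : ℝ) < 2 * Real.pi := by positivity
  have h := dT_Kop_eq (a := 0) (b := 2 * Real.pi) hpi.le (isOpen_Om τ s) (isOpen_Om τ s) hf
    contDiff_A2 contDiff_dA2 hasDerivAt_A2 (fun _ hp _ hx => A2_mem hτ hs hp.2 hx)
    (w := fun _ => 1) (w' := fun _ => 0) contDiff_const continuous_const
    (fun t => hasDerivAt_const _ _) hx
    (fun p hp => hcl _ (A2_mem hτ hs hp.2 hx)) J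
  unfold K3
  rw [h]
  have e2 : ∀ y : ℂ, A2 (0, y) = M 0 y 1 := by
    intro y; simp [A2, ex]
  have e3 : ∀ y : ℂ, A2 (2 * Real.pi, y) = M 0 y 1 := by
    intro y
    have : ex (2 * Real.pi) = 1 := by simp [ex]
    simp [A2, this]
  simp [e2, e3]

end ident

lemma frame_snd_zero {j : Fin 4} (hj : j < 2) : (frame j).2 = 0 := by
  fin_cases j <;> simp_all [frame]

/-- the average over discs only sees the second variable -/
lemma PD_eq_zero {q : ℕ} (f : ℂ × ℂ → Form q) {J : Idx q} {k : Fin q} (hk : J k < 2)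
    (x : ℂ × ℂ) : PD f J x = 0 := by
  unfold PD
  have : ∀ y : ℂ, pull f (M 0 y 1) J x = 0 := by
    intro y
    unfold pull
    apply (f _).map_coord_zero k
    rw [M_apply, frame_snd_zero hk]
    simp
  simp [this]

/-- every increasing multi-index of length at least three hits the first variable -/
lemma exists_lt_two {n : ℕ} (J : Idx (n + 3)) : ∃ k, J k < 2 := by
  refine ⟨⟨0, by omega⟩, ?_⟩
  have h1 : J ⟨0, by omega⟩ < J ⟨1, by omega⟩ := J.strictMono (by simp [Fin.lt_def])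
  have h2 : J ⟨1, by omega⟩ < J ⟨2, by omega⟩ := J.strictMono (by simp [Fin.lt_def])
  omega

end Pool.Agent.H631R3
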