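import Pool.Agent.H631R3.Solve

/-! Solving the remaining equations on the base. -/

open scoped ContDiff Topology ENNReal
open MeasureTheory Set Filter

noncomputable section

namespace Pool.Agent.H631R3

/-- the coefficient `dθ(v) = Im (v₂ / z₂)` -/
def dth (v : ℂ) (w : ℂ) : ℝ := (v / w).im

lemma hasFDerivAt_dth (v : ℂ) {w : ℂ} (hw : w ≠ 0) :
    ∃ L : ℂ →L[ℝ] ℝ, HasFDerivAt (dth v) L w ∧ ∀ u, L u = - (v * u / w ^ 2).im := by
  have h1 : HasDerivAt (fun w : ℂ => v / w) (- v / w ^ 2) w := by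
    have h := (hasDerivAt_inv hw).const_mul v
    have e : v * -(w ^ 2)⁻¹ = -v / w ^ 2 := by ring
    rw [e] at h
    simpa [div_eq_mul_inv] using h
  have h2 : HasFDerivAt (fun w : ℂ => v / w)
      ((ContinuousLinearMap.toSpanSingleton ℂ (- v / w ^ 2)).restrictScalars ℝ) w :=
    h1.hasFDerivAt.restrictScalars ℝ
  refine ⟨Complex.imCLM.comp _, Complex.imCLM.hasFDerivAt.comp w h2, fun u => ?_⟩
  simp only [ContinuousLinearMap.comp_apply, ContinuousLinearMap.coe_restrictScalars',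
    ContinuousLinearMap.toSpanSingleton_apply, Complex.imCLM_apply, smul_eq_mul]
  rw [← Complex.neg_im]
  congr 1
  ring

lemma contDiffOn_dth (v : ℂ) {S : Set ℂ} (hS : ∀ w ∈ S, w ≠ 0) :
    ContDiffOn ℝ ∞ (dth v) S := by
  unfold dth
  refine (Complex.imCLM.contDiff (n := ∞)).comp_contDiffOn (f := fun w : ℂ => v / w) ?_
  intro w hw
  simp only [div_eq_mul_inv]
  exact (contDiffAt_const.mul (contDiffAt_inv ℝ (hS w hw))).contDiffWithinAt

lemma Ann_ne_zero {τ s : ℝ} (hτ : 0 ≤ τ) {w : ℂ} (hw : w ∈ Ann τ s) : w ≠ 0 := fun h => by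
  have := hw.1; rw [h, norm_zero] at this; linarith

lemma form1_add_smul (α : Form 1) (a b : ℝ) (X Y : ℂ × ℂ) :
    α (fun _ => a • X + b • Y) = a * α (fun _ => X) + b * α (fun _ => Y) := by
  have e : ∀ X : ℂ × ℂ, (fun _ : Fin 1 => X) = Function.update (fun _ : Fin 1 => (0 : ℂ × ℂ)) 0 X := by
    intro X; funext i; rw [Subsingleton.elim i 0, Function.update_self]
  rw [e, e X, e Y, ContinuousAlternatingMap.map_update_add, ContinuousAlternatingMap.map_update_smul,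
    ContinuousAlternatingMap.map_update_smul]
  rfl

lemma fubini_K {a b : ℝ} {φ : ℝ × ℂ → ℝ} (hc : ContinuousOn φ (Icc a b ×ˢ BB)) :
    ∫ p in Icc a b ×ˢ BB, φ p = ∫ y in BB, ∫ t in Icc a b, φ (t, y) := by
  have hK : IsCompact (Icc a b ×ˢ BB) := isCompact_Icc.prod isCompact_BB
  have hint : IntegrableOn φ (Icc a b ×ˢ BB) (volume.prod volume) :=
    hc.integrableOn_compact hK
  have e0 : (∫ p in Icc a b ×ˢ BB, φ p) = ∫ p in Icc a b ×ˢ BB, φ p ∂(volume.prod volume) := rfl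
  rw [e0, setIntegral_prod _ hint]
  rw [integral_integral_swap (f := fun t y => φ (t, y))]
  rw [IntegrableOn, ← Measure.prod_restrict] at hint
  exact hint

/-- the domain of the rotation parameters -/
abbrev KR : Set (ℝ × ℂ) := Icc 0 (2 * Real.pi) ×ˢ BB

lemma isCompact_KR : IsCompact KR := isCompact_Icc.prod isCompact_BB

/-- radial component of the rotational average of a one-form -/
def ab0 (f : ℂ × ℂ → Form 1) (w : ℂ) : ℝ :=
  1 / (2 * Real.pi) * ∫ p in KR, f (A2 p (0, w)) (fun _ => A2 p (0, w))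

lemma A2_snd (p : ℝ × ℂ) (x : ℂ × ℂ) : A2 p x = A2 p (0, x.2) := by
  simp [A2, M_apply]

lemma contDiffOn_ab0 {f : ℂ × ℂ → Form 1} {V : Set (ℂ × ℂ)} {U : Set ℂ} (hV : IsOpen V)
    (hU : IsOpen U) (hf : ContDiffOn ℝ ∞ f V) (h : ∀ p ∈ KR, ∀ w ∈ U, A2 p (0, w) ∈ V) :
    ContDiffOn ℝ ∞ (ab0 f) U := by
  have h1 : ContDiff ℝ ∞ (fun r : (ℝ × ℂ) × ℂ => A2 r.1 ((0 : ℂ), r.2)) :=
    (contDiff_A2.comp contDiff_fst).clm_apply (contDiff_const.prodMk contDiff_snd)
  refine contDiffOn_const.mul ?_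
  refine contDiffOn_PI isCompact_KR (W := {r : (ℝ × ℂ) × ℂ | A2 r.1 ((0 : ℂ), r.2) ∈ V})
    (hV.preimage h1.continuous) hU (fun r hr => h r.1 hr.1 r.2 hr.2)
    (k := fun r : (ℝ × ℂ) × ℂ => f (A2 r.1 (0, r.2)) (fun _ => A2 r.1 (0, r.2))) ?_
  exact contDiffOn_eval (hf.comp h1.contDiffOn fun r hr => hr)
    (contDiffOn_pi.2 fun _ => h1.contDiffOn)

section base0

variable {τ s : ℝ} (hτ : 0 ≤ τ) (hτ' : τ < 1 / 2) (hs : 1 / 2 < s)

lemma zero_mem_Om {τ s : ℝ} (hτ : 0 ≤ τ) (hs : 1 / 2 < s) {w : ℂ} (hw : w ∈ Ann τ s) :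
    ((0 : ℂ), w) ∈ Om τ s := by
  refine ⟨hw, ?_⟩
  have h1 : 0 < ‖w‖ := lt_of_le_of_lt hτ hw.1
  have h2 : 0 < s := by linarith
  simp only [norm_zero]
  positivity

include hτ hs

lemma ab0_rot {f : ℂ × ℂ → Form 1} (hf : ContDiffOn ℝ ∞ f (Om τ s)) (θ : ℝ) {w : ℂ}
    (hw : w ∈ Ann τ s) : ab0 f (ex θ * w) = ab0 f w := by
  have hper : ∀ y : ℂ, Function.Periodic
      (fun σ : ℝ => f (A2 (σ, y) (0, w)) (fun _ => A2 (σ, y) (0, w))) (2 * Real.pi) := by
    intro y σ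
    have : ex (σ + 2 * Real.pi) = ex σ := by
      simp [ex, add_mul, Complex.exp_add]
    simp only [A2, this]
  have hsh : ∀ (σ : ℝ) (y : ℂ), A2 (σ, y) (0, ex θ * w) = A2 (σ + θ, y) (0, w) := by
    intro σ y
    have : ex (σ + θ) = ex σ * ex θ := by
      simp [ex, add_mul, Complex.exp_add]
    simp only [A2, M_apply, this, mul_zero, zero_add]
    congr 1 <;> ring
  have hcont : ∀ w' : ℂ, w' ∈ Ann τ s → ContinuousOn
      (fun p : ℝ × ℂ => f (A2 p (0, w')) (fun _ => A2 p (0, w'))) KR := by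
    intro w' hw'
    have h1 : ContDiff ℝ ∞ (fun p : ℝ × ℂ => A2 p ((0 : ℂ), w')) :=
      contDiff_A2.clm_apply contDiff_const
    refine (contDiffOn_eval (X := ℝ × ℂ) (S := {p : ℝ × ℂ | A2 p ((0 : ℂ), w') ∈ Om τ s})
      (hf.comp h1.contDiffOn fun r hr => hr)
      (contDiffOn_pi.2 fun _ => h1.contDiffOn)).continuousOn.mono fun p hp =>
        A2_mem hτ hs hp.2 (zero_mem_Om hτ hs hw')
  have hw2 : ex θ * w ∈ Ann τ s := by
    constructor <;> simp only [norm_mul, norm_ex, one_mul]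
    · exact hw.1
    · exact hw.2
  unfold ab0
  rw [fubini_K (hcont _ hw2), fubini_K (hcont _ hw)]
  congr 1
  refine setIntegral_congr_fun isCompact_BB.isClosed.measurableSet fun y _ => ?_
  have hpi : (0 : ℝ) ≤ 2 * Real.pi := by positivity
  simp only [hsh]
  rw [integral_Icc_eq_integral_Ioc, integral_Icc_eq_integral_Ioc,
    ← intervalIntegral.integral_of_le hpi, ← intervalIntegral.integral_of_le hpi]
  rw [intervalIntegral.integral_comp_add_right
    (fun σ : ℝ => f (A2 (σ, y) (0, w)) (fun _ => A2 (σ, y) (0, w))) θ]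
  have := (hper y).intervalIntegral_add_eq θ 0
  rw [zero_add] at this ⊢
  rw [add_comm (2 * Real.pi) θ]
  exact this

include hτ'

lemma fderiv_Rad_I {a : ℂ → ℝ} (ha : ContDiffOn ℝ ∞ a (Ann τ s))
    (hrot : ∀ θ : ℝ, ∀ w ∈ Ann τ s, a (ex θ * w) = a w) {w : ℂ} (hw : w ∈ Ann τ s) :
    fderiv ℝ (Rad a) w (Complex.I * w) = 0 := by
  have hd : DifferentiableAt ℝ (Rad a) (ex 0 * w) := by
    have : ex 0 * w = w := by simp [ex]
    rw [this]
    exact ((contDiffOn_Rad hτ hτ' hs ha).contDiffAt ((isOpen_Ann τ s).mem_nhds hw)).differentiableAt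
      (by simp)
  have h1 : HasDerivAt (fun θ : ℝ => ex θ * w) (Complex.I * ex 0 * w) 0 :=
    (hasDerivAt_ex 0).mul_const w
  have h2 : HasDerivAt (fun θ : ℝ => Rad a (ex θ * w))
      (fderiv ℝ (Rad a) (ex 0 * w) (Complex.I * ex 0 * w)) 0 :=
    HasFDerivAt.comp_hasDerivAt (f := fun θ : ℝ => ex θ * w) (0 : ℝ) hd.hasFDerivAt h1
  have h3 : (fun θ : ℝ => Rad a (ex θ * w)) = fun _ => Rad a w := by
    funext θ
    exact Rad_rot hτ hτ' hs (norm_ex θ) (hrot θ) hw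
  rw [h3] at h2
  have h4 := h2.unique (hasDerivAt_const _ _)
  have e : ex 0 = 1 := by simp [ex]
  rw [e, one_mul, mul_one] at h4
  exact h4

lemma dT_base0 {f : ℂ × ℂ → Form 1} (hf : ContDiffOn ℝ ∞ f (Om τ s)) {x : ℂ × ℂ}
    (hx : x ∈ Om τ s) (J : Idx 1) (I : Idx 0) :
    fderiv ℝ (fun x : ℂ × ℂ => Rad (ab0 f) x.2) x (frame (J 0)) =
      PA f J x - 1 / (2 * Real.pi) * K3 f I x * dth (frame (J 0)).2 x.2 := by
  have hx2 : x.2 ≠ 0 := Ann_ne_zero hτ hx.1
  have hab : ContDiffOn ℝ ∞ (ab0 f) (Ann τ s) :=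
    contDiffOn_ab0 (isOpen_Om τ s) (isOpen_Ann τ s) hf
      fun p hp w hw => A2_mem hτ hs hp.2 (zero_mem_Om hτ hs hw)
  set v := frame (J 0) with hv
  set α := (v.2 / x.2).re with hα
  set β := (v.2 / x.2).im with hβ
  have hdec : v.2 = (α : ℂ) * x.2 + (β : ℂ) * (Complex.I * x.2) := by
    have h1 : v.2 / x.2 = α + β * Complex.I := (Complex.re_add_im _).symm
    have h2 : v.2 = v.2 / x.2 * x.2 := by field_simp
    rw [h2, h1]; ring
  have hd : DifferentiableAt ℝ (Rad (ab0 f)) x.2 :=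
    ((contDiffOn_Rad hτ hτ' hs hab).contDiffAt ((isOpen_Ann τ s).mem_nhds hx.1)).differentiableAt
      (by simp)
  have h1 : HasFDerivAt (fun x : ℂ × ℂ => Rad (ab0 f) x.2)
      ((fderiv ℝ (Rad (ab0 f)) x.2).comp (ContinuousLinearMap.snd ℝ ℂ ℂ)) x :=
    hd.hasFDerivAt.comp x hasFDerivAt_snd
  rw [h1.fderiv, ContinuousLinearMap.comp_apply]
  have e1 : (ContinuousLinearMap.snd ℝ ℂ ℂ) v = α • x.2 + β • (Complex.I * x.2) := by
    rw [Complex.real_smul, Complex.real_smul]; exact hdec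
  rw [e1, map_add, map_smul, map_smul, fderiv_Rad_self hτ hτ' hs hab hx.1,
    fderiv_Rad_I hτ hτ' hs hab (fun θ w hw => ab0_rot hτ hs hf θ hw) hx.1]
  have h2 : ∀ p : ℝ × ℂ, A2 p v = α • A2 p x + β • dA2 p x := by
    intro p
    have : A2 p v = (ex p.1 * p.2 * v.2, ex p.1 * v.2) := by simp [A2, M_apply]
    rw [this, hdec]
    simp only [A2, dA2, M_apply, Prod.smul_mk, Prod.mk_add_mk, Complex.real_smul, zero_mul,
      zero_add]
    congr 1 <;> ring
  have h3 : ∀ p : ℝ × ℂ, pull f (A2 p) J x = α * f (A2 p (0, x.2)) (fun _ => A2 p (0, x.2))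
      + β * kern f (A2 p) ((1 : ℝ) • dA2 p) I x := by
    intro p
    have e2 : (fun j => A2 p (frame (J j))) = fun _ : Fin 1 => α • A2 p x + β • dA2 p x := by
      funext j; rw [Subsingleton.elim j 0, ← hv, h2]
    unfold pull
    rw [e2, form1_add_smul]
    have e3 : (Fin.cons (((1 : ℝ) • dA2 p) x) (fun j => A2 p (frame (I j))) : Fin 1 → ℂ × ℂ)
        = fun _ => dA2 p x := by
      funext j; refine Fin.cases ?_ (fun k => k.elim0) j; simp
    unfold kern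
    rw [e3, ← A2_snd p x]
  have hc1 : ContinuousOn (fun p : ℝ × ℂ => f (A2 p (0, x.2)) (fun _ => A2 p (0, x.2))) KR := by
    have h1 : ContDiff ℝ ∞ (fun p : ℝ × ℂ => A2 p ((0 : ℂ), x.2)) :=
      contDiff_A2.clm_apply contDiff_const
    refine (contDiffOn_eval (X := ℝ × ℂ) (S := {p : ℝ × ℂ | A2 p ((0 : ℂ), x.2) ∈ Om τ s})
      (hf.comp h1.contDiffOn fun r hr => hr)
      (contDiffOn_pi.2 fun _ => h1.contDiffOn)).continuousOn.mono fun p hp =>
        A2_mem hτ hs hp.2 (zero_mem_Om hτ hs hx.1)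
  have hc2 : ContinuousOn (fun p : ℝ × ℂ => kern f (A2 p) ((1 : ℝ) • dA2 p) I x) KR := by
    have h5 := (contDiffOn_kern hf contDiff_A2 (A' := fun p => (1 : ℝ) • dA2 p)
      (by simpa using contDiff_dA2) I).continuousOn
    exact h5.comp (f := fun p : ℝ × ℂ => (p, x)) (by fun_prop)
      (fun p hp => A2_mem hτ hs hp.2 hx)
  have h4 : ∫ p in KR, pull f (A2 p) J x
      = α * (∫ p in KR, f (A2 p (0, x.2)) (fun _ => A2 p (0, x.2))) + β * K3 f I x := by
    simp_rw [h3]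
    rw [integral_add, integral_const_mul, integral_const_mul]
    · rfl
    · exact (hc1.integrableOn_compact isCompact_KR).const_mul α
    · exact (hc2.integrableOn_compact isCompact_KR).const_mul β
  unfold PA
  rw [show (Icc 0 (2 * Real.pi) ×ˢ BB : Set (ℝ × ℂ)) = KR from rfl, h4]
  unfold ab0 dth
  simp only [smul_eq_mul, mul_zero, add_zero]
  ring

end base0

end Pool.Agent.H631R3
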