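import Pool.Agent.H631R3.SolveB

/-! Solving the two-form equation on the base, and connectedness. -/

open scoped ContDiff Topology ENNReal
open MeasureTheory Set Filter

noncomputable section

namespace Pool.Agent.H631R3

/-- the second coordinate directions -/
def v01 : Fin 2 → ℂ × ℂ := ![(0, 1), (0, Complex.I)]

/-- coefficient of the averaged two-form -/
def hb1 (f : ℂ × ℂ → Form 2) (w : ℂ) : ℝ :=
  ∫ y in BB, f (M 0 y 1 (0, w)) (fun j => M 0 y 1 (v01 j))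

/-- source term for the radial integration -/
def ab1 (f : ℂ × ℂ → Form 2) (w : ℂ) : ℝ := ‖w‖ ^ 2 * hb1 f w

lemma frame_of_ge {J : Idx 2} (hJ : ¬ J 0 < 2) : (fun j => frame (J j)) = v01 := by
  have h1 : J 0 < J 1 := J.strictMono (by simp)
  have h2 : J 0 = 2 := by
    have := (J 0).2; have := (J 1).2
    apply Fin.ext
    have e : ((2 : Fin 4) : ℕ) = 2 := rfl
    rw [e]
    have h3 : ((J 0 : Fin 4) : ℕ) < (J 1 : Fin 4) := h1
    have h4 : ¬ ((J 0 : Fin 4) : ℕ) < 2 := hJ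
    omega
  have h3 : J 1 = 3 := by
    have := (J 1).2
    apply Fin.ext
    have e : ((3 : Fin 4) : ℕ) = 3 := rfl
    rw [e]
    have h3 : ((J 0 : Fin 4) : ℕ) < (J 1 : Fin 4) := h1
    rw [h2] at h3
    have e2 : ((2 : Fin 4) : ℕ) = 2 := rfl
    omega
  funext j
  fin_cases j
  · simp only [Fin.zero_eta, h2]; simp [frame, v01]
  · simp only [Fin.mk_one, h3]; simp [frame, v01]

lemma PD_of_ge {f : ℂ × ℂ → Form 2} {J : Idx 2} (hJ : ¬ J 0 < 2) (x : ℂ × ℂ) :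
    PD f J x = hb1 f x.2 := by
  have h := frame_of_ge hJ
  unfold PD hb1
  congr 1
  funext y
  unfold pull
  have e1 : M 0 y 1 x = M 0 y 1 (0, x.2) := by simp [M_apply]
  have e2 : (fun j => M 0 y 1 (frame (J j))) = fun j => M 0 y 1 (v01 j) := by
    funext j; rw [← h]
  rw [e1, e2]

lemma contDiffOn_hb1 {f : ℂ × ℂ → Form 2} {V : Set (ℂ × ℂ)} {U : Set ℂ} (hV : IsOpen V)
    (hU : IsOpen U) (hf : ContDiffOn ℝ ∞ f V) (h : ∀ y ∈ BB, ∀ w ∈ U, M 0 y 1 (0, w) ∈ V) :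
    ContDiffOn ℝ ∞ (hb1 f) U := by
  have hM : ContDiff ℝ ∞ (fun y : ℂ => M 0 y 1) := contDiff_M contDiff_const contDiff_id contDiff_const
  have h1 : ContDiff ℝ ∞ (fun r : ℂ × ℂ => M 0 r.1 1 ((0 : ℂ), r.2)) :=
    (hM.comp contDiff_fst).clm_apply (contDiff_const.prodMk contDiff_snd)
  refine contDiffOn_PI isCompact_BB (W := {r : ℂ × ℂ | M 0 r.1 1 ((0 : ℂ), r.2) ∈ V})
    (hV.preimage h1.continuous) hU (fun r hr => h r.1 hr.1 r.2 hr.2)
    (k := fun r : ℂ × ℂ => f (M 0 r.1 1 (0, r.2)) (fun j => M 0 r.1 1 (v01 j))) ?_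
  exact contDiffOn_eval (hf.comp h1.contDiffOn fun r hr => hr)
    (contDiffOn_pi.2 fun _ => ((hM.comp contDiff_fst).clm_apply contDiff_const).contDiffOn)

lemma contDiffOn_ab1 {f : ℂ × ℂ → Form 2} {V : Set (ℂ × ℂ)} {U : Set ℂ} (hV : IsOpen V)
    (hU : IsOpen U) (hf : ContDiffOn ℝ ∞ f V) (h : ∀ y ∈ BB, ∀ w ∈ U, M 0 y 1 (0, w) ∈ V) :
    ContDiffOn ℝ ∞ (ab1 f) U :=
  (contDiff_norm_sq ℝ).contDiffOn.mul (contDiffOn_hb1 hV hU hf h)

/-- the solution on the base -/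
def U1 (f : ℂ × ℂ → Form 2) (I : Idx 1) (x : ℂ × ℂ) : ℝ :=
  Rad (ab1 f) x.2 * dth (frame (I 0)).2 x.2

lemma fderiv_mul_dth {ρ : ℂ → ℝ} {x : ℂ × ℂ} (hx : x.2 ≠ 0) (hρ : DifferentiableAt ℝ ρ x.2)
    (v : ℂ) (u : ℂ × ℂ) : fderiv ℝ (fun x : ℂ × ℂ => ρ x.2 * dth v x.2) x u
      = fderiv ℝ ρ x.2 u.2 * (v / x.2).im - ρ x.2 * (v * u.2 / x.2 ^ 2).im := by
  obtain ⟨L, hL, hL'⟩ := hasFDerivAt_dth v hx
  have h1 : HasFDerivAt (fun x : ℂ × ℂ => ρ x.2)
      ((fderiv ℝ ρ x.2).comp (ContinuousLinearMap.snd ℝ ℂ ℂ)) x :=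
    hρ.hasFDerivAt.comp x hasFDerivAt_snd
  have h2 : HasFDerivAt (fun x : ℂ × ℂ => dth v x.2)
      (L.comp (ContinuousLinearMap.snd ℝ ℂ ℂ)) x :=
    hL.comp x hasFDerivAt_snd
  have h3 : HasFDerivAt (fun x : ℂ × ℂ => ρ x.2 * dth v x.2) _ x := h1.mul h2
  rw [h3.fderiv]
  simp only [ContinuousLinearMap.add_apply, ContinuousLinearMap.smul_apply,
    ContinuousLinearMap.comp_apply, ContinuousLinearMap.coe_snd', smul_eq_mul, hL', dth]
  ring

lemma face_zero (J : Idx 2) : (face J 0) 0 = J 1 := rfl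
lemma face_one (J : Idx 2) : (face J 1) 0 = J 0 := rfl

section

variable {τ s : ℝ} (hτ : 0 ≤ τ) (hs : 1 / 2 < s)

include hτ hs

lemma M_mem {y : ℂ} (hy : y ∈ BB) {x : ℂ × ℂ} (hx : x ∈ Om τ s) : M 0 y 1 x ∈ Om τ s := by
  have := A2_mem hτ hs (σ := 0) hy hx
  have e2 : A2 (0, y) = M 0 y 1 := by simp [A2, ex]
  rwa [e2] at this

variable (hτ' : τ < 1 / 2)

include hτ'

lemma contDiffOn_Rab1 {f : ℂ × ℂ → Form 2} (hf : ContDiffOn ℝ ∞ f (Om τ s)) :
    ContDiffOn ℝ ∞ (Rad (ab1 f)) (Ann τ s) :=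
  contDiffOn_Rad hτ hτ' hs (contDiffOn_ab1 (isOpen_Om τ s) (isOpen_Ann τ s) hf
    fun _ hy _ hw => M_mem hτ hs hy (zero_mem_Om hτ hs hw))

lemma contDiffOn_U1 {f : ℂ × ℂ → Form 2} (hf : ContDiffOn ℝ ∞ f (Om τ s)) (I : Idx 1) :
    ContDiffOn ℝ ∞ (U1 f I) (Om τ s) := by
  apply ContDiffOn.mul
  · exact (contDiffOn_Rab1 hτ hs hτ' hf).comp contDiff_snd.contDiffOn fun x hx => hx.1
  · exact (contDiffOn_dth _ fun w hw => Ann_ne_zero hτ hw).comp contDiff_snd.contDiffOn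
      fun x (hx : x ∈ Om τ s) => hx.1

lemma dT_U1 {f : ℂ × ℂ → Form 2} (hf : ContDiffOn ℝ ∞ f (Om τ s)) {x : ℂ × ℂ}
    (hx : x ∈ Om τ s) (J : Idx 2) : dT (U1 f) J x = PD f J x := by
  have hx2 : x.2 ≠ 0 := Ann_ne_zero hτ hx.1
  have hab := contDiffOn_ab1 (isOpen_Om τ s) (isOpen_Ann τ s) hf
    fun _ hy _ hw => M_mem hτ hs hy (zero_mem_Om hτ hs hw)
  have hρ : DifferentiableAt ℝ (Rad (ab1 f)) x.2 :=
    ((contDiffOn_Rab1 hτ hs hτ' hf).contDiffAt
      ((isOpen_Ann τ s).mem_nhds hx.1)).differentiableAt (by simp)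
  unfold dT U1
  rw [Fin.sum_univ_two, fderiv_mul_dth hx2 hρ, fderiv_mul_dth hx2 hρ, face_zero, face_one]
  have key := fderiv_Rad_self hτ hτ' hs hab hx.1
  by_cases hJ : J 0 < 2
  · rw [PD_eq_zero f hJ, frame_snd_zero hJ]
    simp
  · rw [PD_of_ge hJ]
    have h := frame_of_ge hJ
    have e0 : frame (J 0) = (0, 1) := by have := congrFun h 0; simpa [v01] using this
    have e1 : frame (J 1) = (0, Complex.I) := by have := congrFun h 1; simpa [v01] using this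
    rw [e0, e1]
    simp only [Fin.val_zero, pow_zero, Fin.val_one, pow_one]
    have hw : x.2 = x.2.re • (1 : ℂ) + x.2.im • Complex.I := by
      rw [Complex.real_smul, Complex.real_smul, mul_one, Complex.re_add_im]
    have key2 : x.2.re * fderiv ℝ (Rad (ab1 f)) x.2 1 + x.2.im * fderiv ℝ (Rad (ab1 f)) x.2 Complex.I
        = ‖x.2‖ ^ 2 * hb1 f x.2 := by
      have : fderiv ℝ (Rad (ab1 f)) x.2 (x.2.re • (1 : ℂ) + x.2.im • Complex.I)
        = ‖x.2‖ ^ 2 * hb1 f x.2 := by rw [← hw, key]; rfl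
      rw [map_add, map_smul, map_smul, smul_eq_mul, smul_eq_mul] at this
      exact this
    have hn : ‖x.2‖ ^ 2 ≠ 0 := by
      have := norm_pos_iff.2 hx2; positivity
    have hn' : Complex.normSq x.2 ≠ 0 := by rwa [Complex.normSq_eq_norm_sq]
    have i1 : (Complex.I / x.2).im = x.2.re / Complex.normSq x.2 := by
      simp [Complex.div_im]
    have i2 : (1 / x.2).im = - x.2.im / Complex.normSq x.2 := by
      simp [Complex.div_im]
    rw [i1, i2, mul_comm (1 : ℂ) Complex.I]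
    rw [← Complex.normSq_eq_norm_sq] at key2
    have : hb1 f x.2 = (x.2.re * fderiv ℝ (Rad (ab1 f)) x.2 1
        + x.2.im * fderiv ℝ (Rad (ab1 f)) x.2 Complex.I) / Complex.normSq x.2 := by
      rw [key2]; field_simp
    rw [this]
    ring

end

lemma isPreconnected_Om {τ s : ℝ} (hτ : 0 ≤ τ) : IsPreconnected (Om τ s) := by
  have h : Om τ s = (fun p : ℂ × ℝ × ℝ => (p.1 * (p.2.1 : ℂ) * ex p.2.2, (p.2.1 : ℂ) * ex p.2.2)) ''
      (Metric.ball (0 : ℂ) s ×ˢ (Ioo τ s ×ˢ univ)) := by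
    ext z
    constructor
    · intro hz
      have hz2 : 0 < ‖z.2‖ := lt_of_le_of_lt hτ hz.1.1
      have hz2' : z.2 ≠ 0 := norm_pos_iff.1 hz2
      refine ⟨(z.1 / z.2, ‖z.2‖, Complex.arg z.2), ⟨?_, ⟨hz.1, mem_univ _⟩⟩, ?_⟩
      · simp only [Metric.mem_ball, dist_zero_right, norm_div]
        rw [div_lt_iff₀ hz2]
        exact hz.2
      · have e : (‖z.2‖ : ℂ) * ex (Complex.arg z.2) = z.2 := Complex.norm_mul_exp_arg_mul_I z.2
        simp only
        rw [mul_assoc, e, div_mul_cancel₀ _ hz2']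
    · rintro ⟨⟨u, r, θ⟩, ⟨hu, hr, _⟩, rfl⟩
      have hr0 : 0 < r := lt_of_le_of_lt hτ hr.1
      have hu' : ‖u‖ < s := by simpa using hu
      refine ⟨⟨?_, ?_⟩, ?_⟩
      · simp only [norm_mul, norm_ex, mul_one, Complex.norm_real, Real.norm_of_nonneg hr0.le]
        exact hr.1
      · simp only [norm_mul, norm_ex, mul_one, Complex.norm_real, Real.norm_of_nonneg hr0.le]
        exact hr.2
      · simp only [norm_mul, norm_ex, mul_one, Complex.norm_real, Real.norm_of_nonneg hr0.le]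
        exact mul_lt_mul_of_pos_right hu' hr0
  rw [h]
  apply IsPreconnected.image
  · exact (convex_ball (0 : ℂ) s).isPreconnected.prod
      (isPreconnected_Ioo.prod isPreconnected_univ)
  · apply Continuous.continuousOn
    have := contDiff_ex.continuous
    fun_prop

end Pool.Agent.H631R3
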