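import Pool.Agent.H631R3.StmtD
import Pool.Agent.H631R3.Sol

/-! Discreteness of the spectrum of the Laplacian of a closed complex with compact solution
operators. -/

open scoped Topology
open Set Filter

noncomputable section

namespace Pool.Agent.H631R3

/-- finiteness of the set of large eigenvalues of a compact operator -/
lemma finite_large {ι H : Type} [NormedAddCommGroup H] [InnerProductSpace ℝ H] [CompleteSpace H]
    {G : H →L[ℝ] H} (hG : IsCompactOperator G) {b : ι → H} (hb : Orthonormal ℝ b) {μ : ι → ℝ}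
    (hGb : ∀ i, G (b i) = μ i • b i) {c : ℝ} (hc : 0 < c) : {i | c ≤ |μ i|}.Finite := by
  by_contra hinf
  have hinf' : {i | c ≤ |μ i|}.Infinite := hinf
  set e := hinf'.natEmbedding with he
  obtain ⟨K, hK, hK'⟩ := hG.image_closedBall_subset_compact 1
  have hx : ∀ k, G (b (e k)) ∈ K := by
    intro k
    apply hK'
    refine ⟨b (e k), ?_, rfl⟩
    simp [hb.1]
  obtain ⟨a, _, φ, hφ, hlim⟩ := hK.tendsto_subseq hx
  have hcau := hlim.cauchySeq
  rw [Metric.cauchySeq_iff'] at hcau
  obtain ⟨N, hN⟩ := hcau c hc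
  have h1 := hN (N + 1) (by omega)
  rw [dist_eq_norm] at h1
  simp only [Function.comp] at h1
  set i : ι := (e (φ (N + 1)) : ι) with hi
  set j : ι := (e (φ N) : ι) with hj
  have hij : i ≠ j := by
    intro h
    have h2 : e (φ (N + 1)) = e (φ N) := Subtype.ext h
    have h3 := e.injective h2
    have h4 : φ N < φ (N + 1) := hφ (Nat.lt_succ_self N)
    omega
  rw [hGb, hGb] at h1
  have h5 : inner ℝ (b i) (μ i • b i - μ j • b j) = μ i := by
    rw [inner_sub_right, inner_smul_right, inner_smul_right, real_inner_self_eq_norm_sq, hb.1,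
      hb.2 hij]
    simp
  have h6 := abs_real_inner_le_norm (b i) (μ i • b i - μ j • b j)
  rw [h5, hb.1, one_mul] at h6
  have h7 : c ≤ |μ i| := (e (φ (N + 1))).2
  linarith

section diag

variable {H : Type} [NormedAddCommGroup H] [InnerProductSpace ℝ H] [CompleteSpace H]

/-- diagonalization with respect to a compact symmetric operator which inverts `L` off the
kernel -/
lemma discrete_of_green {L : H → H → Prop} {G : H →L[ℝ] H} {K : Submodule ℝ H}
    (hGc : IsCompactOperator G) (hGs : ∀ x y, inner ℝ (G x) y = inner ℝ x (G y))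
    (hK : FiniteDimensional ℝ K) (hKG : ∀ k, G k = 0 ↔ k ∈ K)
    (hKL : ∀ k ∈ K, L k 0)
    (hGL : ∀ h, (∀ k ∈ K, inner ℝ h k = 0) → L (G h) h)
    (hadd : ∀ f h f' h', L f h → L f' h' → L (f + f') (h + h'))
    (hsym : ∀ f h f' h', L f h → L f' h' → inner ℝ h f' = inner ℝ f h') :
    HasDiscreteSpectrum L := by
  have hsymm : (G : H →ₗ[ℝ] H).IsSymmetric := fun x y => hGs x y
  have h0 : Module.End.eigenspace (G : H →ₗ[ℝ] H) 0 = K := by
    ext k
    rw [Module.End.mem_eigenspace_iff, zero_smul]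
    exact hKG k
  have hfd : ∀ μ : ℝ, FiniteDimensional ℝ (Module.End.eigenspace (G : H →ₗ[ℝ] H) μ) := by
    intro μ
    rcases eq_or_ne μ 0 with h | h
    · rw [h, h0]; exact hK
    · exact ContinuousLinearMap.finite_dimensional_eigenspace hGc μ h
  set B : ∀ μ : ℝ, OrthonormalBasis (Fin (Module.finrank ℝ (Module.End.eigenspace (G : H →ₗ[ℝ] H) μ)))
    ℝ (Module.End.eigenspace (G : H →ₗ[ℝ] H) μ) := fun μ => stdOrthonormalBasis ℝ _ with hB
  set v : (Σ μ : ℝ, Fin (Module.finrank ℝ (Module.End.eigenspace (G : H →ₗ[ℝ] H) μ))) → H :=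
    fun a => ((B a.1 a.2 : Module.End.eigenspace (G : H →ₗ[ℝ] H) a.1) : H) with hv
  have hvo : Orthonormal ℝ v := by
    have := (hsymm.orthogonalFamily_eigenspaces).orthonormal_sigma_orthonormal
      (v_family := fun μ => (B μ : _ → _)) (fun μ => (B μ).orthonormal)
    exact this
  have hGv : ∀ a, G (v a) = a.1 • v a := fun a =>
    Module.End.mem_eigenspace_iff.1 (B a.1 a.2).2
  have hspan : (Submodule.span ℝ (Set.range v))ᗮ = ⊥ := by
    rw [← ContinuousLinearMap.orthogonalComplement_iSup_eigenspaces_eq_bot hGc hsymm]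
    apply le_antisymm
    · apply Submodule.orthogonal_le
      refine iSup_le fun μ => ?_
      intro x hx
      have h1 := (B μ).sum_repr ⟨x, hx⟩
      have h2 : x = ∑ i, (B μ).repr ⟨x, hx⟩ i • v ⟨μ, i⟩ := by
        have h3 := congrArg (Submodule.subtype _) h1
        rw [map_sum] at h3
        exact h3.symm
      rw [h2]
      refine Submodule.sum_mem _ fun i _ => Submodule.smul_mem _ _ (Submodule.subset_span ⟨_, rfl⟩)
    · apply Submodule.orthogonal_le
      rw [Submodule.span_le]
      rintro _ ⟨a, rfl⟩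
      exact Submodule.mem_iSup_of_mem a.1 (B a.1 a.2).2
  set b := HilbertBasis.mkOfOrthogonalEqBot hvo hspan with hb
  have hbv : ∀ a, b a = v a := fun a => by
    rw [hb, HilbertBasis.coe_mkOfOrthogonalEqBot]
  have hGb : ∀ a, G (b a) = a.1 • b a := fun a => by rw [hbv]; exact hGv a
  have hzero : ∀ x : H, (∀ a, inner ℝ (b a) x = 0) → x = 0 := by
    intro x hx
    have h1 : b.repr x = 0 := by
      ext a
      rw [HilbertBasis.repr_apply_apply, hx a]; rfl
    exact (b.repr.map_eq_zero_iff).1 h1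
  have hbK : ∀ a, a.1 = 0 → b a ∈ K := by
    intro a ha
    rw [← hKG, hGb, ha, zero_smul]
  have hbL : ∀ a, a.1 ≠ 0 → L (a.1 • b a) (b a) := by
    intro a ha
    rw [← hGb]
    apply hGL
    intro k hk
    have h1 : a.1 * inner ℝ (b a) k = 0 := by
      rw [← real_inner_smul_left, ← hGb, hGs, (hKG k).2 hk, inner_zero_right]
    exact (mul_eq_zero.1 h1).resolve_left ha
  refine ⟨_, b, fun a => a.1⁻¹, fun f h => ⟨fun hL a => ?_, fun hL => ?_⟩, fun R => ?_⟩
  · rcases eq_or_ne a.1 0 with ha | ha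
    · have h1 := hsym _ _ _ _ (hKL _ (hbK a ha)) hL
      rw [inner_zero_left] at h1
      beta_reduce
      rw [ha, inv_zero, zero_mul, ← h1]
    · have h1 := hsym _ _ _ _ (hbL a ha) hL
      rw [real_inner_smul_left] at h1
      rw [h1, ← mul_assoc, inv_mul_cancel₀ ha, one_mul]
  · have hh : ∀ k ∈ K, inner ℝ h k = 0 := by
      -- `h` is in the closure of the range, use the decomposition along the basis of `K`
      intro k hk
      have h1 := b.hasSum_inner_mul_inner h k
      have h2 : ∀ a, inner ℝ h (b a) * inner ℝ (b a) k = 0 := by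
        intro a
        rcases eq_or_ne a.1 0 with ha | ha
        · rw [real_inner_comm, hL a]
          beta_reduce
          rw [ha, inv_zero, zero_mul, zero_mul]
        · have h3 : a.1 * inner ℝ (b a) k = 0 := by
            rw [← real_inner_smul_left, ← hGb, hGs, (hKG k).2 hk, inner_zero_right]
          rw [(mul_eq_zero.1 h3).resolve_left ha, mul_zero]
      simp_rw [h2] at h1
      exact h1.unique hasSum_zero
    have h3 : G (f - G h) = 0 := by
      apply hzero
      intro a
      rw [← hGs, hGb, real_inner_smul_left, inner_sub_right, ← hGs, hGb, real_inner_smul_left, hL a]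
      rcases eq_or_ne a.1 0 with ha | ha
      · rw [ha, zero_mul]
      · rw [← mul_assoc a.1 a.1⁻¹, mul_inv_cancel₀ ha, one_mul, sub_self, mul_zero]
    have h4 := hadd _ _ _ _ (hGL h hh) (hKL _ ((hKG _).1 h3))
    rwa [add_sub_cancel, add_zero] at h4
  · have h1 : {i : Σ μ : ℝ, Fin (Module.finrank ℝ (Module.End.eigenspace (G : H →ₗ[ℝ] H) μ)) |
        |i.1⁻¹| ≤ R} ⊆ {i | i.1 = 0} ∪ {i | (|R| + 1)⁻¹ ≤ |i.1|} := by
      intro i hi
      rcases eq_or_ne i.1 0 with h | h
      · exact Or.inl h
      · right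
        have h2 : |i.1⁻¹| ≤ R := hi
        rw [abs_inv] at h2
        have h3 : 0 < |i.1| := abs_pos.2 h
        change (|R| + 1)⁻¹ ≤ |i.1|
        rw [inv_le_comm₀ (by positivity) h3]
        linarith [le_abs_self R]
    refine Set.Finite.subset (Set.Finite.union ?_ ?_) h1
    · have h2 : {i : Σ μ : ℝ, Fin (Module.finrank ℝ (Module.End.eigenspace (G : H →ₗ[ℝ] H) μ)) |
        i.1 = 0} ⊆ Set.range (fun j : Fin (Module.finrank ℝ (Module.End.eigenspace (G : H →ₗ[ℝ] H) 0))
          => (⟨0, j⟩ : Σ μ : ℝ, Fin (Module.finrank ℝ (Module.End.eigenspace (G : H →ₗ[ℝ] H) μ)))) := by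
        rintro ⟨μ, j⟩ hμ
        have : μ = 0 := hμ
        subst this
        exact ⟨j, rfl⟩
      exact (Set.finite_range _).subset h2
    · exact finite_large hGc b.orthonormal hGb (by positivity)

end diag

section complex

variable {H0 H1 H2 : Type} [NormedAddCommGroup H0] [InnerProductSpace ℝ H0] [CompleteSpace H0]
  [NormedAddCommGroup H1] [InnerProductSpace ℝ H1] [CompleteSpace H1]
  [NormedAddCommGroup H2] [InnerProductSpace ℝ H2] [CompleteSpace H2]

variable {D0 : Submodule ℝ (H0 × H1)} {D1 : Submodule ℝ (H1 × H2)}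

omit [CompleteSpace H0] [CompleteSpace H1] [CompleteSpace H2] in
lemma lapR_add {f h f' h' : H1}
    (h1 : LapR (fun a b => (a, b) ∈ D0) (fun a b => (a, b) ∈ D1) f h)
    (h2 : LapR (fun a b => (a, b) ∈ D0) (fun a b => (a, b) ∈ D1) f' h') :
    LapR (fun a b => (a, b) ∈ D0) (fun a b => (a, b) ∈ D1) (f + f') (h + h') := by
  obtain ⟨a, b, u, v, i1, i2, i3, i4, i5⟩ := h1
  obtain ⟨a', b', u', v', j1, j2, j3, j4, j5⟩ := h2
  refine ⟨a + a', b + b', u + u', v + v', fun x y hxy => ?_, D0.add_mem i2 j2, D1.add_mem i3 j3,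
    fun x y hxy => ?_, by rw [i5, j5]; abel⟩
  · rw [inner_add_left, inner_add_left, i1 x y hxy, j1 x y hxy]
  · rw [inner_add_left, inner_add_left, i4 x y hxy, j4 x y hxy]

omit [CompleteSpace H0] [CompleteSpace H1] [CompleteSpace H2] in
lemma lapR_symm {f h f' h' : H1}
    (h1 : LapR (fun a b => (a, b) ∈ D0) (fun a b => (a, b) ∈ D1) f h)
    (h2 : LapR (fun a b => (a, b) ∈ D0) (fun a b => (a, b) ∈ D1) f' h') :
    inner ℝ h f' = inner ℝ f h' := by
  obtain ⟨a, b, u, v, i1, i2, i3, i4, i5⟩ := h1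
  obtain ⟨a', b', u', v', j1, j2, j3, j4, j5⟩ := h2
  have e1 : inner ℝ f' b = inner ℝ a' a := j1 a b i2
  have e2 : inner ℝ f b' = inner ℝ a a' := i1 a' b' j2
  have e3 : inner ℝ u u' = inner ℝ v f' := i4 f' u' j3
  have e4 : inner ℝ u' u = inner ℝ v' f := j4 f u i3
  rw [i5, j5, inner_add_left, inner_add_right, real_inner_comm, e1, e2, ← e3, real_inner_comm v' f,
    ← e4, real_inner_comm a a', real_inner_comm u u']

/-- the harmonic space -/
def harm (D0 : Submodule ℝ (H0 × H1)) (D1 : Submodule ℝ (H1 × H2)) : Submodule ℝ H1 :=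
  D1.comap (LinearMap.inl ℝ H1 H2) ⊓ (rng D0)ᗮ

lemma mem_harm {k : H1} : k ∈ harm D0 D1 ↔
    LapR (fun a b => (a, b) ∈ D0) (fun a b => (a, b) ∈ D1) k 0 := by
  rw [lap_ker]
  unfold harm
  rw [Submodule.mem_inf, Submodule.mem_orthogonal']
  constructor
  · rintro ⟨h1, h2⟩
    exact ⟨h1, fun a b hab => h2 b (mem_rng.2 ⟨a, hab⟩)⟩
  · rintro ⟨h1, h2⟩
    refine ⟨h1, fun b hb => ?_⟩
    obtain ⟨a, hab⟩ := mem_rng.1 hb
    exact h2 a b hab

/-- the spectrum of the Laplacian is discrete when the solution operators are compact -/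
theorem discrete_of_compact (hD1 : IsClosed (D1 : Set (H1 × H2)))
    (hR0 : IsClosed {v : H1 | ∃ u, (u, v) ∈ D0}) (hR1 : IsClosed {v : H2 | ∃ u, (u, v) ∈ D1})
    (hcomp : ∀ u v, (u, v) ∈ D0 → (v, (0 : H2)) ∈ D1)
    {T0 : H1 →L[ℝ] H0} {T1 : H2 →L[ℝ] H1} (hT0 : IsSol D0 T0) (hT1 : IsSol D1 T1)
    (hT0c : IsCompactOperator T0) (hT1c : IsCompactOperator T1)
    (hfin : FiniteDimensional ℝ (harm D0 D1))
    (hsv : ∀ v, ((0 : H0), v) ∈ D0 → v = 0)
    (hdd : ∀ x : H1, (∀ f u, (f, u) ∈ D1 → inner ℝ x f = 0) → x = 0) :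
    HasDiscreteSpectrum (LapR (fun a b => (a, b) ∈ D0) (fun a b => (a, b) ∈ D1)) := by
  have : CompleteSpace (rng D0) := (isClosed_rng hR0).completeSpace_coe
  have : CompleteSpace (rng D1) := (isClosed_rng hR1).completeSpace_coe
  set Z1 : Submodule ℝ H1 := D1.comap (LinearMap.inl ℝ H1 H2) with hZ1
  have hZ1mem : ∀ x, x ∈ Z1 ↔ (x, (0 : H2)) ∈ D1 := fun x => Iff.rfl
  have hZ1c : IsClosed (Z1 : Set H1) := by
    have : (Z1 : Set H1) = (fun x : H1 => (x, (0 : H2))) ⁻¹' (D1 : Set (H1 × H2)) := rfl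
    rw [this]
    exact hD1.preimage (by fun_prop)
  have : CompleteSpace Z1 := hZ1c.completeSpace_coe
  have hRZ : ∀ x, x ∈ rng D0 → x ∈ Z1 := by
    intro x hx
    obtain ⟨u, hu⟩ := mem_rng.1 hx
    exact hcomp u x hu
  -- basic facts
  have hT0r : ∀ h, (T0 h, (rng D0).starProjection h) ∈ D0 := by
    intro h
    have h1 : T0 (h - (rng D0).starProjection h) = 0 := hT0.zero _ fun u g hug =>
      Submodule.starProjection_inner_eq_zero h g (mem_rng.2 ⟨u, hug⟩)
    rw [map_sub, sub_eq_zero] at h1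
    rw [h1]
    obtain ⟨u, hu⟩ := mem_rng.1 (Submodule.starProjection_apply_mem (rng D0) h)
    exact hT0.mem u _ hu
  have hT0z : ∀ x, (∀ r ∈ rng D0, inner ℝ x r = 0) → T0 x = 0 := fun x hx =>
    hT0.zero _ fun u g hug => hx g (mem_rng.2 ⟨u, hug⟩)
  have hT1z : ∀ x, (∀ r ∈ rng D1, inner ℝ x r = 0) → T1 x = 0 := fun x hx =>
    hT1.zero _ fun u g hug => hx g (mem_rng.2 ⟨u, hug⟩)
  have mem0 : ∀ y, (∀ x, (∀ r ∈ rng D0, inner ℝ x r = 0) → inner ℝ y x = 0) → y ∈ rng D0 := by
    intro y hy
    rw [← Submodule.orthogonal_orthogonal (rng D0), Submodule.mem_orthogonal']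
    intro x hx
    exact hy x ((Submodule.mem_orthogonal' _ _).1 hx)
  have mem1 : ∀ y, (∀ x, (∀ r ∈ rng D1, inner ℝ x r = 0) → inner ℝ y x = 0) → y ∈ rng D1 := by
    intro y hy
    rw [← Submodule.orthogonal_orthogonal (rng D1), Submodule.mem_orthogonal']
    intro x hx
    exact hy x ((Submodule.mem_orthogonal' _ _).1 hx)
  have adj0 : ∀ (x : H0) (y : H1), inner ℝ (T0.adjoint x) y = inner ℝ x (T0 y) := fun x y =>
    ContinuousLinearMap.adjoint_inner_left T0 y x
  have adj1 : ∀ (x : H1) (y : H2), inner ℝ (T1.adjoint x) y = inner ℝ x (T1 y) := fun x y =>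
    ContinuousLinearMap.adjoint_inner_left T1 y x
  have hT1r : ∀ h, (T1 (T1.adjoint h), T1.adjoint h) ∈ D1 := by
    intro h
    have h1 : T1.adjoint h ∈ rng D1 := by
      apply mem1
      intro x hx
      rw [adj1, hT1z x hx, inner_zero_right]
    obtain ⟨u, hu⟩ := mem_rng.1 h1
    exact hT1.mem u _ hu
  set G : H1 →L[ℝ] H1 := T0.adjoint ∘L T0 + T1 ∘L T1.adjoint with hG
  have hGap : ∀ x, G x = T0.adjoint (T0 x) + T1 (T1.adjoint x) := fun x => rfl
  have hlap : ∀ h, LapR (fun a b => (a, b) ∈ D0) (fun a b => (a, b) ∈ D1) (G h)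
      ((rng D0).starProjection h + (h - Z1.starProjection h)) := by
    intro h
    refine ⟨T0 h, (rng D0).starProjection h, T1.adjoint h, h - Z1.starProjection h, ?_, hT0r h, ?_,
      ?_, rfl⟩
    · intro u v huv
      have h1 : (T0 v, v) ∈ D0 := hT0.mem u v huv
      have h2 : (u - T0 v, (0 : H1)) ∈ D0 := by
        have := D0.sub_mem huv h1
        rwa [Prod.mk_sub_mk, sub_self] at this
      have h3 := hT0.perp h _ h2
      rw [inner_sub_right, sub_eq_zero] at h3
      rw [hGap, inner_add_left, adj0, ← h3, hT1.perp _ v (hcomp u v huv), add_zero]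
    · have h1 : T0.adjoint (T0 h) ∈ rng D0 := by
        apply mem0
        intro x hx
        rw [adj0, hT0z x hx, inner_zero_right]
      have h2 := D1.add_mem (hRZ _ h1) (hT1r h)
      have h3 : (T0.adjoint (T0 h), (0 : H2)) + (T1 (T1.adjoint h), T1.adjoint h)
          = (G h, T1.adjoint h) := by
        rw [Prod.mk_add_mk, zero_add, hGap]
      change (G h, T1.adjoint h) ∈ D1
      rw [← h3]
      exact h2
    · intro x y hxy
      have h1 : (T1 y, y) ∈ D1 := hT1.mem x y hxy
      have h2 : x - T1 y ∈ Z1 := by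
        have := D1.sub_mem hxy h1
        rwa [Prod.mk_sub_mk, sub_self] at this
      have h3 : inner ℝ (h - Z1.starProjection h) (x - T1 y) = 0 :=
        Submodule.starProjection_inner_eq_zero h _ h2
      have h4 : inner ℝ (T1 y) (Z1.starProjection h) = 0 :=
        hT1.perp y _ (Submodule.starProjection_apply_mem Z1 h)
      rw [inner_sub_right, sub_eq_zero] at h3
      rw [h3, adj1, inner_sub_left, real_inner_comm (T1 y) (Z1.starProjection h), h4, sub_zero]
  refine discrete_of_green (G := G) (K := harm D0 D1) ?_ ?_ hfin ?_ (fun k hk => mem_harm.1 hk) ?_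
    (fun f h f' h' => lapR_add) (fun f h f' h' => lapR_symm)
  · exact (hT0c.clm_comp T0.adjoint).add (hT1c.comp_clm T1.adjoint)
  · intro x y
    rw [hGap, hGap, inner_add_left, inner_add_right, adj0]
    have h1 : inner ℝ x (T0.adjoint (T0 y)) = inner ℝ (T0 x) (T0 y) :=
      ContinuousLinearMap.adjoint_inner_right T0 x (T0 y)
    have h2 : inner ℝ (T1 (T1.adjoint x)) y = inner ℝ (T1.adjoint x) (T1.adjoint y) :=
      (ContinuousLinearMap.adjoint_inner_right T1 (T1.adjoint x) y).symm
    rw [h1, h2, adj1]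
  · intro k
    constructor
    · intro hk
      have h1 : inner ℝ (G k) k = 0 := by rw [hk, inner_zero_left]
      have h2 : inner ℝ (T1 (T1.adjoint k)) k = inner ℝ (T1.adjoint k) (T1.adjoint k) :=
        (ContinuousLinearMap.adjoint_inner_right T1 (T1.adjoint k) k).symm
      rw [hGap, inner_add_left, adj0, h2] at h1
      have ha : 0 ≤ inner ℝ (T0 k) (T0 k) := real_inner_self_nonneg
      have hb : 0 ≤ inner ℝ (T1.adjoint k) (T1.adjoint k) := real_inner_self_nonneg
      have ha0 : T0 k = 0 := inner_self_eq_zero.1 (le_antisymm (by linarith) ha)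
      have hb0 : T1.adjoint k = 0 := inner_self_eq_zero.1 (le_antisymm (by linarith) hb)
      obtain ⟨a, b, u, v, i1, i2, i3, i4, i5⟩ := hlap k
      have e1 : (rng D0).starProjection k = 0 := by
        apply hsv
        rw [← ha0]
        exact hT0r k
      have e2 : k - Z1.starProjection k = 0 := by
        apply hdd
        intro f u hfu
        have j1 : (T1 u, u) ∈ D1 := hT1.mem f u hfu
        have j2 : f - T1 u ∈ Z1 := by
          have := D1.sub_mem hfu j1
          rwa [Prod.mk_sub_mk, sub_self] at this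
        have j3 : inner ℝ (k - Z1.starProjection k) (f - T1 u) = 0 :=
          Submodule.starProjection_inner_eq_zero k _ j2
        have j4 : inner ℝ (T1 u) (Z1.starProjection k) = 0 :=
          hT1.perp u _ (Submodule.starProjection_apply_mem Z1 k)
        rw [inner_sub_right, sub_eq_zero] at j3
        rw [j3, inner_sub_left, ← adj1, hb0, inner_zero_left, real_inner_comm, j4, sub_zero]
      refine Submodule.mem_inf.2 ⟨?_, ?_⟩
      · rw [sub_eq_zero] at e2
        rw [e2]
        exact Submodule.starProjection_apply_mem Z1 k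
      · rw [Submodule.mem_orthogonal']
        intro r hr
        have j1 := Submodule.starProjection_inner_eq_zero (K := rng D0) k r hr
        rwa [e1, sub_zero] at j1
    · intro hk
      obtain ⟨k1, k2⟩ := Submodule.mem_inf.1 hk
      rw [Submodule.mem_orthogonal'] at k2
      have e1 : T0 k = 0 := hT0z k k2
      have e2 : T1.adjoint k = 0 := by
        have : inner ℝ (T1.adjoint k) (T1.adjoint k) = 0 := by
          rw [adj1, real_inner_comm]
          exact hT1.perp _ k k1
        exact inner_self_eq_zero.1 this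
      rw [hGap, e1, e2, map_zero, map_zero, add_zero]
  · intro h hh
    have h1 := hlap h
    have h2 : Z1.starProjection h - (rng D0).starProjection h ∈ harm D0 D1 := by
      refine Submodule.mem_inf.2 ⟨?_, ?_⟩
      · exact Z1.sub_mem (Submodule.starProjection_apply_mem Z1 h)
          (hRZ _ (Submodule.starProjection_apply_mem _ h))
      · rw [Submodule.mem_orthogonal']
        intro r hr
        have j1 := Submodule.starProjection_inner_eq_zero (K := rng D0) h r hr
        have j2 := Submodule.starProjection_inner_eq_zero (K := Z1) h r (hRZ r hr)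
        rw [inner_sub_left] at j1 j2 ⊢
        linarith
    have h3 := hh _ h2
    have h4 : Z1.starProjection h - (rng D0).starProjection h = 0 := by
      set k := Z1.starProjection h - (rng D0).starProjection h with hk
      have j1 : inner ℝ (h - Z1.starProjection h) k = 0 :=
        Submodule.starProjection_inner_eq_zero h k (Submodule.mem_inf.1 h2).1
      have j2 : inner ℝ k ((rng D0).starProjection h) = 0 :=
        (Submodule.mem_orthogonal' _ _).1 (Submodule.mem_inf.1 h2).2 _
          (Submodule.starProjection_apply_mem _ h)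
      have j3 : inner ℝ k k = 0 := by
        nth_rw 1 [hk]
        rw [inner_sub_left, real_inner_comm k ((rng D0).starProjection h), j2]
        rw [inner_sub_left] at j1
        linarith
      exact inner_self_eq_zero.1 j3
    have h5 : (rng D0).starProjection h + (h - Z1.starProjection h) = h := by
      rw [sub_eq_zero] at h4
      rw [h4]; abel
    rwa [h5] at h1

end complex

end Pool.Agent.H631R3
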