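import Pool.Agent.H631R3.Spec
import Pool.Agent.H631R3.Str7

/-! Discreteness of the spectrum for good complexes with compact solution operators. -/

open scoped ContDiff Topology ENNReal NNReal
open MeasureTheory Set Filter

noncomputable section

namespace Pool.Agent.H631R3

/-- test tuples are dense -/
lemma zero_of_tests {q : ℕ} {f : L2 q} (h : ∀ ψ : TM q, inner ℝ f (TL q ψ) = 0) : f = 0 := by
  classical
  have hJ : ∀ J : Idx q, ∀ᵐ z ∂μT, f z J = 0 := by
    intro J
    have hz := isOpen_Hartogs.ae_eq_zero_of_integral_contDiff_smul_eq_zero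
      (f := ext0 f J) (μ := volume) ((integrable_ext0 f J).locallyIntegrable.locallyIntegrableOn _)
      (by
        intro g hg hgc hgs
        set ψ : TM q := ⟨fun J' => if J' = J then g else fun _ => 0, fun J' => by
          by_cases hJJ : J' = J
          · simp only [hJJ, if_true]; exact ⟨hg, hgc, hgs⟩
          · simp only [hJJ, if_false]; exact IsTest.zero⟩ with hψ
        have h1 := h ψ
        rw [inner_TL, Finset.sum_eq_single J] at h1
        · have h2 : ∫ x, g x • ext0 f J x = ∫ z in Hartogs, f z J * ψ.1 J z := by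
            rw [← integral_indicator measurableSet_Hartogs]
            congr 1
            funext t
            unfold ext0
            have : ψ.1 J t = g t := by simp [hψ]
            by_cases ht : t ∈ Hartogs
            · rw [indicator_of_mem ht, indicator_of_mem ht, this, smul_eq_mul, mul_comm]
            · rw [indicator_of_notMem ht, indicator_of_notMem ht, smul_zero]
          rw [h2, h1]
        · intro J' _ hJ'
          have : ψ.1 J' = fun _ => 0 := by simp [hψ, hJ']
          rw [this]; simp
        · intro hJ; exact absurd (Finset.mem_univ J) hJ)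
    rw [ae_restrict_iff' measurableSet_Hartogs]
    filter_upwards [hz] with z hz' hzT
    have := hz' hzT
    unfold ext0 at this
    rwa [indicator_of_mem hzT] at this
  apply Lp.ext
  have hall : ∀ᵐ z ∂μT, ∀ J, f z J = 0 := ae_all_iff.2 hJ
  filter_upwards [hall, Lp.coeFn_zero (Coef q) 2 μT] with z h1 h2
  rw [h2]
  ext J
  exact h1 J

lemma GS_dense (q : ℕ) (x : L2 q) (h : ∀ f u, (f, u) ∈ GS q → inner ℝ x f = 0) : x = 0 := by
  apply zero_of_tests
  intro ψ
  set w : SM q := ⟨ψ.1, fun J => (ψ.2 J).1⟩ with hw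
  exact h (TL q ψ) (SL (q + 1) (dM q w)) (mem_GS w)

lemma GW_dense (q : ℕ) (x : L2 q) (h : ∀ f u, (f, u) ∈ GW q → inner ℝ x f = 0) : x = 0 :=
  GS_dense q x fun f u hfu => h f u (GS_sub q f u hfu)

/-- the constant function one -/
def oneL : L2 0 := SL 0 ⟨fun _ _ => 1, fun _ => contDiff_const⟩

lemma eq_smul_one {h : L2 0} {c : ℝ} (hc : ∀ᵐ z ∂μT, h z idx0 = c) : h = c • oneL := by
  apply Lp.ext
  filter_upwards [hc, Lp.coeFn_smul c oneL,
    mk_coe (SM_LL (⟨fun _ _ => 1, fun _ => contDiff_const⟩ : SM 0))] with z h1 h2 h3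
  rw [h2, Pi.smul_apply]
  have h4 : oneL z = tup (fun (_ : Idx 0) (_ : ℂ × ℂ) => (1 : ℝ)) z := h3
  rw [h4]
  ext J
  rw [idx0_unique J, h1]
  change c = c * 1
  rw [mul_one]

section good

variable {G : ∀ q, Submodule ℝ (L2 q × L2 (q + 1))} (hG : GoodComplex G)

include hG

lemma GoodComplex.single (q : ℕ) (v : L2 (q + 1)) (h : ((0 : L2 q), v) ∈ G q) : v = 0 := by
  apply zero_of_tests
  intro ψ
  rw [(weakD_iff _ _).1 (hG.sub q _ _ h) ψ, inner_zero_left]

theorem GoodComplex.discrete (hd : ∀ q x, (∀ f u, (f, u) ∈ G q → inner ℝ x f = 0) → x = 0)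
    (hc : ∀ n (S : L2 (n + 1) →L[ℝ] L2 n), IsSol (G n) S → IsCompactOperator S) (q : ℕ) :
    HasDiscreteSpectrum (Laplacian (fun q f g => (f, g) ∈ G q) q) := by
  rcases q with _ | q
  · have e : Laplacian (fun q f g => (f, g) ∈ G q) 0
        = LapR (fun a b => (a, b) ∈ ((⊤ : Submodule ℝ (L2 0)).prod (⊥ : Submodule ℝ (L2 0))))
      (fun a b => (a, b) ∈ G 0) := by
      funext f h
      exact propext (lap_zero_iff f h)
    obtain ⟨S, hS⟩ := exists_sol (hG.closed 0) (hG.range_closed 0)
    have hS0 : IsSol ((⊤ : Submodule ℝ (L2 0)).prod (⊥ : Submodule ℝ (L2 0)))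
        (0 : L2 0 →L[ℝ] L2 0) := by
      refine ⟨?_, ?_, ?_⟩
      · rintro u v huv
        have : v = 0 := huv.2
        rw [this]
        exact ((⊤ : Submodule ℝ (L2 0)).prod (⊥ : Submodule ℝ (L2 0))).zero_mem
      · intro v a _
        exact inner_zero_left _
      · intro v _
        rfl
    rw [e]
    refine discrete_of_compact (hG.closed 0) ?_ (hG.range_closed 0) ?_ hS0 hS
      isCompactOperator_zero (hc 0 S hS) ?_ ?_ (hd 0)
    · have : {v : L2 0 | ∃ u, (u, v) ∈ (⊤ : Submodule ℝ (L2 0)).prod (⊥ : Submodule ℝ (L2 0))}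
        = {0} := by
        ext v
        simp [Submodule.mem_prod]
      rw [this]
      exact isClosed_singleton
    · intro u v huv
      have : v = 0 := huv.2
      rw [this]
      exact (G 0).zero_mem
    · refine Submodule.finiteDimensional_of_le (S₂ := Submodule.span ℝ {oneL}) ?_
      intro k hk
      rw [mem_harm, ← e, hG.ker_zero_iff] at hk
      obtain ⟨c, hc⟩ := hk
      rw [eq_smul_one hc]
      exact Submodule.smul_mem _ _ (Submodule.mem_span_singleton_self _)
    · intro v hv
      exact hv.2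
  · have e : Laplacian (fun q f g => (f, g) ∈ G q) (q + 1)
        = LapR (fun a b => (a, b) ∈ G q) (fun a b => (a, b) ∈ G (q + 1)) := rfl
    obtain ⟨S0, hS0⟩ := exists_sol (hG.closed q) (hG.range_closed q)
    obtain ⟨S1, hS1⟩ := exists_sol (hG.closed (q + 1)) (hG.range_closed (q + 1))
    rw [e]
    refine discrete_of_compact (hG.closed (q + 1)) (hG.range_closed q) (hG.range_closed (q + 1))
      (hG.comp q) hS0 hS1 (hc q S0 hS0) (hc (q + 1) S1 hS1) ?_ (hG.single q) (hd (q + 1))
    rcases q with _ | q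
    · refine Submodule.finiteDimensional_of_le (S₂ := Submodule.span ℝ {Theta}) ?_
      intro k hk
      rw [mem_harm, ← e] at hk
      obtain ⟨c, rfl⟩ := (hG.ker_one_iff k).1 hk
      exact Submodule.smul_mem _ _ (Submodule.mem_span_singleton_self _)
    · refine Submodule.finiteDimensional_of_le (S₂ := (⊥ : Submodule ℝ (L2 (q + 2)))) ?_
      intro k hk
      rw [mem_harm, ← e] at hk
      rw [(hG.ker_high_iff q k).1 hk]
      exact Submodule.zero_mem _

end good

end Pool.Agent.H631R3
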