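import Pool.Agent.H631R3.Forms

/-! The infinitesimal homotopy formula for linear families of maps. -/

open scoped ContDiff Topology
open MeasureTheory Set Filter

noncomputable section

namespace Pool.Agent.H631R3

/-- contraction of `A^* f` with the velocity `A' x`, evaluated on a frame -/
def kern {n : ℕ} (f : ℂ × ℂ → Form (n + 1)) (A A' : (ℂ × ℂ) →L[ℝ] (ℂ × ℂ)) (I : Idx n)
    (x : ℂ × ℂ) : ℝ :=
  f (A x) (Fin.cons (A' x) (fun j => A (frame (I j))))

lemma removeNth_succ_cons' {α : Type*} {n : ℕ} (a : α) (w : Fin (n + 1) → α) (i : Fin (n + 1)) :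
    (Fin.removeNth i.succ (Fin.cons a w : Fin (n + 2) → α) : Fin (n + 1) → α)
      = Fin.cons a (Fin.removeNth i w) := by
  funext j
  refine Fin.cases ?_ (fun j => ?_) j
  · simp [Fin.removeNth]
  · simp [Fin.removeNth, Fin.succ_succAbove_succ]

lemma star {n : ℕ} {f : ℂ × ℂ → Form (n + 1)} {A A' : (ℂ × ℂ) →L[ℝ] (ℂ × ℂ)} {x : ℂ × ℂ}
    (hf : DifferentiableAt ℝ f (A x)) (J : Idx (n + 1)) :
    ∑ i : Fin (n + 1), (-1 : ℝ) ^ (i : ℕ) *
        fderiv ℝ (fun y => kern f A A' (face J i) y) x (frame (J i))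
      = fderiv ℝ f (A x) (A' x) (fun j => A (frame (J j)))
        + ∑ i : Fin (n + 1),
          f (A x) (Function.update (fun j => A (frame (J j))) i (A' (frame (J i))))
        - kern (extDeriv f) A A' J x := by
  set w : Fin (n + 1) → ℂ × ℂ := fun j => A (frame (J j)) with hw
  have hface : ∀ i : Fin (n + 1), (fun j => A (frame (face J i j))) = Fin.removeNth i w := by
    intro i; funext j; rfl
  have h1 : ∀ i : Fin (n + 1),
      fderiv ℝ (fun y => kern f A A' (face J i) y) x (frame (J i))
        = fderiv ℝ f (A x) (A (frame (J i))) (Fin.cons (A' x) (Fin.removeNth i w))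
          + f (A x) (Fin.cons (A' (frame (J i))) (Fin.removeNth i w)) := by
    intro i
    have e1 : (fun y => kern f A A' (face J i) y)
        = fun y => (fun y => f (A y)) y (fun j => (Fin.cons (fun y => A' y)
            (fun j (_ : ℂ × ℂ) => Fin.removeNth i w j) : Fin (n + 1) → (ℂ × ℂ) → (ℂ × ℂ)) j y) := by
      funext y
      simp only [kern, hface]
      congr 1
      funext j
      refine Fin.cases ?_ (fun j => ?_) j
      · simp
      · simp
    have hfA : HasFDerivAt (fun y => f (A y)) ((fderiv ℝ f (A x)).comp A) x :=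
      hf.hasFDerivAt.comp x A.hasFDerivAt
    have hg : ∀ j, DifferentiableAt ℝ ((Fin.cons (fun y => A' y)
            (fun j (_ : ℂ × ℂ) => Fin.removeNth i w j) : Fin (n + 1) → (ℂ × ℂ) → (ℂ × ℂ)) j) x := by
      intro j
      refine Fin.cases ?_ (fun j => ?_) j
      · simp only [Fin.cons_zero]; exact A'.differentiableAt
      · simp only [Fin.cons_succ]; exact differentiableAt_const _
    rw [e1, fderiv_continuousAlternatingMap_apply_apply hfA.differentiableAt hg]
    have e2 : (fun j => (Fin.cons (fun y => A' y)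
            (fun j (_ : ℂ × ℂ) => Fin.removeNth i w j) : Fin (n + 1) → (ℂ × ℂ) → (ℂ × ℂ)) j x)
        = (Fin.cons (A' x) (Fin.removeNth i w) : Fin (n + 1) → ℂ × ℂ) := by
      funext j
      refine Fin.cases ?_ (fun j => ?_) j
      · simp
      · simp
    rw [e2, hfA.fderiv]
    congr 1
    rw [Fin.sum_univ_succ]
    have e3 : ∀ j : Fin n, f (A x) (Function.update (Fin.cons (A' x) (Fin.removeNth i w)) j.succ
        (fderiv ℝ ((Fin.cons (fun y => A' y)
            (fun j (_ : ℂ × ℂ) => Fin.removeNth i w j) : Fin (n + 1) → (ℂ × ℂ) → (ℂ × ℂ)) j.succ) x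
              (frame (J i)))) = 0 := by
      intro j
      apply (f (A x)).map_coord_zero j.succ
      simp only [Function.update_self, Fin.cons_succ]
      simp
    rw [Finset.sum_eq_zero (fun j _ => e3 j), add_zero]
    congr 1
    simp only [Fin.cons_zero]
    have : fderiv ℝ (fun y => A' y) x = A' := A'.fderiv
    rw [this, Fin.update_cons_zero]
  simp_rw [h1, mul_add, Finset.sum_add_distrib]
  rw [add_sub_right_comm]
  congr 1
  · have h2 : extDeriv f (A x) (Fin.cons (A' x) w) = kern (extDeriv f) A A' J x := rfl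
    rw [extDeriv, ContinuousAlternatingMap.alternatizeUncurryFin_apply, Fin.sum_univ_succ] at h2
    simp only [Fin.val_zero, pow_zero, one_smul, Fin.cons_zero, Fin.removeNth_zero, Fin.tail_cons,
      Fin.val_succ, Fin.cons_succ, removeNth_succ_cons', smul_eq_mul] at h2
    have h3 : ∑ i : Fin (n + 1), (-1 : ℝ) ^ (i : ℕ) *
        (fderiv ℝ f (A x) (A (frame (J i))) (Fin.cons (A' x) (Fin.removeNth i w)))
        = - ∑ i : Fin (n + 1), (-1 : ℤ) ^ ((i : ℕ) + 1) •
        (fderiv ℝ f (A x) (w i) (Fin.cons (A' x) (Fin.removeNth i w))) := by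
      rw [← Finset.sum_neg_distrib]
      refine Finset.sum_congr rfl fun i _ => ?_
      rw [pow_succ]
      simp [hw]
    rw [h3]
    linarith [h2]
  · refine Finset.sum_congr rfl fun i _ => ?_
    have h4 := (f (A x)).neg_one_pow_smul_map_insertNth i (A' (frame (J i))) (Fin.removeNth i w)
    rw [Fin.insertNth_removeNth] at h4
    have h5 : (Matrix.vecCons (A' (frame (J i))) (Fin.removeNth i w) : Fin (n + 1) → ℂ × ℂ)
      = Fin.cons (A' (frame (J i))) (Fin.removeNth i w) := rfl
    rw [h5] at h4
    rw [← h4]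
    rcases Nat.even_or_odd (i : ℕ) with h | h
    · simp [h.neg_one_pow]
    · simp [h.neg_one_pow]

end Pool.Agent.H631R3
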