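import Pool.Agent.H631R3.StmtS

/-!
# Discrete spectrum: definition
-/

noncomputable section

namespace Pool.Agent.H631R3

/-- The (unbounded) operator in the real Hilbert space `H` with graph `L` has purely discrete
spectrum: for some Hilbert basis `b` it is the diagonal operator with real eigenvalues `lam`, with
its maximal domain, and each bounded interval contains only finitely many of the eigenvalues,
counted with multiplicity. -/
def HasDiscreteSpectrum {H : Type} [NormedAddCommGroup H] [InnerProductSpace ℝ H]
    (L : H → H → Prop) : Prop :=
  ∃ (ι : Type) (b : HilbertBasis ι ℝ H) (lam : ι → ℝ),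
    (∀ f h, L f h ↔ ∀ i, inner ℝ (b i) h = lam i * inner ℝ (b i) f) ∧
      ∀ R : ℝ, {i | |lam i| ≤ R}.Finite

end Pool.Agent.H631R3
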