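import Pool.Agent.H631R3.WeakGood
import Pool.Agent.H631R3.Hilb2

/-! The graph closure of the exterior derivative on forms smooth up to the boundary. -/

open scoped ContDiff Topology ENNReal NNReal
open MeasureTheory Set Filter

noncomputable section

namespace Pool.Agent.H631R3

/-- square integrable tuples -/
def LL {q : ℕ} (u : Idx q → ℂ × ℂ → ℝ) : Prop := ∀ J, MemLp (u J) 2 μT

/-- the form with given square integrable coefficients -/
def mk {q : ℕ} (u : Idx q → ℂ × ℂ → ℝ) (h : LL u) : L2 q := (memLp_tup h).toLp (tup u)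

lemma mk_coe {q : ℕ} {u : Idx q → ℂ × ℂ → ℝ} (h : LL u) : ∀ᵐ z ∂μT, (mk u h) z = tup u z :=
  MemLp.coeFn_toLp (memLp_tup h)

lemma mk_congr {q : ℕ} {u v : Idx q → ℂ × ℂ → ℝ} (hu : LL u) (hv : LL v)
    (h : ∀ x ∈ Hartogs, ∀ J, u J x = v J x) : mk u hu = mk v hv := by
  unfold mk
  rw [MemLp.toLp_eq_toLp_iff]
  filter_upwards [ae_restrict_mem measurableSet_Hartogs] with z hz
  unfold tup
  congr 1
  funext J
  exact h z hz J

lemma LL.congr {q : ℕ} {u v : Idx q → ℂ × ℂ → ℝ} (hu : LL u)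
    (h : ∀ x ∈ Hartogs, ∀ J, u J x = v J x) : LL v := by
  intro J
  refine (hu J).ae_eq ?_
  filter_upwards [ae_restrict_mem measurableSet_Hartogs] with z hz
  exact h z hz J

lemma LL.add {q : ℕ} {u v : Idx q → ℂ × ℂ → ℝ} (hu : LL u) (hv : LL v) :
    LL (fun J x => u J x + v J x) := fun J => (hu J).add (hv J)

lemma LL.smul {q : ℕ} (c : ℝ) {u : Idx q → ℂ × ℂ → ℝ} (hu : LL u) :
    LL (fun J x => c * u J x) := fun J => (hu J).const_mul c

lemma mk_add {q : ℕ} {u v : Idx q → ℂ × ℂ → ℝ} (hu : LL u) (hv : LL v)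
    (h : LL (fun J x => u J x + v J x)) : mk (fun J x => u J x + v J x) h = mk u hu + mk v hv := by
  unfold mk
  rw [← MemLp.toLp_add]; rfl

lemma mk_smul {q : ℕ} (c : ℝ) {u : Idx q → ℂ × ℂ → ℝ} (hu : LL u)
    (h : LL (fun J x => c * u J x)) : mk (fun J x => c * u J x) h = c • mk u hu := by
  unfold mk
  rw [← MemLp.toLp_const_smul]; rfl

lemma inner_mk {q : ℕ} (f : L2 q) {u : Idx q → ℂ × ℂ → ℝ} (hu : LL u) :
    inner ℝ f (mk u hu) = ∑ J, ∫ z in Hartogs, f z J * u J z := by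
  rw [inner_L2]
  refine Finset.sum_congr rfl fun J _ => integral_congr_ae ?_
  filter_upwards [mk_coe hu] with z hz
  rw [hz, tup_apply]

lemma coef_enorm_sq {q : ℕ} (a : Coef q) : ‖a‖ₑ ^ 2 = ∑ J, ‖a J‖ₑ ^ 2 := by
  have h1 : ‖a‖ ^ 2 = ∑ J, ‖a J‖ ^ 2 := EuclideanSpace.norm_sq_eq a
  rw [← ofReal_norm, ← ENNReal.ofReal_pow (norm_nonneg _), h1,
    ENNReal.ofReal_sum_of_nonneg (fun J _ => by positivity)]
  refine Finset.sum_congr rfl fun J _ => ?_
  rw [ENNReal.ofReal_pow (norm_nonneg _), ofReal_norm]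

lemma L2_enorm_sq {q : ℕ} (f : L2 q) : ‖f‖ₑ ^ 2 = ∑ J, ∫⁻ x in Hartogs, ‖f x J‖ₑ ^ 2 := by
  have h1 : ‖f‖ₑ ^ 2 = ∫⁻ x in Hartogs, ‖f x‖ₑ ^ 2 := by
    rw [Lp.enorm_def, eLpNorm_eq_lintegral_rpow_enorm_toReal (by norm_num) (by norm_num)]
    simp only [ENNReal.toReal_ofNat]
    rw [← ENNReal.rpow_natCast, ← ENNReal.rpow_mul]
    norm_num
  rw [h1, ← lintegral_finsetSum']
  · exact lintegral_congr fun x => coef_enorm_sq _
  · intro J _
    exact (L2_memLp_coord f J).1.aemeasurable.enorm.pow_const 2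

lemma mk_enorm_sq {q : ℕ} {u : Idx q → ℂ × ℂ → ℝ} (hu : LL u) :
    ‖mk u hu‖ₑ ^ 2 = ∑ J, ∫⁻ x in Hartogs, ‖u J x‖ₑ ^ 2 := by
  rw [L2_enorm_sq]
  refine Finset.sum_congr rfl fun J _ => lintegral_congr_ae ?_
  filter_upwards [mk_coe hu] with z hz
  rw [hz, tup_apply]

lemma exists_bound_T {a : ℂ × ℂ → ℝ} (ha : Continuous a) : ∃ C : ℝ, 0 ≤ C ∧
    ∀ x ∈ Hartogs, |a x| ≤ C := by
  obtain ⟨C, hC⟩ := (isCompact_closedBall (0 : ℂ × ℂ) 1).exists_bound_of_continuousOn
    ha.continuousOn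
  refine ⟨max C 0, le_max_right _ _, fun x hx => ?_⟩
  rw [← Om_zero_one] at hx
  have h1 := hC x (by simpa using norm_le_one_of_mem le_rfl hx)
  exact h1.trans (le_max_left _ _)

lemma memLp_of_continuous {a : ℂ × ℂ → ℝ} (ha : Continuous a) : MemLp a 2 μT := by
  obtain ⟨C, _, hC⟩ := exists_bound_T ha
  refine MemLp.of_bound ha.aestronglyMeasurable C ?_
  filter_upwards [ae_restrict_mem measurableSet_Hartogs] with z hz
  exact hC z hz

/-- tuples of functions smooth on all of `ℂ²` -/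
def SM (q : ℕ) : Submodule ℝ (Idx q → ℂ × ℂ → ℝ) where
  carrier := {ψ | ∀ J, ContDiff ℝ ∞ (ψ J)}
  add_mem' := fun h1 h2 J => (h1 J).add (h2 J)
  zero_mem' := fun _ => contDiff_const
  smul_mem' := fun _ _ h J => contDiff_const.mul (h J)

lemma SM_LL {q : ℕ} (w : SM q) : LL w.1 := fun J => memLp_of_continuous (w.2 J).continuous

/-- smooth tuples as square integrable forms -/
def SL (q : ℕ) : SM q →ₗ[ℝ] L2 q where
  toFun := fun w => mk w.1 (SM_LL w)
  map_add' := fun v w => mk_add (SM_LL v) (SM_LL w) (SM_LL (v + w))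
  map_smul' := fun c w => mk_smul c (SM_LL w) (SM_LL (c • w))

/-- exterior derivative on smooth tuples -/
def dM (n : ℕ) : SM n →ₗ[ℝ] SM (n + 1) where
  toFun := fun w => ⟨dT w.1, fun J => contDiff_dT w.2 J⟩
  map_add' := fun v w => by
    apply Subtype.ext
    funext J x
    exact dT_add (fun I => (v.2 I).differentiable (by simp) x)
      (fun I => (w.2 I).differentiable (by simp) x) J
  map_smul' := fun c w => by
    apply Subtype.ext
    funext J x
    exact dT_smul c (fun I => (w.2 I).differentiable (by simp) x) J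

/-- graph of the exterior derivative on smooth tuples -/
def GS0 (n : ℕ) : Submodule ℝ (L2 n × L2 (n + 1)) :=
  LinearMap.range ((SL n).prod ((SL (n + 1)).comp (dM n)))

/-- graph of the strong maximal extension -/
def GS (n : ℕ) : Submodule ℝ (L2 n × L2 (n + 1)) := (GS0 n).topologicalClosure

lemma mem_GS0 {n : ℕ} (w : SM n) : (SL n w, SL (n + 1) (dM n w)) ∈ GS0 n := ⟨w, rfl⟩

lemma mem_GS {n : ℕ} (w : SM n) : (SL n w, SL (n + 1) (dM n w)) ∈ GS n :=
  (GS0 n).le_topologicalClosure (mem_GS0 w)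

lemma isClosed_GS (n : ℕ) : IsClosed (GS n : Set (L2 n × L2 (n + 1))) :=
  (GS0 n).isClosed_topologicalClosure

lemma GS_comp (n : ℕ) (u : L2 n) (v : L2 (n + 1)) (h : (u, v) ∈ GS n) :
    (v, (0 : L2 (n + 2))) ∈ GS (n + 1) := by
  have h1 : (GS n : Set (L2 n × L2 (n + 1))) ⊆
      (fun p => (p.2, (0 : L2 (n + 2)))) ⁻¹' (GS (n + 1) : Set (L2 (n + 1) × L2 (n + 2))) := by
    have h2 : IsClosed ((fun p : L2 n × L2 (n + 1) => (p.2, (0 : L2 (n + 2)))) ⁻¹'
      (GS (n + 1) : Set (L2 (n + 1) × L2 (n + 2)))) := (isClosed_GS (n + 1)).preimage (by fun_prop)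
    refine closure_minimal ?_ h2
    rintro _ ⟨w, rfl⟩
    have h3 := mem_GS (dM n w)
    have h4 : dM (n + 1) (dM n w) = 0 := by
      apply Subtype.ext
      funext L x
      exact dT_dT w.2 L x
    rw [h4, map_zero] at h3
    exact h3
  exact h1 h

lemma GS_sub (n : ℕ) (u : L2 n) (v : L2 (n + 1)) (h : (u, v) ∈ GS n) : WeakD u v := by
  have h1 : (GS n : Set (L2 n × L2 (n + 1))) ⊆ (GW n : Set (L2 n × L2 (n + 1))) := by
    refine closure_minimal ?_ (isClosed_GW n)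
    rintro _ ⟨w, rfl⟩
    change WeakD (SL n w) (SL (n + 1) (dM n w))
    rw [weakD_iff]
    intro ψ
    have h2 := ibp isOpen_univ (u := w.1) (fun I => (w.2 I).contDiffOn) (ψ := ψ.1)
      (fun J => ⟨(ψ.2 J).1, (ψ.2 J).2.1, subset_univ _⟩)
    have h3 : ∀ {q : ℕ} (w : SM q) (ψ : TM q), inner ℝ (SL q w) (TL q ψ)
        = ∑ J, ∫ x, w.1 J x * ψ.1 J x := by
      intro q w ψ
      rw [inner_TL]
      refine Finset.sum_congr rfl fun J _ => ?_
      have h4 : ∫ z in Hartogs, (SL q w) z J * ψ.1 J z = ∫ z in Hartogs, w.1 J z * ψ.1 J z := by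
        refine integral_congr_ae ?_
        filter_upwards [mk_coe (SM_LL w)] with z hz
        have : (SL q w) z = tup w.1 z := hz
        rw [this, tup_apply]
      rw [h4, setIntegral_eq_integral_of_forall_compl_eq_zero]
      intro x hx
      have : ψ.1 J x = 0 := by
        by_contra h
        exact hx ((ψ.2 J).2.2 (subset_tsupport _ h))
      rw [this, mul_zero]
    rw [h3, h3]
    exact h2
  exact h1 h

lemma GS_const (f : L2 0) (hf : ∃ c : ℝ, ∀ᵐ z ∂μT, f z idx0 = c) : (f, 0) ∈ GS 0 := by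
  obtain ⟨c, hc⟩ := hf
  set w : SM 0 := ⟨fun _ _ => c, fun _ => contDiff_const⟩ with hw
  have h1 := mem_GS w
  have h2 : SL 0 w = f := by
    apply Lp.ext
    filter_upwards [mk_coe (SM_LL w), hc] with z hz hcz
    have : (SL 0 w) z = tup w.1 z := hz
    rw [this]
    ext J
    rw [tup_apply, idx0_unique J, hcz]
  have h3 : dM 0 w = 0 := by
    apply Subtype.ext
    funext J x
    change dT (fun (_ : Idx 0) (_ : ℂ × ℂ) => c) J x = 0
    unfold dT
    simp
  rw [h2, h3, map_zero] at h1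
  exact h1

/-- a closed relation is weakly closed -/
lemma mem_of_weak_tendsto {H H' : Type*} [NormedAddCommGroup H] [InnerProductSpace ℝ H]
    [CompleteSpace H] [NormedAddCommGroup H'] [InnerProductSpace ℝ H'] [CompleteSpace H']
    {D : Submodule ℝ (H × H')} (hD : IsClosed (D : Set (H × H'))) {x : H} {y : H'}
    {X : ℕ → H} {Y : ℕ → H'} (h : ∀ m, (X m, Y m) ∈ D)
    (hX : ∀ p, Tendsto (fun m => inner ℝ p (X m)) atTop (𝓝 (inner ℝ p x)))
    (hY : ∀ q, Tendsto (fun m => inner ℝ q (Y m)) atTop (𝓝 (inner ℝ q y))) : (x, y) ∈ D := by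
  refine mem_of_annihilator hD fun p q hpq => ?_
  have h1 := (hX p).add (hY q)
  have h2 : (fun m => inner ℝ p (X m) + inner ℝ q (Y m)) = fun _ => 0 := by
    funext m
    exact hpq _ _ (h m)
  rw [h2] at h1
  exact tendsto_nhds_unique h1 tendsto_const_nhds

end Pool.Agent.H631R3
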