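import Pool.Agent.H631R3.Str1

/-! Removing the singularity at the origin. -/

open scoped ContDiff Topology ENNReal NNReal
open MeasureTheory Set Filter

noncomputable section

namespace Pool.Agent.H631R3

/-- a cutoff function on the plane -/
def bump0 : ContDiffBump (0 : ℂ) := ⟨1, 2, by norm_num, by norm_num⟩

/-- the cutoff functions removing a neighbourhood of `z₂ = 0` -/
def kap (m : ℝ) (x : ℂ × ℂ) : ℝ := 1 - bump0 (m • x.2)

lemma contDiff_kap (m : ℝ) : ContDiff ℝ ∞ (kap m) :=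
  contDiff_const.sub (bump0.contDiff.comp (contDiff_snd.const_smul m))

lemma kap_nonneg (m : ℝ) (x : ℂ × ℂ) : 0 ≤ kap m x := by
  unfold kap; linarith [bump0.le_one (x := m • x.2)]

lemma kap_le_one (m : ℝ) (x : ℂ × ℂ) : kap m x ≤ 1 := by
  unfold kap; linarith [bump0.nonneg (x := m • x.2)]

lemma kap_eq_zero {m : ℝ} {x : ℂ × ℂ} (h : ‖m • x.2‖ ≤ 1) : kap m x = 0 := by
  unfold kap
  rw [bump0.one_of_mem_closedBall (by simpa [bump0] using h), sub_self]

lemma kap_eq_one {m : ℝ} {x : ℂ × ℂ} (h : 2 ≤ ‖m • x.2‖) : kap m x = 1 := by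
  unfold kap
  rw [bump0.zero_of_le_dist (by simpa [bump0] using h), sub_zero]

lemma fderiv_bump0_bound : ∃ C : ℝ, 0 ≤ C ∧ ∀ w, ‖fderiv ℝ bump0 w‖ ≤ C := by
  have h1 : Continuous (fderiv ℝ bump0) := bump0.contDiff (n := 1).continuous_fderiv (by norm_num)
  obtain ⟨C, hC⟩ := h1.bounded_above_of_compact_support (bump0.hasCompactSupport.fderiv ℝ)
  exact ⟨C, (norm_nonneg _).trans (hC 0), hC⟩

lemma fderiv_bump0_zero {w : ℂ} (h : ‖w‖ < 1 ∨ 2 < ‖w‖) : fderiv ℝ bump0 w = 0 := by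
  rcases h with h | h
  · have h1 : (bump0 : ℂ → ℝ) =ᶠ[𝓝 w] fun _ => 1 := by
      filter_upwards [Metric.isOpen_ball.mem_nhds (show w ∈ Metric.ball (0 : ℂ) 1 by simpa using h)]
        with y hy
      exact bump0.one_of_mem_closedBall (Metric.ball_subset_closedBall hy)
    rw [h1.fderiv_eq]
    simp
  · have h1 : w ∉ tsupport (fderiv ℝ bump0) := by
      intro h2
      have h3 := tsupport_fderiv_subset ℝ h2
      rw [bump0.tsupport_eq] at h3
      simp [bump0] at h3
      linarith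
    exact image_eq_zero_of_notMem_tsupport h1

lemma fderiv_kap (m : ℝ) (x v : ℂ × ℂ) :
    fderiv ℝ (kap m) x v = - (m * fderiv ℝ bump0 (m • x.2) v.2) := by
  have h1 : HasFDerivAt (bump0 : ℂ → ℝ) (fderiv ℝ bump0 (m • x.2)) (m • x.2) :=
    (bump0.contDiff (n := 1).differentiable (by norm_num) _).hasFDerivAt
  have h2 : HasFDerivAt (fun x : ℂ × ℂ => m • x.2) (m • ContinuousLinearMap.snd ℝ ℂ ℂ) x :=
    hasFDerivAt_snd.const_smul m
  have h3 : HasFDerivAt (kap m) (-((fderiv ℝ bump0 (m • x.2)).comp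
      (m • ContinuousLinearMap.snd ℝ ℂ ℂ))) x := by
    exact (h1.comp x h2).const_sub 1
  rw [h3.fderiv]
  simp

/-- `T ∩ {|z₂| ≤ 2/m}` has small volume -/
lemma volume_small {m : ℝ} (hm : 0 < m) :
    μT {x | ‖m • x.2‖ ≤ 2} ≤ (ENNReal.ofReal (2 / m) ^ 2 * NNReal.pi) ^ 2 := by
  have hms : MeasurableSet {x : ℂ × ℂ | ‖m • x.2‖ ≤ 2} :=
    (isClosed_le (by fun_prop) continuous_const).measurableSet
  rw [Measure.restrict_apply hms]
  have hsub : {x : ℂ × ℂ | ‖m • x.2‖ ≤ 2} ∩ Hartogs ⊆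
      Metric.closedBall (0 : ℂ) (2 / m) ×ˢ Metric.closedBall (0 : ℂ) (2 / m) := by
    rintro x ⟨h1, h2⟩
    have h3 : ‖x.2‖ ≤ 2 / m := by
      rw [mem_ofPred_eq, norm_smul, Real.norm_of_nonneg hm.le] at h1
      rw [le_div_iff₀ hm]; linarith
    exact ⟨by simpa using h2.1.le.trans h3, by simpa using h3⟩
  refine (measure_mono hsub).trans ?_
  rw [Measure.volume_eq_prod, Measure.prod_prod, Complex.volume_closedBall, sq (_ * _)]

lemma tendsto_volume_small :
    Tendsto (fun k : ℕ => μT {x | ‖((k : ℝ) + 1) • x.2‖ ≤ 2}) atTop (𝓝 0) := by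
  have h1 : Tendsto (fun k : ℕ => 2 / ((k : ℝ) + 1)) atTop (𝓝 0) := by
    have := (tendsto_one_div_add_atTop_nhds_zero_nat (𝕜 := ℝ)).const_mul 2
    simpa [div_eq_mul_inv] using this
  have h2 : Continuous (fun t : ℝ => (ENNReal.ofReal t ^ 2 * NNReal.pi) ^ 2) :=
    (ENNReal.continuous_pow 2).comp ((ENNReal.continuous_mul_const ENNReal.coe_ne_top).comp
      ((ENNReal.continuous_pow 2).comp ENNReal.continuous_ofReal))
  have h3 := (h2.tendsto' 0 0 (by simp)).comp h1
  refine tendsto_of_tendsto_of_tendsto_of_le_of_le tendsto_const_nhds h3 (fun _ => zero_le) ?_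
  intro k
  exact volume_small (by positivity)

lemma memLp_inv : MemLp (fun x : ℂ × ℂ => ‖x.2‖⁻¹) 2 μT := by
  refine ⟨(by fun_prop : Measurable fun x : ℂ × ℂ => ‖x.2‖⁻¹).aestronglyMeasurable, ?_⟩
  rw [eLpNorm_lt_top_iff_lintegral_rpow_enorm_lt_top (by norm_num) (by norm_num)]
  have h1 : ∫⁻ x in Hartogs, ‖(‖x.2‖⁻¹ : ℝ)‖ₑ ^ (2 : ℝ≥0∞).toReal
      ≤ ∫⁻ x in Om 0 1, ENNReal.ofReal (‖x.2‖ ^ 2)⁻¹ := by
    rw [Om_zero_one]
    refine lintegral_mono fun x => ?_
    simp only [ENNReal.toReal_ofNat, ENNReal.rpow_ofNat]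
    rw [← ofReal_norm, ← ENNReal.ofReal_pow (norm_nonneg _)]
    apply ENNReal.ofReal_le_ofReal
    rw [← inv_pow, Real.norm_of_nonneg (by positivity)]
  refine lt_of_le_of_lt h1 ?_
  rw [lintegral_Om_snd (H := fun w => ENNReal.ofReal (‖w‖ ^ 2)⁻¹) (by fun_prop)]
  have h3 : ∫⁻ w in Ann 0 1, ENNReal.ofReal (1 * ‖w‖) ^ 2 * NNReal.pi * ENNReal.ofReal (‖w‖ ^ 2)⁻¹
      ≤ ∫⁻ w in Ann 0 1, NNReal.pi := by
    refine setLIntegral_mono' (isOpen_Ann 0 1).measurableSet fun w hw => ?_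
    have hw2 : 0 < ‖w‖ := hw.1
    rw [one_mul, ← ENNReal.ofReal_pow (norm_nonneg _), mul_right_comm,
      ← ENNReal.ofReal_mul (by positivity), mul_inv_cancel₀ (by positivity), ENNReal.ofReal_one,
      one_mul]
  refine lt_of_le_of_lt h3 ?_
  rw [lintegral_const, Measure.restrict_apply_univ]
  refine ENNReal.mul_lt_top ENNReal.coe_lt_top ?_
  have h4 : Ann 0 1 ⊆ Metric.closedBall (0 : ℂ) 1 := fun w hw => by simpa using hw.2.le
  exact lt_of_le_of_lt (measure_mono h4) (isCompact_closedBall _ _).measure_lt_top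

lemma memLp_of_bound {a : ℂ × ℂ → ℝ} (ha : ContinuousOn a Hartogs) {C : ℝ}
    (h : ∀ x ∈ Hartogs, |a x| ≤ C * ‖x.2‖⁻¹) : MemLp a 2 μT := by
  refine memLp_inv.of_le_mul (c := C) (ha.aestronglyMeasurable measurableSet_Hartogs) ?_
  filter_upwards [ae_restrict_mem measurableSet_Hartogs] with z hz
  rw [Real.norm_eq_abs, norm_inv, norm_norm]
  exact h z hz

lemma tendsto_of_enorm_sq {a : ℕ → ℝ} (h : Tendsto (fun m => ‖a m‖ₑ ^ 2) atTop (𝓝 0)) :
    Tendsto a atTop (𝓝 0) := by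
  rw [tendsto_iff_edist_tendsto_0]
  have h1 : (fun m => edist (a m) 0) = fun m => (‖a m‖ₑ ^ 2) ^ (1 / 2 : ℝ) := by
    funext m
    rw [edist_zero_right, ← ENNReal.rpow_natCast, ← ENNReal.rpow_mul]
    norm_num
  rw [h1]
  have h2 := h.ennrpow_const (1 / 2 : ℝ)
  rwa [ENNReal.zero_rpow_of_pos (by norm_num)] at h2

/-- pairing with functions of size `m²` on the small sets tends to zero -/
lemma tendsto_small {q : ℂ × ℂ → ℝ} (hq : MemLp q 2 μT) {E : ℕ → ℂ × ℂ → ℝ} {C : ℝ} (hC : 0 ≤ C)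
    (hE : ∀ (k : ℕ), ∀ x ∈ Hartogs, |E k x| ≤ C * ((k : ℝ) + 1) ^ 2)
    (hE0 : ∀ (k : ℕ), ∀ x ∈ Hartogs, ¬ ‖((k : ℝ) + 1) • x.2‖ ≤ 2 → E k x = 0) :
    Tendsto (fun k => ∫ x in Hartogs, q x * E k x) atTop (𝓝 0) := by
  apply tendsto_of_enorm_sq
  have hfin : ∫⁻ x, ‖q x‖ₑ ^ 2 ∂μT ≠ ⊤ := by
    have := hq.2
    rw [eLpNorm_lt_top_iff_lintegral_rpow_enorm_lt_top (by norm_num) (by norm_num)] at this
    simp only [ENNReal.toReal_ofNat, ENNReal.rpow_ofNat] at this
    exact this.ne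
  set S : ℕ → Set (ℂ × ℂ) := fun k => {x | ‖((k : ℝ) + 1) • x.2‖ ≤ 2} with hS
  have hSm : ∀ k, MeasurableSet (S k) := fun k =>
    (isClosed_le (by fun_prop) continuous_const).measurableSet
  have h1 := tendsto_setLIntegral_zero hfin (s := S) tendsto_volume_small
  have hK : (ENNReal.ofReal (4 * C) * NNReal.pi) ^ 2 ≠ ⊤ :=
    ENNReal.pow_ne_top (ENNReal.mul_ne_top ENNReal.ofReal_ne_top ENNReal.coe_ne_top)
  have h2 := ENNReal.Tendsto.mul_const h1 (Or.inr hK)
  rw [zero_mul] at h2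
  refine tendsto_of_tendsto_of_tendsto_of_le_of_le tendsto_const_nhds h2 (fun _ => zero_le) ?_
  intro k
  have hk : (0 : ℝ) < (k : ℝ) + 1 := by positivity
  have hpt : ∀ x ∈ Hartogs, ‖q x * E k x‖ₑ ≤
      (S k).indicator (fun x => ‖q x‖ₑ * ENNReal.ofReal (C * ((k : ℝ) + 1) ^ 2)) x := by
    intro x hx
    by_cases hxS : x ∈ S k
    · rw [indicator_of_mem hxS, enorm_mul]
      gcongr
      rw [← ofReal_norm]
      exact ENNReal.ofReal_le_ofReal (hE k x hx)
    · rw [indicator_of_notMem hxS, hE0 k x hx hxS]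
      simp
  calc ‖∫ x in Hartogs, q x * E k x‖ₑ ^ 2
      ≤ (∫⁻ x in Hartogs, ‖q x * E k x‖ₑ) ^ 2 := by
        gcongr
        exact enorm_integral_le_lintegral_enorm _
    _ ≤ (∫⁻ x in Hartogs, (S k).indicator
          (fun x => ‖q x‖ₑ * ENNReal.ofReal (C * ((k : ℝ) + 1) ^ 2)) x) ^ 2 := by
        gcongr ?_ ^ 2
        exact setLIntegral_mono' measurableSet_Hartogs hpt
    _ = (∫⁻ x, ‖q x‖ₑ * ENNReal.ofReal (C * ((k : ℝ) + 1) ^ 2) ∂(μT.restrict (S k))) ^ 2 := by
        rw [lintegral_indicator (hSm k)]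
    _ ≤ (∫⁻ x, ‖q x‖ₑ ^ 2 ∂(μT.restrict (S k))) *
          ∫⁻ x, ENNReal.ofReal (C * ((k : ℝ) + 1) ^ 2) ^ 2 ∂(μT.restrict (S k)) :=
        cs_lintegral _ hq.1.enorm.restrict aemeasurable_const
    _ ≤ (∫⁻ x, ‖q x‖ₑ ^ 2 ∂(μT.restrict (S k))) *
          (ENNReal.ofReal (C * ((k : ℝ) + 1) ^ 2) ^ 2 *
            (ENNReal.ofReal (2 / ((k : ℝ) + 1)) ^ 2 * NNReal.pi) ^ 2) := by
        rw [lintegral_const, Measure.restrict_apply_univ]
        gcongr
        exact volume_small hk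
    _ = _ := by
        congr 1
        rw [← mul_pow, ← mul_assoc, ← ENNReal.ofReal_pow (by positivity),
          ← ENNReal.ofReal_mul (by positivity)]
        congr 3
        field_simp
        ring

lemma isOpen_ne : IsOpen {x : ℂ × ℂ | x.2 ≠ 0} := isOpen_ne_fun continuous_snd continuous_const

lemma contDiff_kap_mul {a : ℂ × ℂ → ℝ} (ha : ContDiffOn ℝ ∞ a {x | x.2 ≠ 0}) (m : ℝ) :
    ContDiff ℝ ∞ (fun x => kap m x * a x) := by
  rw [contDiff_iff_contDiffAt]
  intro x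
  by_cases hx : x.2 = 0
  · have h1 : (fun x => kap m x * a x) =ᶠ[𝓝 x] fun _ => 0 := by
      have h2 : {y : ℂ × ℂ | ‖m • y.2‖ < 1} ∈ 𝓝 x := by
        refine (isOpen_lt (by fun_prop) continuous_const).mem_nhds ?_
        simp [hx]
      filter_upwards [h2] with y hy
      rw [kap_eq_zero (le_of_lt hy), zero_mul]
    exact contDiffAt_const.congr_of_eventuallyEq h1
  · exact (contDiff_kap m).contDiffAt.mul (ha.contDiffAt (isOpen_ne.mem_nhds hx))

lemma dT_kap_mul {n : ℕ} {U : Idx n → ℂ × ℂ → ℝ} {m : ℝ} {x : ℂ × ℂ}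
    (hU : ∀ I, DifferentiableAt ℝ (U I) x) (J : Idx (n + 1)) :
    dT (fun I x => kap m x * U I x) J x = kap m x * dT U J x +
      ∑ i : Fin (n + 1), (-1 : ℝ) ^ (i : ℕ) *
        (fderiv ℝ (kap m) x (frame (J i)) * U (face J i) x) := by
  unfold dT
  rw [Finset.mul_sum, ← Finset.sum_add_distrib]
  refine Finset.sum_congr rfl fun i _ => ?_
  have h1 : fderiv ℝ (fun x => kap m x * U (face J i) x) x
      = kap m x • fderiv ℝ (U (face J i)) x + U (face J i) x • fderiv ℝ (kap m) x :=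
    fderiv_fun_mul ((contDiff_kap m).differentiable (by simp) x) (hU _)
  rw [h1]
  simp only [add_apply, smul_apply, smul_eq_mul]
  ring

lemma tendsto_kap {x : ℂ × ℂ} (hx : x.2 ≠ 0) :
    Tendsto (fun k : ℕ => kap ((k : ℝ) + 1) x) atTop (𝓝 1) := by
  have h0 : 0 < ‖x.2‖ := norm_pos_iff.2 hx
  refine tendsto_const_nhds.congr' ?_
  obtain ⟨N, hN⟩ := exists_nat_gt (2 / ‖x.2‖)
  filter_upwards [eventually_ge_atTop N] with k hk
  have h1 : (N : ℝ) ≤ k := by exact_mod_cast hk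
  have h2 : 2 / ‖x.2‖ < k := lt_of_lt_of_le hN h1
  rw [div_lt_iff₀ h0] at h2
  rw [kap_eq_one]
  rw [norm_smul, Real.norm_of_nonneg (by positivity)]
  nlinarith

lemma tendsto_int_kap {q a : ℂ × ℂ → ℝ} (hq : MemLp q 2 μT) (ha : MemLp a 2 μT) :
    Tendsto (fun k : ℕ => ∫ x in Hartogs, q x * (kap ((k : ℝ) + 1) x * a x)) atTop
      (𝓝 (∫ x in Hartogs, q x * a x)) := by
  have hgi : Integrable (fun z => q z * a z) μT := hq.integrable_mul ha
  refine tendsto_integral_of_dominated_convergence (fun z => ‖q z * a z‖) ?_ hgi.norm ?_ ?_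
  · intro k
    exact hq.1.mul ((contDiff_kap _).continuous.aestronglyMeasurable.mul ha.1)
  · intro k
    refine Eventually.of_forall fun z => ?_
    have e : q z * (kap ((k : ℝ) + 1) z * a z) = kap ((k : ℝ) + 1) z * (q z * a z) := by ring
    rw [e, norm_mul, Real.norm_of_nonneg (kap_nonneg _ _)]
    calc _ ≤ 1 * ‖q z * a z‖ := by gcongr; exact kap_le_one _ _
      _ = _ := one_mul _
  · rw [ae_restrict_iff' measurableSet_Hartogs]
    refine Eventually.of_forall fun z hz => ?_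
    have := (tendsto_kap (Hartogs_ne hz)).mul_const (q z * a z)
    rw [one_mul] at this
    refine this.congr fun k => ?_
    ring

/-- forms smooth outside `z₂ = 0` with a mild singularity there are in the domain of the strong
extension -/
lemma lemmaW {n : ℕ} {U : Idx n → ℂ × ℂ → ℝ} (hU : ∀ I, ContDiffOn ℝ ∞ (U I) {x | x.2 ≠ 0})
    {C : ℝ} (hC : 0 ≤ C) (hb : ∀ I, ∀ x ∈ Hartogs, |U I x| ≤ C * ‖x.2‖⁻¹) (hLU : LL U)
    {g : Idx (n + 1) → ℂ × ℂ → ℝ} (hg : ∀ x ∈ Hartogs, ∀ J, dT U J x = g J x) (hLg : LL g) :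
    (mk U hLU, mk g hLg) ∈ GS n := by
  obtain ⟨B, hB0, hB⟩ := fderiv_bump0_bound
  have hkp : ∀ k : ℕ, (0 : ℝ) < (k : ℝ) + 1 := fun k => by positivity
  set W : ℕ → SM n := fun k => ⟨fun I x => kap ((k : ℝ) + 1) x * U I x,
    fun I => contDiff_kap_mul (hU I) _⟩ with hW
  refine mem_of_weak_tendsto (isClosed_GS n) (X := fun k => SL n (W k))
    (Y := fun k => SL (n + 1) (dM n (W k))) (fun k => mem_GS (W k)) ?_ ?_
  · intro p
    have h1 : ∀ k, inner ℝ p (SL n (W k)) = ∑ I, ∫ z in Hartogs, p z I *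
        (kap ((k : ℝ) + 1) z * U I z) := fun k => inner_mk p (SM_LL (W k))
    simp_rw [h1]
    rw [inner_mk]
    exact tendsto_finsetSum _ fun I _ => tendsto_int_kap (L2_memLp_coord p I) (hLU I)
  · intro q
    set E : Idx (n + 1) → ℕ → ℂ × ℂ → ℝ := fun J k x => ∑ i : Fin (n + 1), (-1 : ℝ) ^ (i : ℕ) *
        (fderiv ℝ (kap ((k : ℝ) + 1)) x (frame (J i)) * U (face J i) x) with hE
    have hEq : ∀ J k, ∀ x ∈ Hartogs, (dM n (W k)).1 J x = kap ((k : ℝ) + 1) x * g J x + E J k x := by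
      intro J k x hx
      rw [← hg x hx J]
      exact dT_kap_mul (fun I => ((hU I).contDiffAt (isOpen_ne.mem_nhds
        (Hartogs_ne hx))).differentiableAt (by simp)) J
    have hkL : ∀ J (k : ℕ), MemLp (fun x => kap ((k : ℝ) + 1) x * g J x) 2 μT := by
      intro J k
      refine (hLg J).of_le_mul (c := 1)
        ((contDiff_kap _).continuous.aestronglyMeasurable.mul (hLg J).1)
        (Eventually.of_forall fun x => ?_)
      rw [norm_mul, Real.norm_of_nonneg (kap_nonneg _ _)]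
      gcongr
      exact kap_le_one _ _
    have hEL : ∀ J k, MemLp (E J k) 2 μT := by
      intro J k
      have h1 : MemLp (fun x => (dM n (W k)).1 J x + (-1) * (kap ((k : ℝ) + 1) x * g J x)) 2 μT :=
        (SM_LL (dM n (W k)) J).add ((hkL J k).const_mul (-1))
      refine h1.ae_eq ?_
      filter_upwards [ae_restrict_mem measurableSet_Hartogs] with z hz
      rw [hEq J k z hz]; ring
    have h1 : ∀ k, inner ℝ q (SL (n + 1) (dM n (W k)))
        = ∑ J, ((∫ z in Hartogs, q z J * (kap ((k : ℝ) + 1) z * g J z))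
          + ∫ z in Hartogs, q z J * E J k z) := by
      intro k
      have h2 : inner ℝ q (SL (n + 1) (dM n (W k)))
        = ∑ J, ∫ z in Hartogs, q z J * (dM n (W k)).1 J z := inner_mk q (SM_LL (dM n (W k)))
      rw [h2]
      refine Finset.sum_congr rfl fun J _ => ?_
      rw [← integral_add]
      · refine setIntegral_congr_fun measurableSet_Hartogs fun z hz => ?_
        simp only
        rw [hEq J k z hz, mul_add]
      · exact (L2_memLp_coord q J).integrable_mul (hkL J k)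
      · exact (L2_memLp_coord q J).integrable_mul (hEL J k)
    simp_rw [h1]
    rw [inner_mk]
    refine tendsto_finsetSum _ fun J _ => ?_
    have h3 : Tendsto (fun k => ∫ z in Hartogs, q z J * E J k z) atTop (𝓝 0) := by
      refine tendsto_small (L2_memLp_coord q J) (C := (n + 1) * (B * C)) (by positivity) ?_ ?_
      · intro k x hx
        have hx0 : 0 < ‖x.2‖ := norm_pos_iff.2 (Hartogs_ne hx)
        have h4 : ∀ i : Fin (n + 1), |(-1 : ℝ) ^ (i : ℕ) *
            (fderiv ℝ (kap ((k : ℝ) + 1)) x (frame (J i)) * U (face J i) x)|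
            ≤ (B * C) * ((k : ℝ) + 1) ^ 2 := by
          intro i
          rw [abs_mul, abs_pow, abs_neg, abs_one, one_pow, one_mul, abs_mul, fderiv_kap, abs_neg,
            abs_mul, abs_of_pos (hkp k)]
          by_cases hs : ‖((k : ℝ) + 1) • x.2‖ < 1
          · rw [fderiv_bump0_zero (Or.inl hs)]
            simp only [zero_apply, abs_zero, mul_zero, zero_mul]
            positivity
          · push Not at hs
            rw [norm_smul, Real.norm_of_nonneg (hkp k).le] at hs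
            have h5 : ‖x.2‖⁻¹ ≤ (k : ℝ) + 1 := by
              rw [inv_le_iff_one_le_mul₀ hx0]; exact hs
            have h6 : |fderiv ℝ bump0 (((k : ℝ) + 1) • x.2) (frame (J i)).2| ≤ B := by
              have h7 := (fderiv ℝ bump0 (((k : ℝ) + 1) • x.2)).le_opNorm (frame (J i)).2
              have h8 : ‖(frame (J i)).2‖ ≤ 1 := by
                rw [← norm_frame (J i)]; exact norm_snd_le _
              rw [Real.norm_eq_abs] at h7
              calc _ ≤ _ := h7
                _ ≤ B * 1 := mul_le_mul (hB _) h8 (norm_nonneg _) hB0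
                _ = B := mul_one _
            calc ((k : ℝ) + 1) * |fderiv ℝ bump0 (((k : ℝ) + 1) • x.2) (frame (J i)).2| *
                |U (face J i) x| ≤ ((k : ℝ) + 1) * B * (C * ((k : ℝ) + 1)) := by
                  refine mul_le_mul ?_ ?_ (abs_nonneg _) (by positivity)
                  · exact mul_le_mul_of_nonneg_left h6 (hkp k).le
                  · exact (hb _ x hx).trans (mul_le_mul_of_nonneg_left h5 hC)
              _ = _ := by ring
        calc |E J k x| ≤ ∑ i : Fin (n + 1), |(-1 : ℝ) ^ (i : ℕ) *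
            (fderiv ℝ (kap ((k : ℝ) + 1)) x (frame (J i)) * U (face J i) x)| :=
              Finset.abs_sum_le_sum_abs _ _
          _ ≤ ∑ _i : Fin (n + 1), (B * C) * ((k : ℝ) + 1) ^ 2 :=
              Finset.sum_le_sum fun i _ => h4 i
          _ = _ := by
              rw [Finset.sum_const, Finset.card_univ, Fintype.card_fin, nsmul_eq_mul]
              push_cast
              ring
      · intro k x hx hs
        push Not at hs
        apply Finset.sum_eq_zero
        intro i _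
        rw [fderiv_kap, fderiv_bump0_zero (Or.inr hs)]
        simp
    have h4 := (tendsto_int_kap (L2_memLp_coord q J) (hLg J)).add h3
    rwa [add_zero] at h4

lemma GS_theta : (Theta, (0 : L2 2)) ∈ GS 1 := by
  have hL : LL (thc : Idx 1 → ℂ × ℂ → ℝ) := fun J => memLp_thc J
  have h0 : LL (fun (_ : Idx 2) (_ : ℂ × ℂ) => (0 : ℝ)) := fun J =>
    memLp_of_continuous continuous_const
  have h1 := lemmaW (U := (thc : Idx 1 → ℂ × ℂ → ℝ)) (C := 1) (fun I => contDiffOn_thc I)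
    zero_le_one (by
      intro I x hx
      rw [one_mul]
      unfold thc dth
      refine (Complex.abs_im_le_norm _).trans ?_
      rw [norm_div, div_eq_mul_inv]
      have : ‖(frame (I 0)).2‖ ≤ 1 := by
        rw [← norm_frame (I 0)]; exact norm_snd_le _
      have h0 : 0 ≤ ‖x.2‖⁻¹ := by positivity
      nlinarith) hL (g := fun _ _ => 0) (fun x hx J => dT_thc J (Hartogs_ne hx)) h0
  have h2 : mk (fun (_ : Idx 2) (_ : ℂ × ℂ) => (0 : ℝ)) h0 = 0 := by
    have h3 := mk_smul (0 : ℝ) h0 (h0.smul 0)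
    rw [zero_smul] at h3
    rw [← h3]
    exact mk_congr _ _ fun x _ J => by simp
  rw [h2] at h1
  exact h1

end Pool.Agent.H631R3
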