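import Pool.Agent.H631R3.Str2

/-! Homotopy identities for forms that need not be closed. -/

open scoped ContDiff Topology ENNReal NNReal
open MeasureTheory Set Filter

noncomputable section

namespace Pool.Agent.H631R3

section ident

variable {a b : ℝ} (hab : a ≤ b) {n : ℕ} {f : ℂ × ℂ → Form (n + 1)}
  (hf : ContDiff ℝ ∞ f) (hdf : ContDiff ℝ ∞ (extDeriv f))
  {A dA : ℝ × ℂ → (ℂ × ℂ) →L[ℝ] (ℂ × ℂ)} (hA : ContDiff ℝ ∞ A)
  (hdA : ContDiff ℝ ∞ dA) (hder : ∀ t y, HasDerivAt (fun s => A (s, y)) (dA (t, y)) t)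
  {w w' : ℝ → ℝ} (hw : ContDiff ℝ ∞ w) (hw' : Continuous w') (hww : ∀ t, HasDerivAt w (w' t) t)

include hab hf hdf hA hdA hder hw hw' hww

lemma dT_Kop_gen (x : ℂ × ℂ) (J : Idx (n + 1)) :
    dT (Kop volume (Icc a b ×ˢ BB) A (fun p => w p.1 • dA p) f) J x
      = (∫ y in BB, (w b * pull f (A (b, y)) J x - w a * pull f (A (a, y)) J x))
        - (∫ p in Icc a b ×ˢ BB, w' p.1 * pull f (A p) J x)
        - Kop volume (Icc a b ×ˢ BB) A (fun p => w p.1 • dA p) (extDeriv f) J x := by
  have hK : IsCompact (Icc a b ×ˢ BB) := isCompact_Icc.prod isCompact_BB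
  have hA' : ContDiff ℝ ∞ (fun p : ℝ × ℂ => w p.1 • dA p) := (hw.comp contDiff_fst).smul hdA
  have h1 := d_Kop (μ := (volume : Measure (ℝ × ℂ))) hK isOpen_univ isOpen_univ hf.contDiffOn hA hA'
    (fun _ _ _ _ => mem_univ _) (mem_univ x) J
  unfold dT
  rw [h1]
  have hms : MeasurableSet (Icc a b ×ˢ BB) := hK.isClosed.measurableSet
  have hder2 : ∀ p ∈ Icc a b ×ˢ BB, HasDerivAt (fun s => pull f (A (s, p.2)) J x)
      (fderiv ℝ f (A p x) (dA p x) (fun j => A p (frame (J j)))
        + ∑ i : Fin (n + 1), f (A p x)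
          (Function.update (fun j => A p (frame (J j))) i (dA p (frame (J i))))) p.1 := by
    intro p hp
    exact hasDerivAt_pull (A := fun s => A (s, p.2)) (A' := fun s => dA (s, p.2)) (hder p.1 p.2)
      (hf.differentiable (by simp) _) J
  have hpc : ContinuousOn (fun p : ℝ × ℂ => pull f (A p) J x) (Icc a b ×ˢ BB) :=
    (contDiffOn_pull (V := univ) hf.contDiffOn hA J).continuousOn.comp
      (f := fun p : ℝ × ℂ => (p, x)) (by fun_prop) (fun p hp => mem_univ _)
  have hpc' : ContinuousOn (fun p : ℝ × ℂ => fderiv ℝ f (A p x) (dA p x)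
      (fun j => A p (frame (J j)))
        + ∑ i : Fin (n + 1), f (A p x)
          (Function.update (fun j => A p (frame (J j))) i (dA p (frame (J i)))))
            (Icc a b ×ˢ BB) := by
    have hAc : ContinuousOn (fun p : ℝ × ℂ => A p x) (Icc a b ×ˢ BB) :=
      (hA.continuous.clm_apply continuous_const).continuousOn
    have hfc : ContinuousOn (fun p : ℝ × ℂ => f (A p x)) (Icc a b ×ˢ BB) :=
      hf.continuous.comp_continuousOn hAc
    have hfc' : ContinuousOn (fun p : ℝ × ℂ => fderiv ℝ f (A p x) (dA p x)) (Icc a b ×ˢ BB) :=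
      ((hf.continuous_fderiv (by simp)).comp_continuousOn hAc).clm_apply
        (hdA.continuous.clm_apply continuous_const).continuousOn
    have hev : ∀ {q : ℕ} {F : ℝ × ℂ → Form q} {v : ℝ × ℂ → Fin q → ℂ × ℂ},
        ContinuousOn F (Icc a b ×ˢ BB) → Continuous v →
        ContinuousOn (fun p => F p (v p)) (Icc a b ×ˢ BB) := by
      intro q F v hF hv
      have : (fun p => F p (v p)) = fun p => ∑ I : Idx q, evalAt (frame ∘ I) (F p)
          * detForm I (v p) := by
        funext p; rw [form_apply_eq_sum]; rfl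
      rw [this]
      refine continuousOn_finsetSum _ fun I _ => ?_
      exact ((evalAt (frame ∘ I)).continuous.comp_continuousOn hF).mul
        ((contDiff_detForm I).continuous.comp hv).continuousOn
    have hvA : ∀ v : ℂ × ℂ, Continuous fun p : ℝ × ℂ => A p v := fun v =>
      hA.continuous.clm_apply continuous_const
    have hvdA : ∀ v : ℂ × ℂ, Continuous fun p : ℝ × ℂ => dA p v := fun v =>
      hdA.continuous.clm_apply continuous_const
    apply ContinuousOn.add
    · exact hev hfc' (continuous_pi fun j => hvA _)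
    · refine continuousOn_finsetSum _ fun i _ => ?_
      refine hev hfc ?_
      exact (continuous_pi fun j => hvA _).update i (hvdA _)
  have hkc : ContinuousOn (fun p : ℝ × ℂ => kern (extDeriv f) (A p) (w p.1 • dA p) J x)
      (Icc a b ×ˢ BB) :=
    (contDiffOn_kern (V := univ) hdf.contDiffOn hA hA' J).continuousOn.comp
      (f := fun p : ℝ × ℂ => (p, x)) (by fun_prop) (fun p hp => mem_univ _)
  have h2 : ∫ p in Icc a b ×ˢ BB, (fderiv ℝ f (A p x) ((w p.1 • dA p) x)
        (fun j => A p (frame (J j)))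
        + ∑ i : Fin (n + 1), f (A p x)
          (Function.update (fun j => A p (frame (J j))) i ((w p.1 • dA p) (frame (J i))))
        - kern (extDeriv f) (A p) (w p.1 • dA p) J x)
      = ∫ p in Icc a b ×ˢ BB, (((w' p.1 * pull f (A p) J x
        + w p.1 * (fderiv ℝ f (A p x) (dA p x) (fun j => A p (frame (J j)))
        + ∑ i : Fin (n + 1), f (A p x)
          (Function.update (fun j => A p (frame (J j))) i (dA p (frame (J i))))))
          - w' p.1 * pull f (A p) J x) - kern (extDeriv f) (A p) (w p.1 • dA p) J x) := by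
    refine setIntegral_congr_fun hms fun p hp => ?_
    have e1 : ∀ i : Fin (n + 1), f (A p x)
          (Function.update (fun j => A p (frame (J j))) i ((w p.1 • dA p) (frame (J i))))
        = w p.1 * f (A p x)
          (Function.update (fun j => A p (frame (J j))) i (dA p (frame (J i)))) := by
      intro i
      rw [smul_apply, ContinuousAlternatingMap.map_update_smul, smul_eq_mul]
    simp_rw [e1]
    rw [← Finset.mul_sum]
    simp only [smul_apply, map_smul, ContinuousAlternatingMap.smul_apply,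
      smul_eq_mul]
    ring
  rw [h2]
  have hw1 : ContinuousOn (fun p : ℝ × ℂ => w' p.1) (Icc a b ×ˢ BB) :=
    (hw'.comp continuous_fst).continuousOn
  have hw2 : ContinuousOn (fun p : ℝ × ℂ => w p.1) (Icc a b ×ˢ BB) :=
    (hw.continuous.comp continuous_fst).continuousOn
  rw [integral_sub, integral_sub]
  · congr 2
    refine ftc_fubini (Ψ := fun p => w p.1 * pull f (A p) J x) hab ?_ ?_
    · exact (hw1.mul hpc).add (hw2.mul hpc')
    · intro t ht y hy
      exact (hww t).mul (hder2 (t, y) ⟨ht, hy⟩)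
  · exact ((hw1.mul hpc).add (hw2.mul hpc')).integrableOn_compact hK
  · exact (hw1.mul hpc).integrableOn_compact hK
  · exact (((hw1.mul hpc).add (hw2.mul hpc')).sub (hw1.mul hpc)).integrableOn_compact hK
  · exact hkc.integrableOn_compact hK

end ident

section gen

variable {n : ℕ} {f : ℂ × ℂ → Form (n + 1)} (hf : ContDiff ℝ ∞ f)

include hf

lemma contDiff_K1 (I : Idx n) : ContDiff ℝ ∞ (K1 f I) := by
  rw [← contDiffOn_univ]
  exact contDiffOn_Kop (isCompact_Icc.prod isCompact_BB) isOpen_univ isOpen_univ hf.contDiffOn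
    contDiff_A1 (A' := fun p => (1 : ℝ) • dA1 p) (by simpa using contDiff_dA1)
    (fun _ _ _ _ => mem_univ _) I

lemma contDiff_K2 (I : Idx n) : ContDiff ℝ ∞ (K2 f I) := by
  rw [← contDiffOn_univ]
  exact contDiffOn_Kop (isCompact_Icc.prod isCompact_BB) isOpen_univ isOpen_univ hf.contDiffOn
    contDiff_A2 ((contDiff_const.sub (contDiff_fst.div_const _)).smul contDiff_dA2)
    (fun _ _ _ _ => mem_univ _) I

lemma contDiff_K3 (I : Idx n) : ContDiff ℝ ∞ (K3 f I) := by
  rw [← contDiffOn_univ]
  exact contDiffOn_Kop (isCompact_Icc.prod isCompact_BB) isOpen_univ isOpen_univ hf.contDiffOn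
    contDiff_A2 (A' := fun p => (1 : ℝ) • dA2 p) (by simpa using contDiff_dA2)
    (fun _ _ _ _ => mem_univ _) I

variable (hdf : ContDiff ℝ ∞ (extDeriv f))

include hdf

lemma dT_K1g (x : ℂ × ℂ) (J : Idx (n + 1)) :
    dT (K1 f) J x = vB * f x (frame ∘ J) - PD f J x - K1 (extDeriv f) J x := by
  have h := dT_Kop_gen (a := 0) (b := 1) zero_le_one hf hdf contDiff_A1
    contDiff_dA1 hasDerivAt_A1 (w := fun _ => 1)
    (w' := fun _ => 0) contDiff_const continuous_const (fun t => hasDerivAt_const _ _) x J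
  unfold K1
  rw [h]
  congr 1
  simp only [one_mul, zero_mul, integral_zero, sub_zero]
  have e1 : ∀ y : ℂ, A1 (1, y) = ContinuousLinearMap.id ℝ (ℂ × ℂ) := by
    intro y; ext z <;> simp [A1, M_apply]
  have e2 : ∀ y : ℂ, A1 (0, y) = M 0 y 1 := by
    intro y; simp [A1]
  simp_rw [e1, e2]
  rw [integral_sub]
  · rw [setIntegral_const]
    rfl
  · apply ContinuousOn.integrableOn_compact isCompact_BB
    exact continuousOn_const
  · apply ContinuousOn.integrableOn_compact isCompact_BB
    have hc := (contDiffOn_pull (V := univ) hf.contDiffOn (A := fun y : ℂ => M 0 y 1)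
      (contDiff_M contDiff_const contDiff_id contDiff_const) J).continuousOn
    exact hc.comp (f := fun y : ℂ => (y, x)) (by fun_prop) fun y hy => mem_univ _

lemma dT_K2g (x : ℂ × ℂ) (J : Idx (n + 1)) :
    dT (K2 f) J x = PA f J x - PD f J x - K2 (extDeriv f) J x := by
  have hpi : (0 : ℝ) < 2 * Real.pi := by positivity
  have h := dT_Kop_gen (a := 0) (b := 2 * Real.pi) hpi.le hf hdf
    contDiff_A2 contDiff_dA2 hasDerivAt_A2
    (w := fun t => 1 - t / (2 * Real.pi)) (w' := fun _ => - (1 / (2 * Real.pi)))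
    (contDiff_const.sub (contDiff_id.div_const _)) continuous_const
    (fun t => by simpa using ((hasDerivAt_id t).div_const (2 * Real.pi)).const_sub 1) x J
  unfold K2
  rw [h]
  congr 1
  have e2 : ∀ y : ℂ, A2 (0, y) = M 0 y 1 := by
    intro y; simp [A2, ex]
  simp_rw [e2]
  rw [integral_const_mul, PA, PD]
  have e3 : (1 : ℝ) - 2 * Real.pi / (2 * Real.pi) = 0 := by
    rw [div_self hpi.ne', sub_self]
  simp only [e3, zero_mul, zero_div, sub_zero, one_mul, zero_sub, integral_neg]
  ring

lemma dT_K3g (x : ℂ × ℂ) (J : Idx (n + 1)) :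
    dT (K3 f) J x = - K3 (extDeriv f) J x := by
  have hpi : (0 : ℝ) < 2 * Real.pi := by positivity
  have h := dT_Kop_gen (a := 0) (b := 2 * Real.pi) hpi.le hf hdf
    contDiff_A2 contDiff_dA2 hasDerivAt_A2
    (w := fun _ => 1) (w' := fun _ => 0) contDiff_const continuous_const
    (fun t => hasDerivAt_const _ _) x J
  unfold K3
  rw [h]
  have e2 : ∀ y : ℂ, A2 (0, y) = M 0 y 1 := by
    intro y; simp [A2, ex]
  have e3 : ∀ y : ℂ, A2 (2 * Real.pi, y) = M 0 y 1 := by
    intro y
    have : ex (2 * Real.pi) = 1 := by simp [ex]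
    simp [A2, this]
  simp [e2, e3]

end gen

end Pool.Agent.H631R3
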