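import Pool.Agent.H631R3.Str3

/-! Radial integration of smooth functions, and the rotational period. -/

open scoped ContDiff Topology ENNReal NNReal
open MeasureTheory Set Filter

noncomputable section

namespace Pool.Agent.H631R3

lemma exists_lin_bound {a : ℂ → ℝ} (ha : ContDiff ℝ ∞ a) (h0 : a 0 = 0) :
    ∃ C : ℝ, 0 ≤ C ∧ ∀ w, ‖w‖ ≤ 1 → |a w| ≤ C * ‖w‖ := by
  obtain ⟨C, hC⟩ := (isCompact_closedBall (0 : ℂ) 1).exists_bound_of_continuousOn
    (ha.continuous_fderiv (by simp)).continuousOn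
  refine ⟨max C 0, le_max_right _ _, fun w hw => ?_⟩
  have h1 := (convex_closedBall (0 : ℂ) 1).norm_image_sub_le_of_norm_fderiv_le (𝕜 := ℝ)
    (f := a) (C := max C 0) (fun x _ => ha.differentiable (by simp) x)
    (fun x hx => (hC x hx).trans (le_max_left _ _)) (x := 0) (y := w) (by simp)
    (by simpa using hw)
  rw [h0, sub_zero, sub_zero] at h1
  exact h1

lemma Rad_bound {a : ℂ → ℝ} {C : ℝ} (hC : 0 ≤ C) (h : ∀ w, ‖w‖ ≤ 1 → |a w| ≤ C * ‖w‖) {z : ℂ}
    (hz : z ∈ Ann 0 1) : |Rad a z| ≤ C := by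
  have hz0 : 0 < ‖z‖ := hz.1
  unfold Rad
  have h1 : ∀ t ∈ uIoc (1 / (2 * ‖z‖)) 1, ‖a (t • z) / t‖ ≤ C * ‖z‖ := by
    intro t ht
    obtain ⟨ht0, htz⟩ := smul_mem_Ann le_rfl (by norm_num) (by norm_num) hz (uIoc_subset_uIcc ht)
    rw [norm_div, Real.norm_of_nonneg ht0.le, div_le_iff₀ ht0, Real.norm_eq_abs]
    refine (h _ htz.2.le).trans (le_of_eq ?_)
    rw [norm_smul, Real.norm_of_nonneg ht0.le]; ring
  have h2 := intervalIntegral.norm_integral_le_of_norm_le_const h1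
  rw [Real.norm_eq_abs] at h2
  refine h2.trans ?_
  have h3 : C * ‖z‖ * |1 - 1 / (2 * ‖z‖)| = C * |‖z‖ - 1 / 2| := by
    rw [mul_assoc]
    congr 1
    conv_lhs => rw [← abs_of_pos hz0]
    rw [← abs_mul]
    congr 1
    rw [abs_of_pos hz0]
    field_simp
  rw [h3]
  have h4 : |‖z‖ - 1 / 2| ≤ 1 := by
    rw [abs_le]; constructor <;> linarith [hz.2]
  nlinarith

lemma contDiffOn_Rad_ne {a : ℂ → ℝ} (ha : ContDiff ℝ ∞ a) :
    ContDiffOn ℝ ∞ (Rad a) {z | z ≠ 0} := by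
  intro z hz
  have hz0 : 0 < ‖z‖ := norm_pos_iff.2 hz
  have hm : z ∈ Ann 0 (‖z‖ + 1) := ⟨hz0, by linarith⟩
  exact ((contDiffOn_Rad le_rfl (by norm_num) (by linarith) ha.contDiffOn).contDiffAt
    ((isOpen_Ann 0 (‖z‖ + 1)).mem_nhds hm)).contDiffWithinAt

lemma contDiffOn_Rad_snd {a : ℂ → ℝ} (ha : ContDiff ℝ ∞ a) :
    ContDiffOn ℝ ∞ (fun x : ℂ × ℂ => Rad a x.2) {x | x.2 ≠ 0} :=
  (contDiffOn_Rad_ne ha).comp contDiff_snd.contDiffOn fun _ hx => hx

lemma contDiff_ab0 {f : ℂ × ℂ → Form 1} (hf : ContDiff ℝ ∞ f) : ContDiff ℝ ∞ (ab0 f) :=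
  contDiffOn_univ.1 (contDiffOn_ab0 isOpen_univ isOpen_univ hf.contDiffOn fun _ _ _ _ => mem_univ _)

lemma contDiff_ab1 {f : ℂ × ℂ → Form 2} (hf : ContDiff ℝ ∞ f) : ContDiff ℝ ∞ (ab1 f) :=
  contDiffOn_univ.1 (contDiffOn_ab1 isOpen_univ isOpen_univ hf.contDiffOn fun _ _ _ _ => mem_univ _)

lemma ab0_zero (f : ℂ × ℂ → Form 1) : ab0 f 0 = 0 := by
  unfold ab0
  have h1 : ∀ p : ℝ × ℂ, f (A2 p (0, 0)) (fun _ => A2 p (0, 0)) = 0 := by
    intro p
    have e : A2 p ((0 : ℂ), (0 : ℂ)) = 0 := (A2 p).map_zero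
    rw [e]
    exact (f 0).map_coord_zero 0 rfl
  simp_rw [h1, integral_zero, mul_zero]

lemma ab1_zero (f : ℂ × ℂ → Form 2) : ab1 f 0 = 0 := by
  unfold ab1; simp

/-- the averaged period -/
def cper (f : ℂ × ℂ → Form 1) (w : ℂ) : ℝ := K3 f idx0 (0, w)

lemma cper_eq (f : ℂ × ℂ → Form 1) (w : ℂ) :
    cper f w = ∫ p in KR, f (A2 p (0, w)) (fun _ => (Complex.I * (A2 p (0, w)).1,
      Complex.I * (A2 p (0, w)).2)) := by
  unfold cper K3 Kop
  refine integral_congr_ae (Eventually.of_forall fun p => ?_)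
  simp only
  unfold kern
  congr 1
  funext j
  refine Fin.cases ?_ (fun k => k.elim0) j
  rw [Fin.cons_zero]
  simp [A2, dA2, M_apply, mul_assoc]

lemma K3_eq_cper (f : ℂ × ℂ → Form 1) (I : Idx 0) (x : ℂ × ℂ) : K3 f I x = cper f x.2 := by
  unfold cper K3 Kop
  refine integral_congr_ae (Eventually.of_forall fun p => ?_)
  simp only
  unfold kern
  rw [A2_snd p x]
  congr 1
  funext j
  refine Fin.cases ?_ (fun k => k.elim0) j
  rw [Fin.cons_zero, Fin.cons_zero]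
  simp [dA2, M_apply]

lemma int_rot {G : ℂ × ℂ → ℝ} (hG : Continuous G) (θ : ℝ) (w : ℂ) :
    ∫ p in KR, G (A2 p (0, ex θ * w)) = ∫ p in KR, G (A2 p (0, w)) := by
  have hper : ∀ y : ℂ, Function.Periodic (fun σ : ℝ => G (A2 (σ, y) (0, w))) (2 * Real.pi) := by
    intro y σ
    have : ex (σ + 2 * Real.pi) = ex σ := by
      simp [ex, add_mul, Complex.exp_add]
    simp only [A2, this]
  have hsh : ∀ (σ : ℝ) (y : ℂ), A2 (σ, y) (0, ex θ * w) = A2 (σ + θ, y) (0, w) := by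
    intro σ y
    have : ex (σ + θ) = ex σ * ex θ := by
      simp [ex, add_mul, Complex.exp_add]
    simp only [A2, M_apply, this, mul_zero, zero_add]
    congr 1 <;> ring
  have hcont : ∀ w' : ℂ, ContinuousOn (fun p : ℝ × ℂ => G (A2 p (0, w'))) KR := by
    intro w'
    exact (hG.comp (contDiff_A2.continuous.clm_apply continuous_const)).continuousOn
  rw [fubini_K (hcont _), fubini_K (hcont _)]
  refine setIntegral_congr_fun isCompact_BB.isClosed.measurableSet fun y _ => ?_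
  have hpi : (0 : ℝ) ≤ 2 * Real.pi := by positivity
  simp only [hsh]
  rw [integral_Icc_eq_integral_Ioc, integral_Icc_eq_integral_Ioc,
    ← intervalIntegral.integral_of_le hpi, ← intervalIntegral.integral_of_le hpi]
  rw [intervalIntegral.integral_comp_add_right (fun σ : ℝ => G (A2 (σ, y) (0, w))) θ]
  have := (hper y).intervalIntegral_add_eq θ 0
  rw [zero_add] at this ⊢
  rw [add_comm (2 * Real.pi) θ]
  exact this

section cper

variable {f : ℂ × ℂ → Form 1} (hf : ContDiff ℝ ∞ f)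

include hf

lemma contDiff_cper : ContDiff ℝ ∞ (cper f) :=
  (contDiff_K3 hf idx0).comp (contDiff_const.prodMk contDiff_id)

lemma cper_rot (θ : ℝ) (w : ℂ) : cper f (ex θ * w) = cper f w := by
  rw [cper_eq, cper_eq]
  have hG : Continuous (fun x : ℂ × ℂ => f x (fun _ => (Complex.I * x.1, Complex.I * x.2))) := by
    have h1 : ContDiffOn ℝ ∞ (fun x : ℂ × ℂ => f x (fun _ => (Complex.I * x.1, Complex.I * x.2)))
        univ := by
      refine contDiffOn_eval hf.contDiffOn (contDiffOn_pi.2 fun _ => ?_)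
      exact (contDiff_const.mul contDiff_fst).contDiffOn.prodMk
        (contDiff_const.mul contDiff_snd).contDiffOn
    exact (contDiffOn_univ.1 h1).continuous
  exact int_rot hG θ w

lemma Rad_bper {z : ℂ} (hz : z ≠ 0) :
    Rad (fun w => fderiv ℝ (cper f) w w) z = cper f z - cper f (1 / 2) := by
  have hz0 : 0 < ‖z‖ := norm_pos_iff.2 hz
  have hd : 0 < 1 / (2 * ‖z‖) := by positivity
  have hpos : ∀ t ∈ uIcc (1 / (2 * ‖z‖)) 1, 0 < t := by
    intro t ht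
    rcases le_total (1 / (2 * ‖z‖)) 1 with h | h
    · rw [uIcc_of_le h] at ht; exact lt_of_lt_of_le hd ht.1
    · rw [uIcc_of_ge h] at ht; linarith [ht.1]
  have h1 : Rad (fun w => fderiv ℝ (cper f) w w) z
      = ∫ t in (1 / (2 * ‖z‖))..1, fderiv ℝ (cper f) (t • z) z := by
    unfold Rad
    refine intervalIntegral.integral_congr fun t ht => ?_
    have := hpos t ht
    simp only
    rw [map_smul, smul_eq_mul]
    field_simp
  have hdc := contDiff_cper hf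
  have h2 : ∫ t in (1 / (2 * ‖z‖))..1, fderiv ℝ (cper f) (t • z) z
      = cper f ((1 : ℝ) • z) - cper f ((1 / (2 * ‖z‖)) • z) := by
    refine intervalIntegral.integral_eq_sub_of_hasDerivAt
      (f := fun t : ℝ => cper f (t • z)) (f' := fun t => fderiv ℝ (cper f) (t • z) z) ?_ ?_
    · intro t _
      have hs : HasDerivAt (fun x : ℝ => x • z) z t := by
        simpa using (hasDerivAt_id t).smul_const z
      exact (hdc.differentiable (by simp) _).hasFDerivAt.comp_hasDerivAt t hs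
    · apply Continuous.intervalIntegrable
      exact ((hdc.continuous_fderiv (by simp)).comp (by fun_prop)).clm_apply continuous_const
  rw [h1, h2, one_smul]
  congr 1
  have h3 : (1 / (2 * ‖z‖)) • z = ex (Complex.arg z) * (1 / 2) := by
    have e : (‖z‖ : ℂ) * ex (Complex.arg z) = z := Complex.norm_mul_exp_arg_mul_I z
    have hz0' : (‖z‖ : ℂ) ≠ 0 := by exact_mod_cast hz0.ne'
    rw [Complex.real_smul]
    push_cast
    have e2 : ex (Complex.arg z) = z / ‖z‖ := by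
      rw [eq_div_iff hz0', mul_comm]; exact e
    rw [e2]
    field_simp
  rw [h3, cper_rot hf]

end cper

/-- pointwise estimate for the radial derivative of the period -/
lemma bper_ptwise : ∃ C : ℝ≥0, ∀ f : ℂ × ℂ → Form 1, ContDiff ℝ ∞ f →
    ContDiff ℝ ∞ (extDeriv f) → ∀ w : ℂ, ‖w‖ ≤ 1 → ‖fderiv ℝ (cper f) w w‖ₑ ^ 2
      ≤ C * (ENNReal.ofReal (‖w‖ ^ 2) * ∫⁻ p in KR, ‖extDeriv f (A2 p (0, w))‖ₑ ^ 2) := by
  obtain ⟨C, hC⟩ := Kop_bound (μ := (volume : Measure (ℝ × ℂ)))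
    isCompact_KR contDiff_A2.continuous
    (A' := fun p => (1 : ℝ) • dA2 p) (by simpa using contDiff_dA2.continuous) 1
  refine ⟨4 * (C + C), fun f hf hdf w hw => ?_⟩
  have hx : ‖((0 : ℂ), w)‖ ≤ 1 := max_le (by simp) hw
  have hfd : ∀ J : Idx 1, fderiv ℝ (K3 f idx0) (0, w) (frame (J 0)) = - K3 (extDeriv f) J (0, w) := by
    intro J
    rw [← dT_K3g hf hdf (0, w) J, dT_zero, idx0_unique (face J 0)]
  have hfd2 : fderiv ℝ (cper f) w w = fderiv ℝ (K3 f idx0) (0, w) (0, w) := by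
    have h1 : HasFDerivAt (K3 f idx0) (fderiv ℝ (K3 f idx0) (0, w)) (0, w) :=
      ((contDiff_K3 hf idx0).differentiable (by simp) _).hasFDerivAt
    have h2 : HasFDerivAt (cper f) ((fderiv ℝ (K3 f idx0) (0, w)).comp
        (ContinuousLinearMap.inr ℝ ℂ ℂ)) w :=
      h1.comp w (hasFDerivAt_prodMk_right 0 w)
    rw [h2.fderiv]
    simp
  set J2 : Idx 1 := idxOne.symm 2 with hJ2
  set J3 : Idx 1 := idxOne.symm 3 with hJ3
  have e2 : frame (J2 0) = (0, 1) := rfl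
  have e3 : frame (J3 0) = (0, Complex.I) := rfl
  have hw' : ((0 : ℂ), w) = w.re • frame (J2 0) + w.im • frame (J3 0) := by
    rw [e2, e3]
    ext <;> simp
  have h4 : fderiv ℝ (cper f) w w
      = w.re * (- K3 (extDeriv f) J2 (0, w)) + w.im * (- K3 (extDeriv f) J3 (0, w)) := by
    rw [hfd2]
    conv_lhs => rw [show fderiv ℝ (K3 f idx0) (0, w) (0, w) =
      fderiv ℝ (K3 f idx0) (0, w) (w.re • frame (J2 0) + w.im • frame (J3 0)) from by rw [← hw']]
    rw [map_add, map_smul, map_smul, hfd, hfd]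
    rfl
  have hb : ∀ J : Idx 1, ‖K3 (extDeriv f) J (0, w)‖ₑ ^ 2
      ≤ C * ∫⁻ p in KR, ‖extDeriv f (A2 p (0, w))‖ₑ ^ 2 := fun J =>
    hC (extDeriv f) hdf.continuous J (0, w) hx
  have hterm : ∀ (r : ℝ) (J : Idx 1), |r| ≤ ‖w‖ → ‖r * (- K3 (extDeriv f) J (0, w))‖ₑ ^ 2
      ≤ ENNReal.ofReal (‖w‖ ^ 2) * (C * ∫⁻ p in KR, ‖extDeriv f (A2 p (0, w))‖ₑ ^ 2) := by
    intro r J hr
    rw [enorm_mul, mul_pow, enorm_neg]
    refine mul_le_mul' ?_ (hb J)
    rw [← ofReal_norm, ← ENNReal.ofReal_pow (norm_nonneg _)]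
    apply ENNReal.ofReal_le_ofReal
    rw [Real.norm_eq_abs]
    gcongr
  rw [h4]
  calc ‖w.re * (- K3 (extDeriv f) J2 (0, w)) + w.im * (- K3 (extDeriv f) J3 (0, w))‖ₑ ^ 2
      ≤ (‖w.re * (- K3 (extDeriv f) J2 (0, w))‖ₑ + ‖w.im * (- K3 (extDeriv f) J3 (0, w))‖ₑ) ^ 2 := by
        gcongr; exact enorm_add_le _ _
    _ ≤ 4 * (‖w.re * (- K3 (extDeriv f) J2 (0, w))‖ₑ ^ 2
          + ‖w.im * (- K3 (extDeriv f) J3 (0, w))‖ₑ ^ 2) := add_sq_le_four _ _
    _ ≤ 4 * (ENNReal.ofReal (‖w‖ ^ 2) * (C * ∫⁻ p in KR, ‖extDeriv f (A2 p (0, w))‖ₑ ^ 2)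
          + ENNReal.ofReal (‖w‖ ^ 2) * (C * ∫⁻ p in KR, ‖extDeriv f (A2 p (0, w))‖ₑ ^ 2)) := by
        gcongr
        · exact hterm _ _ (Complex.abs_re_le_norm w)
        · exact hterm _ _ (Complex.abs_im_le_norm w)
    _ = _ := by
        push_cast; ring

end Pool.Agent.H631R3
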