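import Pool.Agent.H631R3.Str4

/-! Approximate solutions for forms smooth up to the boundary. -/

open scoped ContDiff Topology ENNReal NNReal
open MeasureTheory Set Filter

noncomputable section

namespace Pool.Agent.H631R3

/-- the form with given smooth coefficients -/
def frm {q : ℕ} (w : SM q) (x : ℂ × ℂ) : Form q := toForm fun J => w.1 J x

lemma frm_frame {q : ℕ} (w : SM q) (x : ℂ × ℂ) (J : Idx q) : frm w x (frame ∘ J) = w.1 J x :=
  toForm_frame _ J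

lemma contDiff_frm {q : ℕ} (w : SM q) : ContDiff ℝ ∞ (frm w) := by
  rw [← contDiffOn_univ]
  exact contDiff_toForm fun I => (w.2 I).contDiffOn

lemma extDeriv_frm {n : ℕ} (w : SM n) : extDeriv (frm w) = frm (dM n w) := by
  funext y
  apply form_ext
  intro J
  rw [frm_frame]
  exact extDeriv_toForm (u := w.1) (fun I => (w.2 I).differentiable (by simp) y) J

lemma contDiff_extDeriv_frm {n : ℕ} (w : SM n) : ContDiff ℝ ∞ (extDeriv (frm w)) := by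
  rw [extDeriv_frm]; exact contDiff_frm _

lemma int_frm (q : ℕ) : ∃ C : ℝ≥0, ∀ w : SM q,
    ∫⁻ x in Hartogs, ‖frm w x‖ₑ ^ 2 ≤ C * ‖SL q w‖ₑ ^ 2 := by
  obtain ⟨C, hC⟩ := toForm_bound q
  refine ⟨C, fun w => ?_⟩
  have h1 : ‖SL q w‖ₑ ^ 2 = ∑ J, ∫⁻ x in Hartogs, ‖w.1 J x‖ₑ ^ 2 := mk_enorm_sq (SM_LL w)
  rw [h1, ← lintegral_finsetSum', ← lintegral_const_mul' _ _ ENNReal.coe_ne_top]
  · exact lintegral_mono fun x => hC _
  · intro J _
    exact ((w.2 J).continuous.enorm.measurable.pow_const 2).aemeasurable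

lemma mk_bound {q : ℕ} {u : Idx q → ℂ × ℂ → ℝ} (hu : LL u) {B : ℝ≥0∞}
    (h : ∀ J, ∫⁻ x in Hartogs, ‖u J x‖ₑ ^ 2 ≤ B) :
    ‖mk u hu‖ₑ ^ 2 ≤ (Fintype.card (Idx q) : ℝ≥0) * B := by
  rw [mk_enorm_sq]
  calc ∑ J, ∫⁻ x in Hartogs, ‖u J x‖ₑ ^ 2 ≤ ∑ _J : Idx q, B := Finset.sum_le_sum fun J _ => h J
    _ = _ := by
      rw [Finset.sum_const, Finset.card_univ, nsmul_eq_mul]
      simp

lemma norm_le_of_enorm_sq {E F : Type*} [NormedAddCommGroup E] [NormedAddCommGroup F] {a : E} {b : F}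
    {C : ℝ≥0} (h : ‖a‖ₑ ^ 2 ≤ C * ‖b‖ₑ ^ 2) : ‖a‖ ≤ Real.sqrt C * ‖b‖ := by
  have h1 : ENNReal.ofReal (‖a‖ ^ 2) ≤ ENNReal.ofReal (C * ‖b‖ ^ 2) := by
    rw [ENNReal.ofReal_mul (NNReal.coe_nonneg C), ENNReal.ofReal_pow (norm_nonneg _),
      ENNReal.ofReal_pow (norm_nonneg _), ofReal_norm, ofReal_norm, ENNReal.ofReal_coe_nnreal]
    exact h
  have h2 : ‖a‖ ^ 2 ≤ C * ‖b‖ ^ 2 := (ENNReal.ofReal_le_ofReal_iff (by positivity)).1 h1
  have h3 : (C : ℝ) * ‖b‖ ^ 2 = (Real.sqrt C * ‖b‖) ^ 2 := by rw [mul_pow, Real.sq_sqrt (NNReal.coe_nonneg C)]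
  rw [h3] at h2
  exact (abs_le_of_sq_le_sq' h2 (by positivity)).2

/-- approximate solutions modulo the exterior derivative of the data -/
def Approx (n : ℕ) : Prop := ∃ D : ℝ, 0 ≤ D ∧ ∀ w : SM (n + 1), ∃ u g, (u, g) ∈ GS n ∧
  ‖u‖ ≤ D * ‖SL (n + 1) w‖ ∧ ‖g - vB • SL (n + 1) w‖ ≤ D * ‖SL (n + 2) (dM (n + 1) w)‖

lemma exists_smooth {n : ℕ} {v : L2 n} (hv : (v, (0 : L2 (n + 1))) ∈ GS n) {δ : ℝ} (hδ : 0 < δ) :
    ∃ w : SM n, ‖SL n w - v‖ < δ ∧ ‖SL (n + 1) (dM n w)‖ < δ := by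
  have h1 : (v, (0 : L2 (n + 1))) ∈ closure (GS0 n : Set (L2 n × L2 (n + 1))) := hv
  obtain ⟨_, ⟨w, rfl⟩, h2⟩ := Metric.mem_closure_iff.1 h1 δ hδ
  refine ⟨w, ?_, ?_⟩
  · rw [← dist_eq_norm, dist_comm]
    exact lt_of_le_of_lt (le_max_left _ _) h2
  · have h3 : dist (0 : L2 (n + 1)) (SL (n + 1) (dM n w)) < δ := lt_of_le_of_lt (le_max_right _ _) h2
    rwa [dist_zero_left] at h3

lemma solve_of_Approx {n : ℕ} (h : Approx n) {v : L2 (n + 1)} (hv : (v, (0 : L2 (n + 2))) ∈ GS (n + 1)) :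
    ∃ u, (u, v) ∈ GS n := by
  obtain ⟨D, hD0, hD⟩ := h
  have hvB := vB_pos
  obtain ⟨u, hu⟩ := solve_of_approx (isClosed_GS n) (v := vB • v) (C := D * (‖v‖ + 1)) (by
    intro ε hε
    set δ := min 1 (ε / (D + vB)) with hδ
    have hDv : 0 < D + vB := by linarith
    have hδ0 : 0 < δ := lt_min one_pos (by positivity)
    obtain ⟨w, hw1, hw2⟩ := exists_smooth hv hδ0
    obtain ⟨u, g, hug, h1, h2⟩ := hD w
    have hδ1 : δ ≤ 1 := min_le_left _ _
    have hδ2 : δ * (D + vB) ≤ ε := by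
      have := min_le_right 1 (ε / (D + vB))
      rwa [← hδ, le_div_iff₀ hDv] at this
    refine ⟨u, g, hug, ?_, ?_⟩
    · have e : g - vB • v = (g - vB • SL (n + 1) w) + vB • (SL (n + 1) w - v) := by
        rw [smul_sub]; abel
      rw [e]
      refine (norm_add_le _ _).trans ?_
      rw [norm_smul, Real.norm_of_nonneg hvB.le]
      have h3 : ‖g - vB • SL (n + 1) w‖ ≤ D * δ := h2.trans (by gcongr)
      have h4 : vB * ‖SL (n + 1) w - v‖ ≤ vB * δ := by gcongr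
      linarith
    · refine h1.trans ?_
      gcongr
      have e : SL (n + 1) w = v + (SL (n + 1) w - v) := by abel
      rw [e]
      refine (norm_add_le _ _).trans ?_
      linarith)
  refine ⟨vB⁻¹ • u, ?_⟩
  have := (GS n).smul_mem vB⁻¹ hu
  rw [Prod.smul_mk, smul_smul, inv_mul_cancel₀ hvB.ne', one_smul] at this
  exact this

lemma bound_chain {q : ℕ} {x y z : ℝ≥0∞} {C1 C2 : ℝ≥0} (h1 : x ≤ (Fintype.card (Idx q) : ℝ≥0) * y)
    (h2 : y ≤ C1 * z) {t : ℝ≥0∞} (h3 : z ≤ C2 * t) :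
    x ≤ ((Fintype.card (Idx q) : ℝ≥0) * (C1 * C2) : ℝ≥0) * t := by
  refine h1.trans ?_
  rw [ENNReal.coe_mul, ENNReal.coe_mul, mul_assoc, mul_assoc]
  gcongr
  exact h2.trans (by gcongr)

/-- the homotopy operator on smooth tuples -/
def K1M {n : ℕ} (w : SM (n + 1)) : SM n := ⟨K1 (frm w), fun I => contDiff_K1 (contDiff_frm w) I⟩

lemma K1M_bound (n : ℕ) : ∃ C : ℝ≥0, ∀ w : SM (n + 1),
    ‖SL n (K1M w)‖ₑ ^ 2 ≤ C * ‖SL (n + 1) w‖ₑ ^ 2 := by
  obtain ⟨C1, h1⟩ := K1_int n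
  obtain ⟨C2, h2⟩ := int_frm (n + 1)
  refine ⟨(Fintype.card (Idx n) : ℝ≥0) * (C1 * C2), fun w => ?_⟩
  refine bound_chain (mk_bound (SM_LL (K1M w)) fun J => ?_) le_rfl (h2 w)
  have h3 := h1 0 1 le_rfl (by norm_num) le_rfl (frm w) (contDiff_frm w).continuous J
  rw [Om_zero_one] at h3
  exact h3

lemma approx_high (n : ℕ) : Approx (n + 2) := by
  obtain ⟨C1, h1⟩ := K1M_bound (n + 2)
  obtain ⟨C2, h2⟩ := K1M_bound (n + 3)
  set D := max (Real.sqrt C1) (Real.sqrt C2) with hD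
  refine ⟨D, (Real.sqrt_nonneg _).trans (le_max_left _ _), fun w => ?_⟩
  refine ⟨SL (n + 2) (K1M w), SL (n + 3) (dM (n + 2) (K1M w)), mem_GS _, ?_, ?_⟩
  · refine (norm_le_of_enorm_sq (h1 w)).trans ?_
    gcongr
    exact le_max_left _ _
  · have e : SL (n + 3) (dM (n + 2) (K1M w)) - vB • SL (n + 3) w
        = - SL (n + 3) (K1M (dM (n + 3) w)) := by
      rw [← map_smul, ← map_neg, ← map_sub]
      congr 1
      apply Subtype.ext
      funext J x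
      change dT (K1 (frm w)) J x - vB * w.1 J x = - K1 (frm (dM (n + 3) w)) J x
      obtain ⟨k, hk⟩ := exists_lt_two J
      rw [dT_K1g (contDiff_frm w) (contDiff_extDeriv_frm w), PD_eq_zero _ hk, frm_frame,
        extDeriv_frm]
      ring
    rw [e, norm_neg]
    refine (norm_le_of_enorm_sq (h2 (dM (n + 3) w))).trans ?_
    gcongr
    exact le_max_right _ _

lemma le_mul_inv {x : ℂ × ℂ} (hx : x ∈ Hartogs) {B : ℝ} (hB : 0 ≤ B) : B ≤ B * ‖x.2‖⁻¹ := by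
  have h1 : 0 < ‖x.2‖ := norm_pos_iff.2 (Hartogs_ne hx)
  have h2 : 1 ≤ ‖x.2‖⁻¹ := (one_le_inv₀ h1).2 hx.2.le
  nlinarith

lemma abs_thc_le {n : ℕ} (J : Idx (n + 1)) (x : ℂ × ℂ) : |thc J x| ≤ ‖x.2‖⁻¹ := by
  unfold thc dth
  refine (Complex.abs_im_le_norm _).trans ?_
  rw [norm_div, div_eq_mul_inv]
  have : ‖(frame (J 0)).2‖ ≤ 1 := by
    rw [← norm_frame (J 0)]; exact norm_snd_le _
  have h0 : 0 ≤ ‖x.2‖⁻¹ := by positivity
  nlinarith

lemma approx_mid : Approx 1 := by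
  obtain ⟨C1, h1⟩ := K1_int 1
  obtain ⟨C2, h2⟩ := U1_int
  obtain ⟨C3, h3⟩ := int_frm 2
  obtain ⟨C4, h4⟩ := K1M_bound 2
  set C5 : ℝ≥0 := (Fintype.card (Idx 1) : ℝ≥0) * ((4 * (C1 + C2)) * C3) with hC5
  set D := max (Real.sqrt C5) (Real.sqrt C4) with hD
  refine ⟨D, (Real.sqrt_nonneg _).trans (le_max_left _ _), fun w => ?_⟩
  have hf := contDiff_frm w
  have hdf := contDiff_extDeriv_frm w
  obtain ⟨B0, hB0, hB0'⟩ := exists_lin_bound (contDiff_ab1 hf) (ab1_zero _)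
  have hB1 : ∀ I : Idx 1, ∃ C : ℝ, 0 ≤ C ∧ ∀ x ∈ Hartogs, |K1 (frm w) I x| ≤ C := fun I =>
    exists_bound_T (contDiff_K1 hf I).continuous
  choose B hBn hB using hB1
  set U : Idx 1 → ℂ × ℂ → ℝ := fun I x => K1 (frm w) I x + U1 (frm w) I x with hU
  set g : Idx 2 → ℂ × ℂ → ℝ := fun J x => vB * w.1 J x + (-1) * K1 (frm (dM 2 w)) J x with hg
  have hU1s : ∀ I, ContDiffOn ℝ ∞ (U1 (frm w) I) {x | x.2 ≠ 0} := fun I =>
    (contDiffOn_Rad_snd (contDiff_ab1 hf)).mul (contDiffOn_thc I)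
  have hUs : ∀ I, ContDiffOn ℝ ∞ (U I) {x | x.2 ≠ 0} := fun I =>
    (contDiff_K1 hf I).contDiffOn.add (hU1s I)
  set BB := (∑ I, B I) + B0 with hBB
  have hBB0 : 0 ≤ BB := add_nonneg (Finset.sum_nonneg fun I _ => hBn I) hB0
  have hUb : ∀ I, ∀ x ∈ Hartogs, |U I x| ≤ BB * ‖x.2‖⁻¹ := by
    intro I x hx
    have e1 : |K1 (frm w) I x| ≤ (∑ I, B I) * ‖x.2‖⁻¹ := by
      refine ((hB I x hx).trans (Finset.single_le_sum (fun I _ => hBn I) (Finset.mem_univ I))).trans ?_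
      exact le_mul_inv hx (Finset.sum_nonneg fun I _ => hBn I)
    have e2 : |U1 (frm w) I x| ≤ B0 * ‖x.2‖⁻¹ := by
      have e3 : U1 (frm w) I x = Rad (ab1 (frm w)) x.2 * thc I x := rfl
      rw [e3, abs_mul]
      have hxA : x.2 ∈ Ann 0 1 := by
        have := hx; rw [← Om_zero_one] at this; exact this.1
      exact mul_le_mul (Rad_bound hB0 hB0' hxA) (abs_thc_le I x) (abs_nonneg _) hB0
    calc |U I x| ≤ |K1 (frm w) I x| + |U1 (frm w) I x| := abs_add_le _ _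
      _ ≤ _ := by rw [hBB, add_mul]; exact add_le_add e1 e2
  have hLU : LL U := fun I => memLp_of_bound ((hUs I).continuousOn.mono fun x hx => Hartogs_ne hx)
    (hUb I)
  have hLg : LL g := fun J => memLp_of_continuous
    ((contDiff_const.mul (w.2 J)).add (contDiff_const.mul (contDiff_K1 (contDiff_frm _) J))).continuous
  have hdU : ∀ x ∈ Hartogs, ∀ J, dT U J x = g J x := by
    intro x hx J
    have hx' : x ∈ Om 0 1 := by rw [Om_zero_one]; exact hx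
    rw [hU, dT_add (fun I => (contDiff_K1 hf I).differentiable (by simp) x)
      (fun I => ((hU1s I).contDiffAt (isOpen_ne.mem_nhds (Hartogs_ne hx))).differentiableAt (by simp)),
      dT_K1g hf hdf, dT_U1 le_rfl (by norm_num) (by norm_num) hf.contDiffOn hx', frm_frame,
      extDeriv_frm]
    ring
  refine ⟨mk U hLU, mk g hLg, lemmaW hUs hBB0 hUb hLU hdU hLg, ?_, ?_⟩
  · have hmO : MeasurableSet Hartogs := measurableSet_Hartogs
    have e1 : ‖mk U hLU‖ₑ ^ 2 ≤ C5 * ‖SL 2 w‖ₑ ^ 2 := by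
      refine bound_chain (mk_bound hLU fun I => ?_) le_rfl (h3 w)
      refine (int_add_bound _ ((contDiff_K1 hf I).continuous.aemeasurable)).trans ?_
      have e2 := h1 0 1 le_rfl (by norm_num) le_rfl (frm w) hf.continuous I
      have e3 := h2 0 1 le_rfl (by norm_num) (by norm_num) le_rfl (frm w) hf I
      rw [Om_zero_one] at e2 e3
      push_cast
      rw [mul_assoc, add_mul]
      gcongr
    refine (norm_le_of_enorm_sq e1).trans ?_
    gcongr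
    exact le_max_left _ _
  · have e : mk g hLg - vB • SL 2 w = - SL 2 (K1M (dM 2 w)) := by
      have h6 : LL (fun J x => vB * w.1 J x) := (SM_LL w).smul vB
      have h7 : LL (fun J x => (-1) * K1 (frm (dM 2 w)) J x) := (SM_LL (K1M (dM 2 w))).smul (-1)
      have h8 : mk g hLg = mk (fun J x => vB * w.1 J x) h6
          + mk (fun J x => (-1) * K1 (frm (dM 2 w)) J x) h7 := mk_add h6 h7 hLg
      have h9 : mk (fun J x => vB * w.1 J x) h6 = vB • SL 2 w := mk_smul vB (SM_LL w) h6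
      have h10 : mk (fun J x => (-1) * K1 (frm (dM 2 w)) J x) h7
          = (-1 : ℝ) • SL 2 (K1M (dM 2 w)) := mk_smul (-1) (SM_LL (K1M (dM 2 w))) h7
      rw [h8, h9, h10]
      simp
    rw [e, norm_neg]
    refine (norm_le_of_enorm_sq (h4 (dM 2 w))).trans ?_
    gcongr
    exact le_max_right _ _

end Pool.Agent.H631R3
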