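import Pool.Agent.H631R3.Solution

/-! Test forms, the formal adjoint, and the weak exterior derivative by duality. -/

open scoped ContDiff Topology ENNReal NNReal
open MeasureTheory Set Filter

noncomputable section

namespace Pool.Agent.H631R3

lemma isOpen_Hartogs : IsOpen Hartogs := by
  rw [← Om_zero_one]; exact isOpen_Om 0 1

lemma measurableSet_Hartogs : MeasurableSet Hartogs := isOpen_Hartogs.measurableSet

/-- Lebesgue measure on the Hartogs triangle -/
abbrev μT : Measure (ℂ × ℂ) := (volume : Measure (ℂ × ℂ)).restrict Hartogs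

lemma IsTest.zero {U : Set (ℂ × ℂ)} : IsTest U (fun _ => 0) :=
  ⟨contDiff_const, HasCompactSupport.zero, by
    have : tsupport (fun _ : ℂ × ℂ => (0 : ℝ)) = ∅ := by
      rw [tsupport_eq_empty_iff]; rfl
    rw [this]; exact empty_subset _⟩

lemma IsTest.add {U : Set (ℂ × ℂ)} {φ ψ : ℂ × ℂ → ℝ} (h1 : IsTest U φ) (h2 : IsTest U ψ) :
    IsTest U (fun x => φ x + ψ x) :=
  ⟨h1.1.add h2.1, h1.2.1.add h2.2.1, (tsupport_add φ ψ).trans (union_subset h1.2.2 h2.2.2)⟩

lemma IsTest.mul_left {U : Set (ℂ × ℂ)} {φ g : ℂ × ℂ → ℝ} (hg : ContDiff ℝ ∞ g)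
    (h1 : IsTest U φ) : IsTest U (fun x => g x * φ x) :=
  ⟨hg.mul h1.1, h1.2.1.mul_left, (tsupport_mul_subset_right (f := g) (g := φ)).trans h1.2.2⟩

lemma IsTest.smul {U : Set (ℂ × ℂ)} {φ : ℂ × ℂ → ℝ} (c : ℝ) (h1 : IsTest U φ) :
    IsTest U (fun x => c * φ x) := h1.mul_left contDiff_const

lemma IsTest.fderiv_apply {U : Set (ℂ × ℂ)} {φ : ℂ × ℂ → ℝ} (h1 : IsTest U φ) (v : ℂ × ℂ) :
    IsTest U (fun x => fderiv ℝ φ x v) :=
  ⟨(h1.1.fderiv_right (m := ∞) (by simp)).clm_apply contDiff_const, h1.2.1.fderiv_apply ℝ v,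
    (tsupport_fderiv_apply_subset ℝ v).trans h1.2.2⟩

lemma IsTest.sum {ι : Type*} {U : Set (ℂ × ℂ)} (s : Finset ι) {φ : ι → ℂ × ℂ → ℝ}
    (h : ∀ i ∈ s, IsTest U (φ i)) : IsTest U (fun x => ∑ i ∈ s, φ i x) := by
  classical
  induction s using Finset.induction_on with
  | empty => simpa using IsTest.zero
  | insert a s ha ih =>
    simp_rw [Finset.sum_insert ha]
    exact (h a (Finset.mem_insert_self a s)).add (ih fun i hi => h i (Finset.mem_insert_of_mem hi))

/-- tuples of test functions on the Hartogs triangle -/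
def TM (q : ℕ) : Submodule ℝ (Idx q → ℂ × ℂ → ℝ) where
  carrier := {ψ | ∀ J, IsTest Hartogs (ψ J)}
  add_mem' := fun h1 h2 J => (h1 J).add (h2 J)
  zero_mem' := fun _ => IsTest.zero
  smul_mem' := fun c _ h J => (h J).smul c

/-- coefficient function of a tuple -/
def tup {q : ℕ} (ψ : Idx q → ℂ × ℂ → ℝ) (z : ℂ × ℂ) : Coef q := WithLp.toLp 2 fun J => ψ J z

lemma tup_apply {q : ℕ} (ψ : Idx q → ℂ × ℂ → ℝ) (z : ℂ × ℂ) (J : Idx q) : tup ψ z J = ψ J z := rfl

lemma memLp_tup {q : ℕ} {ψ : Idx q → ℂ × ℂ → ℝ} {μ : Measure (ℂ × ℂ)}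
    (h : ∀ J, MemLp (ψ J) 2 μ) : MemLp (tup ψ) 2 μ := by
  rw [memLp_piLp_iff]
  exact h

lemma TM_memLp {q : ℕ} (ψ : TM q) (J : Idx q) (μ : Measure (ℂ × ℂ)) [IsFiniteMeasureOnCompacts μ] :
    MemLp (ψ.1 J) 2 μ :=
  (ψ.2 J).1.continuous.memLp_of_hasCompactSupport (ψ.2 J).2.1

/-- test tuples as square integrable forms -/
def TL (q : ℕ) : TM q →ₗ[ℝ] L2 q where
  toFun := fun ψ => (memLp_tup fun J => TM_memLp ψ J μT).toLp (tup ψ.1)
  map_add' := fun ψ χ => by
    rw [← MemLp.toLp_add]; rfl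
  map_smul' := fun c ψ => by
    rw [RingHom.id_apply, ← MemLp.toLp_const_smul]; rfl

lemma TL_coe {q : ℕ} (ψ : TM q) : ∀ᵐ z ∂μT, (TL q ψ) z = tup ψ.1 z :=
  MemLp.coeFn_toLp (memLp_tup fun J => TM_memLp ψ J μT)

lemma L2_memLp_coord {q : ℕ} (f : L2 q) (J : Idx q) : MemLp (fun z => f z J) 2 μT :=
  (memLp_piLp_iff.1 (Lp.memLp f)) J

lemma inner_L2 {q : ℕ} (f g : L2 q) : inner ℝ f g = ∑ J, ∫ z in Hartogs, f z J * g z J := by
  rw [L2.inner_def, ← integral_finsetSum]
  · refine integral_congr_ae (Eventually.of_forall fun z => ?_)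
    simp only [PiLp.inner_apply]
    refine Finset.sum_congr rfl fun J _ => ?_
    simp [mul_comm]
  · intro J _
    exact (L2_memLp_coord f J).integrable_mul (L2_memLp_coord g J)

lemma inner_TL {q : ℕ} (f : L2 q) (ψ : TM q) :
    inner ℝ f (TL q ψ) = ∑ J, ∫ z in Hartogs, f z J * ψ.1 J z := by
  rw [inner_L2]
  refine Finset.sum_congr rfl fun J _ => integral_congr_ae ?_
  filter_upwards [TL_coe ψ] with z hz
  rw [hz, tup_apply]

/-- formal adjoint of the exterior derivative -/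
def codT {n : ℕ} (ψ : Idx (n + 1) → ℂ × ℂ → ℝ) (I : Idx n) (x : ℂ × ℂ) : ℝ :=
  - ∑ J : Idx (n + 1), ∑ k : Fin (n + 1),
    if face J k = I then (-1 : ℝ) ^ (k : ℕ) * fderiv ℝ (ψ J) x (frame (J k)) else 0

lemma sum_mul_codT {n : ℕ} (ψ : Idx (n + 1) → ℂ × ℂ → ℝ) (a : Idx n → ℝ) (x : ℂ × ℂ) :
    ∑ I, a I * codT ψ I x
      = - ∑ J : Idx (n + 1), ∑ k : Fin (n + 1),
        (-1 : ℝ) ^ (k : ℕ) * (a (face J k) * fderiv ℝ (ψ J) x (frame (J k))) := by
  unfold codT
  simp_rw [mul_neg]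
  rw [Finset.sum_neg_distrib]
  congr 1
  simp_rw [Finset.mul_sum]
  rw [Finset.sum_comm]
  refine Finset.sum_congr rfl fun J _ => ?_
  rw [Finset.sum_comm]
  refine Finset.sum_congr rfl fun k _ => ?_
  simp_rw [mul_ite, mul_zero]
  rw [Finset.sum_ite_eq]
  simp only [Finset.mem_univ, if_true]
  ring

lemma isTest_codT {n : ℕ} {U : Set (ℂ × ℂ)} {ψ : Idx (n + 1) → ℂ × ℂ → ℝ}
    (h : ∀ J, IsTest U (ψ J)) (I : Idx n) : IsTest U (codT ψ I) := by
  have h1 : IsTest U (fun x => (-1) * ∑ J : Idx (n + 1), ∑ k : Fin (n + 1),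
    if face J k = I then (-1 : ℝ) ^ (k : ℕ) * fderiv ℝ (ψ J) x (frame (J k)) else 0) := by
    apply IsTest.smul
    refine IsTest.sum _ fun J _ => IsTest.sum _ fun k _ => ?_
    split_ifs
    · exact ((h J).fderiv_apply _).smul _
    · exact IsTest.zero
  have e : codT ψ I = fun x => (-1) * ∑ J : Idx (n + 1), ∑ k : Fin (n + 1),
    if face J k = I then (-1 : ℝ) ^ (k : ℕ) * fderiv ℝ (ψ J) x (frame (J k)) else 0 := by
    funext x; rw [neg_one_mul]; rfl
  rw [e]; exact h1

/-- the formal adjoint on test tuples -/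
def codM (n : ℕ) : TM (n + 1) →ₗ[ℝ] TM n where
  toFun := fun ψ => ⟨codT ψ.1, fun I => isTest_codT ψ.2 I⟩
  map_add' := fun ψ χ => by
    apply Subtype.ext
    funext I x
    change codT (ψ.1 + χ.1) I x = codT ψ.1 I x + codT χ.1 I x
    unfold codT
    rw [← neg_add, ← Finset.sum_add_distrib]
    congr 1
    refine Finset.sum_congr rfl fun J _ => ?_
    rw [← Finset.sum_add_distrib]
    refine Finset.sum_congr rfl fun k _ => ?_
    split_ifs
    · have h1 : DifferentiableAt ℝ (ψ.1 J) x := (ψ.2 J).1.differentiable (by simp) x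
      have h2 : DifferentiableAt ℝ (χ.1 J) x := (χ.2 J).1.differentiable (by simp) x
      have h3 : fderiv ℝ ((ψ.1 + χ.1) J) x = fderiv ℝ (ψ.1 J) x + fderiv ℝ (χ.1 J) x :=
        fderiv_add h1 h2
      rw [h3]
      simp only [add_apply]
      ring
    · simp
  map_smul' := fun c ψ => by
    apply Subtype.ext
    funext I x
    change codT (c • ψ.1) I x = c * codT ψ.1 I x
    unfold codT
    rw [mul_neg, Finset.mul_sum]
    congr 1
    refine Finset.sum_congr rfl fun J _ => ?_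
    rw [Finset.mul_sum]
    refine Finset.sum_congr rfl fun k _ => ?_
    split_ifs
    · have h1 : DifferentiableAt ℝ (ψ.1 J) x := (ψ.2 J).1.differentiable (by simp) x
      have h3 : fderiv ℝ ((c • ψ.1) J) x = c • fderiv ℝ (ψ.1 J) x := fderiv_const_smul h1 c
      rw [h3]
      simp only [smul_apply, smul_eq_mul]
      ring
    · simp

/-- weak exterior derivative by duality with test tuples -/
lemma weakD_iff {n : ℕ} (f : L2 n) (g : L2 (n + 1)) :
    WeakD f g ↔ ∀ ψ : TM (n + 1), inner ℝ g (TL (n + 1) ψ) = inner ℝ f (TL n (codM n ψ)) := by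
  have key : ∀ ψ : TM (n + 1), inner ℝ f (TL n (codM n ψ)) =
      ∑ J : Idx (n + 1), - ∑ k : Fin (n + 1), (-1 : ℝ) ^ (k : ℕ) *
        ∫ z in Hartogs, f z (face J k) * fderiv ℝ (ψ.1 J) z (frame (J k)) := by
    intro ψ
    have hint : ∀ (J : Idx (n + 1)) (k : Fin (n + 1)),
        Integrable (fun z => f z (face J k) * fderiv ℝ (ψ.1 J) z (frame (J k))) μT := by
      intro J k
      have h2 : MemLp (fun z => fderiv ℝ (ψ.1 J) z (frame (J k))) 2 μT :=
        ((ψ.2 J).fderiv_apply _).1.continuous.memLp_of_hasCompactSupport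
        ((ψ.2 J).fderiv_apply _).2.1
      exact (L2_memLp_coord f _).integrable_mul h2
    rw [inner_TL, ← integral_finsetSum]
    · have h1 : ∀ z : ℂ × ℂ, ∑ I, f z I * (codM n ψ).1 I z
        = - ∑ J : Idx (n + 1), ∑ k : Fin (n + 1),
        (-1 : ℝ) ^ (k : ℕ) * (f z (face J k) * fderiv ℝ (ψ.1 J) z (frame (J k))) := fun z =>
        sum_mul_codT ψ.1 (fun I => f z I) z
      simp_rw [h1]
      rw [integral_neg, integral_finsetSum, Finset.sum_neg_distrib]
      · congr 1
        refine Finset.sum_congr rfl fun J _ => ?_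
        rw [integral_finsetSum]
        · refine Finset.sum_congr rfl fun k _ => ?_
          rw [integral_const_mul]
        · intro k _; exact (hint J k).const_mul _
      · intro J _
        exact integrable_finsetSum _ fun k _ => (hint J k).const_mul _
    · intro I _
      exact (L2_memLp_coord f I).integrable_mul (TM_memLp (codM n ψ) I μT)
  constructor
  · intro h ψ
    rw [inner_TL, key]
    exact Finset.sum_congr rfl fun J _ => h J (ψ.1 J) (ψ.2 J)
  · intro h J φ hφ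
    classical
    set ψ : TM (n + 1) := ⟨fun J' => if J' = J then φ else fun _ => 0, fun J' => by
      by_cases hJJ : J' = J
      · simp only [hJJ, if_true]; exact hφ
      · simp only [hJJ, if_false]; exact IsTest.zero⟩ with hψ
    have h1 := h ψ
    rw [inner_TL, key] at h1
    rw [Finset.sum_eq_single J, Finset.sum_eq_single J] at h1
    · simpa [hψ] using h1
    · intro J' _ hJ'
      have : ψ.1 J' = fun _ => 0 := by simp [hψ, hJ']
      rw [this]
      simp
    · intro hJ; exact absurd (Finset.mem_univ J) hJ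
    · intro J' _ hJ'
      have : ψ.1 J' = fun _ => 0 := by simp [hψ, hJ']
      rw [this]
      simp
    · intro hJ; exact absurd (Finset.mem_univ J) hJ

end Pool.Agent.H631R3
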