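import Pool.Agent.H631R3.Moll
import Pool.Agent.H631R3.Hilb

/-! Weak solvability of `du = f`. -/

open scoped ContDiff Topology ENNReal NNReal
open MeasureTheory Set Filter

noncomputable section

namespace Pool.Agent.H631R3

lemma integrable_mul_test {U : Set (ℂ × ℂ)} {a φ : ℂ × ℂ → ℝ} (ha : ContinuousOn a U)
    (hφ : IsTest U φ) : Integrable (fun x => a x * φ x) volume := by
  have hsub : Function.support (fun x => a x * φ x) ⊆ tsupport φ := by
    intro x hx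
    apply subset_tsupport
    intro h
    apply hx
    simp only
    rw [h, mul_zero]
  rw [← integrableOn_iff_integrable_of_support_subset hsub]
  exact ((ha.mono hφ.2.2).mul hφ.1.continuous.continuousOn).integrableOn_compact hφ.2.1

lemma ibp {n : ℕ} {U : Set (ℂ × ℂ)} (hU : IsOpen U) {u : Idx n → ℂ × ℂ → ℝ}
    (hu : ∀ I, ContDiffOn ℝ ∞ (u I) U) {ψ : Idx (n + 1) → ℂ × ℂ → ℝ}
    (hψ : ∀ J, IsTest U (ψ J)) :
    ∑ J, ∫ x, dT u J x * ψ J x = ∑ I, ∫ x, u I x * codT ψ I x := by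
  have hfd : ∀ I v, ContinuousOn (fun x => fderiv ℝ (u I) x v) U := fun I v =>
    ((hu I).continuousOn_fderiv_of_isOpen hU (by simp)).clm_apply continuousOn_const
  have hR : ∑ I, ∫ x, u I x * codT ψ I x = ∫ x, ∑ I, u I x * codT ψ I x := by
    rw [integral_finsetSum]
    intro I _
    exact integrable_mul_test (hu I).continuousOn (isTest_codT hψ I)
  have h1 : ∀ x : ℂ × ℂ, ∑ I, u I x * codT ψ I x = - ∑ J : Idx (n + 1), ∑ k : Fin (n + 1),
        (-1 : ℝ) ^ (k : ℕ) * (u (face J k) x * fderiv ℝ (ψ J) x (frame (J k))) := fun x =>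
    sum_mul_codT ψ (fun I => u I x) x
  rw [hR]
  simp_rw [h1]
  rw [integral_neg, integral_finsetSum, ← Finset.sum_neg_distrib]
  · refine Finset.sum_congr rfl fun J _ => ?_
    rw [integral_finsetSum]
    · unfold dT
      simp_rw [Finset.sum_mul]
      rw [integral_finsetSum, ← Finset.sum_neg_distrib]
      · refine Finset.sum_congr rfl fun k _ => ?_
        simp_rw [mul_assoc]
        rw [integral_const_mul, integral_const_mul,
          integral_mul_fderiv_eq_neg_fderiv_mul_of_integrable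
            (integrable_mul_test (hfd _ _) (hψ J))
            (integrable_mul_test (hu _).continuousOn ((hψ J).fderiv_apply _))
            (integrable_mul_test (hu _).continuousOn (hψ J))
            (fun x hx => ((hu _).contDiffAt (hU.mem_nhds ((hψ J).2.2 hx))).differentiableAt
              (by simp))
            (fun x _ => (hψ J).1.differentiable (by simp) x)]
        ring
      · intro k _
        simp_rw [mul_assoc]
        exact (integrable_mul_test (hfd _ _) (hψ J)).const_mul _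
    · intro k _
      exact (integrable_mul_test (hu _).continuousOn ((hψ J).fderiv_apply _)).const_mul _
  · intro J _
    exact integrable_finsetSum _ fun k _ =>
      (integrable_mul_test (hu _).continuousOn ((hψ J).fderiv_apply _)).const_mul _

lemma pair_sq {U : Set (ℂ × ℂ)} (hU : IsOpen U) {a c : ℂ × ℂ → ℝ} (ha : ContinuousOn a U)
    (hc : IsTest U c) :
    ‖∫ x, a x * c x‖ₑ ^ 2 ≤ (∫⁻ x in U, ‖a x‖ₑ ^ 2) * ∫⁻ x in U, ‖c x‖ₑ ^ 2 := by
  have h1 : ∫ x, a x * c x = ∫ x in U, a x * c x := by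
    rw [setIntegral_eq_integral_of_forall_compl_eq_zero]
    intro x hx
    have : c x = 0 := by
      by_contra h
      exact hx (hc.2.2 (subset_tsupport _ h))
    rw [this, mul_zero]
  rw [h1]
  calc ‖∫ x in U, a x * c x‖ₑ ^ 2 ≤ (∫⁻ x in U, ‖a x‖ₑ * ‖c x‖ₑ) ^ 2 := by
        gcongr
        refine (enorm_integral_le_lintegral_enorm _).trans (le_of_eq ?_)
        exact lintegral_congr fun x => enorm_mul _ _
    _ ≤ _ := cs_lintegral _ (ha.aemeasurable hU.measurableSet).enorm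
        hc.1.continuous.measurable.enorm.aemeasurable

lemma TL_norm_sq {q : ℕ} (ψ : TM q) (I : Idx q) {U : Set (ℂ × ℂ)} (hU : U ⊆ Hartogs) :
    ∫⁻ x in U, ‖ψ.1 I x‖ₑ ^ 2 ≤ ‖TL q ψ‖ₑ ^ 2 := by
  have h1 : ‖TL q ψ‖ₑ ^ 2 = ∫⁻ x in Hartogs, ‖(TL q ψ) x‖ₑ ^ 2 := by
    rw [Lp.enorm_def, eLpNorm_eq_lintegral_rpow_enorm_toReal (by norm_num) (by norm_num)]
    simp only [ENNReal.toReal_ofNat]
    rw [← ENNReal.rpow_natCast, ← ENNReal.rpow_mul]
    norm_num
  rw [h1]
  calc ∫⁻ x in U, ‖ψ.1 I x‖ₑ ^ 2 ≤ ∫⁻ x in Hartogs, ‖ψ.1 I x‖ₑ ^ 2 := lintegral_mono_set hU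
    _ ≤ _ := by
      refine lintegral_mono_ae ?_
      filter_upwards [TL_coe ψ] with x hx
      rw [hx]
      gcongr
      rw [← ofReal_norm, ← ofReal_norm]
      apply ENNReal.ofReal_le_ofReal
      exact PiLp.norm_apply_le (tup ψ.1 x) I

/-- the form with mollified coefficients -/
def mform {q : ℕ} (b : ContDiffBump (0 : ℂ × ℂ)) (f : L2 q) (x : ℂ × ℂ) : Form q :=
  toForm fun J => mol b (ext0 f J) x

lemma contDiff_toForm {q : ℕ} {u : Idx q → ℂ × ℂ → ℝ} {U : Set (ℂ × ℂ)}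
    (hu : ∀ I, ContDiffOn ℝ ∞ (u I) U) : ContDiffOn ℝ ∞ (fun x => toForm fun I => u I x) U := by
  unfold toForm
  exact ContDiffOn.sum fun I _ => (hu I).smul contDiffOn_const

lemma extDeriv_toForm {n : ℕ} {u : Idx n → ℂ × ℂ → ℝ} {x : ℂ × ℂ}
    (hu : ∀ I, DifferentiableAt ℝ (u I) x) (J : Idx (n + 1)) :
    extDeriv (fun x => toForm fun I => u I x) x (frame ∘ J) = dT u J x := by
  have h1 : ∀ v, fderiv ℝ (fun x => toForm fun I => u I x) x v
      = toForm fun I => fderiv ℝ (u I) x v := by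
    intro v
    have h2 : HasFDerivAt (fun x => ∑ I, u I x • detForm I)
        (∑ I, (fderiv ℝ (u I) x).smulRight (detForm I)) x := by
      apply HasFDerivAt.fun_sum
      intro I _
      exact (hu I).hasFDerivAt.smul_const (detForm I)
    have h3 : (fun x => toForm fun I => u I x) = fun x => ∑ I, u I x • detForm I := rfl
    rw [h3, h2.fderiv]
    simp [toForm, sum_apply]
  rw [extDeriv, ContinuousAlternatingMap.alternatizeUncurryFin_apply]
  unfold dT
  refine Finset.sum_congr rfl fun i _ => ?_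
  have h4 : Fin.removeNth i (frame ∘ J) = frame ∘ (face J i) := rfl
  rw [h1, h4, toForm_frame]
  rcases Nat.even_or_odd (i : ℕ) with h | h
  · simp [h.neg_one_pow]
  · simp [h.neg_one_pow]

lemma toForm_bound (q : ℕ) : ∃ C : ℝ≥0, ∀ c : Idx q → ℝ,
    ‖toForm c‖ₑ ^ 2 ≤ C * ∑ J, ‖c J‖ₑ ^ 2 := by
  classical
  set D : ℝ := ∑ J : Idx q, ‖detForm J‖ ^ 2 with hD
  have hD0 : 0 ≤ D := Finset.sum_nonneg fun J _ => by positivity
  refine ⟨D.toNNReal, fun c => ?_⟩
  have h1 : ‖toForm c‖ ≤ ∑ J, ‖c J‖ * ‖detForm J‖ := by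
    unfold toForm
    refine (norm_sum_le _ _).trans (Finset.sum_le_sum fun J _ => ?_)
    rw [norm_smul]
  have h2 : (∑ J : Idx q, ‖c J‖ * ‖detForm J‖) ^ 2 ≤ (∑ J : Idx q, ‖c J‖ ^ 2) * D :=
    Finset.sum_mul_sq_le_sq_mul_sq _ _ _
  have h3 : ‖toForm c‖ ^ 2 ≤ D * ∑ J : Idx q, ‖c J‖ ^ 2 := by
    calc ‖toForm c‖ ^ 2 ≤ (∑ J : Idx q, ‖c J‖ * ‖detForm J‖) ^ 2 := by gcongr
      _ ≤ _ := h2
      _ = _ := mul_comm _ _
  clear_value D
  calc ‖toForm c‖ₑ ^ 2 = ENNReal.ofReal (‖toForm c‖ ^ 2) := by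
        rw [← ofReal_norm, ENNReal.ofReal_pow (norm_nonneg _)]
    _ ≤ ENNReal.ofReal (D * ∑ J : Idx q, ‖c J‖ ^ 2) := ENNReal.ofReal_le_ofReal h3
    _ = _ := by
        have h4 : ∀ J, ENNReal.ofReal (‖c J‖ ^ 2) = ‖c J‖ₑ ^ 2 := fun J => by
          rw [ENNReal.ofReal_pow (norm_nonneg _), ofReal_norm]
        rw [ENNReal.ofReal_mul hD0, ENNReal.ofReal_sum_of_nonneg (fun J _ => by positivity)]
        simp_rw [h4]
        rfl

lemma enorm_sq_le_of {x A y : ℝ} (hA : 0 ≤ A) (hy : 0 ≤ y)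
    (h : ‖x‖ₑ ^ 2 ≤ ENNReal.ofReal A * ENNReal.ofReal y ^ 2) : |x| ≤ Real.sqrt A * y := by
  have h1 : ENNReal.ofReal (|x| ^ 2) ≤ ENNReal.ofReal (A * y ^ 2) := by
    rw [ENNReal.ofReal_mul hA, ENNReal.ofReal_pow (abs_nonneg _), ENNReal.ofReal_pow hy,
      ← Real.norm_eq_abs, ofReal_norm]
    exact h
  have h2 : |x| ^ 2 ≤ A * y ^ 2 := (ENNReal.ofReal_le_ofReal_iff (by positivity)).1 h1
  have h3 : A * y ^ 2 = (Real.sqrt A * y) ^ 2 := by rw [mul_pow, Real.sq_sqrt hA]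
  rw [h3] at h2
  exact (abs_le_of_sq_le_sq' h2 (by positivity)).2

/-- the basic a priori estimate for smooth forms, tested against compactly supported forms -/
lemma apriori {n : ℕ} {C : ℝ≥0} (hC : Solvable n C) {τ s : ℝ} (hτ : 0 ≤ τ) (hτ' : τ < 1 / 2)
    (hs : 1 / 2 < s) (hs1 : s ≤ 1) {f : ℂ × ℂ → Form (n + 1)} (hf : ContDiff ℝ ∞ f)
    (hcl : ∀ x ∈ Om τ s, extDeriv f x = 0) (ψ : TM (n + 1)) (hψ : ∀ J, tsupport (ψ.1 J) ⊆ Om τ s)
    (hn : n = 0 → ∑ J, ∫ x, thc J x * ψ.1 J x = 0) {A : ℝ} (hA : 0 ≤ A)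
    (hfA : C * ∫⁻ x in Om τ s, ‖f x‖ₑ ^ 2 ≤ ENNReal.ofReal A) :
    |∑ J : Idx (n + 1), ∫ x, f x (frame ∘ J) * ψ.1 J x|
      ≤ (Fintype.card (Idx n) * Real.sqrt A) * ‖TL n (codM n ψ)‖ := by
  have hOT : Om τ s ⊆ Hartogs := by
    rw [← Om_zero_one]
    intro z hz
    have h2 : 0 < ‖z.2‖ := lt_of_le_of_lt hτ hz.1.1
    exact ⟨⟨h2, hz.1.2.trans_le hs1⟩, hz.2.trans_le (by nlinarith)⟩
  obtain ⟨u, hu, ⟨c, hc, hdu⟩, hb⟩ := hC τ s hτ hτ' hs hs1 f hf.contDiffOn hcl
  have htest : ∀ J, IsTest (Om τ s) (ψ.1 J) := fun J => ⟨(ψ.2 J).1, (ψ.2 J).2.1, hψ J⟩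
  have hthc : ∀ J : Idx (n + 1), ContinuousOn (thc J) (Om τ s) := fun J =>
    ((contDiffOn_dth (frame (J 0)).2 fun w hw => Ann_ne_zero hτ hw).comp contDiff_snd.contDiffOn
      fun x (hx : x ∈ Om τ s) => hx.1).continuousOn
  have h1 : ∑ J : Idx (n + 1), ∫ x, f x (frame ∘ J) * ψ.1 J x = ∑ I, ∫ x, u I x * codT ψ.1 I x := by
    rw [← ibp (isOpen_Om τ s) hu htest]
    have h2 : ∀ J : Idx (n + 1), ∫ x, f x (frame ∘ J) * ψ.1 J x
        = (∫ x, dT u J x * ψ.1 J x) + c * ∫ x, thc J x * ψ.1 J x := by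
      intro J
      rw [← integral_const_mul, ← integral_add]
      · refine integral_congr_ae (Eventually.of_forall fun x => ?_)
        simp only
        by_cases hx : x ∈ Om τ s
        · rw [hdu x hx J]; ring
        · have : ψ.1 J x = 0 := by
            by_contra h
            exact hx (hψ J (subset_tsupport _ h))
          rw [this]; ring
      · have hcont : ContinuousOn (fun x => dT u J x) (Om τ s) := by
          unfold dT
          refine continuousOn_finsetSum _ fun i _ => ?_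
          exact continuousOn_const.mul (((hu _).continuousOn_fderiv_of_isOpen (isOpen_Om τ s)
            (by simp)).clm_apply continuousOn_const)
        exact integrable_mul_test hcont (htest J)
      · exact (integrable_mul_test (hthc J) (htest J)).const_mul c
    simp_rw [h2]
    rw [Finset.sum_add_distrib, ← Finset.mul_sum]
    rcases eq_or_ne n 0 with h | h
    · rw [hn h, mul_zero, add_zero]
    · rw [hc h, zero_mul, add_zero]
  rw [h1]
  have h3 : ∀ I, |∫ x, u I x * codT ψ.1 I x| ≤ Real.sqrt A * ‖TL n (codM n ψ)‖ := by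
    intro I
    apply enorm_sq_le_of hA (norm_nonneg _)
    rw [ofReal_norm]
    refine (pair_sq (isOpen_Om τ s) (hu I).continuousOn (isTest_codT htest I)).trans ?_
    refine mul_le_mul' ((hb hf I).trans hfA) ?_
    exact TL_norm_sq (codM n ψ) I hOT
  calc |∑ I, ∫ x, u I x * codT ψ.1 I x| ≤ ∑ I, |∫ x, u I x * codT ψ.1 I x| :=
        Finset.abs_sum_le_sum_abs _ _
    _ ≤ ∑ _I : Idx n, Real.sqrt A * ‖TL n (codM n ψ)‖ := Finset.sum_le_sum fun I _ => h3 I
    _ = _ := by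
        rw [Finset.sum_const, Finset.card_univ, nsmul_eq_mul, mul_assoc]

end Pool.Agent.H631R3
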