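import Pool.Agent.H631R3.Weak

/-! Weak solvability of `du = f`: passage to the limit. -/

open scoped ContDiff Topology ENNReal NNReal
open MeasureTheory Set Filter

noncomputable section

namespace Pool.Agent.H631R3

lemma exhaust {K : Set (ℂ × ℂ)} (hK : IsCompact K) (hKT : K ⊆ Hartogs) :
    ∃ τ s : ℝ, 0 < τ ∧ τ < 1 / 2 ∧ 1 / 2 < s ∧ s < 1 ∧ K ⊆ Om τ s := by
  set W : ℕ → Set (ℂ × ℂ) := fun n => Om (1 / ((n : ℝ) + 3)) (1 - 1 / ((n : ℝ) + 3)) with hW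
  have hcov : K ⊆ ⋃ n, W n := by
    intro z hz
    have hzT := hKT hz
    have h2 : 0 < ‖z.2‖ := lt_of_le_of_lt (norm_nonneg _) hzT.1
    obtain ⟨ε, hε, h⟩ : ∃ ε : ℝ, 0 < ε ∧ (ε < ‖z.2‖ ∧ ‖z.2‖ < 1 - ε ∧ ‖z.1‖ < (1 - ε) * ‖z.2‖) := by
      refine ⟨min (‖z.2‖ / 2) (min ((1 - ‖z.2‖) / 2) ((‖z.2‖ - ‖z.1‖) / 2)), ?_, ?_, ?_, ?_⟩
      · have := hzT.1; have := hzT.2
        exact lt_min (by linarith) (lt_min (by linarith) (by linarith))
      · exact (min_le_left _ _).trans_lt (by linarith)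
      · have := (min_le_right (‖z.2‖ / 2) (min ((1 - ‖z.2‖) / 2) ((‖z.2‖ - ‖z.1‖) / 2))).trans
          (min_le_left _ _)
        have := hzT.2
        linarith
      · have h3 := (min_le_right (‖z.2‖ / 2) (min ((1 - ‖z.2‖) / 2) ((‖z.2‖ - ‖z.1‖) / 2))).trans
          (min_le_right _ _)
        have h4 := hzT.2
        have h5 := hzT.1
        set e := min (‖z.2‖ / 2) (min ((1 - ‖z.2‖) / 2) ((‖z.2‖ - ‖z.1‖) / 2))
        have h6 : e * ‖z.2‖ ≤ (‖z.2‖ - ‖z.1‖) / 2 * 1 :=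
          mul_le_mul h3 h4.le (norm_nonneg _) (by linarith)
        nlinarith
    obtain ⟨N, hN⟩ := exists_nat_one_div_lt hε
    have hN' : 1 / ((N : ℝ) + 3) < ε := by
      refine lt_of_le_of_lt ?_ hN
      gcongr
      linarith
    refine mem_iUnion.2 ⟨N, ⟨?_, ?_⟩, ?_⟩
    · linarith [h.1]
    · linarith [h.2.1]
    · refine h.2.2.trans ?_
      exact mul_lt_mul_of_pos_right (by linarith) h2
  have hdir : Directed (· ⊆ ·) W := by
    apply Monotone.directed_le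
    intro n m hnm z hz
    have hnm' : (n : ℝ) ≤ m := by exact_mod_cast hnm
    have h1 : 1 / ((m : ℝ) + 3) ≤ 1 / ((n : ℝ) + 3) := by gcongr
    refine ⟨⟨lt_of_le_of_lt h1 hz.1.1, lt_of_lt_of_le hz.1.2 (by linarith)⟩, ?_⟩
    refine lt_of_lt_of_le hz.2 ?_
    gcongr
  obtain ⟨n, hn⟩ := hK.elim_directed_cover W (fun n => isOpen_Om _ _) hcov hdir
  have h3 : 1 / ((n : ℝ) + 3) ≤ 1 / 3 := by
    gcongr
    linarith [(Nat.cast_nonneg n : (0 : ℝ) ≤ n)]
  have h4 : 0 < 1 / ((n : ℝ) + 3) := by positivity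
  exact ⟨_, _, h4, by linarith, by linarith, by linarith, hn⟩

lemma ball_sub {τ s δ : ℝ} (hτ : 0 < τ) (hτ' : τ < 1 / 2) (hs1 : s < 1)
    (hδ : δ ≤ (1 - s) * τ / 4) {x : ℂ × ℂ} (hx : x ∈ Om τ s) :
    Metric.closedBall x δ ⊆ Hartogs := by
  intro y hy
  rw [Metric.mem_closedBall, dist_eq_norm] at hy
  have h1 : ‖y.1 - x.1‖ ≤ δ := (norm_fst_le (y - x)).trans hy
  have h2 : ‖y.2 - x.2‖ ≤ δ := (norm_snd_le (y - x)).trans hy
  have h3 : ‖y.1‖ ≤ ‖x.1‖ + δ := by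
    have := norm_le_norm_add_norm_sub' y.1 x.1
    linarith
  have h4 : ‖x.2‖ ≤ ‖y.2‖ + δ := by
    have := norm_le_norm_add_norm_sub y.2 x.2
    linarith
  have h5 : ‖y.2‖ ≤ ‖x.2‖ + δ := by
    have := norm_le_norm_add_norm_sub' y.2 x.2
    linarith
  have h6 := hx.2
  have h7 := hx.1.1
  have h8 := hx.1.2
  constructor
  · nlinarith
  · nlinarith

variable {n : ℕ}

lemma contDiff_mform (b : ContDiffBump (0 : ℂ × ℂ)) (f : L2 n) : ContDiff ℝ ∞ (mform b f) := by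
  rw [← contDiffOn_univ]
  exact contDiff_toForm fun I => (contDiff_mol b (integrable_ext0 f I).locallyIntegrable).contDiffOn

lemma mform_closed (b : ContDiffBump (0 : ℂ × ℂ)) {f : L2 n} (hf : WeakD f 0) {x : ℂ × ℂ}
    (hx : Metric.closedBall x b.rOut ⊆ Hartogs) : extDeriv (mform b f) x = 0 := by
  apply form_ext
  intro J
  have h1 : extDeriv (mform b f) x (frame ∘ J) = dT (fun I => mol b (ext0 f I)) J x :=
    extDeriv_toForm (u := fun I => mol b (ext0 f I)) (fun I =>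
      (contDiff_mol b (integrable_ext0 f I).locallyIntegrable).differentiable (by simp) x) J
  rw [h1, mol_dist b hf hx]
  have h2 : ext0 (0 : L2 (n + 1)) J =ᵐ[volume] fun _ => 0 := by
    have h3 : ∀ᵐ z ∂μT, (0 : L2 (n + 1)) z = 0 := Lp.coeFn_zero _ _ _
    rw [ae_restrict_iff' measurableSet_Hartogs] at h3
    filter_upwards [h3] with z hz
    unfold ext0
    by_cases hz' : z ∈ Hartogs
    · rw [indicator_of_mem hz', hz hz']; rfl
    · rw [indicator_of_notMem hz']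
  unfold mol
  have h4 : ∫ t, ext0 (0 : L2 (n + 1)) J t * b.normed volume (x - t) = ∫ _t : ℂ × ℂ, (0 : ℝ) := by
    refine integral_congr_ae ?_
    filter_upwards [h2] with t ht
    rw [ht, zero_mul]
  rw [h4, integral_zero]
  rfl

lemma mform_bound (q : ℕ) : ∃ C : ℝ≥0, ∀ (b : ContDiffBump (0 : ℂ × ℂ)) (f : L2 q)
    (U : Set (ℂ × ℂ)), ∫⁻ x in U, ‖mform b f x‖ₑ ^ 2
      ≤ C * ∑ J, ∫⁻ x, ‖ext0 f J x‖ₑ ^ 2 := by
  obtain ⟨C, hC⟩ := toForm_bound q
  refine ⟨C, fun b f U => ?_⟩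
  calc ∫⁻ x in U, ‖mform b f x‖ₑ ^ 2 ≤ ∫⁻ x, ‖mform b f x‖ₑ ^ 2 := setLIntegral_le_lintegral _ _
    _ ≤ ∫⁻ x, C * ∑ J, ‖mol b (ext0 f J) x‖ₑ ^ 2 := lintegral_mono fun x => hC _
    _ = C * ∑ J, ∫⁻ x, ‖mol b (ext0 f J) x‖ₑ ^ 2 := by
        rw [lintegral_const_mul' _ _ ENNReal.coe_ne_top, lintegral_finsetSum]
        intro J _
        exact (contDiff_mol b (integrable_ext0 f J).locallyIntegrable).continuous.measurable.enorm.pow_const 2
    _ ≤ _ := by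
        refine mul_le_mul' le_rfl (Finset.sum_le_sum fun J _ => ?_)
        exact mol_L2 b (integrable_ext0 f J).1.aemeasurable

lemma tendsto_pair (f : L2 n) (ψ : TM n) :
    Tendsto (fun m => ∑ J, ∫ x, mol (bseq m) (ext0 f J) x * ψ.1 J x) atTop
      (𝓝 (inner ℝ f (TL n ψ))) := by
  rw [inner_TL]
  refine tendsto_finsetSum _ fun J _ => ?_
  have h1 := tendsto_mol (integrable_ext0 f J) (ψ.2 J).1.continuous (ψ.2 J).2.1
  have h2 : ∫ x, ext0 f J x * ψ.1 J x = ∫ z in Hartogs, f z J * ψ.1 J z := by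
    rw [← integral_indicator measurableSet_Hartogs]
    congr 1
    funext t
    unfold ext0
    by_cases ht : t ∈ Hartogs
    · rw [indicator_of_mem ht, indicator_of_mem ht]
    · rw [indicator_of_notMem ht, indicator_of_notMem ht, zero_mul]
  rw [← h2]
  exact h1

lemma supp_exhaust (ψ : TM n) : ∃ τ s : ℝ, 0 < τ ∧ τ < 1 / 2 ∧ 1 / 2 < s ∧ s < 1 ∧
    (∀ J, tsupport (ψ.1 J) ⊆ Om τ s) ∧ ∀ᶠ m : ℕ in atTop, ∀ x ∈ Om τ s,
      Metric.closedBall x (bseq m).rOut ⊆ Hartogs := by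
  have hK : IsCompact (⋃ J, tsupport (ψ.1 J)) := isCompact_iUnion fun J => (ψ.2 J).2.1
  obtain ⟨τ, s, h1, h2, h3, h4, h5⟩ := exhaust hK (iUnion_subset fun J => (ψ.2 J).2.2)
  refine ⟨τ, s, h1, h2, h3, h4, fun J => (subset_iUnion _ J).trans h5, ?_⟩
  have hδ : 0 < (1 - s) * τ / 4 := by
    have : 0 < 1 - s := by linarith
    positivity
  obtain ⟨N, hN⟩ := exists_nat_one_div_lt hδ
  filter_upwards [eventually_ge_atTop N] with m hm x hx
  refine ball_sub h1 h2 h4 ?_ hx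
  change 1 / ((m : ℝ) + 1) ≤ _
  have : (N : ℝ) ≤ m := by exact_mod_cast hm
  have h6 : 1 / ((m : ℝ) + 1) ≤ 1 / ((N : ℝ) + 1) := by gcongr
  linarith

lemma weak_apriori {f : L2 (n + 1)} (hf : WeakD f 0) : ∃ K : ℝ, ∀ ψ : TM (n + 1),
    (n = 0 → ∑ J, ∫ x, thc J x * ψ.1 J x = 0) →
    |inner ℝ f (TL (n + 1) ψ)| ≤ K * ‖TL n (codM n ψ)‖ := by
  obtain ⟨C, hC⟩ := solvable n
  obtain ⟨C2, hC2⟩ := mform_bound (n + 1)
  set B : ℝ≥0∞ := C * (C2 * ∑ J, ∫⁻ x, ‖ext0 f J x‖ₑ ^ 2) with hB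
  have hBfin : B ≠ ⊤ := by
    refine ENNReal.mul_ne_top ENNReal.coe_ne_top (ENNReal.mul_ne_top ENNReal.coe_ne_top ?_)
    refine (ENNReal.sum_lt_top.2 fun J _ => ?_).ne
    have h1 := (memLp_ext0 f J).eLpNorm_lt_top
    rw [eLpNorm_lt_top_iff_lintegral_rpow_enorm_lt_top (by norm_num) (by norm_num)] at h1
    simpa using h1
  refine ⟨Fintype.card (Idx n) * Real.sqrt B.toReal, fun ψ hψ => ?_⟩
  obtain ⟨τ, s, h1, h2, h3, h4, h5, h6⟩ := supp_exhaust ψ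
  refine le_of_tendsto (tendsto_pair f ψ).abs ?_
  filter_upwards [h6] with m hm
  have h7 := apriori hC h1.le h2 h3 h4.le (contDiff_mform (bseq m) f)
    (fun x hx => mform_closed (bseq m) hf (hm x hx)) ψ h5 hψ (A := B.toReal)
    ENNReal.toReal_nonneg (by
      rw [ENNReal.ofReal_toReal hBfin, hB]
      gcongr
      exact hC2 _ _ _)
  have h8 : ∀ J : Idx (n + 1), ∫ x, mform (bseq m) f x (frame ∘ J) * ψ.1 J x
      = ∫ x, mol (bseq m) (ext0 f J) x * ψ.1 J x := by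
    intro J
    congr 1
    funext x
    unfold mform
    rw [toForm_frame]
  simp_rw [h8] at h7
  exact h7

/-- weak solvability -/
theorem weak_solve (ψ0 : TM 1) (h0 : codM 0 ψ0 = 0)
    (h1 : ∑ J, ∫ x, thc J x * ψ0.1 J x ≠ 0)
    (hint : ∀ (ψ : TM 1) (J : Idx 1), Integrable (fun x => thc J x * ψ.1 J x) volume)
    {f : L2 (n + 1)} (hf : WeakD f 0)
    (hn : ∀ ψ : TM (n + 1), n = 0 → HEq ψ ψ0 → inner ℝ f (TL (n + 1) ψ) = 0) :
    ∃ u : L2 n, WeakD u f := by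
  obtain ⟨K, hK⟩ := weak_apriori hf
  have key : ∀ ψ : TM (n + 1), |inner ℝ f (TL (n + 1) ψ)| ≤ K * ‖TL n (codM n ψ)‖ := by
    rcases n with _ | n
    · intro ψ
      set l : TM 1 → ℝ := fun ψ => ∑ J, ∫ x, thc J x * ψ.1 J x with hl
      have hlin : ∀ (c : ℝ) (ψ : TM 1), l (ψ - c • ψ0) = l ψ - c * l ψ0 := by
        intro c ψ
        simp only [hl]
        rw [Finset.mul_sum, ← Finset.sum_sub_distrib]
        refine Finset.sum_congr rfl fun J _ => ?_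
        rw [← integral_const_mul, ← integral_sub (hint ψ J) ((hint ψ0 J).const_mul c)]
        congr 1
        funext x
        have : (ψ - c • ψ0).1 J x = ψ.1 J x - c * ψ0.1 J x := rfl
        rw [this]; ring
      set c := l ψ / l ψ0 with hc
      have h2 : l (ψ - c • ψ0) = 0 := by
        rw [hlin, hc, div_mul_cancel₀ _ (show l ψ0 ≠ 0 from h1), sub_self]
      have h3 := hK (ψ - c • ψ0) (fun _ => h2)
      have h4 : inner ℝ f (TL 1 (ψ - c • ψ0)) = inner ℝ f (TL 1 ψ) := by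
        rw [map_sub, map_smul, inner_sub_right, inner_smul_right, hn ψ0 rfl HEq.rfl]
        simp
      have h5 : codM 0 (ψ - c • ψ0) = codM 0 ψ := by
        rw [map_sub, map_smul, h0]; simp
      rw [h5] at h3
      rw [← h4]
      exact h3
    · intro ψ
      exact hK ψ (fun h => absurd h (Nat.succ_ne_zero n))
  obtain ⟨u, hu⟩ := riesz_of_bound ((TL n).comp (codM n))
    ((innerSL ℝ f).toLinearMap.comp (TL (n + 1))) K key
  refine ⟨u, (weakD_iff u f).2 fun ψ => ?_⟩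
  exact (hu ψ).symm

end Pool.Agent.H631R3
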