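import Pool.Agent.H631R3.FinalB

/-! The weak maximal complex is a good complex. -/

open scoped ContDiff Topology ENNReal NNReal
open MeasureTheory Set Filter

noncomputable section

namespace Pool.Agent.H631R3

lemma weakD_const {f : L2 0} {c : ℝ} (hf : ∀ᵐ z ∂μT, f z idx0 = c) : WeakD f 0 := by
  rw [weakD_iff]
  intro ψ
  rw [inner_zero_left, inner_TL]
  have h1 : ∀ I : Idx 0, ∫ z in Hartogs, f z I * (codM 0 ψ).1 I z
      = ∫ z, c * codT ψ.1 I z := by
    intro I
    have h2 : ∫ z in Hartogs, f z I * (codM 0 ψ).1 I z = ∫ z in Hartogs, c * codT ψ.1 I z := by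
      refine integral_congr_ae ?_
      filter_upwards [hf] with z hz
      rw [idx0_unique I, hz]
      rfl
    rw [h2, setIntegral_eq_integral_of_forall_compl_eq_zero]
    intro x hx
    have : codT ψ.1 I x = 0 := by
      by_contra h
      exact hx (((codM 0 ψ).2 I).2.2 (subset_tsupport _ h))
    rw [this, mul_zero]
  simp_rw [h1]
  have h3 := ibp isOpen_univ (u := fun (_ : Idx 0) (_ : ℂ × ℂ) => c)
    (fun I => contDiffOn_const) (ψ := ψ.1) (fun J => ⟨(ψ.2 J).1, (ψ.2 J).2.1, subset_univ _⟩)
  rw [← h3]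
  symm
  apply Finset.sum_eq_zero
  intro J _
  have : ∀ x, dT (fun (_ : Idx 0) (_ : ℂ × ℂ) => c) J x = 0 := by
    intro x
    unfold dT
    simp
  simp_rw [this, zero_mul, integral_zero]

lemma goodComplex_weak : GoodComplex GW where
  closed := isClosed_GW
  comp := fun _ _ _ h => weakD_comp h
  sub := fun _ _ _ h => h
  solve1 := fun _ h1 h2 => weak_solve_one h1 h2
  solve := fun _ _ h => weak_solve_succ h
  theta := Theta_closed
  const := fun _ ⟨_, hc⟩ => weakD_const hc

end Pool.Agent.H631R3
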