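import Pool.Agent.H631R3.Spec2
import Pool.Agent.H631R3.Est2

/-! Weak a priori estimates with weights, and mollification in norm. -/

open scoped ContDiff Topology ENNReal NNReal
open MeasureTheory Set Filter

noncomputable section

namespace Pool.Agent.H631R3

/-- the weighted a priori estimate for smooth forms -/
lemma aprioriW {n : ℕ} {C : ℝ≥0} (hC : SolvableW n C) {τ s : ℝ} (hτ : 0 ≤ τ) (hτ' : τ < 1 / 2)
    (hs : 1 / 2 < s) (hs1 : s ≤ 1) {f : ℂ × ℂ → Form (n + 1)} (hf : ContDiff ℝ ∞ f)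
    (hcl : ∀ x ∈ Om τ s, extDeriv f x = 0) (ψ : TM (n + 1)) (hψ : ∀ J, tsupport (ψ.1 J) ⊆ Om τ s)
    (hn : n = 0 → ∑ J, ∫ x, thc J x * ψ.1 J x = 0) {A : ℝ} (hA : 0 ≤ A)
    (hfA : C * ∫⁻ x in Om τ s, ‖x.2‖ₑ ^ 2 * ‖f x‖ₑ ^ 2 ≤ ENNReal.ofReal A) :
    |∑ J : Idx (n + 1), ∫ x, f x (frame ∘ J) * ψ.1 J x|
      ≤ (Fintype.card (Idx n) * Real.sqrt A) * ‖TL n (codM n ψ)‖ := by
  have hOT : Om τ s ⊆ Hartogs := by
    rw [← Om_zero_one]
    intro z hz
    have h2 : 0 < ‖z.2‖ := lt_of_le_of_lt hτ hz.1.1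
    exact ⟨⟨h2, hz.1.2.trans_le hs1⟩, hz.2.trans_le (by nlinarith)⟩
  obtain ⟨u, hu, ⟨c, hc, hdu⟩, hb⟩ := hC τ s hτ hτ' hs hs1 f hf.contDiffOn hcl
  have htest : ∀ J, IsTest (Om τ s) (ψ.1 J) := fun J => ⟨(ψ.2 J).1, (ψ.2 J).2.1, hψ J⟩
  have hthc : ∀ J : Idx (n + 1), ContinuousOn (thc J) (Om τ s) := fun J =>
    ((contDiffOn_dth (frame (J 0)).2 fun w hw => Ann_ne_zero hτ hw).comp contDiff_snd.contDiffOn
      fun x (hx : x ∈ Om τ s) => hx.1).continuousOn
  have h1 : ∑ J : Idx (n + 1), ∫ x, f x (frame ∘ J) * ψ.1 J x = ∑ I, ∫ x, u I x * codT ψ.1 I x := by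
    rw [← ibp (isOpen_Om τ s) hu htest]
    have h2 : ∀ J : Idx (n + 1), ∫ x, f x (frame ∘ J) * ψ.1 J x
        = (∫ x, dT u J x * ψ.1 J x) + c * ∫ x, thc J x * ψ.1 J x := by
      intro J
      rw [← integral_const_mul, ← integral_add]
      · refine integral_congr_ae (Eventually.of_forall fun x => ?_)
        simp only
        by_cases hx : x ∈ Om τ s
        · rw [hdu x hx J]; ring
        · have : ψ.1 J x = 0 := by
            by_contra h
            exact hx (hψ J (subset_tsupport _ h))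
          rw [this]; ring
      · have hcont : ContinuousOn (fun x => dT u J x) (Om τ s) := by
          unfold dT
          refine continuousOn_finsetSum _ fun i _ => ?_
          exact continuousOn_const.mul (((hu _).continuousOn_fderiv_of_isOpen (isOpen_Om τ s)
            (by simp)).clm_apply continuousOn_const)
        exact integrable_mul_test hcont (htest J)
      · exact (integrable_mul_test (hthc J) (htest J)).const_mul c
    simp_rw [h2]
    rw [Finset.sum_add_distrib, ← Finset.mul_sum]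
    rcases eq_or_ne n 0 with h | h
    · rw [hn h, mul_zero, add_zero]
    · rw [hc h, zero_mul, add_zero]
  rw [h1]
  have h3 : ∀ I, |∫ x, u I x * codT ψ.1 I x| ≤ Real.sqrt A * ‖TL n (codM n ψ)‖ := by
    intro I
    apply enorm_sq_le_of hA (norm_nonneg _)
    rw [ofReal_norm]
    refine (pair_sq (isOpen_Om τ s) (hu I).continuousOn (isTest_codT htest I)).trans ?_
    refine mul_le_mul' ((hb hf I).trans hfA) ?_
    exact TL_norm_sq (codM n ψ) I hOT
  calc |∑ I, ∫ x, u I x * codT ψ.1 I x| ≤ ∑ I, |∫ x, u I x * codT ψ.1 I x| :=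
        Finset.abs_sum_le_sum_abs _ _
    _ ≤ ∑ _I : Idx n, Real.sqrt A * ‖TL n (codM n ψ)‖ := Finset.sum_le_sum fun I _ => h3 I
    _ = _ := by
        rw [Finset.sum_const, Finset.card_univ, nsmul_eq_mul, mul_assoc]

lemma inner_SL_TL {q : ℕ} (w : SM q) (ψ : TM q) : inner ℝ (SL q w) (TL q ψ)
    = ∑ J, ∫ x, w.1 J x * ψ.1 J x := by
  rw [inner_TL]
  refine Finset.sum_congr rfl fun J _ => ?_
  have h4 : ∫ z in Hartogs, (SL q w) z J * ψ.1 J z = ∫ z in Hartogs, w.1 J z * ψ.1 J z := by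
    refine integral_congr_ae ?_
    filter_upwards [mk_coe (SM_LL w)] with z hz
    have : (SL q w) z = tup w.1 z := hz
    rw [this, tup_apply]
  rw [h4, setIntegral_eq_integral_of_forall_compl_eq_zero]
  intro x hx
  have : ψ.1 J x = 0 := by
    by_contra h
    exact hx ((ψ.2 J).2.2 (subset_tsupport _ h))
  rw [this, mul_zero]

/-- approximation by elements of a submodule -/
lemma exists_near {H : Type*} [NormedAddCommGroup H] [InnerProductSpace ℝ H] [CompleteSpace H]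
    (R : Submodule ℝ H) {x : H} (hx : ∀ y, (∀ r ∈ R, inner ℝ y r = 0) → inner ℝ x y = 0) {η : ℝ}
    (hη : 0 < η) : ∃ r ∈ R, ‖x - r‖ < η := by
  have h1 : x ∈ R.topologicalClosure := by
    rw [← Submodule.orthogonal_orthogonal_eq_closure, Submodule.mem_orthogonal']
    intro y hy
    exact hx y ((Submodule.mem_orthogonal' _ _).1 hy)
  have h2 : x ∈ closure (R : Set H) := h1
  obtain ⟨r, hr, h3⟩ := Metric.mem_closure_iff.1 h2 η hη
  exact ⟨r, hr, by rwa [← dist_eq_norm]⟩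

lemma exists_near_test {q : ℕ} (f : L2 q) {η : ℝ} (hη : 0 < η) : ∃ ψ : TM q, ‖f - TL q ψ‖ < η := by
  obtain ⟨_, ⟨ψ, rfl⟩, h⟩ := exists_near (LinearMap.range (TL q)) (x := f) (by
    intro y hy
    have : y = 0 := zero_of_tests fun ψ => hy _ ⟨ψ, rfl⟩
    rw [this, inner_zero_right]) hη
  exact ⟨ψ, h⟩

/-- mollified coefficients -/
def wmol {q : ℕ} (m : ℕ) (f : L2 q) : SM q :=
  ⟨fun J => mol (bseq m) (ext0 f J), fun J => contDiff_mol _ (integrable_ext0 f J).locallyIntegrable⟩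

lemma wmol_norm {q : ℕ} (m : ℕ) (f : L2 q) : ‖SL q (wmol m f)‖ ≤ ‖f‖ := by
  have h1 : ‖SL q (wmol m f)‖ₑ ^ 2 ≤ (1 : ℝ≥0) * ‖f‖ₑ ^ 2 := by
    have h2 : ‖SL q (wmol m f)‖ₑ ^ 2 = ∑ J, ∫⁻ x in Hartogs, ‖(wmol m f).1 J x‖ₑ ^ 2 :=
      mk_enorm_sq (SM_LL (wmol m f))
    rw [h2, L2_enorm_sq, ENNReal.coe_one, one_mul]
    refine Finset.sum_le_sum fun J _ => ?_
    calc ∫⁻ x in Hartogs, ‖(wmol m f).1 J x‖ₑ ^ 2 ≤ ∫⁻ x, ‖mol (bseq m) (ext0 f J) x‖ₑ ^ 2 :=
          setLIntegral_le_lintegral _ _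
      _ ≤ ∫⁻ x, ‖ext0 f J x‖ₑ ^ 2 := mol_L2 _ (integrable_ext0 f J).1.aemeasurable
      _ = ∫⁻ x in Hartogs, ‖f x J‖ₑ ^ 2 := by
          rw [← lintegral_indicator measurableSet_Hartogs]
          congr 1
          funext x
          unfold ext0
          by_cases hx : x ∈ Hartogs
          · rw [indicator_of_mem hx, indicator_of_mem hx]
          · rw [indicator_of_notMem hx, indicator_of_notMem hx]; simp
  have h3 := norm_le_of_enorm_sq h1
  simpa using h3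

/-- mollification converges in norm -/
lemma wmol_tendsto {q : ℕ} (f : L2 q) {δ : ℝ} (hδ : 0 < δ) :
    ∀ᶠ m : ℕ in atTop, ‖SL q (wmol m f) - f‖ < δ := by
  set η : ℝ := δ ^ 2 / (2 * (4 * ‖f‖ + 2)) with hη
  have hη0 : 0 < η := by positivity
  obtain ⟨ψ, hψ⟩ := exists_near_test f hη0
  have h1 : Tendsto (fun m => inner ℝ (SL q (wmol m f)) (TL q ψ)) atTop (𝓝 (inner ℝ f (TL q ψ))) := by
    have := tendsto_pair f ψ
    refine this.congr fun m => ?_
    rw [inner_SL_TL]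
    rfl
  have h2 := h1.eventually (lt_mem_nhds (show inner ℝ f (TL q ψ) - η < inner ℝ f (TL q ψ) by linarith))
  filter_upwards [h2] with m hm
  have h3 := wmol_norm m f
  set F := SL q (wmol m f) with hF
  have h4 : inner ℝ f (TL q ψ) = ‖f‖ ^ 2 - inner ℝ f (f - TL q ψ) := by
    rw [inner_sub_right, real_inner_self_eq_norm_sq]; ring
  have h5 : inner ℝ F (TL q ψ) = inner ℝ F f - inner ℝ F (f - TL q ψ) := by
    rw [inner_sub_right]; ring
  have h6 : inner ℝ f (f - TL q ψ) ≤ ‖f‖ * η :=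
    (real_inner_le_norm _ _).trans (by gcongr)
  have h7 : -(‖f‖ * η) ≤ inner ℝ F (f - TL q ψ) := by
    have := (abs_le.1 ((abs_real_inner_le_norm F (f - TL q ψ)).trans
      (mul_le_mul h3 hψ.le (norm_nonneg _) (norm_nonneg _)))).1
    exact this
  have h8 : ‖F - f‖ ^ 2 = ‖F‖ ^ 2 - 2 * inner ℝ F f + ‖f‖ ^ 2 := norm_sub_sq_real F f
  have h9 : ‖F‖ ^ 2 ≤ ‖f‖ ^ 2 := by gcongr
  have h10 : ‖F - f‖ ^ 2 ≤ η * (4 * ‖f‖ + 2) := by
    rw [h8]
    rw [h4, h5] at hm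
    nlinarith
  have h11 : η * (4 * ‖f‖ + 2) = δ ^ 2 / 2 := by
    rw [hη]; field_simp
  have h12 : ‖F - f‖ ^ 2 < δ ^ 2 := by
    rw [h11] at h10
    have : 0 < δ ^ 2 := by positivity
    linarith
  exact lt_of_pow_lt_pow_left₀ 2 hδ.le h12

end Pool.Agent.H631R3
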