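import Pool.Agent.H631R3.Wk1

/-! Compactness of the solution operators of the weak complex. -/

open scoped ContDiff Topology ENNReal NNReal
open MeasureTheory Set Filter

noncomputable section

namespace Pool.Agent.H631R3

lemma HR_zero_on {ε τ s1 : ℝ} (hε1 : ε ≤ 1 / 8) (hτ : 0 ≤ τ) (hs : 1 / 2 < s1) {n : ℕ}
    {f : ℂ × ℂ → Form (n + 1)} (hf : ∀ y ∈ Om (τ / 2) s1, f y = 0) {x : ℂ × ℂ} (hx : x ∈ Om τ s1)
    (I : Idx n) : HR ε f I x = 0 := by
  unfold HR Kop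
  have hms : MeasurableSet (Icc (0 : ℝ) ε ×ˢ QQ) :=
    (isCompact_Icc.prod isCompact_QQ).isClosed.measurableSet
  rw [setIntegral_congr_fun (g := fun _ => (0 : ℝ)) hms]
  · simp
  · rintro ⟨t, y⟩ hp
    have h1 := hf _ (AR_mem hτ hs hp.1.1 (hp.1.2.trans hε1) hp.2 hx)
    change kern f (AR (t, y)) (dAR (t, y)) I x = 0
    unfold kern
    rw [h1]
    rfl

lemma RR_zero_on {ε τ s1 : ℝ} (hε : 0 ≤ ε) (hε1 : ε ≤ 1 / 8) (hτ : 0 ≤ τ) (hs : 1 / 2 < s1) {q : ℕ}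
    {f : ℂ × ℂ → Form q} (hf : ∀ y ∈ Om (τ / 2) s1, f y = 0) {x : ℂ × ℂ} (hx : x ∈ Om τ s1)
    (J : Idx q) : RR ε f J x = 0 := by
  unfold RR
  have hms : MeasurableSet QQ := isCompact_QQ.isClosed.measurableSet
  rw [setIntegral_congr_fun (g := fun _ => (0 : ℝ)) hms]
  · simp
  · intro y hy
    have h1 := hf _ (AR_mem hτ hs hε hε1 hy hx)
    change pull f (AR (ε, y)) J x = 0
    unfold pull
    rw [h1]
    rfl

lemma eventually_ball {τ s : ℝ} (h1 : 0 < τ) (h2 : τ < 1 / 2) (h4 : s < 1) :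
    ∀ᶠ m : ℕ in atTop, ∀ x ∈ Om τ s, Metric.closedBall x (bseq m).rOut ⊆ Hartogs := by
  have hδ : 0 < (1 - s) * τ / 4 := by
    have : 0 < 1 - s := by linarith
    positivity
  obtain ⟨N, hN⟩ := exists_nat_one_div_lt hδ
  filter_upwards [eventually_ge_atTop N] with m hm x hx
  refine ball_sub h1 h2 h4 ?_ hx
  change 1 / ((m : ℝ) + 1) ≤ _
  have : (N : ℝ) ≤ m := by exact_mod_cast hm
  have h6 : 1 / ((m : ℝ) + 1) ≤ 1 / ((N : ℝ) + 1) := by gcongr
  linarith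

lemma solvableW_pair (n : ℕ) : ∃ D : ℝ, 0 ≤ D ∧ ∀ (τ s : ℝ), 0 ≤ τ → τ < 1 / 2 → 1 / 2 < s → s ≤ 1 →
    ∀ w : SM (n + 1), (∀ x ∈ Om τ s, extDeriv (frm w) x = 0) →
    ∀ ψ : TM (n + 1), (∀ J, tsupport (ψ.1 J) ⊆ Om τ s) →
    (n = 0 → ∑ J, ∫ x, thc J x * ψ.1 J x = 0) →
    |inner ℝ (SL (n + 1) w) (TL (n + 1) ψ)| ≤ D * wn w * ‖TL n (codM n ψ)‖ := by
  obtain ⟨C, hC⟩ := solvableW n
  obtain ⟨C2, hC2⟩ := int_frmW (n + 1)
  refine ⟨Fintype.card (Idx n) * Real.sqrt (C * C2), by positivity,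
    fun τ s hτ hτ' hs hs1 w hcl ψ hψ hn => ?_⟩
  have hwn : 0 ≤ wn w := norm_nonneg _
  have hOT : Om τ s ⊆ Hartogs := by
    rw [← Om_zero_one]
    intro z hz
    have h2 : 0 < ‖z.2‖ := lt_of_le_of_lt hτ hz.1.1
    exact ⟨⟨h2, hz.1.2.trans_le hs1⟩, hz.2.trans_le (by nlinarith)⟩
  have h1 := aprioriW hC hτ hτ' hs hs1 (contDiff_frm w) hcl ψ hψ hn (A := C * (C2 * wn w ^ 2))
    (by positivity) (by
      rw [ENNReal.ofReal_mul (by positivity), ENNReal.ofReal_mul (by positivity),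
        ENNReal.ofReal_pow hwn, ENNReal.ofReal_coe_nnreal, ENNReal.ofReal_coe_nnreal]
      gcongr
      refine (lintegral_mono_set hOT).trans ((hC2 w).trans ?_)
      unfold wn
      rw [ofReal_norm])
  have h2 : Real.sqrt (C * (C2 * wn w ^ 2)) = Real.sqrt (C * C2) * wn w := by
    rw [← mul_assoc, Real.sqrt_mul (by positivity), Real.sqrt_sq hwn]
  rw [h2] at h1
  rw [inner_SL_TL]
  have h3 : ∀ J : Idx (n + 1), ∫ x, frm w x (frame ∘ J) * ψ.1 J x = ∫ x, w.1 J x * ψ.1 J x := by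
    intro J
    congr 1
    funext x
    rw [frm_frame]
  simp_rw [h3] at h1
  refine h1.trans (le_of_eq ?_)
  ring

lemma weak_pair (n : ℕ) : ∃ D : ℝ, 0 ≤ D ∧ ∀ ε : ℝ, 0 < ε → ε ≤ 1 / 8 → ∀ v : L2 (n + 1), WeakD v 0 →
    ∀ ψ : TM (n + 1), (n = 0 → ∑ J, ∫ x, thc J x * ψ.1 J x = 0) →
    ∀ᶠ m : ℕ in atTop, |inner ℝ (SL (n + 1) (wmol m v)) (TL (n + 1) ψ)| ≤
      D * (wn (RM ε (n + 1) (wmol m v)) + ε * ‖SL (n + 1) (wmol m v)‖) * ‖TL n (codM n ψ)‖ := by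
  obtain ⟨D1, hD10, hD1⟩ := solvableW_pair n
  obtain ⟨D3, hD30, hD3⟩ := HM_bound n
  have hvQ := vQ_pos
  refine ⟨vQ⁻¹ * (D1 + D3), by positivity, fun ε hε hε8 v hv ψ hψ => ?_⟩
  obtain ⟨τ, s, h1, h2, h3, h4, h5, _⟩ := supp_exhaust ψ
  filter_upwards [eventually_ball (τ := τ / 2) (s := s) (by linarith) (by linarith) h4] with m hm
  set w := wmol m v with hw
  have hcl : ∀ x ∈ Om (τ / 2) s, extDeriv (frm w) x = 0 := fun x hx =>
    mform_closed (bseq m) hv (hm x hx)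
  have hcl' : ∀ x ∈ Om (τ / 2) s, frm (dM (n + 1) w) x = 0 := fun x hx => by
    rw [← extDeriv_frm]; exact hcl x hx
  have e1 : vQ • SL (n + 1) w = SL (n + 1) (RM ε (n + 1) w) - SL (n + 1) (dM n (HM ε w))
      - SL (n + 1) (HM ε (dM (n + 1) w)) := by
    rw [dM_HM hε.le, map_sub, map_sub, map_smul]
    abel
  have e2 : inner ℝ (SL (n + 1) (HM ε (dM (n + 1) w))) (TL (n + 1) ψ) = 0 := by
    rw [inner_SL_TL]
    refine Finset.sum_eq_zero fun J _ => ?_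
    rw [← integral_zero (ℂ × ℂ) ℝ]
    congr 1
    funext x
    by_cases hx : x ∈ Om τ s
    · have : (HM ε (dM (n + 1) w)).1 J x = 0 := HR_zero_on hε8 h1.le h3 hcl' hx J
      rw [this, zero_mul]
    · have : ψ.1 J x = 0 := by
        by_contra h
        exact hx (h5 J (subset_tsupport _ h))
      rw [this, mul_zero]
  have e3 : inner ℝ (SL (n + 1) (dM n (HM ε w))) (TL (n + 1) ψ)
      = inner ℝ (SL n (HM ε w)) (TL n (codM n ψ)) :=
    (weakD_iff _ _).1 (GS_sub n _ _ (mem_GS (HM ε w))) ψ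
  have e4 : |inner ℝ (SL (n + 1) (RM ε (n + 1) w)) (TL (n + 1) ψ)|
      ≤ D1 * wn (RM ε (n + 1) w) * ‖TL n (codM n ψ)‖ := by
    refine hD1 τ s h1.le h2 h3 h4.le _ (fun x hx => ?_) ψ h5 hψ
    rw [extDeriv_frm, dM_RM hε.le]
    apply form_ext
    intro J
    rw [frm_frame]
    exact RR_zero_on hε.le hε8 h1.le h3 hcl' hx J
  have hwn : 0 ≤ wn (RM ε (n + 1) w) := norm_nonneg _
  have k1 : vQ * inner ℝ (SL (n + 1) w) (TL (n + 1) ψ)
      = inner ℝ (SL (n + 1) (RM ε (n + 1) w)) (TL (n + 1) ψ)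
        - inner ℝ (SL n (HM ε w)) (TL n (codM n ψ)) := by
    rw [← real_inner_smul_left, e1, inner_sub_left, inner_sub_left, e2, e3, sub_zero]
  have k2 : vQ * |inner ℝ (SL (n + 1) w) (TL (n + 1) ψ)|
      ≤ (D1 + D3) * (wn (RM ε (n + 1) w) + ε * ‖SL (n + 1) w‖) * ‖TL n (codM n ψ)‖ := by
    have k0 : vQ * |inner ℝ (SL (n + 1) w) (TL (n + 1) ψ)|
        = |vQ * inner ℝ (SL (n + 1) w) (TL (n + 1) ψ)| := by rw [abs_mul, abs_of_pos hvQ]
    rw [k0, k1]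
    refine (abs_sub _ _).trans ?_
    have k3 : |inner ℝ (SL n (HM ε w)) (TL n (codM n ψ))|
        ≤ D3 * (ε * ‖SL (n + 1) w‖) * ‖TL n (codM n ψ)‖ :=
      (abs_real_inner_le_norm _ _).trans (by gcongr; exact hD3 ε hε.le hε8 w)
    have i1 : 0 ≤ D1 * (ε * ‖SL (n + 1) w‖) * ‖TL n (codM n ψ)‖ := by positivity
    have i2 : 0 ≤ D3 * wn (RM ε (n + 1) w) * ‖TL n (codM n ψ)‖ := by positivity
    have i3 : (D1 + D3) * (wn (RM ε (n + 1) w) + ε * ‖SL (n + 1) w‖) * ‖TL n (codM n ψ)‖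
      = D1 * wn (RM ε (n + 1) w) * ‖TL n (codM n ψ)‖ + D3 * (ε * ‖SL (n + 1) w‖) * ‖TL n (codM n ψ)‖
        + (D1 * (ε * ‖SL (n + 1) w‖) * ‖TL n (codM n ψ)‖
          + D3 * wn (RM ε (n + 1) w) * ‖TL n (codM n ψ)‖) := by ring
    rw [i3]
    linarith
  calc |inner ℝ (SL (n + 1) w) (TL (n + 1) ψ)|
      = vQ⁻¹ * (vQ * |inner ℝ (SL (n + 1) w) (TL (n + 1) ψ)|) := by
        rw [← mul_assoc, inv_mul_cancel₀ hvQ.ne', one_mul]
    _ ≤ vQ⁻¹ * ((D1 + D3) * (wn (RM ε (n + 1) w) + ε * ‖SL (n + 1) w‖) * ‖TL n (codM n ψ)‖) := by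
        gcongr
    _ = _ := by ring

lemma exists_test {n : ℕ} {S : L2 (n + 1) →L[ℝ] L2 n} (hS : IsSol (GW n) S) (v : L2 (n + 1)) {δ : ℝ}
    (hδ : 0 < δ) : ∃ ψ : TM (n + 1), (n = 0 → ∑ J, ∫ x, thc J x * ψ.1 J x = 0) ∧
      ‖S v - TL n (codM n ψ)‖ < δ := by
  obtain ⟨_, ⟨ψ0, rfl⟩, h⟩ := exists_near (LinearMap.range ((TL n).comp (codM n))) (x := S v) (by
    intro y hy
    refine hS.perp v y ?_
    change WeakD y 0
    rw [weakD_iff]
    intro ψ
    rw [inner_zero_left]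
    exact (hy _ ⟨ψ, rfl⟩).symm) hδ
  rcases n with _ | n
  · have hne := inner_Theta_psi8_ne
    set c : ℝ := inner ℝ Theta (TL 1 ψ0) / inner ℝ Theta (TL 1 psi8) with hc
    refine ⟨ψ0 - c • psi8, fun _ => ?_, ?_⟩
    · rw [← inner_Theta_TL, map_sub, map_smul, inner_sub_right, real_inner_smul_right, hc,
        div_mul_cancel₀ _ hne, sub_self]
    · have : codM 0 (ψ0 - c • psi8) = codM 0 ψ0 := by
        rw [map_sub, map_smul, codM_psi8]; simp
      rw [this]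
      exact h
  · exact ⟨ψ0, fun h => absurd h (Nat.succ_ne_zero n), h⟩

lemma EST_GW (n : ℕ) {S : L2 (n + 1) →L[ℝ] L2 n} (hS : IsSol (GW n) S) : EST n (GW n) S := by
  obtain ⟨D, hD0, hD⟩ := weak_pair n
  refine ⟨2 * D + 2, by positivity, fun ε hε hε8 u v huv δ hδ => ?_⟩
  have hvD : (S v, v) ∈ GW n := hS.mem u v huv
  have hv0 : WeakD v 0 := goodComplex_weak.comp n u v huv
  rcases le_or_gt ‖S v‖ δ with hle | hlt
  · obtain ⟨m, hm⟩ := (wmol_tendsto v hδ).exists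
    refine ⟨wmol m v, hm, hle.trans ?_⟩
    have i1 : 0 ≤ wn (RM ε (n + 1) (wmol m v)) := norm_nonneg _
    have i2 : 0 ≤ ε * ‖SL (n + 1) (wmol m v)‖ := by positivity
    calc δ = 1 * δ := (one_mul δ).symm
      _ ≤ (2 * D + 2) * (wn (RM ε (n + 1) (wmol m v)) + ε * ‖SL (n + 1) (wmol m v)‖ + δ) := by
        apply mul_le_mul <;> linarith
  · obtain ⟨ψ, hψ1, hψ2⟩ := exists_test hS v hδ
    have hδ' : 0 < min δ (δ * δ / (‖TL (n + 1) ψ‖ + 1)) := lt_min hδ (by positivity)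
    obtain ⟨m, hm1, hm2⟩ := ((wmol_tendsto v hδ').and (hD ε hε hε8 v hv0 ψ hψ1)).exists
    set w := wmol m v with hw
    refine ⟨w, hm1.trans_le (min_le_left _ _), ?_⟩
    set s := ‖S v‖ with hs
    have hs0 : 0 < s := hδ.trans hlt
    set c := TL n (codM n ψ) with hc
    set X := wn (RM ε (n + 1) w) + ε * ‖SL (n + 1) w‖ with hX
    have hX0 : 0 ≤ X := by
      have : 0 ≤ wn (RM ε (n + 1) w) := norm_nonneg _
      positivity
    have k1 : s ^ 2 ≤ s * δ + |inner ℝ (S v) c| := by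
      have j1 : s ^ 2 = inner ℝ (S v) c + inner ℝ (S v) (S v - c) := by
        rw [inner_sub_right, real_inner_self_eq_norm_sq]; ring
      have j2 : inner ℝ (S v) (S v - c) ≤ s * δ :=
        (real_inner_le_norm _ _).trans (by gcongr)
      rw [j1]
      linarith [le_abs_self (inner ℝ (S v) c)]
    have k2 : inner ℝ (S v) c = inner ℝ v (TL (n + 1) ψ) := ((weakD_iff _ _).1 hvD ψ).symm
    have k3 : |inner ℝ v (TL (n + 1) ψ)| ≤ |inner ℝ (SL (n + 1) w) (TL (n + 1) ψ)| + δ * δ := by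
      have j1 : inner ℝ v (TL (n + 1) ψ) = inner ℝ (SL (n + 1) w) (TL (n + 1) ψ)
          - inner ℝ (SL (n + 1) w - v) (TL (n + 1) ψ) := by
        rw [inner_sub_left]; ring
      rw [j1]
      refine (abs_sub _ _).trans ?_
      gcongr
      refine (abs_real_inner_le_norm _ _).trans ?_
      have j2 : ‖SL (n + 1) w - v‖ ≤ δ * δ / (‖TL (n + 1) ψ‖ + 1) := hm1.le.trans (min_le_right _ _)
      rw [le_div_iff₀ (by positivity)] at j2
      have j3 : 0 ≤ ‖SL (n + 1) w - v‖ := norm_nonneg _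
      linarith
    have k5 : ‖c‖ ≤ 2 * s := by
      have j1 : c = S v - (S v - c) := by abel
      rw [j1]
      refine (norm_sub_le _ _).trans ?_
      linarith
    have k6 : s ^ 2 ≤ s * δ + (D * X * (2 * s) + s * δ) := by
      refine k1.trans ?_
      rw [k2]
      have j1 : |inner ℝ (SL (n + 1) w) (TL (n + 1) ψ)| ≤ D * X * (2 * s) :=
        hm2.trans (by gcongr)
      have j2 : δ * δ ≤ s * δ := by gcongr
      linarith
    have k7 : s * s ≤ s * (2 * δ + 2 * (D * X)) := by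
      calc s * s = s ^ 2 := by ring
        _ ≤ _ := k6
        _ = _ := by ring
    have k8 := le_of_mul_le_mul_left k7 hs0
    have i1 : (2 * D + 2) * (X + δ) = 2 * δ + 2 * (D * X) + (2 * X + 2 * D * δ) := by ring
    rw [i1]
    have i2 : 0 ≤ 2 * X + 2 * D * δ := by positivity
    linarith

lemma compact_GW (n : ℕ) {S : L2 (n + 1) →L[ℝ] L2 n} (hS : IsSol (GW n) S) : IsCompactOperator S :=
  compact_of_EST (goodComplex_weak.range_closed n) hS (EST_GW n hS)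

/-- the weak Laplacian has discrete spectrum -/
theorem discrete_weak (q : ℕ) : HasDiscreteSpectrum (Laplacian (fun _ f g => WeakD f g) q) :=
  goodComplex_weak.discrete GW_dense (fun n _ hS => compact_GW n hS) q

/-- the strong Laplacian has discrete spectrum -/
theorem discrete_strong (q : ℕ) : HasDiscreteSpectrum (Laplacian (fun _ f g => StrongD f g) q) := by
  have h : (fun (q : ℕ) (f : L2 q) (g : L2 (q + 1)) => StrongD f g)
      = fun q f g => (f, g) ∈ GS q := by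
    funext q f g
    exact propext (strongD_iff f g)
  rw [h]
  exact goodComplex_strong.discrete GS_dense (fun n _ hS => compact_GS n hS) q

end Pool.Agent.H631R3
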