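import Pool.Agent.H631R3.Str6

/-! Weighted estimates for the solution operator: a gain of one power of `|z₂|`. -/

open scoped ContDiff Topology ENNReal NNReal
open MeasureTheory Set Filter

noncomputable section

namespace Pool.Agent.H631R3

section general

variable {P : Type} [NormedAddCommGroup P] [NormedSpace ℝ P] {K : Set P} (hK : IsCompact K)

include hK

lemma kern_boundW {A A' : P → (ℂ × ℂ) →L[ℝ] (ℂ × ℂ)} (hA : Continuous A) (hA' : Continuous A')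
    (n : ℕ) : ∃ C : ℝ≥0, ∀ (f : ℂ × ℂ → Form (n + 1)) (I : Idx n), ∀ p ∈ K, ∀ x : ℂ × ℂ,
      ‖kern f (A p) (A' p) I x‖ₑ ≤ C * (‖x‖ₑ * ‖f (A p x)‖ₑ) := by
  obtain ⟨C1, h10, h1⟩ := exists_bound_fam hK hA
  obtain ⟨C2, h20, h2⟩ := exists_bound_fam hK hA'
  set C := max C1 C2 with hC
  have hC0 : 0 ≤ C := h10.trans (le_max_left _ _)
  refine ⟨⟨C ^ (n + 1), by positivity⟩, fun f I p hp x => ?_⟩
  have h3 : ‖kern f (A p) (A' p) I x‖ ≤ C ^ (n + 1) * (‖x‖ * ‖f (A p x)‖) := by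
    unfold kern
    refine ((f (A p x)).le_opNorm _).trans ?_
    rw [Fin.prod_univ_succ, Fin.cons_zero]
    have h4 : ‖A' p x‖ ≤ C * ‖x‖ := by
      calc ‖A' p x‖ ≤ ‖A' p‖ * ‖x‖ := (A' p).le_opNorm x
        _ ≤ C * ‖x‖ := by
          gcongr
          exact (h2 p hp).trans (le_max_right _ _)
    have h5 : ∏ i : Fin n, ‖(Fin.cons (A' p x) (fun j => A p (frame (I j))) :
        Fin (n + 1) → ℂ × ℂ) i.succ‖ ≤ C ^ n := by
      calc _ ≤ ∏ _i : Fin n, C := by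
            refine Finset.prod_le_prod (fun i _ => norm_nonneg _) (fun i _ => ?_)
            rw [Fin.cons_succ]
            calc ‖A p (frame (I i))‖ ≤ ‖A p‖ * ‖frame (I i)‖ := (A p).le_opNorm _
              _ ≤ C1 := by rw [norm_frame, mul_one]; exact h1 p hp
              _ ≤ C := le_max_left _ _
        _ = C ^ n := by simp
    calc ‖f (A p x)‖ * (‖A' p x‖ * ∏ i : Fin n, ‖(Fin.cons (A' p x) (fun j => A p (frame (I j))) :
        Fin (n + 1) → ℂ × ℂ) i.succ‖) ≤ ‖f (A p x)‖ * ((C * ‖x‖) * C ^ n) := by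
          gcongr
      _ = _ := by ring
  rw [← ofReal_norm, ← ofReal_norm, ← ofReal_norm]
  calc ENNReal.ofReal ‖kern f (A p) (A' p) I x‖ ≤ ENNReal.ofReal (C ^ (n + 1) * (‖x‖ * ‖f (A p x)‖)) :=
        ENNReal.ofReal_le_ofReal h3
    _ = _ := by
        rw [ENNReal.ofReal_mul (by positivity), ENNReal.ofReal_mul (norm_nonneg _)]
        congr 1
        exact ENNReal.ofReal_eq_coe_nnreal _

lemma Kop_boundW [MeasurableSpace P] [BorelSpace P] {μ : Measure P} [IsFiniteMeasureOnCompacts μ]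
    {A A' : P → (ℂ × ℂ) →L[ℝ] (ℂ × ℂ)} (hA : Continuous A) (hA' : Continuous A')
    (n : ℕ) : ∃ C : ℝ≥0, ∀ (f : ℂ × ℂ → Form (n + 1)), Continuous f → ∀ (I : Idx n)
      (x : ℂ × ℂ), ‖Kop μ K A A' f I x‖ₑ ^ 2 ≤ C * (‖x‖ₑ ^ 2 * ∫⁻ p in K, ‖f (A p x)‖ₑ ^ 2 ∂μ) := by
  obtain ⟨C, hC⟩ := kern_boundW hK hA hA' n
  have hμ : μ K ≠ ⊤ := hK.measure_lt_top.ne
  refine ⟨(μ K).toNNReal * C ^ 2, fun f hf I x => ?_⟩
  have hm : Continuous (fun p => ‖f (A p x)‖ₑ) := by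
    have : Continuous fun p => f (A p x) := hf.comp (hA.clm_apply continuous_const)
    exact this.enorm
  have hms : MeasurableSet K := hK.isClosed.measurableSet
  calc ‖Kop μ K A A' f I x‖ₑ ^ 2 ≤ (∫⁻ p in K, C * (‖x‖ₑ * ‖f (A p x)‖ₑ) ∂μ) ^ 2 := by
        gcongr
        refine (enorm_integral_le_lintegral_enorm _).trans ?_
        exact setLIntegral_mono' hms fun p hp => hC f I p hp x
    _ ≤ (μ.restrict K) univ * ∫⁻ p in K, (C * (‖x‖ₑ * ‖f (A p x)‖ₑ)) ^ 2 ∂μ :=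
        cs_lintegral_one _ ((hm.measurable.const_mul _).const_mul _).aemeasurable
    _ = _ := by
        rw [Measure.restrict_apply_univ]
        simp_rw [mul_pow]
        rw [lintegral_const_mul _ ((hm.measurable.pow_const 2).const_mul _),
          lintegral_const_mul _ (hm.measurable.pow_const 2), ENNReal.coe_mul,
          ENNReal.coe_toNNReal hμ, ENNReal.coe_pow, mul_assoc]

end general

lemma enorm_Om {τ s : ℝ} (hs1 : s ≤ 1) {x : ℂ × ℂ} (hx : x ∈ Om τ s) : ‖x‖ₑ = ‖x.2‖ₑ := by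
  have h1 : ‖x.1‖ ≤ ‖x.2‖ := by
    have := hx.2
    nlinarith [norm_nonneg x.2]
  have h2 : ‖x‖ = ‖x.2‖ := max_eq_right h1
  rw [← ofReal_norm, ← ofReal_norm, h2]

lemma K1_intW (n : ℕ) : ∃ C : ℝ≥0, ∀ τ s : ℝ, 0 ≤ τ → 1 / 2 < s → s ≤ 1 →
    ∀ f : ℂ × ℂ → Form (n + 1), Continuous f → ∀ I : Idx n,
    ∫⁻ x in Om τ s, ‖K1 f I x‖ₑ ^ 2 ≤ C * ∫⁻ x in Om τ s, ‖x.2‖ₑ ^ 2 * ‖f x‖ₑ ^ 2 := by
  obtain ⟨C, hC⟩ := Kop_boundW (μ := (volume : Measure (ℝ × ℂ)))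
    (isCompact_Icc.prod isCompact_BB : IsCompact (Icc (0 : ℝ) 1 ×ˢ BB)) contDiff_A1.continuous
    (A' := fun p => (1 : ℝ) • dA1 p) (by simpa using contDiff_dA1.continuous) n
  have hfin : (4 * NNReal.pi + 4 * volume BB : ℝ≥0∞) ≠ ⊤ :=
    ENNReal.add_ne_top.2 ⟨ENNReal.mul_ne_top (by norm_num) ENNReal.coe_ne_top,
      ENNReal.mul_ne_top (by norm_num) volume_BB_ne_top⟩
  refine ⟨C * (4 * NNReal.pi + 4 * volume BB : ℝ≥0∞).toNNReal, fun τ s hτ hs hs1 f hf I => ?_⟩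
  have hmO : MeasurableSet (Om τ s) := (isOpen_Om τ s).measurableSet
  calc ∫⁻ x in Om τ s, ‖K1 f I x‖ₑ ^ 2
      ≤ ∫⁻ x in Om τ s, C * ∫⁻ p in Icc (0 : ℝ) 1 ×ˢ BB, ‖(A1 p x).2‖ₑ ^ 2 * ‖f (A1 p x)‖ₑ ^ 2 := by
        refine setLIntegral_mono' hmO fun x hx => (hC f hf I x).trans (le_of_eq ?_)
        rw [enorm_Om hs1 hx]
        have e : ∀ p, (A1 p x).2 = x.2 := fun p => by simp [A1, M_apply]
        simp_rw [e]
        rw [lintegral_const_mul' _ _ (ENNReal.pow_ne_top enorm_ne_top)]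
    _ = C * ∫⁻ x in Om τ s, ∫⁻ p in Icc (0 : ℝ) 1 ×ˢ BB, ‖(A1 p x).2‖ₑ ^ 2 * ‖f (A1 p x)‖ₑ ^ 2 :=
        lintegral_const_mul' _ _ ENNReal.coe_ne_top
    _ ≤ C * ((4 * NNReal.pi + 4 * volume BB) * ∫⁻ z in Om τ s, ‖z.2‖ₑ ^ 2 * ‖f z‖ₑ ^ 2) := by
        gcongr
        exact int_A1 hτ hs hs1 (F := fun z => ‖z.2‖ₑ ^ 2 * ‖f z‖ₑ ^ 2)
          ((by fun_prop : Measurable fun z : ℂ × ℂ => ‖z.2‖ₑ ^ 2).mul (hf.enorm.measurable.pow_const 2))
    _ = _ := by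
        rw [ENNReal.coe_mul, ENNReal.coe_toNNReal hfin]; ring

lemma K2_intW (n : ℕ) : ∃ C : ℝ≥0, ∀ τ s : ℝ, 0 ≤ τ → 1 / 2 < s → s ≤ 1 →
    ∀ f : ℂ × ℂ → Form (n + 1), Continuous f → ∀ I : Idx n,
    ∫⁻ x in Om τ s, ‖K2 f I x‖ₑ ^ 2 ≤ C * ∫⁻ x in Om τ s, ‖x.2‖ₑ ^ 2 * ‖f x‖ₑ ^ 2 := by
  obtain ⟨C, hC⟩ := Kop_boundW (μ := (volume : Measure (ℝ × ℂ)))
    isCompact_KR contDiff_A2.continuous
    (A' := fun p => (1 - p.1 / (2 * Real.pi)) • dA2 p)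
    (((contDiff_const.sub (contDiff_fst.div_const _)).smul contDiff_dA2).continuous) n
  have hfin : (ENNReal.ofReal (2 * Real.pi) * (4 * NNReal.pi) : ℝ≥0∞) ≠ ⊤ :=
    ENNReal.mul_ne_top ENNReal.ofReal_ne_top (ENNReal.mul_ne_top (by norm_num) ENNReal.coe_ne_top)
  refine ⟨C * (ENNReal.ofReal (2 * Real.pi) * (4 * NNReal.pi) : ℝ≥0∞).toNNReal,
    fun τ s hτ hs hs1 f hf I => ?_⟩
  have hmO : MeasurableSet (Om τ s) := (isOpen_Om τ s).measurableSet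
  calc ∫⁻ x in Om τ s, ‖K2 f I x‖ₑ ^ 2
      ≤ ∫⁻ x in Om τ s, C * ∫⁻ p in KR, ‖(A2 p x).2‖ₑ ^ 2 * ‖f (A2 p x)‖ₑ ^ 2 := by
        refine setLIntegral_mono' hmO fun x hx => (hC f hf I x).trans (le_of_eq ?_)
        rw [enorm_Om hs1 hx]
        have e : ∀ p, ‖(A2 p x).2‖ₑ = ‖x.2‖ₑ := fun p => by
          rw [← ofReal_norm, ← ofReal_norm]
          simp [A2, M_apply, norm_ex]
        simp_rw [e]
        rw [lintegral_const_mul' _ _ (ENNReal.pow_ne_top enorm_ne_top)]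
    _ = C * ∫⁻ x in Om τ s, ∫⁻ p in KR, ‖(A2 p x).2‖ₑ ^ 2 * ‖f (A2 p x)‖ₑ ^ 2 :=
        lintegral_const_mul' _ _ ENNReal.coe_ne_top
    _ ≤ C * ((ENNReal.ofReal (2 * Real.pi) * (4 * NNReal.pi)) *
          ∫⁻ z in Om τ s, ‖z.2‖ₑ ^ 2 * ‖f z‖ₑ ^ 2) := by
        gcongr
        exact int_A2 hτ hs hs1 (F := fun z => ‖z.2‖ₑ ^ 2 * ‖f z‖ₑ ^ 2)
          ((by fun_prop : Measurable fun z : ℂ × ℂ => ‖z.2‖ₑ ^ 2).mul (hf.enorm.measurable.pow_const 2))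
    _ = _ := by
        rw [ENNReal.coe_mul, ENNReal.coe_toNNReal hfin]; ring

lemma abs_int_mono_aux {a b : ℝ} (hab : a ≤ b) {f g : ℝ → ℝ} (hf : ContinuousOn f (Icc a b))
    (hg : ContinuousOn g (Icc a b)) (h0 : ∀ t ∈ Icc a b, 0 ≤ f t) (h : ∀ t ∈ Icc a b, f t ≤ g t) :
    |∫ t in a..b, f t| ≤ |∫ t in a..b, g t| := by
  rw [abs_of_nonneg (intervalIntegral.integral_nonneg hab h0),
    abs_of_nonneg (intervalIntegral.integral_nonneg hab fun t ht => (h0 t ht).trans (h t ht))]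
  exact intervalIntegral.integral_mono_on hab (hf.intervalIntegrable_of_Icc hab)
    (hg.intervalIntegrable_of_Icc hab) h

lemma abs_int_mono {a b : ℝ} {f g : ℝ → ℝ} (hf : ContinuousOn f (uIcc a b))
    (hg : ContinuousOn g (uIcc a b)) (h0 : ∀ t ∈ uIcc a b, 0 ≤ f t)
    (h : ∀ t ∈ uIcc a b, f t ≤ g t) : |∫ t in a..b, f t| ≤ |∫ t in a..b, g t| := by
  rcases le_total a b with hab | hab
  · rw [uIcc_of_le hab] at hf hg h0 h
    exact abs_int_mono_aux hab hf hg h0 h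
  · rw [uIcc_of_ge hab] at hf hg h0 h
    rw [intervalIntegral.integral_symm b a, intervalIntegral.integral_symm b a, abs_neg, abs_neg]
    exact abs_int_mono_aux hab hf hg h0 h

lemma Rad_weight {τ s : ℝ} (hτ : 0 ≤ τ) (hτ' : τ < 1 / 2) (hs : 1 / 2 < s) (hs1 : s ≤ 1)
    {a : ℂ → ℝ} (ha : Continuous a) {z : ℂ} (hz : z ∈ Ann τ s) :
    ‖z‖ * |Rad a z| ≤ 2 * |Rad (fun w => ‖w‖ * |a w|) z| := by
  have hz0 : 0 < ‖z‖ := lt_of_le_of_lt hτ hz.1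
  have hz1 : ‖z‖ ≤ 1 := (hz.2.trans_le hs1).le
  have hhalf : 1 / 2 ≤ 1 / (2 * ‖z‖) := by
    rw [div_le_div_iff₀ (by norm_num) (by positivity)]; linarith
  have hthalf : ∀ t ∈ uIcc (1 / (2 * ‖z‖)) 1, 1 / 2 ≤ t := by
    intro t ht
    rcases le_total (1 / (2 * ‖z‖)) 1 with h | h
    · rw [uIcc_of_le h] at ht; exact hhalf.trans ht.1
    · rw [uIcc_of_ge h] at ht; linarith [ht.1]
  have hc1 : ContinuousOn (fun t : ℝ => ‖a (t • z) / t‖) (uIcc (1 / (2 * ‖z‖)) 1) := by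
    apply ContinuousOn.norm
    apply ContinuousOn.div (by fun_prop) (by fun_prop)
    intro t ht; have := hthalf t ht; linarith
  have hc2 : ContinuousOn (fun t : ℝ => (‖t • z‖ * |a (t • z)|) / t) (uIcc (1 / (2 * ‖z‖)) 1) := by
    apply ContinuousOn.div _ (by fun_prop)
    · intro t ht; have := hthalf t ht; linarith
    · have : Continuous fun t : ℝ => ‖t • z‖ * |a (t • z)| := by
        have := ha.comp (by fun_prop : Continuous fun t : ℝ => t • z)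
        exact (by fun_prop : Continuous fun t : ℝ => ‖t • z‖).mul this.abs
      exact this.continuousOn
  have h1 : |Rad a z| ≤ |∫ t in (1 / (2 * ‖z‖))..1, ‖a (t • z) / t‖| := by
    unfold Rad
    rw [← Real.norm_eq_abs]
    exact intervalIntegral.norm_integral_le_abs_integral_norm
  have h2 : ‖z‖ * |∫ t in (1 / (2 * ‖z‖))..1, ‖a (t • z) / t‖|
      = |∫ t in (1 / (2 * ‖z‖))..1, ‖z‖ * ‖a (t • z) / t‖| := by
    rw [intervalIntegral.integral_const_mul, abs_mul, abs_of_pos hz0]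
  have h3 : |∫ t in (1 / (2 * ‖z‖))..1, ‖z‖ * ‖a (t • z) / t‖|
      ≤ |∫ t in (1 / (2 * ‖z‖))..1, 2 * ((‖t • z‖ * |a (t • z)|) / t)| := by
    refine abs_int_mono (continuousOn_const.mul hc1) (continuousOn_const.mul hc2)
      (fun t _ => by positivity) ?_
    intro t ht
    have ht2 := hthalf t ht
    have ht0 : 0 < t := by linarith
    rw [norm_div, Real.norm_of_nonneg ht0.le, norm_smul, Real.norm_of_nonneg ht0.le, mul_div_assoc',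
      mul_div_assoc']
    refine div_le_div_of_nonneg_right ?_ ht0.le
    rw [Real.norm_eq_abs]
    have h5 : 0 ≤ ‖z‖ * |a (t • z)| := by positivity
    nlinarith
  calc ‖z‖ * |Rad a z| ≤ ‖z‖ * |∫ t in (1 / (2 * ‖z‖))..1, ‖a (t • z) / t‖| := by gcongr
    _ ≤ _ := h2.le.trans h3
    _ = 2 * |Rad (fun w => ‖w‖ * |a w|) z| := by
      rw [intervalIntegral.integral_const_mul, abs_mul, abs_of_pos (by norm_num : (0 : ℝ) < 2)]
      rfl


lemma bound_RadW {τ s : ℝ} (hτ : 0 ≤ τ) (hτ' : τ < 1 / 2) (hs : 1 / 2 < s) (hs1 : s ≤ 1)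
    {a : ℂ → ℝ} (ha : Continuous a) :
    ∫⁻ z in Ann τ s, ‖z‖ₑ ^ 2 * ‖Rad a z‖ₑ ^ 2 ≤ 16 * ∫⁻ z in Ann τ s, ‖z‖ₑ ^ 2 * ‖a z‖ₑ ^ 2 := by
  have hmA : MeasurableSet (Ann τ s) := (isOpen_Ann τ s).measurableSet
  have ha2 : Continuous (fun w : ℂ => ‖w‖ * |a w|) := continuous_norm.mul ha.abs
  calc ∫⁻ z in Ann τ s, ‖z‖ₑ ^ 2 * ‖Rad a z‖ₑ ^ 2
      ≤ ∫⁻ z in Ann τ s, 4 * ‖Rad (fun w => ‖w‖ * |a w|) z‖ₑ ^ 2 := by
        refine setLIntegral_mono' hmA fun z hz => ?_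
        have h1 := Rad_weight hτ hτ' hs hs1 ha hz
        have h2 : ‖z‖ₑ * ‖Rad a z‖ₑ ≤ 2 * ‖Rad (fun w => ‖w‖ * |a w|) z‖ₑ := by
          rw [← ofReal_norm, ← ofReal_norm, ← ofReal_norm, ← ENNReal.ofReal_mul (norm_nonneg _),
            Real.norm_eq_abs, Real.norm_eq_abs, show (2 : ℝ≥0∞) = ENNReal.ofReal 2 by norm_num,
            ← ENNReal.ofReal_mul (by norm_num)]
          exact ENNReal.ofReal_le_ofReal h1
        calc ‖z‖ₑ ^ 2 * ‖Rad a z‖ₑ ^ 2 = (‖z‖ₑ * ‖Rad a z‖ₑ) ^ 2 := by rw [mul_pow]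
          _ ≤ (2 * ‖Rad (fun w => ‖w‖ * |a w|) z‖ₑ) ^ 2 := by gcongr
          _ = _ := by rw [mul_pow]; norm_num
    _ = 4 * ∫⁻ z in Ann τ s, ‖Rad (fun w => ‖w‖ * |a w|) z‖ₑ ^ 2 :=
        lintegral_const_mul' _ _ (by norm_num)
    _ ≤ 4 * (4 * ∫⁻ z in Ann τ s, ‖‖z‖ * |a z|‖ₑ ^ 2) := by
        gcongr
        exact bound_Rad hτ hτ' hs hs1 ha2
    _ = _ := by
        rw [← mul_assoc, show (4 : ℝ≥0∞) * 4 = 16 by norm_num]
        congr 1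
        refine lintegral_congr fun z => ?_
        rw [enorm_mul, mul_pow]
        congr 2
        · rw [← ofReal_norm, ← ofReal_norm, norm_norm]
        · rw [← ofReal_norm, ← ofReal_norm, Real.norm_eq_abs, abs_abs, Real.norm_eq_abs]

lemma R0_intW : ∃ C : ℝ≥0, ∀ τ s : ℝ, 0 ≤ τ → τ < 1 / 2 → 1 / 2 < s → s ≤ 1 →
    ∀ f : ℂ × ℂ → Form 1, ContDiff ℝ ∞ f →
    ∫⁻ x in Om τ s, ‖Rad (ab0 f) x.2‖ₑ ^ 2 ≤ C * ∫⁻ x in Om τ s, ‖x.2‖ₑ ^ 2 * ‖f x‖ₑ ^ 2 := by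
  obtain ⟨C, hC⟩ := ab0_ptwise
  refine ⟨NNReal.pi * 16 * (C * (Real.toNNReal (2 * Real.pi) * 4)),
    fun τ s hτ hτ' hs hs1 f hf => ?_⟩
  have hmA : MeasurableSet (Ann τ s) := (isOpen_Ann τ s).measurableSet
  have hmO : MeasurableSet (Om τ s) := (isOpen_Om τ s).measurableSet
  have ha' : ContDiff ℝ ∞ (ab0 f) := contDiff_ab0 hf
  set H : ℂ → ℝ≥0∞ := (Ann τ s).indicator (fun w => ‖Rad (ab0 f) w‖ₑ ^ 2) with hH
  have hHm : Measurable H := by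
    have h1 : Measurable ((Ann τ s).indicator (fun w => ‖Rad (ab0 f) w‖ₑ)) := by
      classical
      rw [← Set.piecewise_eq_indicator]
      refine ContinuousOn.measurable_piecewise ?_ continuousOn_const hmA
      exact (contDiffOn_Rad hτ hτ' hs ha'.contDiffOn).continuousOn.enorm
    have h2 : H = fun w => ((Ann τ s).indicator (fun w => ‖Rad (ab0 f) w‖ₑ) w) ^ 2 := by
      funext w
      rw [hH]
      by_cases hw : w ∈ Ann τ s
      · rw [indicator_of_mem hw, indicator_of_mem hw]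
      · rw [indicator_of_notMem hw, indicator_of_notMem hw]
        simp
    rw [h2]
    exact h1.pow_const 2
  calc ∫⁻ x in Om τ s, ‖Rad (ab0 f) x.2‖ₑ ^ 2 = ∫⁻ x in Om τ s, H x.2 := by
        refine setLIntegral_congr_fun hmO fun x hx => ?_
        rw [hH, indicator_of_mem hx.1]
    _ = ∫⁻ w in Ann τ s, ENNReal.ofReal (s * ‖w‖) ^ 2 * NNReal.pi * H w := lintegral_Om_snd hHm
    _ ≤ ∫⁻ w in Ann τ s, NNReal.pi * (‖w‖ₑ ^ 2 * ‖Rad (ab0 f) w‖ₑ ^ 2) := by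
        refine setLIntegral_mono' hmA fun w hw => ?_
        rw [hH, indicator_of_mem hw]
        have h1 : ENNReal.ofReal (s * ‖w‖) ≤ ‖w‖ₑ := by
          rw [← ofReal_norm]
          apply ENNReal.ofReal_le_ofReal
          nlinarith [norm_nonneg w]
        calc _ = NNReal.pi * (ENNReal.ofReal (s * ‖w‖) ^ 2 * ‖Rad (ab0 f) w‖ₑ ^ 2) := by ring
          _ ≤ _ := by gcongr
    _ = NNReal.pi * ∫⁻ w in Ann τ s, ‖w‖ₑ ^ 2 * ‖Rad (ab0 f) w‖ₑ ^ 2 := by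
        rw [lintegral_const_mul' _ _ ENNReal.coe_ne_top]
    _ ≤ NNReal.pi * (16 * ∫⁻ w in Ann τ s, ‖w‖ₑ ^ 2 * ‖ab0 f w‖ₑ ^ 2) := by
        gcongr
        exact bound_RadW hτ hτ' hs hs1 ha'.continuous
    _ ≤ NNReal.pi * (16 * ∫⁻ w in Ann τ s, C * (ENNReal.ofReal (‖w‖ ^ 2) *
          ∫⁻ p in KR, ‖(A2 p (0, w)).2‖ₑ ^ 2 * ‖f (A2 p (0, w))‖ₑ ^ 2)) := by
        refine mul_le_mul' le_rfl (mul_le_mul' le_rfl ?_)
        refine lintegral_mono fun w => ?_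
        have e : ∀ p, ‖(A2 p ((0 : ℂ), w)).2‖ₑ = ‖w‖ₑ := fun p => by
          rw [← ofReal_norm, ← ofReal_norm]
          simp [A2, M_apply, norm_ex]
        simp_rw [e]
        rw [lintegral_const_mul' _ _ (ENNReal.pow_ne_top enorm_ne_top)]
        calc ‖w‖ₑ ^ 2 * ‖ab0 f w‖ₑ ^ 2 ≤ ‖w‖ₑ ^ 2 * (C * (ENNReal.ofReal (‖w‖ ^ 2) *
              ∫⁻ p in KR, ‖f (A2 p (0, w))‖ₑ ^ 2)) := by
              gcongr
              exact hC f hf.continuous w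
          _ = _ := by ring
    _ = NNReal.pi * (16 * (C * ∫⁻ w in Ann τ s, (ENNReal.ofReal (‖w‖ ^ 2) *
          ∫⁻ p in KR, ‖(A2 p (0, w)).2‖ₑ ^ 2 * ‖f (A2 p (0, w))‖ₑ ^ 2))) := by
        rw [lintegral_const_mul' _ _ ENNReal.coe_ne_top]
    _ ≤ NNReal.pi * (16 * (C * ((ENNReal.ofReal (2 * Real.pi) * 4) *
          ∫⁻ z in Om τ s, ‖z.2‖ₑ ^ 2 * ‖f z‖ₑ ^ 2))) := by
        gcongr
        exact int_A2_base hτ hs (F := fun z => ‖z.2‖ₑ ^ 2 * ‖f z‖ₑ ^ 2)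
          ((by fun_prop : Measurable fun z : ℂ × ℂ => ‖z.2‖ₑ ^ 2).mul
            (hf.continuous.enorm.measurable.pow_const 2))
    _ = _ := by
        push_cast
        rw [ENNReal.ofReal]
        ring

lemma ab1_ptwiseW : ∃ C : ℝ≥0, ∀ f : ℂ × ℂ → Form 2, Continuous f → ∀ w : ℂ,
    ‖ab1 f w‖ₑ ^ 2 ≤ C * (ENNReal.ofReal (‖w‖ ^ 2) *
      ∫⁻ y in BB, ‖((y * w, w) : ℂ × ℂ).2‖ₑ ^ 2 * ‖f (y * w, w)‖ₑ ^ 2) := by
  have hμ : volume BB ≠ ⊤ := volume_BB_ne_top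
  refine ⟨(volume BB).toNNReal, fun f hf w => ?_⟩
  have hm : Continuous (fun y : ℂ => ‖f (y * w, w)‖ₑ) :=
    (hf.comp (by fun_prop : Continuous fun y : ℂ => (y * w, w))).enorm
  have h1 : ∀ y ∈ BB, ‖f (M 0 y 1 (0, w)) (fun j => M 0 y 1 (v01 j))‖ₑ ≤ ‖f (y * w, w)‖ₑ := by
    intro y hy
    have hy : ‖y‖ ≤ 1 / 2 := by simpa [BB] using hy
    have e : M 0 y 1 (0, w) = (y * w, w) := by simp [M_apply]
    rw [e, ← ofReal_norm, ← ofReal_norm]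
    apply ENNReal.ofReal_le_ofReal
    refine ((f (y * w, w)).le_opNorm _).trans ?_
    have h2 : ∀ j : Fin 2, ‖M 0 y 1 (v01 j)‖ ≤ 1 := by
      intro j
      have : (v01 j).2 = 1 ∨ (v01 j).2 = Complex.I := by
        fin_cases j <;> simp [v01]
      have h3 : ‖(v01 j).2‖ = 1 := by rcases this with h | h <;> rw [h] <;> simp
      simp only [M_apply, zero_mul, zero_add, one_mul]
      apply max_le
      · rw [norm_mul, h3]; linarith
      · exact h3.le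
    calc _ ≤ ‖f (y * w, w)‖ * ∏ _j : Fin 2, (1 : ℝ) := by
          gcongr
          exact h2 _
      _ = _ := by simp
  have hms : MeasurableSet BB := isCompact_BB.isClosed.measurableSet
  calc ‖ab1 f w‖ₑ ^ 2 ≤ (ENNReal.ofReal (‖w‖ ^ 2) * ∫⁻ y in BB, ‖f (y * w, w)‖ₑ) ^ 2 := by
        unfold ab1 hb1
        rw [enorm_mul]
        have e : ‖(‖w‖ ^ 2 : ℝ)‖ₑ = ENNReal.ofReal (‖w‖ ^ 2) := by
          rw [← ofReal_norm, Real.norm_of_nonneg (by positivity)]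
        rw [e]
        gcongr
        refine (enorm_integral_le_lintegral_enorm _).trans ?_
        exact setLIntegral_mono' hms h1
    _ = (ENNReal.ofReal (‖w‖ ^ 2)) ^ 2 * (∫⁻ y in BB, ‖f (y * w, w)‖ₑ) ^ 2 := by ring
    _ ≤ (ENNReal.ofReal (‖w‖ ^ 2)) ^ 2 * (((volume.restrict BB) univ) *
          ∫⁻ y in BB, ‖f (y * w, w)‖ₑ ^ 2) := by
        gcongr
        exact cs_lintegral_one _ hm.measurable.aemeasurable
    _ = _ := by
        rw [Measure.restrict_apply_univ, ENNReal.coe_toNNReal hμ,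
          lintegral_const_mul' _ _ (ENNReal.pow_ne_top enorm_ne_top)]
        have e : ‖w‖ₑ ^ 2 = ENNReal.ofReal (‖w‖ ^ 2) := by
          rw [ENNReal.ofReal_pow (norm_nonneg _), ofReal_norm]
        rw [e]
        ring

lemma U1_intW : ∃ C : ℝ≥0, ∀ τ s : ℝ, 0 ≤ τ → τ < 1 / 2 → 1 / 2 < s → s ≤ 1 →
    ∀ f : ℂ × ℂ → Form 2, ContDiff ℝ ∞ f → ∀ I : Idx 1,
    ∫⁻ x in Om τ s, ‖U1 f I x‖ₑ ^ 2 ≤ C * ∫⁻ x in Om τ s, ‖x.2‖ₑ ^ 2 * ‖f x‖ₑ ^ 2 := by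
  obtain ⟨C, hC⟩ := ab1_ptwiseW
  refine ⟨NNReal.pi * 4 * (C * 4), fun τ s hτ hτ' hs hs1 f hf I => ?_⟩
  have ha' : ContDiff ℝ ∞ (ab1 f) := contDiff_ab1 hf
  have h1 := base_bound hτ hτ' hs hs1 ha'.continuous ha'.contDiffOn
    (m := fun x => dth (frame (I 0)).2 x.2) (fun x _ => abs_thc_le I x)
  refine h1.trans ?_
  calc (NNReal.pi * 4 : ℝ≥0∞) * ∫⁻ w in Ann τ s, ‖ab1 f w‖ₑ ^ 2
      ≤ (NNReal.pi * 4 : ℝ≥0∞) * ∫⁻ w in Ann τ s, C * (ENNReal.ofReal (‖w‖ ^ 2) *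
          ∫⁻ y in BB, ‖((y * w, w) : ℂ × ℂ).2‖ₑ ^ 2 * ‖f (y * w, w)‖ₑ ^ 2) := by
        refine mul_le_mul' le_rfl ?_
        exact lintegral_mono fun w => hC f hf.continuous w
    _ = (NNReal.pi * 4 : ℝ≥0∞) * (C * ∫⁻ w in Ann τ s, (ENNReal.ofReal (‖w‖ ^ 2) *
          ∫⁻ y in BB, ‖((y * w, w) : ℂ × ℂ).2‖ₑ ^ 2 * ‖f (y * w, w)‖ₑ ^ 2)) := by
        rw [lintegral_const_mul' _ _ ENNReal.coe_ne_top]
    _ ≤ (NNReal.pi * 4 : ℝ≥0∞) * (C * (4 * ∫⁻ z in Om τ s, ‖z.2‖ₑ ^ 2 * ‖f z‖ₑ ^ 2)) := by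
        gcongr
        exact bound_Y0 hs hτ (F := fun z => ‖z.2‖ₑ ^ 2 * ‖f z‖ₑ ^ 2)
          ((by fun_prop : Measurable fun z : ℂ × ℂ => ‖z.2‖ₑ ^ 2).mul
            (hf.continuous.enorm.measurable.pow_const 2))
    _ = _ := by
        push_cast
        ring

/-- the main solvability statement, with uniform estimates -/
def SolvableW (n : ℕ) (C : ℝ≥0) : Prop :=
  ∀ τ s : ℝ, 0 ≤ τ → τ < 1 / 2 → 1 / 2 < s → s ≤ 1 →
    ∀ f : ℂ × ℂ → Form (n + 1), ContDiffOn ℝ ∞ f (Om τ s) → (∀ x ∈ Om τ s, extDeriv f x = 0) →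
    ∃ u : Idx n → ℂ × ℂ → ℝ, (∀ I, ContDiffOn ℝ ∞ (u I) (Om τ s)) ∧
      (∃ c : ℝ, (n ≠ 0 → c = 0) ∧ ∀ x ∈ Om τ s, ∀ J : Idx (n + 1),
        dT u J x = f x (frame ∘ J) - c * thc J x) ∧
      (ContDiff ℝ ∞ f → ∀ I, ∫⁻ x in Om τ s, ‖u I x‖ₑ ^ 2 ≤ C * ∫⁻ x in Om τ s, ‖x.2‖ₑ ^ 2 * ‖f x‖ₑ ^ 2)

lemma solveW_high (n : ℕ) : ∃ C : ℝ≥0, SolvableW (n + 2) C := by
  obtain ⟨C, hC⟩ := K1_intW (n + 2)
  refine ⟨Real.toNNReal vB⁻¹ ^ 2 * C, fun τ s hτ hτ' hs hs1 f hf hcl => ?_⟩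
  refine ⟨fun I x => vB⁻¹ * K1 f I x, fun I => contDiffOn_const.mul (contDiffOn_K1 hτ hs hf I),
    ⟨0, fun _ => rfl, fun x hx J => ?_⟩, fun hf' I => ?_⟩
  · rw [dT_smul _ (fun I => ((contDiffOn_K1 hτ hs hf I).contDiffAt
      ((isOpen_Om τ s).mem_nhds hx)).differentiableAt (by simp)), dT_K1 hτ hs hf hcl hx]
    obtain ⟨k, hk⟩ := exists_lt_two J
    rw [PD_eq_zero f hk]
    have := vB_pos
    field_simp
    ring
  · rw [int_smul_bound _ (inv_nonneg.2 vB_pos.le)]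
    push_cast
    rw [mul_assoc]
    gcongr
    exact hC τ s hτ hs hs1 f hf'.continuous I

lemma solveW_one : ∃ C : ℝ≥0, SolvableW 1 C := by
  obtain ⟨C, hC⟩ := K1_intW 1
  obtain ⟨C', hC'⟩ := U1_intW
  refine ⟨Real.toNNReal vB⁻¹ ^ 2 * (4 * (C + C')), fun τ s hτ hτ' hs hs1 f hf hcl => ?_⟩
  have hmO : MeasurableSet (Om τ s) := (isOpen_Om τ s).measurableSet
  have h1 := fun I => contDiffOn_K1 hτ hs hf I
  have h2 := fun I => contDiffOn_U1 hτ hs hτ' hf I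
  refine ⟨fun I x => vB⁻¹ * (K1 f I x + U1 f I x),
    fun I => contDiffOn_const.mul ((h1 I).add (h2 I)),
    ⟨0, fun _ => rfl, fun x hx J => ?_⟩, fun hf' I => ?_⟩
  · have h1' := fun I => ((h1 I).contDiffAt
      ((isOpen_Om τ s).mem_nhds hx)).differentiableAt (by simp)
    have h2' := fun I => ((h2 I).contDiffAt
      ((isOpen_Om τ s).mem_nhds hx)).differentiableAt (by simp)
    rw [dT_smul (u := fun I x => K1 f I x + U1 f I x) _ (fun I => (h1' I).add (h2' I)),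
      dT_add h1' h2', dT_K1 hτ hs hf hcl hx, dT_U1 hτ hs hτ' hf hx]
    have := vB_pos
    field_simp
    ring
  · rw [int_smul_bound _ (inv_nonneg.2 vB_pos.le)]
    push_cast
    rw [mul_assoc]
    gcongr
    refine (int_add_bound _ ((h1 I).continuousOn.aemeasurable hmO)).trans ?_
    rw [mul_assoc, add_mul]
    gcongr
    · exact hC τ s hτ hs hs1 f hf'.continuous I
    · exact hC' τ s hτ hτ' hs hs1 f hf' I

lemma solveW_zero : ∃ C : ℝ≥0, SolvableW 0 C := by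
  obtain ⟨C1, hC1⟩ := K1_intW 0
  obtain ⟨C2, hC2⟩ := K2_intW 0
  obtain ⟨C3, hC3⟩ := R0_intW
  refine ⟨Real.toNNReal vB⁻¹ ^ 2 * (4 * (C1 + 4 * (C2 + C3))),
    fun τ s hτ hτ' hs hs1 f hf hcl => ?_⟩
  have hmO : MeasurableSet (Om τ s) := (isOpen_Om τ s).measurableSet
  have h1 := fun I => contDiffOn_K1 hτ hs hf I
  have h2 := fun I => contDiffOn_K2 hτ hs hf I
  have h3 := fun I => contDiffOn_K3 hτ hs hf I
  have hab : ContDiffOn ℝ ∞ (ab0 f) (Ann τ s) :=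
    contDiffOn_ab0 (isOpen_Om τ s) (isOpen_Ann τ s) hf
      fun p hp w hw => A2_mem hτ hs hp.2 (zero_mem_Om hτ hs hw)
  have h4 : ContDiffOn ℝ ∞ (fun x : ℂ × ℂ => Rad (ab0 f) x.2) (Om τ s) :=
    (contDiffOn_Rad hτ hτ' hs hab).comp contDiff_snd.contDiffOn fun x hx => hx.1
  -- the constant
  set I₀ : Idx 0 := ⟨⟨fun i => i.elim0, fun i => i.elim0⟩, fun {i} => i.elim0⟩ with hI₀
  have hsub : ∀ I : Idx 0, I = I₀ := fun I => by
    ext i; exact i.elim0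
  obtain ⟨c, hc⟩ : ∃ c : ℝ, ∀ x ∈ Om τ s, K3 f I₀ x = c := by
    refine (isOpen_Om τ s).exists_is_const_of_fderiv_eq_zero (isPreconnected_Om hτ)
      ((h3 I₀).differentiableOn (by simp)) ?_
    intro x hx
    have hz : ∀ j : Fin 4, fderiv ℝ (K3 f I₀) x (frame j) = 0 := by
      intro j
      set J : Idx 1 := OrderEmbedding.ofStrictMono (fun _ : Fin 1 => j) (Subsingleton.strictMono _)
      have := dT_K3 hτ hs hf hcl hx J
      rw [dT_zero, hsub (face J 0)] at this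
      exact this
    have hlin : (fderiv ℝ (K3 f I₀) x).toLinearMap = 0 := by
      apply frameBasis.ext
      intro j
      rw [frameBasis_apply]
      exact hz j
    ext v <;> exact congrArg (fun L : (ℂ × ℂ) →ₗ[ℝ] ℝ => L _) hlin
  refine ⟨fun I x => vB⁻¹ * (K1 f I x + ((-1) * K2 f I x + Rad (ab0 f) x.2)),
    fun I => contDiffOn_const.mul ((h1 I).add ((contDiffOn_const.mul (h2 I)).add h4)),
    ⟨vB⁻¹ * (1 / (2 * Real.pi) * c), fun h => absurd rfl h, fun x hx J => ?_⟩, fun hf' I => ?_⟩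
  · have h1' := fun I => ((h1 I).contDiffAt
      ((isOpen_Om τ s).mem_nhds hx)).differentiableAt (by simp)
    have h2' := fun I => ((h2 I).contDiffAt
      ((isOpen_Om τ s).mem_nhds hx)).differentiableAt (by simp)
    have h4' := (h4.contDiffAt ((isOpen_Om τ s).mem_nhds hx)).differentiableAt (by simp)
    have h2'' : ∀ I, DifferentiableAt ℝ (fun x => (-1) * K2 f I x) x := fun I =>
      (h2' I).const_mul _
    have hR : dT (fun (_ : Idx 0) (x : ℂ × ℂ) => Rad (ab0 f) x.2) J x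
        = PA f J x - 1 / (2 * Real.pi) * K3 f I₀ x * dth (frame (J 0)).2 x.2 := by
      rw [dT_zero]
      exact dT_base0 hτ hτ' hs hf hx J I₀
    rw [dT_smul (u := fun I x => K1 f I x + ((-1) * K2 f I x + Rad (ab0 f) x.2)) _
        (fun I => (h1' I).add ((h2'' I).add h4')),
      dT_add h1' (v := fun I x => (-1) * K2 f I x + Rad (ab0 f) x.2) (fun I => (h2'' I).add h4'),
      dT_add (u := fun I x => (-1) * K2 f I x) (v := fun _ x => Rad (ab0 f) x.2) h2''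
        (fun _ => h4'), dT_smul _ h2', dT_K1 hτ hs hf hcl hx, dT_K2 hτ hs hf hcl hx, hR,
      hc x hx]
    have := vB_pos
    unfold thc
    field_simp
    ring
  · rw [int_smul_bound _ (inv_nonneg.2 vB_pos.le)]
    push_cast
    rw [mul_assoc]
    gcongr
    refine (int_add_bound _ ((h1 I).continuousOn.aemeasurable hmO)).trans ?_
    rw [mul_assoc, add_mul]
    gcongr
    · exact hC1 τ s hτ hs hs1 f hf'.continuous I
    · refine (int_add_bound _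
        ((contDiffOn_const.mul (h2 I)).continuousOn.aemeasurable hmO)).trans ?_
      rw [mul_assoc, add_mul]
      gcongr
      · refine le_trans (le_of_eq ?_) (hC2 τ s hτ hs hs1 f hf'.continuous I)
        refine lintegral_congr fun x => ?_
        rw [neg_one_mul, enorm_neg]
      · exact hC3 τ s hτ hτ' hs hs1 f hf'

theorem solvableW (n : ℕ) : ∃ C : ℝ≥0, SolvableW n C := by
  rcases n with _ | _ | n
  · exact solveW_zero
  · exact solveW_one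
  · exact solveW_high n

end Pool.Agent.H631R3
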